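import Pool.Agent.H27.KAC.PII_Exp

/-!
KAC, affine case: the Tits form, and the exponent `hq` as a sum of values of the Tits form.
-/

set_option autoImplicit false

namespace Pool.H88.KA

open scoped BigOperators
open Pool.Agent.H27.KAC

variable {I E : Type} [Fintype I] [DecidableEq I] [Fintype E]

/-- `δ` is a primitive isotropic vector with connected support `S`. -/
structure Aff (Q : Quiv I E) (δ : I → ℕ) (S : Finset I) : Prop where
  ne : S.Nonempty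
  supp : ∀ i, i ∈ S ↔ δ i ≠ 0
  prim : ∀ k : ℕ, (∀ i, k ∣ δ i) → k = 1
  conn : ∀ U : Finset I, U ⊆ S → U.Nonempty → U ≠ S → ∃ i ∈ U, ∃ j ∈ S, j ∉ U ∧ 0 < adj Q i j
  null : ∀ i ∈ S, ∑ j, (adj Q i j : ℤ) * (δ j : ℤ) = 2 * (δ i : ℤ)

/-- the Tits form. -/
def tits (Q : Quiv I E) (v : I → ℕ) : ℤ :=
  ∑ i, (v i : ℤ) * (v i : ℤ) - ∑ e : E, (v (Q.tgt e) : ℤ) * (v (Q.src e) : ℤ)

theorem two_tits (Q : Quiv I E) (v : I → ℕ) :
    2 * tits Q v = 2 * ∑ i, (v i : ℤ) * (v i : ℤ) -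
      ∑ i, ∑ j, (adj Q i j : ℤ) * ((v i : ℤ) * (v j : ℤ)) := by
  rw [sum_adj Q (fun i j => (v i : ℤ) * (v j : ℤ)) (fun i j => mul_comm _ _)]
  unfold tits
  ring

theorem Aff.pos {Q : Quiv I E} {δ : I → ℕ} {S : Finset I} (h : Aff Q δ S) {i : I} (hi : i ∈ S) :
    (0 : ℚ) < δ i := by
  have := (h.supp i).1 hi
  have h1 : 0 < δ i := Nat.pos_of_ne_zero this
  exact_mod_cast h1

theorem Aff.zero {Q : Quiv I E} {δ : I → ℕ} {S : Finset I} (h : Aff Q δ S) {i : I} (hi : i ∉ S) :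
    δ i = 0 := by
  by_contra hc
  exact hi ((h.supp i).2 hc)

theorem Aff.nullS {Q : Quiv I E} {δ : I → ℕ} {S : Finset I} (h : Aff Q δ S) {i : I} (hi : i ∈ S) :
    ∑ j ∈ S, (adj Q i j : ℚ) * (δ j : ℚ) = 2 * (δ i : ℚ) := by
  have h1 := h.null i hi
  have h2 : ∑ j, (adj Q i j : ℚ) * (δ j : ℚ) = 2 * (δ i : ℚ) := by exact_mod_cast h1
  rw [← h2]
  apply Finset.sum_subset (Finset.subset_univ S)
  intro j _ hj
  rw [h.zero hj]
  simp

theorem Aff.four_tits {Q : Quiv I E} {δ : I → ℕ} {S : Finset I} (h : Aff Q δ S) (v : I → ℕ)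
    (hv : ∀ i, i ∉ S → v i = 0) :
    4 * (tits Q v : ℚ) = ∑ i ∈ S, ∑ j ∈ S, (adj Q i j : ℚ) * ((δ i : ℚ) * (δ j : ℚ) *
      ((v i : ℚ) / δ i - (v j : ℚ) / δ j) ^ 2) := by
  have h2 : (2 : ℚ) * tits Q v = 2 * ∑ i, (v i : ℚ) * (v i : ℚ) -
      ∑ i, ∑ j, (adj Q i j : ℚ) * ((v i : ℚ) * (v j : ℚ)) := by
    exact_mod_cast two_tits Q v
  have hA : ∑ i, (v i : ℚ) * (v i : ℚ) = ∑ i ∈ S, (v i : ℚ) * (v i : ℚ) := by
    symm
    apply Finset.sum_subset (Finset.subset_univ S)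
    intro i _ hi
    rw [hv i hi]
    simp
  have hB : ∑ i, ∑ j, (adj Q i j : ℚ) * ((v i : ℚ) * (v j : ℚ)) =
      ∑ i ∈ S, ∑ j ∈ S, (adj Q i j : ℚ) * ((v i : ℚ) * (v j : ℚ)) := by
    symm
    rw [← Finset.sum_subset (Finset.subset_univ S)]
    · refine Finset.sum_congr rfl fun i _ => ?_
      apply Finset.sum_subset (Finset.subset_univ S)
      intro j _ hj
      rw [hv j hj]
      simp
    · intro i _ hi
      refine Finset.sum_eq_zero fun j _ => ?_
      rw [hv i hi]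
      simp
  rw [hA, hB] at h2
  have hterm : ∀ i ∈ S, ∀ j ∈ S, (adj Q i j : ℚ) * ((δ i : ℚ) * (δ j : ℚ) *
      ((v i : ℚ) / δ i - (v j : ℚ) / δ j) ^ 2) =
      (v i : ℚ) * (v i : ℚ) / δ i * ((adj Q i j : ℚ) * δ j) +
      (v j : ℚ) * (v j : ℚ) / δ j * ((adj Q j i : ℚ) * δ i) -
      2 * ((adj Q i j : ℚ) * ((v i : ℚ) * (v j : ℚ))) := by
    intro i hi j hj
    have h3 := h.pos hi
    have h4 := h.pos hj
    rw [adj_symm Q j i]
    field_simp
    ring
  rw [Finset.sum_congr rfl fun i hi => Finset.sum_congr rfl fun j hj => hterm i hi j hj]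
  simp only [Finset.sum_sub_distrib, Finset.sum_add_distrib, ← Finset.mul_sum]
  have h5 : ∑ i ∈ S, (v i : ℚ) * (v i : ℚ) / δ i * ∑ j ∈ S, (adj Q i j : ℚ) * δ j =
      2 * ∑ i ∈ S, (v i : ℚ) * (v i : ℚ) := by
    rw [Finset.mul_sum]
    refine Finset.sum_congr rfl fun i hi => ?_
    rw [h.nullS hi]
    have h3 := h.pos hi
    field_simp
  have h6 : ∑ i ∈ S, ∑ j ∈ S, (v j : ℚ) * (v j : ℚ) / δ j * ((adj Q j i : ℚ) * δ i) =
      2 * ∑ i ∈ S, (v i : ℚ) * (v i : ℚ) := by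
    rw [Finset.sum_comm, ← h5]
    refine Finset.sum_congr rfl fun i _ => ?_
    rw [Finset.mul_sum]
  rw [h5, h6]
  linarith

theorem Aff.tits_nonneg {Q : Quiv I E} {δ : I → ℕ} {S : Finset I} (h : Aff Q δ S) (v : I → ℕ)
    (hv : ∀ i, i ∉ S → v i = 0) : 0 ≤ tits Q v := by
  have h1 := h.four_tits v hv
  have h2 : (0 : ℚ) ≤ 4 * (tits Q v : ℚ) := by
    rw [h1]
    exact Finset.sum_nonneg fun i _ => Finset.sum_nonneg fun j _ => by positivity
  have h3 : (0 : ℚ) ≤ (tits Q v : ℚ) := by linarith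
  exact_mod_cast h3

theorem Aff.tits_mul {Q : Quiv I E} {δ : I → ℕ} {S : Finset I} (h : Aff Q δ S) (v : I → ℕ)
    (c : ℕ) (hv : ∀ i, v i = c * δ i) : tits Q v = 0 := by
  have h1 := h.four_tits v (fun i hi => by rw [hv i, h.zero hi, mul_zero])
  have h2 : ∀ i ∈ S, ∀ j ∈ S, (adj Q i j : ℚ) * ((δ i : ℚ) * (δ j : ℚ) *
      ((v i : ℚ) / δ i - (v j : ℚ) / δ j) ^ 2) = 0 := by
    intro i hi j hj
    have h3 := h.pos hi
    have h4 := h.pos hj
    have h5 : (v i : ℚ) / δ i - (v j : ℚ) / δ j = 0 := by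
      rw [hv i, hv j]
      push_cast
      field_simp
      ring
    rw [h5]
    ring
  rw [Finset.sum_congr rfl fun i hi => Finset.sum_congr rfl fun j hj => h2 i hi j hj] at h1
  simp only [Finset.sum_const_zero] at h1
  have h3 : (tits Q v : ℚ) = 0 := by linarith
  exact_mod_cast h3

theorem Aff.of_tits {Q : Quiv I E} {δ : I → ℕ} {S : Finset I} (h : Aff Q δ S) (v : I → ℕ)
    (hv : ∀ i, i ∉ S → v i = 0) (h0 : tits Q v = 0) : ∃ c : ℕ, ∀ i, v i = c * δ i := by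
  have h1 := h.four_tits v hv
  rw [h0] at h1
  simp only [Int.cast_zero, mul_zero] at h1
  have hnn : ∀ i ∈ S, ∀ j ∈ S, 0 ≤ (adj Q i j : ℚ) * ((δ i : ℚ) * (δ j : ℚ) *
      ((v i : ℚ) / δ i - (v j : ℚ) / δ j) ^ 2) := fun i _ j _ => by positivity
  have h2 := (Finset.sum_eq_zero_iff_of_nonneg
    (fun i hi => Finset.sum_nonneg (hnn i hi))).1 h1.symm
  have h3 : ∀ i ∈ S, ∀ j ∈ S, 0 < adj Q i j → (v i : ℚ) / δ i = (v j : ℚ) / δ j := by
    intro i hi j hj ha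
    have h4 := (Finset.sum_eq_zero_iff_of_nonneg (hnn i hi)).1 (h2 i hi) j hj
    have ha' : (0 : ℚ) < adj Q i j := by exact_mod_cast ha
    have h5 := h.pos hi
    have h6 := h.pos hj
    have h7 : ((v i : ℚ) / δ i - (v j : ℚ) / δ j) ^ 2 = 0 := by
      rcases mul_eq_zero.1 h4 with h8 | h8
      · exact absurd h8 ha'.ne'
      · rcases mul_eq_zero.1 h8 with h9 | h9
        · exact absurd h9 (mul_pos h5 h6).ne'
        · exact h9
    have h8 := pow_eq_zero_iff (two_ne_zero) |>.1 h7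
    linarith
  obtain ⟨i0, hi0⟩ := h.ne
  obtain ⟨x, hx⟩ : ∃ x : ℚ, x = (v i0 : ℚ) / δ i0 := ⟨_, rfl⟩
  have hall : ∀ i ∈ S, (v i : ℚ) / δ i = x := by
    by_contra hc
    push Not at hc
    obtain ⟨i1, hi1, hne⟩ := hc
    obtain ⟨i, hi, j, hj, hjU, ha⟩ := h.conn (S.filter (fun i => (v i : ℚ) / δ i = x))
      (Finset.filter_subset _ _) ⟨i0, Finset.mem_filter.2 ⟨hi0, hx.symm⟩⟩ (fun he => by
        rw [← he] at hi1
        exact hne (Finset.mem_filter.1 hi1).2)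
    rw [Finset.mem_filter] at hi
    apply hjU
    rw [Finset.mem_filter]
    exact ⟨hj, by rw [← h3 i hi.1 j hj ha]; exact hi.2⟩
  have hvx : ∀ i, (v i : ℚ) = x * δ i := by
    intro i
    by_cases hi : i ∈ S
    · have h5 := h.pos hi
      rw [← hall i hi]
      field_simp
    · rw [hv i hi, h.zero hi]
      simp
  have hx0 : 0 ≤ x := by rw [hx]; positivity
  have hden : x.den = 1 := by
    apply h.prim
    intro i
    have h5 : (v i : ℚ) * x.den = x.num * δ i := by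
      rw [hvx i]
      have h6 := Rat.mul_den_eq_num x
      calc x * δ i * x.den = (x * x.den) * δ i := by ring
        _ = _ := by rw [h6]
    have h6 : (v i : ℤ) * (x.den : ℤ) = x.num * (δ i : ℤ) := by exact_mod_cast h5
    have h7 : (x.den : ℤ) ∣ x.num * (δ i : ℤ) := ⟨v i, by rw [← h6]; ring⟩
    have h8 : IsCoprime (x.den : ℤ) x.num := by
      rw [Int.isCoprime_iff_gcd_eq_one]
      have h9 := x.reduced
      rw [Int.gcd_comm]
      unfold Int.gcd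
      simpa using h9
    have h9 := h8.dvd_of_dvd_mul_left h7
    exact_mod_cast h9
  refine ⟨x.num.toNat, fun i => ?_⟩
  have h5 : (x.num : ℚ) = x := by
    have h6 := Rat.mul_den_eq_num x
    rw [hden] at h6
    rw [← h6]
    simp
  have h6 : ((x.num.toNat : ℕ) : ℤ) = x.num := Int.toNat_of_nonneg (Rat.num_nonneg.2 hx0)
  have h7 : (v i : ℚ) = ((x.num.toNat : ℕ) : ℚ) * δ i := by
    rw [hvx i]
    have h8 : ((x.num.toNat : ℕ) : ℚ) = (x.num : ℚ) := by exact_mod_cast h6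
    rw [h8, h5]
  exact_mod_cast h7

/-! ### the exponent `hq` -/

theorem mlam_eq (B : ℕ) : ∀ (μ ν : ℕ →₀ ℕ), lam μ B = 0 →
    mlam μ ν = ∑ t ∈ Finset.range B, lam μ t * lam ν t := by
  induction B with
  | zero =>
    intro μ ν h
    have h0 : μ = 0 := by
      by_contra hc
      have := lam_zero_pos hc
      omega
    rw [h0, exp_mlam_zero_left]
    simp
  | succ B ih =>
    intro μ ν h
    rw [mlam_rec, Finset.sum_range_succ', ih (shf μ) (shf ν) (by rw [lam_shf]; exact h)]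
    simp only [lam_shf]
    ring

/-- the vectors `v_t`: number of parts of size larger than `t`. -/
noncomputable def vv (m : Prt I →₀ ℕ) (t : ℕ) (i : I) : ℕ := lam (mcol m i) t

omit [Fintype I] [DecidableEq I] in
theorem vv_succ (m : Prt I →₀ ℕ) (t : ℕ) (i : I) : vv m t i = m (i, t) + vv m (t + 1) i := by
  unfold vv
  rw [lam_succ, exp_mcol_apply]

theorem vv_bound (m : Prt I →₀ ℕ) : ∃ B : ℕ, (∀ t i, B ≤ t → vv m t i = 0) ∧
    ∀ t i, B ≤ t → m (i, t) = 0 := by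
  have h1 : ∀ i : I, ∃ B : ℕ, ∀ l, B ≤ l → mcol m i l = 0 := by
    intro i
    obtain ⟨M, hM⟩ := Finset.exists_nat_subset_range (mcol m i).support
    refine ⟨M, fun l hl => ?_⟩
    by_contra h
    have := Finset.mem_range.1 (hM (Finsupp.mem_support_iff.2 h))
    omega
  choose B hB using h1
  obtain ⟨M, hM⟩ : ∃ M, ∀ i, B i ≤ M :=
    ⟨∑ i, B i, fun i => Finset.single_le_sum (f := B) (fun _ _ => Nat.zero_le _)
      (Finset.mem_univ i)⟩
  refine ⟨M, fun t i ht => ?_, fun t i ht => ?_⟩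
  · unfold vv lam
    apply Finset.sum_eq_zero
    intro l hl
    rw [Finset.mem_filter] at hl
    have := hM i
    exact hB i l (by omega)
  · have := hM i
    rw [← exp_mcol_apply]
    exact hB i t (by omega)

theorem hq_eq (Q : Quiv I E) (m : Prt I →₀ ℕ) (B : ℕ) (hB : ∀ i, vv m B i = 0) :
    hq (adj Q) m = ∑ t ∈ Finset.range B, tits Q (vv m t) := by
  have h1 := neg_hq Q m
  have h2 : ((∑ e : E, mlam (mcol m (Q.tgt e)) (mcol m (Q.src e)) : ℕ) : ℤ) =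
      ∑ t ∈ Finset.range B, ∑ e : E, (vv m t (Q.tgt e) : ℤ) * (vv m t (Q.src e) : ℤ) := by
    rw [Finset.sum_comm]
    push_cast
    refine Finset.sum_congr rfl fun e _ => ?_
    rw [mlam_eq B _ _ (hB _)]
    push_cast
    rfl
  have h3 : ((∑ i, mlam (mcol m i) (mcol m i) : ℕ) : ℤ) =
      ∑ t ∈ Finset.range B, ∑ i, (vv m t i : ℤ) * (vv m t i : ℤ) := by
    rw [Finset.sum_comm]
    push_cast
    refine Finset.sum_congr rfl fun i _ => ?_
    rw [mlam_eq B _ _ (hB _)]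
    push_cast
    rfl
  rw [h2, h3] at h1
  unfold tits
  rw [Finset.sum_sub_distrib]
  linarith

theorem mwt_eq (m : Prt I →₀ ℕ) (B : ℕ) (i : I) (hB : vv m B i = 0) :
    mwt m i = ∑ t ∈ Finset.range B, vv m t i := by
  rw [← psize_mcol]
  exact (sum_lam _ hB).symm

end Pool.H88.KA
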