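import Pool.Agent.H88.KA.AF1
import Pool.Agent.H88.KA.AF2

/-!
KAC, affine case: the first two coefficients of the sum of Hua.
-/

set_option autoImplicit false

namespace Pool.H88.KA

open scoped BigOperators
open Pool.Agent.H27.KAC

theorem qpoch_As (x : ℕ) : AsE (fun l => (qpoch (l : ℚ) x)⁻¹) 1 (if x = 0 then 0 else 1) := by
  have h1 : AsE (fun l : ℕ => ∏ j ∈ Finset.range x, (1 - ((l : ℚ)⁻¹) ^ (j + 1))⁻¹) 1
      (∑ j ∈ Finset.range x, if j = 0 then 1 else 0) :=
    AsE.prod_one (Finset.range x) (f := fun j l => (1 - ((l : ℚ)⁻¹) ^ (j + 1))⁻¹)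
      (fun j _ => AsE.geo j)
  refine (h1.congr fun l _ => ?_).val rfl ?_
  · unfold qpoch
    rw [Finset.prod_inv_distrib]
  · rcases x with _ | x
    · simp
    · rw [Finset.sum_range_succ']
      simp

theorem cc_As {I : Type} [DecidableEq I] (A : I → I → ℕ) (m : Prt I →₀ ℕ) (h : 0 ≤ hq A m) :
    AsE (fun l => cc (l : ℚ) A m) (if hq A m = 0 then 1 else 0)
      (if hq A m = 0 then (m.support.card : ℚ) else if hq A m = 1 then 1 else 0) := by
  obtain ⟨n, hn⟩ := Int.eq_ofNat_of_zero_le h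
  have h1 : AsE (fun l : ℕ => ∏ a ∈ m.support, (qpoch (l : ℚ) (m a))⁻¹) 1
      (∑ a ∈ m.support, if m a = 0 then 0 else 1) :=
    AsE.prod_one m.support (f := fun a l => (qpoch (l : ℚ) (m a))⁻¹) (fun a _ => qpoch_As (m a))
  have h2 : (∑ a ∈ m.support, if m a = 0 then (0 : ℚ) else 1) = m.support.card := by
    rw [Finset.sum_congr rfl (g := fun _ => (1 : ℚ)) (fun a ha => by
      rw [if_neg (Finsupp.mem_support_iff.1 ha)])]
    simp
  rw [h2] at h1
  have h3 := (AsE.inv_pow n).mul h1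
  refine (h3.congr fun l _ => ?_).val ?_ ?_
  · unfold cc
    rw [hn, zpow_neg, zpow_natCast, ← _root_.inv_pow]
    rfl
  · rw [hn]
    rcases n with _ | n
    · simp
    · rw [if_neg (by omega), if_neg (by simp; omega)]
      ring
  · rw [hn]
    rcases n with _ | _ | n
    · simp
    · simp
    · rw [if_neg (by omega), if_neg (by omega), if_neg (by simp; omega), if_neg (by simp; omega)]
      ring

variable {I E : Type} [Fintype I] [DecidableEq I] [Fintype E]

/-- the sum of Hua at `q = l`. -/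
noncomputable def PP (Q : Quiv I E) (α : I →₀ ℕ) (l : ℕ) : ℚ :=
  ∑ m ∈ mps α, cc (l : ℚ) (adj Q) m

/-- multipartitions of `α` with `hq = 0`. -/
noncomputable def ZZ (Q : Quiv I E) (α : I →₀ ℕ) : Finset (Prt I →₀ ℕ) :=
  (mps α).filter (fun m => hq (adj Q) m = 0)

noncomputable def PP0 (Q : Quiv I E) (α : I →₀ ℕ) : ℚ := ((ZZ Q α).card : ℚ)

noncomputable def PP1 (Q : Quiv I E) (α : I →₀ ℕ) : ℚ :=
  ∑ m ∈ mps α, (if hq (adj Q) m = 0 then (m.support.card : ℚ) else
    if hq (adj Q) m = 1 then 1 else 0)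

theorem mps_zero_off {α : I →₀ ℕ} {S : Finset I} (hα : ∀ i, i ∉ S → α i = 0)
    {m : Prt I →₀ ℕ} (hm : m ∈ mps α) :
    (∀ t i, i ∉ S → vv m t i = 0) ∧ ∀ t i, i ∉ S → m (i, t) = 0 := by
  obtain ⟨B, hB, _⟩ := vv_bound m
  have h1 : ∀ t i, i ∉ S → vv m t i = 0 := by
    intro t i hi
    rcases lt_or_ge t B with h | h
    · have h2 := mwt_eq m B i (hB B i le_rfl)
      rw [mem_mps.1 hm, hα i hi] at h2
      exact (Finset.sum_eq_zero_iff.1 h2.symm) t (Finset.mem_range.2 h)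
    · exact hB t i h
  refine ⟨h1, fun t i hi => ?_⟩
  have h2 := vv_succ m t i
  rw [h1 t i hi] at h2
  omega

theorem Aff.hq_nonneg {Q : Quiv I E} {δ : I → ℕ} {S : Finset I} (h : Aff Q δ S) {α : I →₀ ℕ}
    (hα : ∀ i, i ∉ S → α i = 0) {m : Prt I →₀ ℕ} (hm : m ∈ mps α) : 0 ≤ hq (adj Q) m := by
  obtain ⟨B, hB, _⟩ := vv_bound m
  rw [hq_eq Q m B (fun i => hB B i le_rfl)]
  exact Finset.sum_nonneg fun t _ => h.tits_nonneg _ ((mps_zero_off hα hm).1 t)

theorem Aff.PP_As {Q : Quiv I E} {δ : I → ℕ} {S : Finset I} (h : Aff Q δ S) {α : I →₀ ℕ}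
    (hα : ∀ i, i ∉ S → α i = 0) : AsE (PP Q α) (PP0 Q α) (PP1 Q α) := by
  have h1 := AsE.sum (mps α) (f := fun m l => cc (l : ℚ) (adj Q) m)
    (a := fun m => if hq (adj Q) m = 0 then 1 else 0)
    (b := fun m => if hq (adj Q) m = 0 then (m.support.card : ℚ) else
      if hq (adj Q) m = 1 then 1 else 0) (fun m hm => cc_As (adj Q) m (h.hq_nonneg hα hm))
  refine h1.val ?_ rfl
  unfold PP0 ZZ
  rw [Finset.card_filter]
  push_cast
  rfl

/-- the vectors `v_t` of a multipartition with `hq = 0` are multiples of `δ`. -/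
theorem Aff.of_hq {Q : Quiv I E} {δ : I → ℕ} {S : Finset I} (h : Aff Q δ S) {α : I →₀ ℕ}
    (hα : ∀ i, i ∉ S → α i = 0) {m : Prt I →₀ ℕ} (hm : m ∈ mps α) (h0 : hq (adj Q) m = 0)
    (t : ℕ) : ∃ c : ℕ, ∀ i, vv m t i = c * δ i := by
  obtain ⟨B, hB, _⟩ := vv_bound m
  rw [hq_eq Q m B (fun i => hB B i le_rfl)] at h0
  rcases lt_or_ge t B with ht | ht
  · apply h.of_tits _ ((mps_zero_off hα hm).1 t)
    exact (Finset.sum_eq_zero_iff_of_nonneg
      (fun t _ => h.tits_nonneg _ ((mps_zero_off hα hm).1 t))).1 h0 t (Finset.mem_range.2 ht)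
  · exact ⟨0, fun i => by rw [hB t i ht, zero_mul]⟩

theorem Aff.of_hq' {Q : Quiv I E} {δ : I → ℕ} {S : Finset I} (h : Aff Q δ S) {α : I →₀ ℕ}
    (hα : ∀ i, i ∉ S → α i = 0) {m : Prt I →₀ ℕ} (hm : m ∈ mps α) (h0 : hq (adj Q) m = 0)
    (t : ℕ) : ∃ c : ℕ, ∀ i, m (i, t) = c * δ i := by
  obtain ⟨c, hc⟩ := h.of_hq hα hm h0 t
  obtain ⟨c', hc'⟩ := h.of_hq hα hm h0 (t + 1)
  refine ⟨c - c', fun i => ?_⟩
  have h1 := vv_succ m t i
  rw [hc i, hc' i] at h1
  rw [Nat.sub_mul]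
  omega

/-- conversely. -/
theorem Aff.hq_of {Q : Quiv I E} {δ : I → ℕ} {S : Finset I} (h : Aff Q δ S)
    {m : Prt I →₀ ℕ} (hm : ∀ t, ∃ c : ℕ, ∀ i, m (i, t) = c * δ i) : hq (adj Q) m = 0 := by
  obtain ⟨B, hB, _⟩ := vv_bound m
  have h1 : ∀ s t : ℕ, t + s = B → ∃ c : ℕ, ∀ i, vv m t i = c * δ i := by
    intro s
    induction s with
    | zero =>
      intro t ht
      exact ⟨0, fun i => by rw [hB t i (by omega), zero_mul]⟩
    | succ s ih =>
      intro t ht
      obtain ⟨c, hc⟩ := ih (t + 1) (by omega)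
      obtain ⟨c', hc'⟩ := hm t
      exact ⟨c' + c, fun i => by rw [vv_succ, hc i, hc' i, add_mul]⟩
  rw [hq_eq Q m B (fun i => hB B i le_rfl)]
  apply Finset.sum_eq_zero
  intro t ht
  rw [Finset.mem_range] at ht
  obtain ⟨c, hc⟩ := h1 (B - t) t (by omega)
  exact h.tits_mul _ c hc

/-- if `α` is not a multiple of `δ`, then no multipartition of `α` has `hq = 0`. -/
theorem Aff.PP0_zero {Q : Quiv I E} {δ : I → ℕ} {S : Finset I} (h : Aff Q δ S) {α : I →₀ ℕ}
    (hα : ∀ i, i ∉ S → α i = 0) (hn : ¬ ∃ c : ℕ, ∀ i, α i = c * δ i) : PP0 Q α = 0 := by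
  unfold PP0
  have h1 : ZZ Q α = ∅ := by
    rw [Finset.eq_empty_iff_forall_notMem]
    intro m hm
    unfold ZZ at hm
    rw [Finset.mem_filter] at hm
    apply hn
    obtain ⟨B, hB, _⟩ := vv_bound m
    choose c hc using fun t => h.of_hq hα hm.1 hm.2 t
    refine ⟨∑ t ∈ Finset.range B, c t, fun i => ?_⟩
    rw [← mem_mps.1 hm.1, mwt_eq m B i (hB B i le_rfl), Finset.sum_mul]
    exact Finset.sum_congr rfl fun t _ => hc t i
  rw [h1]
  simp

/-- the multiples of `δ`. -/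
noncomputable def dl (δ : I → ℕ) (n : ℕ) : I →₀ ℕ :=
  Finsupp.equivFunOnFinite.symm (fun i => n * δ i)

omit [DecidableEq I] in
theorem dl_apply (δ : I → ℕ) (n : ℕ) (i : I) : dl δ n i = n * δ i := rfl

theorem Aff.dl_off {Q : Quiv I E} {δ : I → ℕ} {S : Finset I} (h : Aff Q δ S) (n : ℕ) (i : I)
    (hi : i ∉ S) : dl δ n i = 0 := by
  rw [dl_apply, h.zero hi, mul_zero]

theorem Aff.hq_ne_one {Q : Quiv I E} {δ : I → ℕ} {S : Finset I} (h : Aff Q δ S) {n : ℕ}
    {m : Prt I →₀ ℕ} (hm : m ∈ mps (dl δ n)) : hq (adj Q) m ≠ 1 := by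
  intro h1
  obtain ⟨B, hB, _⟩ := vv_bound m
  have hoff := (mps_zero_off (h.dl_off n) hm).1
  rw [hq_eq Q m B (fun i => hB B i le_rfl)] at h1
  have hnn : ∀ t ∈ Finset.range B, 0 ≤ tits Q (vv m t) := fun t _ => h.tits_nonneg _ (hoff t)
  obtain ⟨t0, ht0, hpos⟩ : ∃ t0 ∈ Finset.range B, 0 < tits Q (vv m t0) := by
    by_contra hc
    push Not at hc
    have h2 := Finset.sum_nonpos hc
    omega
  have hrest : ∑ t ∈ (Finset.range B).erase t0, tits Q (vv m t) = 0 := by
    have h2 := Finset.add_sum_erase (Finset.range B) (fun t => tits Q (vv m t)) ht0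
    have h3 : 0 ≤ ∑ t ∈ (Finset.range B).erase t0, tits Q (vv m t) :=
      Finset.sum_nonneg fun t ht => hnn t (Finset.mem_of_mem_erase ht)
    omega
  have hz := (Finset.sum_eq_zero_iff_of_nonneg
    (fun t ht => hnn t (Finset.mem_of_mem_erase ht))).1 hrest
  have hex : ∀ t, ∃ c : ℕ, t ∈ (Finset.range B).erase t0 → ∀ i, vv m t i = c * δ i := by
    intro t
    by_cases ht : t ∈ (Finset.range B).erase t0
    · obtain ⟨c, hc⟩ := h.of_tits _ (hoff t) (hz t ht)
      exact ⟨c, fun _ => hc⟩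
    · exact ⟨0, fun h => absurd h ht⟩
  choose c hc using hex
  have hsum : ∀ i, vv m t0 i + (∑ t ∈ (Finset.range B).erase t0, c t) * δ i = n * δ i := by
    intro i
    have h2 := mwt_eq m B i (hB B i le_rfl)
    rw [mem_mps.1 hm, dl_apply, ← Finset.add_sum_erase (Finset.range B) _ ht0] at h2
    rw [h2, Finset.sum_mul]
    congr 1
    exact Finset.sum_congr rfl fun t ht => (hc t ht i).symm
  have h0 : tits Q (vv m t0) = 0 := by
    apply h.tits_mul _ (n - ∑ t ∈ (Finset.range B).erase t0, c t)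
    intro i
    have := hsum i
    rw [Nat.sub_mul]
    omega
  omega

/-- `δ_i` parts of size `k + 1` at every vertex. -/
noncomputable def Dk (δ : I → ℕ) (k : ℕ) : Prt I →₀ ℕ :=
  ∑ i, Finsupp.single (i, k) (δ i)

theorem Dk_apply (δ : I → ℕ) (k : ℕ) (i : I) (l : ℕ) :
    Dk δ k (i, l) = if l = k then δ i else 0 := by
  unfold Dk
  rw [Finsupp.finsetSum_apply]
  by_cases h : l = k
  · rw [if_pos h, h, Finset.sum_eq_single i]
    · rw [Finsupp.single_eq_same]
    · intro j _ hj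
      rw [Finsupp.single_apply, if_neg (fun hc => hj (Prod.mk.inj hc).1)]
    · intro hc
      exact absurd (Finset.mem_univ i) hc
  · rw [if_neg h]
    apply Finset.sum_eq_zero
    intro j _
    rw [Finsupp.single_apply, if_neg (fun hc => h (Prod.mk.inj hc).2.symm)]

theorem mwt_finset_sum {ι : Type} (s : Finset ι) (f : ι → Prt I →₀ ℕ) :
    mwt (∑ x ∈ s, f x) = ∑ x ∈ s, mwt (f x) := by
  classical
  induction s using Finset.induction_on with
  | empty =>
    simp [mwt]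
  | insert a s ha ih => rw [Finset.sum_insert ha, Finset.sum_insert ha, exp_mwt_add, ih]

theorem mwt_Dk (δ : I → ℕ) (k : ℕ) : mwt (Dk δ k) = dl δ (k + 1) := by
  unfold Dk
  rw [mwt_finset_sum]
  ext i
  rw [Finsupp.finsetSum_apply, dl_apply, Finset.sum_eq_single i]
  · rw [exp_mwt_single]
    simp [pwt]
    ring
  · intro j _ hj
    rw [exp_mwt_single]
    simp [pwt, hj]
  · intro hc
    exact absurd (Finset.mem_univ i) hc

theorem dl_add (δ : I → ℕ) (a b : ℕ) : dl δ (a + b) = dl δ a + dl δ b := by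
  ext i
  rw [Finsupp.add_apply, dl_apply, dl_apply, dl_apply, add_mul]

theorem Aff.card_bij {Q : Quiv I E} {δ : I → ℕ} {S : Finset I} (h : Aff Q δ S) (n k : ℕ)
    {i : I} (hi : i ∈ S) :
    ((ZZ Q (dl δ (n + (k + 1)))).filter (fun m => m (i, k) ≠ 0)).card =
      (ZZ Q (dl δ n)).card := by
  have hδi : δ i ≠ 0 := (h.supp i).1 hi
  have hle : ∀ m ∈ (ZZ Q (dl δ (n + (k + 1)))).filter (fun m => m (i, k) ≠ 0), Dk δ k ≤ m := by
    intro m hm
    rw [Finset.mem_filter] at hm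
    unfold ZZ at hm
    rw [Finset.mem_filter] at hm
    obtain ⟨c, hc⟩ := h.of_hq' (h.dl_off _) hm.1.1 hm.1.2 k
    have hc1 : 1 ≤ c := by
      rcases Nat.eq_zero_or_pos c with h0 | h0
      · exact absurd (by rw [hc i, h0, zero_mul]) hm.2
      · exact h0
    rintro ⟨j, l⟩
    rw [Dk_apply]
    split_ifs with hl
    · rw [hl, hc j]
      exact Nat.le_mul_of_pos_left _ hc1
    · exact Nat.zero_le _
  apply Finset.card_nbij' (fun m => m - Dk δ k) (fun m => m + Dk δ k)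
  · intro m hm
    have hle' := hle m hm
    rw [Finset.mem_coe, Finset.mem_filter] at hm
    unfold ZZ at hm ⊢
    rw [Finset.mem_filter] at hm
    rw [Finset.mem_coe, Finset.mem_filter]
    have hsub : m - Dk δ k + Dk δ k = m := tsub_add_cancel_of_le hle'
    constructor
    · rw [mem_mps]
      have h1 : mwt (m - Dk δ k) + dl δ (k + 1) = dl δ n + dl δ (k + 1) := by
        rw [← mwt_Dk, ← exp_mwt_add, hsub, mwt_Dk, mem_mps.1 hm.1.1, dl_add]
      exact add_right_cancel h1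
    · apply h.hq_of
      intro t
      obtain ⟨c, hc⟩ := h.of_hq' (h.dl_off _) hm.1.1 hm.1.2 t
      refine ⟨c - (if t = k then 1 else 0), fun j => ?_⟩
      rw [Finsupp.tsub_apply, hc j, Dk_apply, Nat.sub_mul]
      split_ifs <;> simp
  · intro m hm
    unfold ZZ at hm ⊢
    rw [Finset.mem_coe, Finset.mem_filter] at hm
    rw [Finset.mem_coe, Finset.mem_filter, Finset.mem_filter]
    refine ⟨⟨?_, ?_⟩, ?_⟩
    · rw [mem_mps, exp_mwt_add, mem_mps.1 hm.1, mwt_Dk]
      exact (dl_add δ n (k + 1)).symm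
    · apply h.hq_of
      intro t
      obtain ⟨c, hc⟩ := h.of_hq' (h.dl_off _) hm.1 hm.2 t
      refine ⟨c + (if t = k then 1 else 0), fun j => ?_⟩
      rw [Finsupp.add_apply, hc j, Dk_apply, add_mul]
      split_ifs <;> simp
    · rw [Finsupp.add_apply, Dk_apply, if_pos rfl]
      omega
  · intro m hm
    exact tsub_add_cancel_of_le (hle m hm)
  · intro m _
    exact add_tsub_cancel_right m _

theorem Aff.PP1_dl {Q : Quiv I E} {δ : I → ℕ} {S : Finset I} (h : Aff Q δ S) (n : ℕ) :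
    PP1 Q (dl δ n) = S.card * ∑ j ∈ Finset.range n, PP0 Q (dl δ j) := by
  have h1 : PP1 Q (dl δ n) = ∑ m ∈ ZZ Q (dl δ n), (m.support.card : ℚ) := by
    unfold PP1 ZZ
    rw [Finset.sum_filter]
    refine Finset.sum_congr rfl fun m hm => ?_
    split_ifs with h2 h3
    · rfl
    · exact absurd h3 (h.hq_ne_one hm)
    · rfl
  have h2 : ∀ m ∈ ZZ Q (dl δ n), (m.support.card : ℚ) =
      ∑ i ∈ S, ∑ k ∈ Finset.range n, (if m (i, k) ≠ 0 then 1 else 0 : ℚ) := by
    intro m hm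
    unfold ZZ at hm
    rw [Finset.mem_filter] at hm
    have hsub : m.support ⊆ S ×ˢ Finset.range n := by
      rintro ⟨i, k⟩ hik
      rw [Finsupp.mem_support_iff] at hik
      have hi : i ∈ S := by
        by_contra hc
        exact hik ((mps_zero_off (h.dl_off n) hm.1).2 k i hc)
      rw [Finset.mem_product, Finset.mem_range]
      refine ⟨hi, ?_⟩
      obtain ⟨c, hc⟩ := h.of_hq' (h.dl_off _) hm.1 hm.2 k
      have h3 := PII_Def.mul_le m (i, k)
      rw [mem_mps.1 hm.1, dl_apply, hc i] at h3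
      have hδi : 0 < δ i := Nat.pos_of_ne_zero ((h.supp i).1 hi)
      have hc1 : 1 ≤ c := by
        rcases Nat.eq_zero_or_pos c with h0 | h0
        · exact absurd (by rw [hc i, h0, zero_mul]) hik
        · exact h0
      have h4 : (c * (k + 1)) * δ i ≤ n * δ i := by
        calc (c * (k + 1)) * δ i = c * δ i * (k + 1) := by ring
          _ ≤ n * δ i := h3
      have h5 := Nat.le_of_mul_le_mul_right h4 hδi
      have h6 : k + 1 ≤ c * (k + 1) := Nat.le_mul_of_pos_left _ hc1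
      omega
    rw [← Finset.sum_product', Finset.card_eq_sum_ones]
    push_cast
    rw [← Finset.sum_filter]
    have h3 : m.support = (S ×ˢ Finset.range n).filter (fun x => m (x.1, x.2) ≠ 0) := by
      ext x
      rw [Finset.mem_filter]
      constructor
      · intro hx
        exact ⟨hsub hx, Finsupp.mem_support_iff.1 hx⟩
      · rintro ⟨_, hx⟩
        exact Finsupp.mem_support_iff.2 hx
    rw [← h3]
  rw [h1, Finset.sum_congr rfl h2, Finset.sum_comm]
  have h3 : ∀ i ∈ S, ∑ m ∈ ZZ Q (dl δ n), ∑ k ∈ Finset.range n,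
      (if m (i, k) ≠ 0 then 1 else 0 : ℚ) = ∑ j ∈ Finset.range n, PP0 Q (dl δ j) := by
    intro i hi
    rw [Finset.sum_comm, ← Finset.sum_range_reflect (fun j => PP0 Q (dl δ j)) n]
    refine Finset.sum_congr rfl fun k hk => ?_
    rw [Finset.mem_range] at hk
    have h4 : n = (n - 1 - k) + (k + 1) := by omega
    rw [← Finset.sum_filter, Finset.sum_const, nsmul_eq_mul, mul_one]
    unfold PP0
    rw [← h.card_bij (n - 1 - k) k hi, ← h4]
  rw [Finset.sum_congr rfl h3, Finset.sum_const, nsmul_eq_mul]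

theorem PP_zero (Q : Quiv I E) (l : ℕ) : PP Q 0 l = 1 := by
  have h1 : mps (0 : I →₀ ℕ) = {0} := by
    ext m
    rw [mem_mps, Finset.mem_singleton]
    constructor
    · intro hm
      ext ⟨i, k⟩
      have h2 := PII_Def.mul_le m (i, k)
      rw [hm] at h2
      have h3 : m (i, k) * (k + 1) ≤ 0 := h2
      have h4 : m (i, k) * (k + 1) = 0 := by omega
      rcases Nat.mul_eq_zero.1 h4 with h5 | h5
      · exact h5
      · omega
    · rintro rfl
      simp [mwt]
  unfold PP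
  rw [h1, Finset.sum_singleton]
  have h2 : hq (adj Q) (0 : Prt I →₀ ℕ) = 0 := by
    simp [hq, Finsupp.sum]
  unfold cc
  rw [h2]
  simp [Finsupp.prod]

end Pool.H88.KA
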