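import Pool.Agent.H27.KAC.PII_HuaK
import Pool.Agent.H27.KAC.PR_Out
import Pool.Agent.H88.KA.AF3

/-!
KAC, affine case: `kacOne Q (n δ) = |supp δ|` for all `n ≥ 1`.
-/

set_option autoImplicit false

namespace Pool.H88.KA

open scoped BigOperators
open Pool.Agent.H27.KAC
open Polynomial

/-! ### formal power series in one variable -/

/-- `∑ n f_n y^n`. -/
noncomputable def thP (f : ℕ → ℚ) : PowerSeries ℚ := PowerSeries.mk fun n => (n : ℚ) * f n

theorem thP_mul (f g h : ℕ → ℚ) (hfg : PowerSeries.mk h = PowerSeries.mk f * PowerSeries.mk g) :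
    thP h = thP f * PowerSeries.mk g + PowerSeries.mk f * thP g := by
  ext n
  have h1 : h n = ∑ x ∈ Finset.HasAntidiagonal.antidiagonal n, f x.1 * g x.2 := by
    have h2 := congrArg (PowerSeries.coeff n) hfg
    rw [PowerSeries.coeff_mk, PowerSeries.coeff_mul] at h2
    rw [h2]
    exact Finset.sum_congr rfl fun x _ => by rw [PowerSeries.coeff_mk, PowerSeries.coeff_mk]
  unfold thP
  rw [map_add, PowerSeries.coeff_mk, PowerSeries.coeff_mul, PowerSeries.coeff_mul, h1,
    Finset.mul_sum, ← Finset.sum_add_distrib]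
  refine Finset.sum_congr rfl fun x hx => ?_
  rw [Finset.HasAntidiagonal.mem_antidiagonal] at hx
  simp only [PowerSeries.coeff_mk]
  rw [← hx]
  push_cast
  ring

/-- the logarithm. -/
theorem log_coeff (p0 p1 l0 l1 : ℕ → ℚ) (c : ℚ) (h0 : p0 0 = 1)
    (h1 : ∀ n : ℕ, (n : ℚ) * p0 n = ∑ k ∈ Finset.range (n + 1), (k : ℚ) * l0 k * p0 (n - k))
    (h2 : ∀ n : ℕ, (n : ℚ) * p1 n = ∑ k ∈ Finset.range (n + 1),
      (k : ℚ) * (l0 k * p1 (n - k) + l1 k * p0 (n - k)))
    (h3 : ∀ n : ℕ, p1 n = c * ∑ j ∈ Finset.range n, p0 j) (n : ℕ) (hn : 1 ≤ n) : l1 n = c := by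
  obtain ⟨G, hG⟩ : ∃ G : ℕ → ℚ, G = fun n => if n = 0 then 0 else c := ⟨_, rfl⟩
  have e1 : thP p0 = thP l0 * PowerSeries.mk p0 := by
    ext n
    unfold thP
    rw [PowerSeries.coeff_mk, PowerSeries.coeff_mul, h1 n,
      Finset.Nat.sum_antidiagonal_eq_sum_range_succ_mk]
    exact Finset.sum_congr rfl fun k _ => by rw [PowerSeries.coeff_mk, PowerSeries.coeff_mk]
  have e2 : thP p1 = thP l0 * PowerSeries.mk p1 + thP l1 * PowerSeries.mk p0 := by
    ext n
    unfold thP
    rw [map_add, PowerSeries.coeff_mk, PowerSeries.coeff_mul, PowerSeries.coeff_mul, h2 n,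
      Finset.Nat.sum_antidiagonal_eq_sum_range_succ_mk,
      Finset.Nat.sum_antidiagonal_eq_sum_range_succ_mk, ← Finset.sum_add_distrib]
    refine Finset.sum_congr rfl fun k _ => ?_
    simp only [PowerSeries.coeff_mk]
    ring
  have e3 : PowerSeries.mk p1 = PowerSeries.mk p0 * PowerSeries.mk G := by
    ext n
    rw [PowerSeries.coeff_mk, PowerSeries.coeff_mul, h3 n,
      Finset.Nat.sum_antidiagonal_eq_sum_range_succ_mk, Finset.sum_range_succ, Finset.mul_sum]
    simp only [PowerSeries.coeff_mk]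
    rw [hG]
    simp only [Nat.sub_self, if_true, mul_zero, add_zero]
    refine Finset.sum_congr rfl fun k hk => ?_
    rw [Finset.mem_range] at hk
    rw [if_neg (by omega)]
    ring
  have e4 := thP_mul p0 G p1 e3
  have e5 : PowerSeries.mk p0 * thP l1 = PowerSeries.mk p0 * thP G := by
    have h5 : thP l0 * PowerSeries.mk p1 + thP l1 * PowerSeries.mk p0 =
        thP l0 * PowerSeries.mk p0 * PowerSeries.mk G + PowerSeries.mk p0 * thP G := by
      rw [← e2, e4, e1]
    rw [e3] at h5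
    linear_combination h5
  have hne : PowerSeries.mk p0 ≠ 0 := by
    intro hc
    have h5 := congrArg (PowerSeries.coeff 0) hc
    rw [PowerSeries.coeff_mk, h0, map_zero] at h5
    exact one_ne_zero h5
  have e6 := mul_left_cancel₀ hne e5
  have e7 := congrArg (PowerSeries.coeff n) e6
  unfold thP at e7
  rw [PowerSeries.coeff_mk, PowerSeries.coeff_mk, hG] at e7
  simp only [if_neg (show ¬ n = 0 by omega)] at e7
  have hn0 : (n : ℚ) ≠ 0 := by
    have : n ≠ 0 := by omega
    exact_mod_cast this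
  exact mul_left_cancel₀ hn0 e7

theorem AsE.inv_pow_sub (N : ℕ) (hN : 2 ≤ N) : AsE (fun l => ((l : ℚ) ^ N - 1)⁻¹) 0 0 := by
  refine ⟨2, by norm_num, fun l hl => ?_⟩
  have hl2 : (2 : ℚ) ≤ l := by exact_mod_cast hl.two_le
  have hsq : (4 : ℚ) ≤ (l : ℚ) ^ 2 := by nlinarith
  have h1 : (l : ℚ) ^ 2 ≤ (l : ℚ) ^ N := pow_le_pow_right₀ (by linarith) hN
  have h2 : 0 < (l : ℚ) ^ N - 1 := by linarith
  have h3 : (l : ℚ) ^ 2 / 2 ≤ (l : ℚ) ^ N - 1 := by linarith
  rw [zero_div, sub_zero, sub_zero, abs_of_pos (inv_pos.2 h2)]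
  have h4 : 2 / (l : ℚ) ^ 2 = ((l : ℚ) ^ 2 / 2)⁻¹ := by rw [inv_div]
  rw [h4]
  exact inv_anti₀ (by positivity) h3

variable {I E : Type} [Fintype I] [DecidableEq I] [Fintype E]

/-- a vector as an exponent. -/
noncomputable def tof (α : I → ℕ) : I →₀ ℕ := Finsupp.equivFunOnFinite.symm α

omit [DecidableEq I] in
theorem tof_apply (α : I → ℕ) (i : I) : tof α i = α i := rfl

/-- Hua's recursion at the prime `l`. -/
theorem hua_PP (Q : Quiv I E) (α : I → ℕ) (i : I) (l : ℕ) (hl : l.Prime) :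
    (α i : ℚ) * PP Q (tof α) l =
      ∑ β ∈ Fintype.piFinset (fun j => Finset.range (α j + 1)),
        (β i : ℚ) * Lc Q l β * PP Q (tof (fun j => α j - β j)) l := by
  have : Fact (Nat.Prime l) := ⟨hl⟩
  have h1 := hua_log Q (ZMod l) α i
  have hP : ∀ β : I → ℕ, Pc Q (ZMod l) β = PP Q (tof β) l := by
    intro β
    have h2 := Pc_formula Q (ZMod l) (tof β)
    rw [ZMod.card] at h2
    exact h2
  rw [ZMod.card, hP α] at h1
  rw [h1]
  refine Finset.sum_congr rfl fun β _ => ?_
  rw [hP]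

/-- being a multiple of `δ`. -/
def IsM (δ β : I → ℕ) : Prop := ∃ c : ℕ, ∀ i, β i = c * δ i

theorem Lc_zero (Q : Quiv I E) (l : ℕ) : Lc Q l (fun _ => 0) = 0 := by
  unfold Lc
  apply Finset.sum_eq_zero
  intro N hN
  rw [Finset.mem_filter, Finset.mem_range] at hN
  simp only [Finset.sum_const_zero] at hN
  omega

theorem Aff.Lc_As {Q : Quiv I E} {δ : I → ℕ} {S : Finset I} (h : Aff Q δ S) (β : I → ℕ)
    (hβ : ∀ i, i ∉ S → β i = 0) :
    ∃ a b : ℚ, AsE (fun l => Lc Q l β) a b ∧ (¬ IsM δ β → a = 0) := by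
  obtain ⟨n, hn⟩ : ∃ n, ∑ i, β i = n := ⟨_, rfl⟩
  induction n using Nat.strong_induction_on generalizing β with
  | _ n ih =>
  by_cases h0 : ∃ i, β i ≠ 0
  swap
  · push Not at h0
    have h1 : β = fun _ => 0 := funext h0
    refine ⟨0, 0, AsE.zero.congr fun l _ => ?_, fun _ => rfl⟩
    rw [h1, Lc_zero]
  obtain ⟨i, hi⟩ := h0
  obtain ⟨F, hF⟩ : ∃ F, F = (Fintype.piFinset (fun j => Finset.range (β j + 1))).erase β := ⟨_, rfl⟩
  have hmem : β ∈ Fintype.piFinset (fun j => Finset.range (β j + 1)) := by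
    rw [Fintype.mem_piFinset]
    intro j
    rw [Finset.mem_range]
    omega
  have hle : ∀ γ ∈ F, ∀ j, γ j ≤ β j := by
    intro γ hγ j
    rw [hF] at hγ
    have h1 := Fintype.mem_piFinset.1 (Finset.mem_of_mem_erase hγ) j
    rw [Finset.mem_range] at h1
    omega
  have hlt : ∀ γ ∈ F, ∑ j, γ j < n := by
    intro γ hγ
    rw [← hn]
    have hne : γ ≠ β := by
      rw [hF] at hγ
      exact Finset.ne_of_mem_erase hγ
    apply Finset.sum_lt_sum (fun j _ => hle γ hγ j)
    by_contra hc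
    push Not at hc
    exact hne (funext fun j => le_antisymm (hle γ hγ j) (hc j (Finset.mem_univ j)))
  have hoff : ∀ γ ∈ F, ∀ j, j ∉ S → γ j = 0 := by
    intro γ hγ j hj
    have h1 := hle γ hγ j
    rw [hβ j hj] at h1
    omega
  have hex : ∀ γ : I → ℕ, ∃ a b : ℚ, γ ∈ F → (AsE (fun l => Lc Q l γ) a b ∧
      (¬ IsM δ γ → a = 0)) := by
    intro γ
    by_cases hγ : γ ∈ F
    · obtain ⟨a, b, hab⟩ := ih _ (hlt γ hγ) γ (hoff γ hγ) rfl
      exact ⟨a, b, fun _ => hab⟩
    · exact ⟨0, 0, fun hc => absurd hc hγ⟩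
  choose a b hab using hex
  have hsum := AsE.sum F (f := fun γ l => (γ i : ℚ) * Lc Q l γ * PP Q (tof (fun j => β j - γ j)) l)
    (fun γ hγ => (((hab γ hγ).1.const_mul (γ i : ℚ)).mul
      (h.PP_As (α := tof (fun j => β j - γ j)) (fun j hj => by
        rw [tof_apply, hβ j hj, Nat.zero_sub]))))
  have hβP := (h.PP_As (α := tof β) hβ).const_mul (β i : ℚ)
  have hfin := (hβP.sub hsum).const_mul ((β i : ℚ)⁻¹)
  have hi0 : (β i : ℚ) ≠ 0 := by exact_mod_cast hi
  refine ⟨_, _, hfin.congr fun l hl => ?_, fun hM => ?_⟩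
  · have h1 := hua_PP Q β i l hl
    rw [← Finset.add_sum_erase _ _ hmem, ← hF] at h1
    have h2 : tof (fun j => β j - β j) = (0 : I →₀ ℕ) := by
      ext j
      rw [tof_apply, Nat.sub_self, Finsupp.zero_apply]
    rw [h2, PP_zero, mul_one] at h1
    rw [h1, add_sub_cancel_right]
    field_simp
  · have h1 : PP0 Q (tof β) = 0 := h.PP0_zero hβ hM
    have h2 : ∀ γ ∈ F, (γ i : ℚ) * a γ * PP0 Q (tof (fun j => β j - γ j)) = 0 := by
      intro γ hγ
      by_cases hγM : IsM δ γ
      · have h3 : PP0 Q (tof (fun j => β j - γ j)) = 0 := by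
          apply h.PP0_zero
          · intro j hj
            rw [tof_apply, hβ j hj, Nat.zero_sub]
          · rintro ⟨c, hc⟩
            obtain ⟨c', hc'⟩ := hγM
            apply hM
            refine ⟨c + c', fun j => ?_⟩
            have h4 := hc j
            rw [tof_apply] at h4
            have h5 := hle γ hγ j
            rw [add_mul, ← h4, ← hc' j]
            omega
        rw [h3, mul_zero]
      · rw [(hab γ hγ).2 hγM, mul_zero, zero_mul]
    rw [h1, Finset.sum_eq_zero h2]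
    ring

theorem Aff.sum_mult {Q : Quiv I E} {δ : I → ℕ} {S : Finset I} (h : Aff Q δ S) (n : ℕ)
    (f : (I → ℕ) → ℚ) (hf : ∀ β ∈ Fintype.piFinset (fun j => Finset.range (n * δ j + 1)),
      ¬ IsM δ β → f β = 0) :
    ∑ β ∈ Fintype.piFinset (fun j => Finset.range (n * δ j + 1)), f β =
      ∑ k ∈ Finset.range (n + 1), f (fun j => k * δ j) := by
  obtain ⟨i, hi⟩ := h.ne
  have hδi : 0 < δ i := Nat.pos_of_ne_zero ((h.supp i).1 hi)
  have hinj : ∀ x ∈ Finset.range (n + 1), ∀ y ∈ Finset.range (n + 1),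
      (fun j => x * δ j) = (fun j => y * δ j) → x = y := by
    intro x _ y _ hxy
    exact Nat.eq_of_mul_eq_mul_right hδi (congrFun hxy i)
  rw [← Finset.sum_image (f := f) (g := fun k : ℕ => fun j => k * δ j) hinj]
  symm
  apply Finset.sum_subset
  · intro β hβ
    rw [Finset.mem_image] at hβ
    obtain ⟨k, hk, rfl⟩ := hβ
    rw [Finset.mem_range] at hk
    rw [Fintype.mem_piFinset]
    intro j
    rw [Finset.mem_range]
    have : k * δ j ≤ n * δ j := Nat.mul_le_mul_right _ (by omega)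
    omega
  · intro β hβ hβ'
    apply hf β hβ
    rintro ⟨c, hc⟩
    apply hβ'
    rw [Finset.mem_image]
    refine ⟨c, ?_, funext fun j => (hc j).symm⟩
    rw [Finset.mem_range]
    have h1 := Fintype.mem_piFinset.1 hβ i
    rw [Finset.mem_range, hc i] at h1
    have h2 : c * δ i ≤ n * δ i := by omega
    have h3 := Nat.le_of_mul_le_mul_right h2 hδi
    omega

/-- the coefficient of `1 / l` in `L_{n δ}`. -/
theorem Aff.Lc_dl {Q : Quiv I E} {δ : I → ℕ} {S : Finset I} (h : Aff Q δ S) (n : ℕ)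
    (hn : 1 ≤ n) : ∃ a : ℚ, AsE (fun l => Lc Q l (fun i => n * δ i)) a S.card := by
  have hex : ∀ β : I → ℕ, ∃ a b : ℚ, (∀ i, i ∉ S → β i = 0) →
      (AsE (fun l => Lc Q l β) a b ∧ (¬ IsM δ β → a = 0)) := by
    intro β
    by_cases hβ : ∀ i, i ∉ S → β i = 0
    · obtain ⟨a, b, hab⟩ := h.Lc_As β hβ
      exact ⟨a, b, fun _ => hab⟩
    · exact ⟨0, 0, fun hc => absurd hc hβ⟩
  choose a b hab using hex
  obtain ⟨i, hi⟩ := h.ne
  have hδi : (0 : ℚ) < δ i := h.pos hi
  have hoffn : ∀ n : ℕ, ∀ j, j ∉ S → n * δ j = 0 := fun n j hj => by rw [h.zero hj, mul_zero]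
  -- the two recursions
  have key : ∀ n : ℕ, (n : ℚ) * PP0 Q (dl δ n) =
      ∑ k ∈ Finset.range (n + 1), (k : ℚ) * a (fun j => k * δ j) * PP0 Q (dl δ (n - k)) ∧
      (n : ℚ) * PP1 Q (dl δ n) = ∑ k ∈ Finset.range (n + 1), (k : ℚ) *
        (a (fun j => k * δ j) * PP1 Q (dl δ (n - k)) + b (fun j => k * δ j) *
          PP0 Q (dl δ (n - k))) := by
    intro n
    obtain ⟨F, hF⟩ : ∃ F, F = Fintype.piFinset (fun j => Finset.range (n * δ j + 1)) := ⟨_, rfl⟩
    have hle : ∀ γ ∈ F, ∀ j, γ j ≤ n * δ j := by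
      intro γ hγ j
      rw [hF] at hγ
      have h1 := Fintype.mem_piFinset.1 hγ j
      rw [Finset.mem_range] at h1
      omega
    have hoff : ∀ γ ∈ F, ∀ j, j ∉ S → γ j = 0 := by
      intro γ hγ j hj
      have h1 := hle γ hγ j
      rw [hoffn n j hj] at h1
      omega
    have hsum := AsE.sum F
      (f := fun γ l => (γ i : ℚ) * Lc Q l γ * PP Q (tof (fun j => n * δ j - γ j)) l)
      (fun γ hγ => (((hab γ (hoff γ hγ)).1.const_mul (γ i : ℚ)).mul
        (h.PP_As (α := tof (fun j => n * δ j - γ j)) (fun j hj => by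
          rw [tof_apply, hoffn n j hj, Nat.zero_sub]))))
    have hlhs := (h.PP_As (α := dl δ n) (h.dl_off n)).const_mul ((n * δ i : ℕ) : ℚ)
    have hu := AsE.unique hlhs (hsum.congr fun l hl => by
      have h1 := hua_PP Q (fun j => n * δ j) i l hl
      rw [← hF] at h1
      exact h1.symm)
    have hP0 : ∀ γ ∈ F, ¬ IsM δ γ → PP0 Q (tof (fun j => n * δ j - γ j)) = 0 := by
      intro γ hγ hM
      apply h.PP0_zero
      · intro j hj
        rw [tof_apply, hoffn n j hj, Nat.zero_sub]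
      · rintro ⟨c, hc⟩
        apply hM
        refine ⟨n - c, fun j => ?_⟩
        have h1 := hc j
        rw [tof_apply] at h1
        have h2 := hle γ hγ j
        rw [Nat.sub_mul]
        omega
    have hdl : ∀ k : ℕ, tof (fun j => n * δ j - k * δ j) = dl δ (n - k) := by
      intro k
      ext j
      rw [tof_apply, dl_apply, Nat.sub_mul]
    obtain ⟨hu0, hu1⟩ := hu
    constructor
    · rw [hF, h.sum_mult n (fun γ => (γ i : ℚ) * a γ * PP0 Q (tof (fun j => n * δ j - γ j)))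
        (fun γ hγ hM => by
          rw [← hF] at hγ
          rw [(hab γ (hoff γ hγ)).2 hM]
          ring)] at hu0
      have h1 : (δ i : ℚ) * ((n : ℚ) * PP0 Q (dl δ n)) = (δ i : ℚ) *
          ∑ k ∈ Finset.range (n + 1), (k : ℚ) * a (fun j => k * δ j) * PP0 Q (dl δ (n - k)) := by
        calc (δ i : ℚ) * ((n : ℚ) * PP0 Q (dl δ n)) = ((n * δ i : ℕ) : ℚ) * PP0 Q (dl δ n) := by
              push_cast
              ring
          _ = _ := by
              rw [hu0, Finset.mul_sum]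
              refine Finset.sum_congr rfl fun k _ => ?_
              simp only [hdl k]
              push_cast
              ring
      exact mul_left_cancel₀ hδi.ne' h1
    · rw [hF, h.sum_mult n (fun γ => (γ i : ℚ) * a γ * PP1 Q (tof (fun j => n * δ j - γ j)) +
        PP0 Q (tof (fun j => n * δ j - γ j)) * ((γ i : ℚ) * b γ))
        (fun γ hγ hM => by
          rw [← hF] at hγ
          rw [(hab γ (hoff γ hγ)).2 hM, hP0 γ hγ hM]
          ring)] at hu1
      have h1 : (δ i : ℚ) * ((n : ℚ) * PP1 Q (dl δ n)) = (δ i : ℚ) *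
          ∑ k ∈ Finset.range (n + 1), (k : ℚ) *
        (a (fun j => k * δ j) * PP1 Q (dl δ (n - k)) + b (fun j => k * δ j) *
          PP0 Q (dl δ (n - k))) := by
        calc (δ i : ℚ) * ((n : ℚ) * PP1 Q (dl δ n)) = ((n * δ i : ℕ) : ℚ) * PP1 Q (dl δ n) := by
              push_cast
              ring
          _ = _ := by
              rw [hu1, Finset.mul_sum]
              refine Finset.sum_congr rfl fun k _ => ?_
              simp only [hdl k]
              push_cast
              ring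
      exact mul_left_cancel₀ hδi.ne' h1
  have hP00 : PP0 Q (dl δ 0) = 1 := by
    have h1 : dl δ 0 = (0 : I →₀ ℕ) := by
      ext j
      rw [dl_apply, zero_mul, Finsupp.zero_apply]
    have h2 := h.PP_As (α := dl δ 0) (h.dl_off 0)
    rw [h1] at h2 ⊢
    exact (AsE.unique (h2.congr fun l _ => PP_zero Q l) (AsE.const 1)).1
  have hb := log_coeff (fun n => PP0 Q (dl δ n)) (fun n => PP1 Q (dl δ n))
    (fun k => a (fun j => k * δ j)) (fun k => b (fun j => k * δ j)) S.card hP00
    (fun n => (key n).1) (fun n => (key n).2) (fun n => h.PP1_dl n) n hn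
  refine ⟨a (fun j => n * δ j), ?_⟩
  exact ((hab _ (hoffn n)).1).val rfl hb

theorem dvd_iff_prim {δ : I → ℕ} (h : ∀ k : ℕ, (∀ i, k ∣ δ i) → k = 1) {N : ℕ} (hN : 1 ≤ N)
    (k : ℕ) : (∀ i, k ∣ N * δ i) ↔ k ∣ N := by
  constructor
  · intro hk
    rcases Nat.eq_zero_or_pos k with h0 | h0
    · subst h0
      by_contra hc
      have h1 : (2 : ℕ) = 1 := by
        apply h
        intro i
        have h1 := hk i
        rw [zero_dvd_iff] at h1
        rcases Nat.mul_eq_zero.1 h1 with h2 | h2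
        · omega
        · rw [h2]
          exact dvd_zero _
      omega
    · have hgpos : 0 < Nat.gcd k N := Nat.gcd_pos_of_pos_left _ h0
      have h1 : k / Nat.gcd k N = 1 := by
        apply h
        intro i
        have h2 : k / Nat.gcd k N ∣ (N / Nat.gcd k N) * δ i := by
          have h3 : k / Nat.gcd k N ∣ (N * δ i) / Nat.gcd k N :=
            Nat.div_dvd_div (Nat.gcd_dvd_left k N) (hk i)
          rwa [Nat.mul_div_right_comm (Nat.gcd_dvd_right k N)] at h3
        exact (Nat.coprime_div_gcd_div_gcd hgpos).dvd_of_dvd_mul_left h2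
      have h2 : k = Nat.gcd k N := by
        have h3 := Nat.div_mul_cancel (Nat.gcd_dvd_left k N)
        rw [h1, one_mul] at h3
        exact h3.symm
      rw [h2]
      exact Nat.gcd_dvd_right k N
  · intro hk i
    exact hk.mul_right _

theorem Aff.divs {Q : Quiv I E} {δ : I → ℕ} {S : Finset I} (h : Aff Q δ S) {n : ℕ}
    (hn : 1 ≤ n) : (Finset.range (∑ i, n * δ i + 1)).filter
      (fun N => 1 ≤ N ∧ ∀ i, N ∣ n * δ i) = n.divisors := by
  ext k
  rw [Finset.mem_filter, Finset.mem_range, dvd_iff_prim h.prim hn, Nat.mem_divisors]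
  constructor
  · rintro ⟨_, _, h3⟩
    exact ⟨h3, by omega⟩
  · rintro ⟨h1, h2⟩
    have hk : k ≤ n := Nat.le_of_dvd hn h1
    have hk1 : 1 ≤ k := Nat.pos_of_dvd_of_pos h1 hn
    obtain ⟨i, hi⟩ := h.ne
    have h3 : n * δ i ≤ ∑ i, n * δ i :=
      Finset.single_le_sum (f := fun i => n * δ i) (fun _ _ => Nat.zero_le _)
        (Finset.mem_univ i)
    have h4 : n * 1 ≤ n * δ i := Nat.mul_le_mul_left _ (Nat.pos_of_ne_zero ((h.supp i).1 hi))
    exact ⟨by omega, hk1, h1⟩

theorem Aff.poly {Q : Quiv I E} {δ : I → ℕ} {S : Finset I} (h : Aff Q δ S)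
    {p : (I → ℕ) → ℚ[X]} (hp : ∀ α, IsKacPoly Q α (p α)) (n : ℕ) (hn : 1 ≤ n) :
    ∃ a : ℚ, p (fun i => n * δ i) = C a * (X - 1) + C (S.card : ℚ) := by
  induction n using Nat.strong_induction_on with
  | _ n ih =>
  obtain ⟨a0, ha0⟩ := h.Lc_dl n hn
  have hex : ∀ N : ℕ, ∃ a : ℚ, N ∈ n.divisors.erase 1 →
      p (fun i => n / N * δ i) = C a * (X - 1) + C (S.card : ℚ) := by
    intro N
    by_cases hN : N ∈ n.divisors.erase 1
    · have h1 := Finset.ne_of_mem_erase hN
      have h2 := Nat.mem_divisors.1 (Finset.mem_of_mem_erase hN)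
      have h3 : 1 ≤ N := Nat.pos_of_dvd_of_pos h2.1 hn
      have h4 : n / N < n := Nat.div_lt_self hn (by omega)
      have h5 : 1 ≤ n / N := Nat.div_pos (Nat.le_of_dvd hn h2.1) h3
      obtain ⟨a, ha⟩ := ih (n / N) h4 h5
      exact ⟨a, fun _ => ha⟩
    · exact ⟨0, fun hc => absurd hc hN⟩
  choose a ha using hex
  have hLc : ∀ l : ℕ, l.Prime → Lc Q l (fun i => n * δ i) =
      (p (fun i => n * δ i)).eval (l : ℚ) / ((l : ℚ) - 1) +
        ∑ N ∈ n.divisors.erase 1, (a N / N + (S.card : ℚ) / N * ((l : ℚ) ^ N - 1)⁻¹) := by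
    intro l hl
    have h1 := Lc_eq Q hp l hl (dl δ n)
    have h2 : Lc Q l (fun i => n * δ i) = Lc Q l (dl δ n) := rfl
    rw [h2, h1]
    have h3 : (Finset.range (∑ i, dl δ n i + 1)).filter
        (fun N => 1 ≤ N ∧ ∀ i, N ∣ dl δ n i) = n.divisors := h.divs hn
    rw [h3, ← Finset.add_sum_erase n.divisors _ (Nat.one_mem_divisors.2 (by omega))]
    congr 1
    · have h4 : (fun i => dl δ n i / 1) = fun i => n * δ i := by
        funext i
        rw [Nat.div_one, dl_apply]
      rw [h4]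
      simp
    · refine Finset.sum_congr rfl fun N hN => ?_
      have h5 := Nat.mem_divisors.1 (Finset.mem_of_mem_erase hN)
      have h6 : (fun i => dl δ n i / N) = fun i => n / N * δ i := by
        funext i
        rw [dl_apply]
        exact Nat.mul_div_right_comm h5.1 _
      rw [h6, ha N hN]
      have h7 : 1 ≤ N := Nat.pos_of_dvd_of_pos h5.1 hn
      have h8 : (N : ℚ) ≠ 0 := by
        have : N ≠ 0 := by omega
        exact_mod_cast this
      have hl2 : (2 : ℚ) ≤ l := by exact_mod_cast hl.two_le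
      have h9 : (1 : ℚ) < (l : ℚ) ^ N := one_lt_pow₀ (by linarith) (by omega)
      have h10 : (l : ℚ) ^ N - 1 ≠ 0 := by linarith
      simp only [eval_add, eval_mul, eval_C, eval_sub, eval_X, eval_one]
      field_simp
  have hAs : AsE (fun l => (p (fun i => n * δ i)).eval (l : ℚ) / ((l : ℚ) - 1))
      (a0 - ∑ N ∈ n.divisors.erase 1, a N / N) (S.card : ℚ) := by
    have h1 := AsE.sum (n.divisors.erase 1)
      (f := fun N l => a N / N + (S.card : ℚ) / N * ((l : ℚ) ^ N - 1)⁻¹)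
      (a := fun N => a N / N) (b := fun _ => 0) (fun N hN => by
        have h5 := Nat.mem_divisors.1 (Finset.mem_of_mem_erase hN)
        have h6 := Finset.ne_of_mem_erase hN
        have h7 : 1 ≤ N := Nat.pos_of_dvd_of_pos h5.1 hn
        exact ((AsE.const (a N / N)).add
          ((AsE.inv_pow_sub N (by omega)).const_mul ((S.card : ℚ) / N))).val
          (by ring) (by ring))
    refine ((ha0.sub h1).congr fun l hl => ?_).val rfl (by simp)
    rw [hLc l hl]
    ring
  exact ⟨_, poly_of_AsE _ _ _ hAs⟩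

/-- Kac polynomials at one for affine quivers. -/
theorem Aff.kacOne {Q : Quiv I E} {δ : I → ℕ} {S : Finset I} (h : Aff Q δ S) (n : ℕ)
    (hn : 1 ≤ n) : Pool.Agent.H27.KAC.kacOne Q (fun i => n * δ i) = S.card := by
  choose p hp using kacPoly_exists Q
  obtain ⟨a, ha⟩ := h.poly hp n hn
  rw [kacOne_eq Q _ _ (hp _), ha]
  simp

end Pool.H88.KA
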