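import Pool.Agent.H27.KAC.KM4
import Pool.Agent.H88.KA.AF4

/-!
KAC: affine rays, and the reduction of a ray by reflections for all quivers.

* `kac_affine`: `kacOne Q (n α) = |supp α|` for `α` primitive with connected support and `s = 0` on the support.
* `kac_induct'`: as `kac_induct` (KM4), without condition on the quiver; the leaves are the zero sequence, `1, 0, 0, …`,
  constant sequences `c ≥ 1`, and the vectors which are ample (`AmpG`) on their support.
-/

set_option autoImplicit false

namespace Pool.H88.KA

open scoped BigOperators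
open Pool.Agent.H27.KAC

/-- `s_i = -(Cα)_i` is `≥ 0` at loop-free vertices, `> 0` at vertices with loops, not all `s_i` are zero, and `α` has full
support. -/
structure AmpG {I : Type} [Fintype I] [DecidableEq I] (a : I → I → ℕ) (α : I →₀ ℕ) : Prop where
  supp : ∀ i, 1 ≤ α i
  pos : ∀ i, a i i = 0 → 0 ≤ -cw a α i
  posl : ∀ i, a i i ≠ 0 → 0 < -cw a α i
  ex : ∃ i, 0 < -cw a α i

section

variable {I E : Type} [Fintype I] [DecidableEq I] [Fintype E]

theorem sw_eq (a : I → I → ℕ) (α : I → ℕ) (i : I) :
    sw a α i = ∑ j, (a i j : ℤ) * (α j : ℤ) - 2 * (α i : ℤ) := by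
  unfold sw cart
  simp only [sub_mul, Finset.sum_sub_distrib, ite_mul, zero_mul, Finset.sum_ite_eq,
    Finset.mem_univ, if_true]
  ring

theorem aff_of (Q : Quiv I E) (α : I → ℕ) (S : Finset I) (hS : ∀ i, i ∈ S ↔ α i ≠ 0)
    (hα : Prim α) (hc : Conn (resM (adj Q) S)) (hs : ∀ i ∈ S, sw (adj Q) α i = 0) :
    Aff Q α S := by
  obtain ⟨i0, hi0⟩ := hα.exists_ne
  refine ⟨⟨i0, (hS i0).2 hi0⟩, hS, hα, ?_, ?_⟩
  · intro U hU hne hU'
    obtain ⟨u, hu⟩ := hne
    obtain ⟨i, hi, j, hj, hij⟩ := hc (Finset.univ.filter (fun x : {i // i ∈ S} => (x : I) ∈ U))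
      ⟨⟨u, hU hu⟩, by simpa using hu⟩ (fun hcon => by
        apply hU'
        apply Finset.Subset.antisymm hU
        intro x hx
        have h1 : (⟨x, hx⟩ : {i // i ∈ S}) ∈
            Finset.univ.filter (fun x : {i // i ∈ S} => (x : I) ∈ U) := by
          rw [hcon]
          exact Finset.mem_univ _
        simpa using h1)
    refine ⟨i, by simpa using hi, j, j.2, ?_, hij⟩
    intro hcon
    exact hj (by simpa using hcon)
  · intro i hi
    have h1 := hs i hi
    rw [sw_eq] at h1
    linarith

theorem kac_affine (Q : Quiv I E) (α : I → ℕ) (S : Finset I) (hS : ∀ i, i ∈ S ↔ α i ≠ 0)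
    (hα : Prim α) (hc : Conn (resM (adj Q) S)) (hs : ∀ i ∈ S, sw (adj Q) α i = 0)
    (n : ℕ) (hn : 1 ≤ n) : kacOne Q (fun i => n * α i) = S.card :=
  (aff_of Q α S hS hα hc hs).kacOne n hn

theorem kac_induct' (Q : Quiv I E) (P : (ℕ → ℚ) → Prop)
    (hz : ∀ A : ℕ → ℚ, (∀ N, 1 ≤ N → A N = 0) → P A)
    (hs : ∀ A : ℕ → ℚ, A 1 = 1 → (∀ N, 2 ≤ N → A N = 0) → P A)
    (hk : ∀ (c : ℕ) (A : ℕ → ℚ), 1 ≤ c → (∀ N, 1 ≤ N → A N = c) → P A)
    (hc : ∀ A B : ℕ → ℚ, (∀ N, 1 ≤ N → A N = B N) → P A → P B)
    (ha : ∀ (α : I → ℕ) (S : Finset I), (∀ i, i ∈ S ↔ α i ≠ 0) → Prim α →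
      Conn (resM (adj Q) S) → Nonempty {i // i ∈ S} → AmpG (resM (adj Q) S) (rV α S) →
      P (fun N => kacOne Q (fun i => N * α i)))
    (α : I → ℕ) (hα : Prim α) : P (fun N => kacOne Q (fun i => N * α i)) := by
  obtain ⟨h, hh⟩ : ∃ h, ∑ i, α i = h := ⟨_, rfl⟩
  induction h using Nat.strong_induction_on generalizing α with
  | _ h ih =>
  obtain ⟨S, hS⟩ : ∃ S : Finset I, ∀ i, i ∈ S ↔ α i ≠ 0 :=
    ⟨Finset.univ.filter (fun i => α i ≠ 0), fun i => by simp⟩
  obtain ⟨i0, hi0⟩ := hα.exists_ne
  have hne : Nonempty {i // i ∈ S} := ⟨⟨i0, (hS i0).2 hi0⟩⟩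
  by_cases hconn : Conn (resM (adj Q) S)
  swap
  · -- disconnected support
    apply hz
    intro N hN
    unfold Conn at hconn
    push Not at hconn
    obtain ⟨U, hU1, hU2, hU3⟩ := hconn
    apply kac_disconnected Q (fun i => N * α i) (fun i => ∃ h : i ∈ S, (⟨i, h⟩ : {i // i ∈ S}) ∈ U)
    · obtain ⟨u, hu⟩ := hU1
      refine ⟨u, ⟨u.2, hu⟩, ?_⟩
      exact Nat.mul_ne_zero (by omega) ((hS u).1 u.2)
    · obtain ⟨v, hv⟩ : ∃ v, v ∉ U := by
        by_contra hcon
        push Not at hcon
        exact hU2 (Finset.eq_univ_of_forall hcon)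
      refine ⟨v, ?_, ?_⟩
      · rintro ⟨h1, h2⟩
        exact hv h2
      · exact Nat.mul_ne_zero (by omega) ((hS v).1 v.2)
    · rintro i j ⟨hi, hi'⟩ hj hai haj
      have hj1 : j ∈ S := by
        rw [hS]
        intro h0
        exact haj (by rw [h0, mul_zero])
      have hj2 : (⟨j, hj1⟩ : {i // i ∈ S}) ∉ U := fun hcon => hj ⟨hj1, hcon⟩
      have := hU3 ⟨i, hi⟩ hi' ⟨j, hj1⟩ hj2
      exact Nat.le_zero.1 this
  by_cases hneg : ∃ i : I, adj Q i i = 0 ∧ α i ≠ 0 ∧ sw (adj Q) α i < 0
  · obtain ⟨i, hi, hαi, hsi⟩ := hneg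
    by_cases hj : ∃ j, j ≠ i ∧ α j ≠ 0
    · obtain ⟨j, hji, hαj⟩ := hj
      by_cases hr : (α i : ℤ) + sw (adj Q) α i < 0
      · apply hz
        intro N hN
        apply kac_reflect_neg Q i hi
        · exact ⟨j, hji, Nat.mul_ne_zero (by omega) hαj⟩
        · rw [sw_smul]
          have hN' : (0 : ℤ) < N := by exact_mod_cast hN
          push_cast
          nlinarith
      · push Not at hr
        obtain ⟨c, hc'⟩ := Int.eq_ofNat_of_zero_le hr
        let α' : I → ℕ := Function.update α i c
        have hα'i : α' i = c := Function.update_self _ _ _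
        have hα'j : ∀ j, j ≠ i → α' j = α j := fun j hj => Function.update_of_ne hj _ _
        have hsum : ∑ i, α' i < h := by
          rw [← hh]
          apply Finset.sum_lt_sum
          · intro l _
            by_cases hl' : l = i
            · subst hl'
              rw [hα'i]
              omega
            · rw [hα'j l hl']
          · exact ⟨i, Finset.mem_univ i, by rw [hα'i]; omega⟩
        have hprim : Prim α' := by
          intro k hk'
          apply hα
          have h1 : ∀ j, j ≠ i → k ∣ α j := fun j hj => by rw [← hα'j j hj]; exact hk' j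
          intro l
          by_cases hl' : l = i
          · subst hl'
            have h2 : (α l : ℤ) = -(c : ℤ) + ∑ j ∈ Finset.univ.erase l,
                (adj Q l j : ℤ) * (α j : ℤ) := by
              have h3 : sw (adj Q) α l = -(2 * (α l : ℤ)) + ∑ j ∈ Finset.univ.erase l,
                  (adj Q l j : ℤ) * (α j : ℤ) := by
                unfold sw
                rw [← Finset.add_sum_erase _ _ (Finset.mem_univ l), neg_add, ← Finset.sum_neg_distrib]
                congr 1
                · unfold cart
                  rw [if_pos rfl, hi]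
                  simp
                · apply Finset.sum_congr rfl
                  intro j hj
                  unfold cart
                  rw [if_neg (Ne.symm (Finset.ne_of_mem_erase hj))]
                  ring
              have h4 : (α l : ℤ) + sw (adj Q) α l = (c : ℤ) := hc'
              linarith
            have h3 : (k : ℤ) ∣ (α l : ℤ) := by
              rw [h2]
              apply dvd_add
              · rw [dvd_neg]
                have := hk' l
                rw [hα'i] at this
                exact_mod_cast this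
              · apply Finset.dvd_sum
                intro j hj
                apply Dvd.dvd.mul_left
                have := h1 j (Finset.ne_of_mem_erase hj)
                exact_mod_cast this
            exact_mod_cast h3
          · exact h1 l hl'
        apply hc _ _ _ (ih _ hsum α' hprim rfl)
        intro N hN
        apply kac_reflect Q i hi (fun i => N * α i) (fun i => N * α' i)
        · exact ⟨j, hji, Nat.mul_ne_zero (by omega) hαj⟩
        · intro j hj
          show N * α' j = N * α j
          rw [hα'j j hj]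
        · show ((N * α' i : ℕ) : ℤ) = ((N * α i : ℕ) : ℤ) + _
          rw [sw_smul, hα'i]
          have h4 : (α i : ℤ) + sw (adj Q) α i = (c : ℤ) := hc'
          push_cast
          rw [← h4]
          ring
    · -- simple root
      push Not at hj
      have hα1 : α i = 1 := by
        apply hα
        intro l
        by_cases hl' : l = i
        · rw [hl']
        · rw [hj l hl']
          exact dvd_zero _
      have hα2 : ∀ N : ℕ, (fun l => N * α l) = Pi.single i N := by
        intro N
        funext l
        by_cases hl' : l = i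
        · rw [hl', hα1, Pi.single_eq_same, mul_one]
        · rw [hj l hl', Pi.single_eq_of_ne hl', mul_zero]
      apply hs
      · show kacOne Q (fun l => 1 * α l) = 1
        rw [hα2 1]
        exact kac_simple_one Q i hi
      · intro N hN
        show kacOne Q (fun l => N * α l) = 0
        rw [hα2 N]
        exact kac_simple_ge_two Q i hi N hN
  -- no reflection decreases the height
  push Not at hneg
  have hS' : ∀ i, α i ≠ 0 → i ∈ S := fun i hi => (hS i).2 hi
  by_cases hall : ∀ i ∈ S, sw (adj Q) α i = 0
  · apply hk S.card _ (Finset.card_pos.2 ⟨i0, (hS i0).2 hi0⟩)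
    intro N hN
    exact kac_affine Q α S hS hα hconn hall N hN
  · push Not at hall
    obtain ⟨x, hx, hxs⟩ := hall
    -- the support is not one vertex with one loop
    have hloop : ∀ i ∈ S, adj Q i i ≠ 0 → 0 < sw (adj Q) α i := by
      intro i hi hai
      have hai2 : 2 ≤ adj Q i i := by
        obtain ⟨r, hr⟩ := adj_even Q i
        omega
      by_contra hcon
      have hsw := sw_eq (adj Q) α i
      rw [← Finset.add_sum_erase _ _ (Finset.mem_univ i)] at hsw
      have h3 : ∀ j ∈ Finset.univ.erase i, (0:ℤ) ≤ (adj Q i j : ℤ) * (α j : ℤ) :=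
        fun j _ => by positivity
      have h3' := Finset.sum_nonneg h3
      have hαi : (1:ℤ) ≤ α i := by
        have := Nat.pos_of_ne_zero ((hS i).1 hi)
        exact_mod_cast this
      have hai2' : (2:ℤ) ≤ adj Q i i := by exact_mod_cast hai2
      have h4 : (adj Q i i : ℤ) = 2 := by nlinarith
      have h5 : ∑ j ∈ Finset.univ.erase i, (adj Q i j : ℤ) * (α j : ℤ) = 0 := by
        rw [h4] at hsw
        linarith
      have h6 := (Finset.sum_eq_zero_iff_of_nonneg h3).1 h5
      -- hence S = {i}
      have h7 : ∀ j ∈ S, j = i := by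
        by_contra hc'
        push Not at hc'
        obtain ⟨j0, hj0, hj0i⟩ := hc'
        obtain ⟨u, hu, w, hw, huw⟩ := hconn {⟨i, hi⟩} (Finset.singleton_nonempty _)
          (fun hcon' => by
            have h8 : (⟨j0, hj0⟩ : {i // i ∈ S}) ∈ ({⟨i, hi⟩} : Finset {i // i ∈ S}) := by
              rw [hcon']
              exact Finset.mem_univ _
            rw [Finset.mem_singleton] at h8
            exact hj0i (congrArg Subtype.val h8))
        rw [Finset.mem_singleton] at hu hw
        have hwi : (w : I) ≠ i := fun h => hw (Subtype.ext h)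
        have h9 := h6 w (Finset.mem_erase.2 ⟨hwi, Finset.mem_univ _⟩)
        rw [hu] at huw
        have h10 : 0 < adj Q i w := huw
        have h11 : 0 < α w := Nat.pos_of_ne_zero ((hS w).1 w.2)
        rcases mul_eq_zero.1 h9 with h12 | h12
        · have : adj Q i w = 0 := by exact_mod_cast h12
          omega
        · have : α w = 0 := by exact_mod_cast h12
          omega
      apply hxs
      rw [h7 x hx]
      rw [hsw, h4, h5]
      ring
    have hpos : ∀ i ∈ S, 0 ≤ sw (adj Q) α i := by
      intro i hi
      by_cases hai : adj Q i i = 0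
      · exact hneg i hai ((hS i).1 hi)
      · exact (hloop i hi hai).le
    apply ha α S hS hα hconn hne
    refine ⟨fun i => ?_, fun i _ => ?_, fun i hi => ?_, ⟨⟨x, hx⟩, ?_⟩⟩
    · rw [rV_apply]
      exact Nat.pos_of_ne_zero ((hS i).1 i.2)
    · rw [cw_rV _ _ _ hS', neg_neg]
      exact hpos i i.2
    · rw [cw_rV _ _ _ hS', neg_neg]
      exact hloop i i.2 hi
    · rw [cw_rV _ _ _ hS', neg_neg]
      exact lt_of_le_of_ne (hpos x hx) (Ne.symm hxs)

end

end Pool.H88.KA
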