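import Pool.Agent.H88.KA.CL4
import Pool.Agent.H41.KA.AE1
import Pool.Agent.H41.KA.AG0

/-!
KAC ADE: types of finite type sets of vertices, Coxeter numbers.
-/

set_option autoImplicit false

namespace Pool.H88.KA

open scoped BigOperators
open Pool.Agent.H27.KAC (cart FinT ConnS comps cqN IsZ IsN CrossData cn upw detEff)

/-- the restricted graph. -/
abbrev ra {I : Type} (a : I → I → ℕ) (A : Finset I) : {x // x ∈ A} → {x // x ∈ A} → ℕ :=
  fun x y => a x.1 y.1

/-- `φ` identifies the standard graph with `A`. -/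
structure Typ {I : Type} (a : I → I → ℕ) (A : Finset I) (n c : ℕ) (φ : Fin n → I) : Prop where
  inj : Function.Injective φ
  mem : ∀ i, φ i ∈ A
  surj : ∀ x ∈ A, ∃ i, φ i = x
  adj : ∀ i j, a (φ i) (φ j) = TT n c i j

section

variable {I : Type} [Fintype I] [DecidableEq I]

theorem cqN_eq (a : I → I → ℕ) (A : Finset I) (v : I → ℚ) (x : I) (hx : x ∈ A) :
    cqN a A v x = 2 * v x - ∑ y ∈ A, (a x y : ℚ) * v y := by
  unfold cqN
  have h1 : ∀ y ∈ A, (cart a x y : ℚ) * v y = (if x = y then 2 * v y else 0) - (a x y : ℚ) * v y := by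
    intro y _
    unfold cart
    split_ifs
    · push_cast
      ring
    · push_cast
      ring
  rw [Finset.sum_congr rfl h1, Finset.sum_sub_distrib, Finset.sum_ite_eq]
  rw [if_pos hx]

theorem FinT.toPD {a : I → I → ℕ} {A : Finset I} (hA : FinT a A) : PD (ra a A) := by
  intro v hv
  obtain ⟨w, hw⟩ : ∃ w : I → ℚ, ∀ x, w x = if h : x ∈ A then (v ⟨x, h⟩ : ℚ) else 0 := ⟨_, fun _ => rfl⟩
  have hwv : ∀ x : {x // x ∈ A}, w x.1 = (v x : ℚ) := fun x => by rw [hw, dif_pos x.2]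
  have hex : ∃ i ∈ A, w i ≠ 0 := by
    by_contra hc
    push Not at hc
    apply hv
    funext x
    have h1 := hc x.1 x.2
    rw [hwv] at h1
    exact_mod_cast h1
  have h1 := hA.pos w hex
  have h2 : ∀ x : {x // x ∈ A}, cqN a A w x.1 = ((cZ (ra a A) v x : ℤ) : ℚ) := by
    intro x
    rw [cqN_eq a A w x.1 x.2]
    unfold cZ
    push_cast
    rw [hwv, ← Finset.sum_attach]
    congr 1
    exact Finset.sum_congr rfl fun y _ => by rw [hwv]
  rw [← Finset.sum_attach] at h1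
  have h3 : ((∑ x, v x * cZ (ra a A) v x : ℤ) : ℚ) = ∑ x ∈ A.attach, w x.1 * cqN a A w x.1 := by
    push_cast
    exact Finset.sum_congr rfl fun x _ => by rw [hwv, h2]
  rw [← h3] at h1
  exact_mod_cast h1

theorem ConnS.toCNN {a : I → I → ℕ} {A : Finset I} (hc : ConnS a A) : CNN (ra a A) := by
  intro S hS hne
  obtain ⟨i, hi, j, hj, hjS, hij⟩ := hc.2 (S.map ⟨Subtype.val, Subtype.val_injective⟩)
    (fun x hx => by
      rw [Finset.mem_map] at hx
      obtain ⟨y, _, rfl⟩ := hx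
      exact y.2)
    (hS.map) (fun h => by
      apply hne
      ext x
      refine ⟨fun _ => Finset.mem_univ _, fun _ => ?_⟩
      have hx : x.1 ∈ S.map ⟨Subtype.val, Subtype.val_injective⟩ := by
        rw [h]
        exact x.2
      rw [Finset.mem_map] at hx
      obtain ⟨y, hy, hyx⟩ := hx
      have : y = x := Subtype.ext hyx
      rw [← this]
      exact hy)
  rw [Finset.mem_map] at hi
  obtain ⟨x, hx, rfl⟩ := hi
  refine ⟨x, hx, ⟨j, hj⟩, fun h => hjS ?_, hij⟩
  rw [Finset.mem_map]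
  exact ⟨⟨j, hj⟩, h, rfl⟩

theorem typ_exists {a : I → I → ℕ} (hs : ∀ i j, a i j = a j i) {A : Finset I} (hA : FinT a A)
    (hc : ConnS a A) : ∃ (n c : ℕ) (φ : Fin n → I), Typ a A n c φ ∧ Std n c := by
  have : Nonempty {x // x ∈ A} := by
    obtain ⟨x, hx⟩ := hc.1
    exact ⟨⟨x, hx⟩⟩
  obtain ⟨n, c, φ, hφ, hS, hadj⟩ := classify (ra a A) (fun x y => hs _ _)
    (fun x => hA.loopfree x.1 x.2) (FinT.toPD hA) (ConnS.toCNN hc)
  refine ⟨n, c, fun i => (φ i).1, ⟨?_, fun i => (φ i).2, ?_, hadj⟩, hS⟩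
  · intro i j hij
    exact hφ.1 (Subtype.ext hij)
  · intro x hx
    obtain ⟨i, hi⟩ := hφ.2 ⟨x, hx⟩
    exact ⟨i, by rw [hi]⟩

omit [Fintype I] in
theorem Typ.card {a : I → I → ℕ} {A : Finset I} {n c : ℕ} {φ : Fin n → I} (h : Typ a A n c φ) :
    A.card = n := by
  have h1 : A = Finset.univ.image φ := by
    ext x
    rw [Finset.mem_image]
    constructor
    · intro hx
      obtain ⟨i, hi⟩ := h.surj x hx
      exact ⟨i, Finset.mem_univ _, hi⟩
    · rintro ⟨i, _, rfl⟩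
      exact h.mem i
  rw [h1, Finset.card_image_of_injective _ h.inj, Finset.card_univ, Fintype.card_fin]

omit [Fintype I] in
/-- transport of `KE` to the standard graph. -/
theorem Typ.KE {a : I → I → ℕ} {A : Finset I} {n c : ℕ} {φ : Fin n → I} (h : Typ a A n c φ)
    {m : ℕ} {κ : ℤ} {e : ℕ → {x // x ∈ A} → ℤ} (he : KE (ra a A) m κ e) :
    KE (TT n c) m κ (fun k i => e k ⟨φ i, h.mem i⟩) := by
  refine ⟨he.two_le, he.kap, fun x => he.zero _, fun x => he.one _, ?_, fun k x h1 h2 => he.pos k _ h1 h2,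
    fun x => he.last _⟩
  intro k x hk
  rw [he.knit k ⟨φ x, h.mem x⟩ hk]
  symm
  apply Fintype.sum_bijective (fun i : Fin n => (⟨φ i, h.mem i⟩ : {x // x ∈ A}))
  · refine ⟨fun i j hij => h.inj (Subtype.ext_iff.1 hij), fun x => ?_⟩
    obtain ⟨i, hi⟩ := h.surj x.1 x.2
    exact ⟨i, Subtype.ext hi⟩
  · intro i
    show (TT n c x i : ℤ) * e (k + 1) ⟨φ i, h.mem i⟩ = (a (φ x) (φ i) : ℤ) * e (k + 1) ⟨φ i, h.mem i⟩
    rw [h.adj]

/-- the Coxeter number of the standard graph. -/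
def cox (n c : ℕ) : ℕ :=
  if c + 3 = n ∧ 4 ≤ n then 2 * n - 2 else
    if c = 2 ∧ n = 6 then 12 else if c = 2 ∧ n = 7 then 18 else if c = 2 ∧ n = 8 then 30 else n + 1

theorem KE_std (n c : ℕ) (h : Std n c) : ∃ κ e, KE (TT n c) (cox n c) κ e := by
  rcases h with ⟨h1, h2⟩ | ⟨h1, h2⟩ | ⟨h1, h2⟩ | ⟨h1, h2 | h2 | h2⟩
  · subst h1
    subst h2
    exact ⟨1, _, KE_A1⟩
  · have e1 : cox n c = n + 1 := by
      unfold cox
      split_ifs <;> omega
    have e2 : c = n - 2 := by omega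
    rw [e1, e2]
    exact ⟨2, _, KE_A n h1⟩
  · have e1 : cox n c = 2 * n - 2 := by
      unfold cox
      rw [if_pos ⟨h2, h1⟩]
    have e2 : c = n - 3 := by omega
    rw [e1, e2]
    obtain ⟨e, he⟩ := KE_D n h1
    exact ⟨1, e, he⟩
  · subst h1
    subst h2
    obtain ⟨e, he⟩ := KE_E6
    exact ⟨1, e, he⟩
  · subst h1
    subst h2
    obtain ⟨e, he⟩ := KE_E7
    exact ⟨1, e, he⟩
  · subst h1
    subst h2
    obtain ⟨e, he⟩ := KE_E8
    exact ⟨1, e, he⟩

/-- the hypothesis on the crossing data. -/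
def MMok (a : I → I → ℕ) (cd : CrossData a) : Prop :=
  ∀ A, FinT a A → ConnS a A → ∃ (κ : ℤ) (e : ℕ → {x // x ∈ A} → ℤ), KE (ra a A) (cd.mm A) κ e

theorem Typ.mm {a : I → I → ℕ} {A : Finset I} {n c : ℕ} {φ : Fin n → I} (h : Typ a A n c φ)
    (hS : Std n c) {m : ℕ} {κ : ℤ} {e : ℕ → {x // x ∈ A} → ℤ} (he : Pool.H88.KA.KE (ra a A) m κ e) :
    m = cox n c := by
  have : Nonempty (Fin n) := ⟨⟨0, by unfold Std at hS; omega⟩⟩
  obtain ⟨κ', e', he'⟩ := KE_std n c hS
  exact KE_unique (h.KE he) he'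

theorem rec_MM {N : Type} [Fintype N] [DecidableEq N] (a : N → N → ℕ) (m : ℕ) (f : ℕ → N → ℤ)
    (h0 : ∀ x, f 0 x = 0)
    (hrec : ∀ k x, k + 2 ≤ m → f (k + 2) x + f k x = ∑ y, (a x y : ℤ) * f (k + 1) y) (k : ℕ) :
    (k ≤ m → ∀ x, f k x = ∑ y, MM a k x y * f 1 y) ∧
      (k + 1 ≤ m → ∀ x, f (k + 1) x = ∑ y, MM a (k + 1) x y * f 1 y) := by
  induction k with
  | zero =>
    constructor
    · intro _ x
      rw [h0]
      symm
      apply Finset.sum_eq_zero
      intro y _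
      show (0 : Matrix N N ℤ) x y * f 1 y = 0
      simp
    · intro _ x
      show f 1 x = ∑ y, (1 : Matrix N N ℤ) x y * f 1 y
      simp [Matrix.one_apply]
  | succ k ih =>
    refine ⟨ih.2, fun hk x => ?_⟩
    have h1 := hrec k x (by omega)
    have h2 := ih.1 (by omega) x
    have h3 : ∑ y, (a x y : ℤ) * f (k + 1) y = ∑ z, (∑ y, (a x y : ℤ) * MM a (k + 1) y z) * f 1 z := by
      simp only [Finset.sum_mul]
      rw [Finset.sum_comm]
      refine Finset.sum_congr rfl fun y _ => ?_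
      rw [ih.2 (by omega) y, Finset.mul_sum]
      exact Finset.sum_congr rfl fun z _ => by ring
    show f (k + 2) x = ∑ y, MM a (k + 2) x y * f 1 y
    have h4 : ∑ y, MM a (k + 2) x y * f 1 y =
        ∑ z, (∑ y, (a x y : ℤ) * MM a (k + 1) y z) * f 1 z - ∑ y, MM a k x y * f 1 y := by
      rw [← Finset.sum_sub_distrib]
      refine Finset.sum_congr rfl fun y _ => ?_
      rw [MM_rec]
      ring
    rw [h4, ← h3, ← h2]
    linarith

/-- a knitting datum has the same length. -/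
theorem knit_len {N : Type} [Fintype N] [DecidableEq N] {a : N → N → ℕ}
    (hs : ∀ x y, a x y = a y x) [hne : Nonempty N]
    {m h : ℕ} {o : ℕ → N → ℕ} {κ : ℤ} {e : ℕ → N → ℤ} (ho : Pool.Agent.H10.KAC.Knit a m o)
    (he : Pool.H88.KA.KE a h κ e) : m = h := by
  have h1 := fun k => rec_MM a m (fun k x => (o k x : ℤ)) (fun x => by rw [ho.zero]; rfl)
    (fun k x hk => by
      show ((o (k + 2) x : ℤ)) + (o k x : ℤ) = ∑ y, (a x y : ℤ) * (o (k + 1) y : ℤ)
      exact_mod_cast ho.knit k x hk) k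
  have h2 := fun k => rec_MM a h e he.zero he.knit k
  have hsym : ∀ k x y, MM a k x y = MM a k y x := by
    intro k x y
    have := (MM_symm a hs k).1
    exact congrFun (congrFun this y) x
  have hpair : ∀ k, k ≤ m → k ≤ h → ∑ x, (o k x : ℤ) * e 1 x = ∑ x, (o 1 x : ℤ) * e k x := by
    intro k hk hk'
    have e1 : ∑ x, (o k x : ℤ) * e 1 x = ∑ x, ∑ y, MM a k x y * (o 1 y : ℤ) * e 1 x := by
      refine Finset.sum_congr rfl fun x _ => ?_
      have h5 : (o k x : ℤ) = ∑ y, MM a k x y * (o 1 y : ℤ) := (h1 k).1 hk x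
      rw [h5, Finset.sum_mul]
    have e2 : ∑ x, (o 1 x : ℤ) * e k x = ∑ x, ∑ y, MM a k x y * (o 1 x : ℤ) * e 1 y := by
      refine Finset.sum_congr rfl fun x _ => ?_
      rw [(h2 k).1 hk' x, Finset.mul_sum]
      exact Finset.sum_congr rfl fun y _ => by ring
    rw [e1, e2, Finset.sum_comm]
    exact Finset.sum_congr rfl fun x _ => Finset.sum_congr rfl fun y _ => by rw [hsym k x y]
  have hopos : ∀ k x, 1 ≤ k → k < m → 0 < o k x := by
    intro k x hk hk'
    have := ho.pos k x hk hk'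
    omega
  rcases lt_trichotomy m h with hlt | heq | hgt
  · exfalso
    have h3 := hpair m le_rfl hlt.le
    have h4 : ∑ x, (o m x : ℤ) * e 1 x = 0 := Finset.sum_eq_zero fun x _ => by
      rw [ho.last]
      simp
    have h5 : 0 < ∑ x, (o 1 x : ℤ) * e m x := Finset.sum_pos (fun x _ => by
      have g1 := ho.one x
      have g2 := he.pos m x (by have := ho.two_le; omega) hlt
      positivity) Finset.univ_nonempty
    omega
  · exact heq
  · exfalso
    have h3 := hpair h hgt.le le_rfl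
    have h4 : ∑ x, (o 1 x : ℤ) * e h x = 0 := Finset.sum_eq_zero fun x _ => by
      rw [he.last]
      simp
    have h5 : 0 < ∑ x, (o h x : ℤ) * e 1 x := Finset.sum_pos (fun x _ => by
      have g1 := hopos h x (by have := he.two_le; omega) hgt
      have g2 := he.one x
      have g3 := he.kap
      rw [g2]
      positivity) Finset.univ_nonempty
    omega

/-- the knitting form of the hypothesis. -/
theorem MMok_of_knit {a : I → I → ℕ} (hs : ∀ i j, a i j = a j i) {cd : CrossData a}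
    (h : ∀ A, FinT a A → ConnS a A → ∃ o, Pool.Agent.H10.KAC.Knit (ra a A) (cd.mm A) o) :
    MMok a cd := by
  intro A hA hc
  obtain ⟨o, ho⟩ := h A hA hc
  have : Nonempty {x // x ∈ A} := by
    obtain ⟨x, hx⟩ := hc.1
    exact ⟨⟨x, hx⟩⟩
  obtain ⟨m, e, he⟩ := KE_exists (FinT.toPD hA) (fun x y => hs _ _) (ConnS.toCNN hc)
  have h1 := knit_len (fun x y => hs _ _) ho he
  rw [h1]
  exact ⟨1, e, he⟩

/-- the Coxeter number of `A`. -/
theorem mm_eq {a : I → I → ℕ} {cd : CrossData a} (hmm : MMok a cd) {A : Finset I} (hA : FinT a A)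
    (hc : ConnS a A) {n c : ℕ} {φ : Fin n → I} (h : Typ a A n c φ) (hS : Std n c) :
    cd.mm A = cox n c := by
  obtain ⟨κ, e, he⟩ := hmm A hA hc
  exact h.mm hS he

end

end Pool.H88.KA
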