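import Pool.Agent.H88.KA.CN0
import Pool.Agent.H46.KA.NumDefs

/-!
KAC ADE numbers, CN3: the polynomial of `(A, q)`.
-/

set_option autoImplicit false

namespace Pool.H88.Num

open scoped BigOperators
open Pool.Agent.H27.KAC
open Polynomial

section

variable {I : Type} [Fintype I] [DecidableEq I]

/-- `P` is the denominator polynomial of the response numbers of `(A, q)`. -/
structure PolyOf (a : I → I → ℕ) (cd : CrossData a) (A : Finset I) (q : I → ℚ)
    (P : Polynomial ℚ) : Prop where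
  c0 : P.coeff 0 = 1
  deg : P.natDegree = cd.mm A
  lead : P.leadingCoeff = -((-1) ^ A.card * cd.eps A q)
  mul : (P : PowerSeries ℚ) * PowerSeries.mk (cn a cd A q) = 1
  ann : ∀ M ⊆ A, M.Nonempty → (∀ x ∈ M, IsZ (q x)) → ∀ (α κ : I → ℚ) (L : Finset I → ℕ),
    (∀ N ∈ comps a (A \ M), cd.mm A + 1 ≤ L N + cd.mm N) →
      ∑ i ∈ Finset.range (cd.mm A + 1),
        P.coeff i * (∏ s ∈ M, (α s + κ s * i)) * ∏ N ∈ comps a (A \ M), cnS a cd N q (L N) i = 0

theorem polyOf_exists {a : I → I → ℕ} {cd : CrossData a} (h : RTnum a cd) {A : Finset I}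
    {q : I → ℚ} (hA : FinT a A) (hc : ConnS a A) (hq : WtL a A q) :
    ∃ P, PolyOf a cd A q P := by
  obtain ⟨p, h0, hint, hdeg, hlead, hrec, hann⟩ := h.recu A q hA hc hq
  obtain ⟨P, hP⟩ : ∃ P : Polynomial ℚ, P = ∑ i ∈ Finset.range (cd.mm A + 1), C (p i) * X ^ i :=
    ⟨_, rfl⟩
  have hcoef : ∀ i, P.coeff i = p i := by
    intro i
    rw [hP, Polynomial.finset_sum_coeff]
    simp only [Polynomial.coeff_C_mul_X_pow]
    rw [Finset.sum_ite_eq (Finset.range (cd.mm A + 1)) i p]
    split_ifs with hi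
    · rfl
    · rw [Finset.mem_range] at hi
      exact (hdeg i (by omega)).symm
  have hne : p (cd.mm A) ≠ 0 := by
    rw [hlead]
    rcases cd.eps_sq A q with h1 | h1 <;> rcases neg_one_pow_eq_or ℚ A.card with h2 | h2 <;>
      rw [h1, h2] <;> norm_num
  have hnat : P.natDegree = cd.mm A := by
    apply Polynomial.natDegree_eq_of_le_of_coeff_ne_zero
    · rw [Polynomial.natDegree_le_iff_coeff_eq_zero]
      intro N hN
      rw [hcoef]
      exact hdeg N hN
    · rw [hcoef]
      exact hne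
  refine ⟨P, ⟨?_, hnat, ?_, ?_, ?_⟩⟩
  · rw [hcoef, h0]
  · unfold Polynomial.leadingCoeff
    rw [hnat, hcoef, hlead]
  · ext n
    rw [PowerSeries.coeff_mul, Finset.Nat.sum_antidiagonal_eq_sum_range_succ
      (fun i j => PowerSeries.coeff i (P : PowerSeries ℚ) *
        PowerSeries.coeff j (PowerSeries.mk (cn a cd A q)))]
    simp only [Polynomial.coeff_coe, PowerSeries.coeff_mk, hcoef]
    rcases Nat.eq_zero_or_pos n with hn | hn
    · subst hn
      simp [h0, cn_zero]
    · rw [hrec n hn, PowerSeries.coeff_one, if_neg (by omega)]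
  · intro M hM hMne hqM α κ L hL
    simp only [hcoef]
    exact hann M hM hMne hqM α κ L hL

/-- a polynomial multiple of `1 / F` whose coefficients vanish eventually: `F` divides. -/
theorem dvd_of_coeff (P F : Polynomial ℚ) (c : ℕ → ℚ)
    (hF : (F : PowerSeries ℚ) * PowerSeries.mk c = 1) (K : ℕ)
    (h : ∀ L, K ≤ L → ∑ i ∈ Finset.range (L + 1), P.coeff i * c (L - i) = 0) : F ∣ P := by
  obtain ⟨G, hG⟩ : ∃ G : Polynomial ℚ, G = PowerSeries.trunc K ((P : PowerSeries ℚ) * PowerSeries.mk c) :=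
    ⟨_, rfl⟩
  have h1 : (G : PowerSeries ℚ) = (P : PowerSeries ℚ) * PowerSeries.mk c := by
    ext n
    rw [Polynomial.coeff_coe, hG, PowerSeries.coeff_trunc]
    split_ifs with hn
    · rfl
    · rw [PowerSeries.coeff_mul, Finset.Nat.sum_antidiagonal_eq_sum_range_succ
        (fun i j => PowerSeries.coeff i (P : PowerSeries ℚ) * PowerSeries.coeff j (PowerSeries.mk c))]
      simp only [Polynomial.coeff_coe, PowerSeries.coeff_mk]
      exact (h n (by omega)).symm
  refine ⟨G, ?_⟩
  have h2 : (P : PowerSeries ℚ) = ((F * G : Polynomial ℚ) : PowerSeries ℚ) := by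
    rw [Polynomial.coe_mul, h1, mul_comm (P : PowerSeries ℚ), ← mul_assoc, hF, one_mul]
  exact Polynomial.coe_injective ℚ h2

end

end Pool.H88.Num
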