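import Mathlib

/-!
KAC ADE numbers, analysis 3: multiplicity of the root one.

If `∑_k Q_k k^j = 0` for all `j ≤ e` then `(1 - X)^(e+1)` divides `Q`.
Proof: for every polynomial `F` of degree `≤ e`: `∑_k Q_k F(k) = 0`; for `F = descPochhammer` this is the `j`-th derivative of
`Q` at one.  Then `Polynomial.lt_rootMultiplicity_iff_isRoot_iterate_derivative` (or similar).
-/

set_option autoImplicit false

namespace Pool.H88.KA

open Polynomial

theorem FJ3_sum_eval (Q : Polynomial ℚ) (e : ℕ)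
    (h : ∀ j, j ≤ e → ∑ k ∈ Finset.range (Q.natDegree + 1), Q.coeff k * (k : ℚ) ^ j = 0)
    (F : Polynomial ℚ) (hF : F.natDegree ≤ e) :
    ∑ k ∈ Finset.range (Q.natDegree + 1), Q.coeff k * F.eval (k : ℚ) = 0 := by
  have h1 : ∀ k ∈ Finset.range (Q.natDegree + 1), Q.coeff k * F.eval (k : ℚ)
      = ∑ i ∈ Finset.range (F.natDegree + 1), F.coeff i * (Q.coeff k * (k : ℚ) ^ i) := by
    intro k _
    rw [Polynomial.eval_eq_sum_range, Finset.mul_sum]
    refine Finset.sum_congr rfl ?_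
    intro i _
    ring
  rw [Finset.sum_congr rfl h1, Finset.sum_comm]
  refine Finset.sum_eq_zero ?_
  intro i hi
  rw [← Finset.mul_sum, h i (by have := Finset.mem_range.mp hi; omega), mul_zero]

theorem FJ3_eval_iterate (Q : Polynomial ℚ) (m : ℕ) :
    (derivative^[m] Q).eval 1
      = ∑ k ∈ Finset.range (Q.natDegree + 1), Q.coeff k * ((k.descFactorial m : ℕ) : ℚ) := by
  conv_lhs => rw [Q.as_sum_range_C_mul_X_pow]
  rw [Polynomial.iterate_derivative_sum, Polynomial.eval_finsetSum]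
  refine Finset.sum_congr rfl ?_
  intro k _
  rw [Polynomial.iterate_derivative_C_mul, Polynomial.iterate_derivative_X_pow_eq_natCast_mul]
  simp

theorem pow_dvd_of_sums (Q : Polynomial ℚ) (e : ℕ)
    (h : ∀ j, j ≤ e → ∑ k ∈ Finset.range (Q.natDegree + 1), Q.coeff k * (k : ℚ) ^ j = 0) :
    (1 - X) ^ (e + 1) ∣ Q := by
  by_cases hQ : Q = 0
  · rw [hQ]; exact dvd_zero _
  have key : e < Q.rootMultiplicity 1 := by
    rw [Polynomial.lt_rootMultiplicity_iff_isRoot_iterate_derivative hQ]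
    intro m hm
    rw [Polynomial.IsRoot.def, FJ3_eval_iterate]
    have h2 := FJ3_sum_eval Q e h (descPochhammer ℚ m)
      (by rw [descPochhammer_natDegree]; exact hm)
    rw [← h2]
    refine Finset.sum_congr rfl ?_
    intro k _
    rw [descPochhammer_eval_eq_descFactorial]
  have h3 : (X - C (1 : ℚ)) ^ (e + 1) ∣ Q :=
    (Polynomial.le_rootMultiplicity_iff hQ).mp key
  have h4 : ((1 : Polynomial ℚ) - X) ^ (e + 1) = (-1) ^ (e + 1) * (X - C (1 : ℚ)) ^ (e + 1) := by
    rw [← mul_pow, C_1]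
    congr 1
    ring
  rw [h4]
  have h5 : IsUnit ((-1 : Polynomial ℚ) ^ (e + 1)) := IsUnit.pow _ (IsUnit.neg isUnit_one)
  exact (h5.mul_left_dvd).mpr h3

end Pool.H88.KA
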