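import Pool.Agent.H88.KA.PAR
import Pool.Agent.H10.KAC.CrossData
import Pool.Agent.H41.KA.AN2

/-!
KAC ADE: crossing data with nonnegative response numbers exist.
-/

set_option autoImplicit false

namespace Pool.H88.Num

open scoped BigOperators
open Pool.Agent.H27.KAC

theorem cnn_of {I : Type} [Fintype I] [DecidableEq I] (a : I → I → ℕ)
    (hs : ∀ i j, a i j = a j i) :
    ∃ cd : CrossData a, ∀ N q g, FinT a N → ConnS a N → WtL a N q → 0 ≤ cn a cd N q g := by
  obtain ⟨cd, h1, _, h3, h4⟩ := Pool.Agent.H10.KAC.crossData_exists a hs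
  have hmm : Pool.H88.KA.MMok a cd := by
    intro A hA hc
    obtain ⟨e, he⟩ := h1 A hA hc
    exact ⟨1, e, he⟩
  refine ⟨cd, fun N q g hN hc hq => ?_⟩
  exact cn_nonneg hs cd hmm (rtnum a hs cd) h4 (E1_of hs hmm h3) hN hc hq g

end Pool.H88.Num
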