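import Mathlib

/-!
KAC, affine case: expansions `a + b / l + O(1 / l ^ 2)` along the prime numbers.
-/

set_option autoImplicit false

namespace Pool.H88.KA

open scoped BigOperators
open Polynomial

/-- `f l = a + b / l + O(1 / l ^ 2)` for prime numbers `l`. -/
def AsE (f : ℕ → ℚ) (a b : ℚ) : Prop :=
  ∃ C : ℚ, 0 ≤ C ∧ ∀ l : ℕ, l.Prime → |f l - a - b / l| ≤ C / (l : ℚ) ^ 2

theorem AsE.congr {f g : ℕ → ℚ} {a b : ℚ} (h : AsE f a b) (hfg : ∀ l : ℕ, l.Prime → f l = g l) :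
    AsE g a b := by
  obtain ⟨C, hC, h⟩ := h
  refine ⟨C, hC, fun l hl => ?_⟩
  rw [← hfg l hl]
  exact h l hl

theorem AsE.val {f : ℕ → ℚ} {a b a' b' : ℚ} (h : AsE f a b) (ha : a = a') (hb : b = b') :
    AsE f a' b' := by
  rw [← ha, ← hb]
  exact h

theorem AsE.const (c : ℚ) : AsE (fun _ => c) c 0 :=
  ⟨0, le_refl _, fun l _ => by simp⟩

theorem AsE.add {f g : ℕ → ℚ} {a b a' b' : ℚ} (h : AsE f a b) (h' : AsE g a' b') :
    AsE (fun l => f l + g l) (a + a') (b + b') := by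
  obtain ⟨C, hC, h⟩ := h
  obtain ⟨C', hC', h'⟩ := h'
  refine ⟨C + C', by positivity, fun l hl => ?_⟩
  have e : f l + g l - (a + a') - (b + b') / l =
      (f l - a - b / l) + (g l - a' - b' / l) := by ring
  rw [e, add_div]
  exact (abs_add_le _ _).trans (add_le_add (h l hl) (h' l hl))

theorem AsE.neg {f : ℕ → ℚ} {a b : ℚ} (h : AsE f a b) : AsE (fun l => -f l) (-a) (-b) := by
  obtain ⟨C, hC, h⟩ := h
  refine ⟨C, hC, fun l hl => ?_⟩
  have e : -f l - -a - -b / l = -(f l - a - b / l) := by ring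
  rw [e, abs_neg]
  exact h l hl

theorem AsE.sub {f g : ℕ → ℚ} {a b a' b' : ℚ} (h : AsE f a b) (h' : AsE g a' b') :
    AsE (fun l => f l - g l) (a - a') (b - b') := by
  have h1 := h.add h'.neg
  simp only [← sub_eq_add_neg] at h1
  exact h1

theorem AsE.mul {f g : ℕ → ℚ} {a b a' b' : ℚ} (h : AsE f a b) (h' : AsE g a' b') :
    AsE (fun l => f l * g l) (a * a') (a * b' + a' * b) := by
  obtain ⟨C, hC, h⟩ := h
  obtain ⟨C', hC', h'⟩ := h'
  refine ⟨|b * b'| + C * (|a'| + |b'| + C') + C' * (|a| + |b|), by positivity, fun l hl => ?_⟩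
  have hl1 : (1 : ℚ) ≤ l := by exact_mod_cast hl.one_lt.le
  have hl0 : (0 : ℚ) < l := by linarith
  obtain ⟨x, hx⟩ : ∃ x, x = f l - a - b / l := ⟨_, rfl⟩
  obtain ⟨y, hy⟩ : ∃ y, y = g l - a' - b' / l := ⟨_, rfl⟩
  have h1 := h l hl
  have h2 := h' l hl
  rw [← hx] at h1
  rw [← hy] at h2
  have e : f l * g l - a * a' - (a * b' + a' * b) / l =
      b * b' / (l : ℚ) ^ 2 + x * (a' + b' / l + y) + y * (a + b / l) := by
    have e1 : f l = x + a + b / l := by rw [hx]; ring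
    have e2 : g l = y + a' + b' / l := by rw [hy]; ring
    rw [e1, e2]
    ring
  rw [e]
  have hsq : (1 : ℚ) ≤ (l : ℚ) ^ 2 := by nlinarith
  have k0 : ∀ z : ℚ, |z / l| ≤ |z| := by
    intro z
    rw [abs_div, abs_of_pos hl0]
    exact div_le_self (abs_nonneg z) hl1
  have k1 : |a' + b' / l + y| ≤ |a'| + |b'| + C' := by
    refine (abs_add_le _ _).trans (add_le_add ((abs_add_le _ _).trans (add_le_add (le_refl _) (k0 b'))) ?_)
    exact h2.trans (div_le_self hC' hsq)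
  have k2 : |a + b / l| ≤ |a| + |b| := (abs_add_le _ _).trans (add_le_add (le_refl _) (k0 b))
  have t1 : |b * b' / (l : ℚ) ^ 2| = |b * b'| / (l : ℚ) ^ 2 := by
    rw [abs_div, abs_of_pos (by positivity : (0 : ℚ) < (l : ℚ) ^ 2)]
  have t2 : |x * (a' + b' / l + y)| ≤ C * (|a'| + |b'| + C') / (l : ℚ) ^ 2 := by
    rw [abs_mul]
    calc |x| * |a' + b' / l + y| ≤ C / (l : ℚ) ^ 2 * (|a'| + |b'| + C') :=
          mul_le_mul h1 k1 (abs_nonneg _) (by positivity)
      _ = _ := by ring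
  have t3 : |y * (a + b / l)| ≤ C' * (|a| + |b|) / (l : ℚ) ^ 2 := by
    rw [abs_mul]
    calc |y| * |a + b / l| ≤ C' / (l : ℚ) ^ 2 * (|a| + |b|) :=
          mul_le_mul h2 k2 (abs_nonneg _) (by positivity)
      _ = _ := by ring
  calc |b * b' / (l : ℚ) ^ 2 + x * (a' + b' / l + y) + y * (a + b / l)|
      ≤ |b * b' / (l : ℚ) ^ 2| + |x * (a' + b' / l + y)| + |y * (a + b / l)| :=
        (abs_add_le _ _).trans (add_le_add (abs_add_le _ _) (le_refl _))
    _ ≤ |b * b'| / (l : ℚ) ^ 2 + C * (|a'| + |b'| + C') / (l : ℚ) ^ 2 +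
          C' * (|a| + |b|) / (l : ℚ) ^ 2 := by
        rw [t1]
        exact add_le_add (add_le_add (le_refl _) t2) t3
    _ = _ := by ring

theorem AsE.const_mul {f : ℕ → ℚ} {a b : ℚ} (c : ℚ) (h : AsE f a b) :
    AsE (fun l => c * f l) (c * a) (c * b) :=
  ((AsE.const c).mul h).val rfl (by ring)

theorem AsE.zero : AsE (fun _ => 0) 0 0 := AsE.const 0

theorem AsE.sum {ι : Type*} (s : Finset ι) {f : ι → ℕ → ℚ} {a b : ι → ℚ}
    (h : ∀ i ∈ s, AsE (f i) (a i) (b i)) :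
    AsE (fun l => ∑ i ∈ s, f i l) (∑ i ∈ s, a i) (∑ i ∈ s, b i) := by
  classical
  induction s using Finset.induction_on with
  | empty => simpa using AsE.zero
  | insert i s hi ih =>
    simp only [Finset.sum_insert hi]
    exact (h i (Finset.mem_insert_self i s)).add
      (ih fun j hj => h j (Finset.mem_insert_of_mem hj))

theorem AsE.prod_one {ι : Type*} (s : Finset ι) {f : ι → ℕ → ℚ} {b : ι → ℚ}
    (h : ∀ i ∈ s, AsE (f i) 1 (b i)) :
    AsE (fun l => ∏ i ∈ s, f i l) 1 (∑ i ∈ s, b i) := by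
  classical
  induction s using Finset.induction_on with
  | empty => simpa using AsE.const 1
  | insert i s hi ih =>
    simp only [Finset.prod_insert hi, Finset.sum_insert hi]
    exact ((h i (Finset.mem_insert_self i s)).mul
      (ih fun j hj => h j (Finset.mem_insert_of_mem hj))).val (by ring) (by ring)

/-- a rational number which is `O(1 / l)` is zero. -/
theorem AsE_zero_of {c C : ℚ} (h : ∀ l : ℕ, l.Prime → |c| ≤ C / l) : c = 0 := by
  by_contra hc
  have hc0 : 0 < |c| := abs_pos.2 hc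
  obtain ⟨l, hl, hp⟩ := Nat.exists_infinite_primes (⌈C / |c|⌉₊ + 1)
  have h1 := h l hp
  have hl0 : (0 : ℚ) < l := by exact_mod_cast hp.pos
  have h2 : C / |c| < l := by
    have h3 : C / |c| ≤ (⌈C / |c|⌉₊ : ℚ) := Nat.le_ceil _
    have h4 : ((⌈C / |c|⌉₊ : ℕ) : ℚ) + 1 ≤ l := by exact_mod_cast hl
    linarith
  rw [div_lt_iff₀ hc0] at h2
  rw [le_div_iff₀ hl0] at h1
  linarith

theorem AsE.unique {f : ℕ → ℚ} {a b a' b' : ℚ} (h : AsE f a b) (h' : AsE f a' b') :
    a = a' ∧ b = b' := by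
  have h0 := h.sub h'
  simp only [sub_self] at h0
  obtain ⟨C, hC, h0⟩ := h0
  obtain ⟨x, hx⟩ : ∃ x, x = a - a' := ⟨_, rfl⟩
  obtain ⟨y, hy⟩ : ∃ y, y = b - b' := ⟨_, rfl⟩
  rw [← hx, ← hy] at h0
  have h1 : ∀ l : ℕ, l.Prime → |x + y / l| ≤ C / (l : ℚ) ^ 2 := by
    intro l hl
    have e : x + y / l = -(0 - x - y / l) := by ring
    rw [e, abs_neg]
    exact h0 l hl
  have hx0 : x = 0 := by
    apply AsE_zero_of (C := |y| + C)
    intro l hl
    have hl1 : (1 : ℚ) ≤ l := by exact_mod_cast hl.one_lt.le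
    have hl0 : (0 : ℚ) < l := by linarith
    have e : x = (x + y / l) - y / l := by ring
    have h2 : C / (l : ℚ) ^ 2 ≤ C / l := by
      apply div_le_div_of_nonneg_left hC hl0
      nlinarith
    have h3 : |y / l| = |y| / l := by rw [abs_div, abs_of_pos hl0]
    calc |x| = |(x + y / l) - y / l| := by rw [← e]
      _ ≤ |x + y / l| + |y / l| := abs_sub _ _
      _ ≤ C / l + |y| / l := by
        rw [h3]
        exact add_le_add ((h1 l hl).trans h2) (le_refl _)
      _ = (|y| + C) / l := by ring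
  have hy0 : y = 0 := by
    apply AsE_zero_of (C := C)
    intro l hl
    have hl0 : (0 : ℚ) < l := by exact_mod_cast hl.pos
    have h2 := h1 l hl
    rw [hx0, zero_add, abs_div, abs_of_pos hl0, div_le_iff₀ hl0] at h2
    refine h2.trans (le_of_eq ?_)
    field_simp
  constructor
  · linarith
  · linarith

theorem AsE.inv_pow (h : ℕ) : AsE (fun l => ((l : ℚ)⁻¹) ^ h) (if h = 0 then 1 else 0)
    (if h = 1 then 1 else 0) := by
  refine ⟨1, zero_le_one, fun l hl => ?_⟩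
  have hl1 : (1 : ℚ) ≤ l := by exact_mod_cast hl.one_lt.le
  have hl0 : (0 : ℚ) < l := by linarith
  rcases h with _ | _ | h
  · simp
  · simp
  · rw [if_neg (by omega), if_neg (by omega), zero_div, sub_zero, sub_zero,
      abs_of_nonneg (by positivity), one_div, ← _root_.inv_pow]
    apply pow_le_pow_of_le_one (by positivity)
    · exact inv_le_one_of_one_le₀ hl1
    · omega

theorem AsE.geo (j : ℕ) : AsE (fun l => (1 - ((l : ℚ)⁻¹) ^ (j + 1))⁻¹) 1
    (if j = 0 then 1 else 0) := by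
  refine ⟨2, by norm_num, fun l hl => ?_⟩
  have hl2 : (2 : ℚ) ≤ l := by exact_mod_cast hl.two_le
  have hl0 : (0 : ℚ) < l := by linarith
  obtain ⟨x, hx⟩ : ∃ x, x = (l : ℚ)⁻¹ := ⟨_, rfl⟩
  have hx0 : 0 < x := by rw [hx]; positivity
  have hx1 : x ≤ 1 / 2 := by
    rw [hx, one_div]
    exact inv_anti₀ (by norm_num) hl2
  have hx2 : 2 / (l : ℚ) ^ 2 = 2 * x ^ 2 := by
    rw [hx]
    field_simp
  have hxd : ∀ z : ℚ, z / l = z * x := fun z => by rw [hx, div_eq_mul_inv]
  rw [hx2, hxd]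
  beta_reduce
  rw [← hx]
  have hy : x ^ (j + 1) ≤ 1 / 2 := by
    calc x ^ (j + 1) ≤ x ^ 1 := pow_le_pow_of_le_one hx0.le (by linarith) (by omega)
      _ ≤ 1 / 2 := by rw [pow_one]; exact hx1
  have hy0 : 0 < x ^ (j + 1) := by positivity
  have hd : 0 < 1 - x ^ (j + 1) := by linarith
  have e1 : (1 - x ^ (j + 1))⁻¹ = 1 + x ^ (j + 1) * (1 - x ^ (j + 1))⁻¹ := by
    field_simp
    ring
  have hinv : (1 - x ^ (j + 1))⁻¹ ≤ 2 := by
    rw [inv_le_comm₀ hd (by norm_num)]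
    linarith
  have hinv0 : 0 < (1 - x ^ (j + 1))⁻¹ := inv_pos.2 hd
  rcases Nat.eq_zero_or_pos j with h0 | h0
  · subst h0
    simp only [zero_add, pow_one, if_true, one_mul] at *
    have e2 : (1 - x)⁻¹ - 1 - x = x ^ 2 * (1 - x)⁻¹ := by
      field_simp
      ring
    rw [e2, abs_of_nonneg (by positivity)]
    nlinarith [sq_nonneg x]
  · rw [if_neg (by omega), zero_mul, sub_zero, e1]
    have e3 : 1 + x ^ (j + 1) * (1 - x ^ (j + 1))⁻¹ - 1 = x ^ (j + 1) * (1 - x ^ (j + 1))⁻¹ := by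
      ring
    rw [e3, abs_of_nonneg (by positivity)]
    have h4 : x ^ (j + 1) ≤ x ^ 2 := pow_le_pow_of_le_one hx0.le (by linarith) (by omega)
    calc x ^ (j + 1) * (1 - x ^ (j + 1))⁻¹ ≤ x ^ 2 * 2 :=
          mul_le_mul h4 hinv hinv0.le (by positivity)
      _ = _ := by ring

/-- a polynomial which is `O(1 / l)` along the prime numbers is zero. -/
theorem poly_eq_zero_of {p : ℚ[X]} {C : ℚ} (hC : 0 ≤ C)
    (h : ∀ l : ℕ, l.Prime → |p.eval (l : ℚ)| ≤ C / l) : p = 0 := by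
  by_cases hd : 0 < p.degree
  · exfalso
    have h1 := Polynomial.abs_tendsto_atTop p hd
    have h2 := (h1.eventually_gt_atTop C).exists_forall_of_atTop
    obtain ⟨x, hx⟩ := h2
    obtain ⟨l, hl, hp⟩ := Nat.exists_infinite_primes ⌈x⌉₊
    have h3 : x ≤ (l : ℚ) := (Nat.le_ceil x).trans (by exact_mod_cast hl)
    have h4 := hx l h3
    have h5 := h l hp
    have hl1 : (1 : ℚ) ≤ l := by exact_mod_cast hp.one_lt.le
    have h6 : C / l ≤ C := div_le_self hC hl1
    linarith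
  · have h1 : p = Polynomial.C (p.coeff 0) := Polynomial.eq_C_of_degree_le_zero (not_lt.1 hd)
    have h2 : p.coeff 0 = 0 := by
      apply AsE_zero_of (C := C)
      intro l hl
      have h3 := h l hl
      rw [h1] at h3
      simpa using h3
    rw [h1, h2, map_zero]

theorem poly_of_AsE (p : ℚ[X]) (a b : ℚ)
    (h : AsE (fun l => p.eval (l : ℚ) / ((l : ℚ) - 1)) a b) :
    p = Polynomial.C a * (Polynomial.X - 1) + Polynomial.C b := by
  obtain ⟨C, hC, h⟩ := h
  have h1 : p - (Polynomial.C a * (Polynomial.X - 1) + Polynomial.C b) = 0 := by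
    apply poly_eq_zero_of (C := C + |b|) (by positivity)
    intro l hl
    have hl2 : (2 : ℚ) ≤ l := by exact_mod_cast hl.two_le
    have hl0 : (0 : ℚ) < l := by linarith
    have hl1 : (0 : ℚ) < (l : ℚ) - 1 := by linarith
    have h2 := h l hl
    obtain ⟨x, hx⟩ : ∃ x, x = p.eval (l : ℚ) / ((l : ℚ) - 1) - a - b / l := ⟨_, rfl⟩
    rw [← hx] at h2
    have e : (p - (Polynomial.C a * (Polynomial.X - 1) + Polynomial.C b)).eval (l : ℚ) =
        x * ((l : ℚ) - 1) - b / l := by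
      simp only [eval_sub, eval_add, eval_mul, eval_C, eval_X, eval_one]
      rw [hx]
      field_simp
      ring
    rw [e]
    have h3 : |x * ((l : ℚ) - 1)| ≤ C / l := by
      rw [abs_mul, abs_of_pos hl1]
      calc |x| * ((l : ℚ) - 1) ≤ C / (l : ℚ) ^ 2 * l :=
            mul_le_mul h2 (by linarith) hl1.le (by positivity)
        _ = C / l := by field_simp
    have h4 : |b / l| = |b| / l := by rw [abs_div, abs_of_pos hl0]
    calc |x * ((l : ℚ) - 1) - b / l| ≤ |x * ((l : ℚ) - 1)| + |b / l| := abs_sub _ _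
      _ ≤ C / l + |b| / l := by
        rw [h4]
        exact add_le_add h3 (le_refl _)
      _ = (C + |b|) / l := by ring
  exact sub_eq_zero.1 h1

end Pool.H88.KA
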