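import Pool.Agent.H88.KA.Geom

/-!
# The attack: four forcing moves from a triangle with one free side

The attacker owns `R`, `P = R + u`, `Q = R + u + g`, the line `P Q` is free of the opponent, the opponent needs five points.
Moves: `R + w` on `P Q` (`w = u + T g`), `R + j w` on the line through `R`, `R + v` on the line through `P` and `R + j w`
(`v = (1 - T) u + T j w`), and `R + j v`, which lies on the line through `R` and `R + v` and on the line through `Q` and `R + j w`.
`T` and then `j` are large.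
-/

set_option autoImplicit false

open Filter

namespace Pool.Agent.H88.KA

/-- the lines through two points of `E` which are not parallel to `d` and do not pass through `X` do not meet the line through `X` with direction `q` in a lattice point -/
def Avoid (E : Finset (ℤ × ℤ)) (X d q : ℤ × ℤ) : Prop :=
  ∀ e ∈ E, ∀ e' ∈ E, cr (e' - e) d ≠ 0 → cr (e' - e) (X - e) ≠ 0 → ∀ z, cr q (z - X) = 0 → cr (e' - e) (z - e) ≠ 0

theorem pair_on_line {E : Finset (ℤ × ℤ)} {a b c : ℤ}
    (hN : 2 ≤ (E.filter (fun x : ℤ × ℤ => a * x.1 + b * x.2 = c)).card) :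
    ∃ e ∈ E, ∃ e' ∈ E, e' - e ≠ 0 ∧ a * e.1 + b * e.2 = c ∧ a * (e' - e).1 + b * (e' - e).2 = 0 := by
  obtain ⟨e, he, e', he', hne⟩ := Finset.one_lt_card.mp hN
  rw [Finset.mem_filter] at he he'
  refine ⟨e, he.1, e', he'.1, sub_ne_zero.mpr (Ne.symm hne), he.2, ?_⟩
  simp only [Prod.fst_sub, Prod.snd_sub]
  linarith [he.2, he'.2]

theorem Avoid.line {E : Finset (ℤ × ℤ)} {X d q : ℤ × ℤ} (hA : Avoid E X d q) {a b c : ℤ} (h0 : a ≠ 0 ∨ b ≠ 0)
    (hX : a * X.1 + b * X.2 ≠ c) (hd : a * d.1 + b * d.2 ≠ 0)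
    (hN : 2 ≤ (E.filter (fun x : ℤ × ℤ => a * x.1 + b * x.2 = c)).card) :
    ∀ z : ℤ × ℤ, cr q (z - X) = 0 → a * z.1 + b * z.2 ≠ c := by
  obtain ⟨e, he, e', he', hne, h1, h2⟩ := pair_on_line hN
  intro z hz hzc
  refine hA e he e' he' ?_ ?_ z hz ?_
  · intro h
    exact hd (orth_of_cr hne h2 h)
  · intro h
    have := orth_of_cr hne h2 h
    simp only [Prod.fst_sub, Prod.snd_sub] at this
    apply hX
    linarith
  · refine cr_of_orth h0 h2 ?_
    simp only [Prod.fst_sub, Prod.snd_sub]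
    linarith

/-- the estimate behind `Avoid` -/
theorem hit_bound {u g δ ζ w : ℤ × ℤ} {κ : ℤ} (hD : cr u g ≠ 0) (hκ : κ ≠ 0) (hw : cr w ζ = 0) (hδ : cr δ ζ = -κ)
    {s t : ℤ} (hws : w = s • u + t • g) (hst : s = 1 ∨ s = -1) : |cr δ w| ≤ |cr u g * κ| := by
  subst hws
  have e1 : cr u g * cr δ ζ = cr ζ g * cr δ u + cr u ζ * cr δ g := by
    unfold cr; ring
  have e2 : s * cr u ζ + t * cr g ζ = 0 := by
    rw [← hw]
    unfold cr
    simp only [Prod.fst_add, Prod.snd_add, Prod.smul_fst, Prod.smul_snd, smul_eq_mul]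
    ring
  have e3 : cr δ (s • u + t • g) = s * cr δ u + t * cr δ g := by
    unfold cr
    simp only [Prod.fst_add, Prod.snd_add, Prod.smul_fst, Prod.smul_snd, smul_eq_mul]
    ring
  have e4 : cr g ζ = - cr ζ g := by
    unfold cr; ring
  have hss : s * s = 1 := by rcases hst with rfl | rfl <;> norm_num
  have e5 : cr u g * κ = - (s * cr ζ g) * cr δ (s • u + t • g) := by
    rw [e3]
    rw [hδ] at e1
    rw [e4] at e2
    linear_combination (-1) * e1 + (cr u ζ * cr δ g + cr ζ g * cr δ u) * hss - s * cr δ g * e2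
  rw [e5, abs_mul]
  have h1 : - (s * cr ζ g) ≠ 0 := by
    intro h
    rw [h, zero_mul] at e5
    exact mul_ne_zero hD hκ e5
  have h2 : 1 ≤ |-(s * cr ζ g)| := Int.one_le_abs h1
  nlinarith [abs_nonneg (cr δ (s • u + t • g))]

theorem exT {F E : Finset (ℤ × ℤ)} {R u g : ℤ × ℤ} (hD : cr u g ≠ 0) (hR : ∀ e ∈ E, e ≠ R) :
    ∃ T : ℤ, 2 ≤ T ∧ R + (u + T • g) ∉ F ∧ R + (u + T • g) ∉ E ∧ (∀ e ∈ E, cr (u + T • g) (e - R) ≠ 0) ∧
      (∀ e ∈ E, ∀ e' ∈ E, cr (e' - e) g ≠ 0 → cr (e' - e) (u + T • g) ≠ 0) ∧ Avoid E R g (u + T • g) := by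
  have hg : g ≠ 0 := ne_zero_of_cr_right hD
  have ev1 := eventually_ge_atTop (2 : ℤ)
  have ev2 := ev_not_mem (inj_line hg (R + u)) (F ∪ E)
  have ev3 : ∀ᶠ T : ℤ in atTop, ∀ e ∈ E, cr (u + T • g) (e - R) ≠ 0 := by
    rw [eventually_all_finset]
    intro e he
    have := ev_ne (α := cr u (e - R)) (β := cr g (e - R)) (fun h h' => sub_ne_zero.mpr (hR e he) (eq_zero_of_cr hD h' h))
    filter_upwards [this] with T hT h
    apply hT
    rw [← h]
    unfold cr
    simp only [Prod.fst_add, Prod.snd_add, Prod.smul_fst, Prod.smul_snd, smul_eq_mul]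
    ring
  have ev4 : ∀ᶠ T : ℤ in atTop, ∀ e ∈ E, ∀ e' ∈ E, cr (e' - e) g ≠ 0 →
      |cr u g * cr (e' - e) (R - e)| < |cr (e' - e) (u + T • g)| := by
    rw [eventually_all_finset]
    intro e he
    rw [eventually_all_finset]
    intro e' he'
    by_cases h : cr (e' - e) g = 0
    · exact Eventually.of_forall fun T h' => absurd h h'
    · filter_upwards [ev_large (α := cr (e' - e) u) h (|cr u g * cr (e' - e) (R - e)|)] with T hT _
      have : cr (e' - e) (u + T • g) = cr (e' - e) u + T * cr (e' - e) g := by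
        unfold cr
        simp only [Prod.fst_add, Prod.snd_add, Prod.smul_fst, Prod.smul_snd, smul_eq_mul]
        ring
      rw [this]
      exact hT
  obtain ⟨T, h1, h2, h3, h4⟩ := (ev1.and (ev2.and (ev3.and ev4))).exists
  rw [add_assoc] at h2
  simp only [Finset.mem_union, not_or] at h2
  refine ⟨T, h1, h2.1, h2.2, h3, ?_, ?_⟩
  · intro e he e' he' h
    have := (abs_nonneg _).trans_lt (h4 e he e' he' h)
    exact abs_pos.mp this
  · intro e he e' he' h hκ z hz h'
    have hδ : cr (e' - e) (z - R) = - cr (e' - e) (R - e) := by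
      have : cr (e' - e) (z - e) = cr (e' - e) (z - R) + cr (e' - e) (R - e) := by
        unfold cr
        simp only [Prod.fst_sub, Prod.snd_sub]
        ring
      rw [h'] at this
      linarith
    have hb := hit_bound (w := u + T • g) hD hκ hz hδ (s := 1) (t := T) (by rw [one_smul]) (Or.inl rfl)
    exact absurd hb (not_le.mpr (h4 e he e' he' h))

theorem exJ {F E : Finset (ℤ × ℤ)} {R u g w : ℤ × ℤ} {T : ℤ} (hT : 2 ≤ T) (hw : w = u + T • g) (hD : cr u g ≠ 0)
    (hR : ∀ e ∈ E, e ≠ R) (hP : ∀ e ∈ E, e ≠ R + u) (hQ : ∀ e ∈ E, e ≠ R + u + g) :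
    ∃ j : ℤ, 2 ≤ j ∧ R + j • w ∉ F ∪ E ∧ R + ((1 - T) • u + (T * j) • w) ∉ F ∪ E ∧
      R + j • ((1 - T) • u + (T * j) • w) ∉ F ∪ E ∧
      (∀ e ∈ E, cr (j • w - u) (e - (R + u)) ≠ 0) ∧
      (∀ e ∈ E, cr (j • w - u - g) (e - (R + u + g)) ≠ 0) ∧
      (∀ e ∈ E, cr ((1 - T) • u + (T * j) • w) (e - R) ≠ 0) ∧ Avoid E (R + u) w (j • w - u) := by
  have hT0 : T ≠ 0 := by linarith
  have hT1 : 1 - T ≠ 0 := by linarith
  have hD' : cr u w ≠ 0 := by
    have : cr u w = T * cr u g := by
      rw [hw]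
      unfold cr
      simp only [Prod.fst_add, Prod.snd_add, Prod.smul_fst, Prod.smul_snd, smul_eq_mul]
      ring
    rw [this]
    exact mul_ne_zero hT0 hD
  have hw0 : w ≠ 0 := ne_zero_of_cr_right hD'
  have ev1 := eventually_ge_atTop (2 : ℤ)
  have ev2 := ev_not_mem (inj_line hw0 R) (F ∪ E)
  have hTw : T • w ≠ 0 := smul_ne_zero hT0 hw0
  have ev3 := ev_not_mem (inj_line hTw (R + (1 - T) • u)) (F ∪ E)
  have ev4 : ∀ᶠ j : ℤ in atTop, ∀ s ∈ F ∪ E, R + j • ((1 - T) • u + (T * j) • w) ≠ s := by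
    rw [eventually_all_finset]
    intro s _
    filter_upwards [eventually_gt_atTop (|cr u (s - R)|)] with j hj h
    have hj0 : 0 < j := (abs_nonneg _).trans_lt hj
    have h1 : cr u (s - R) = (T * j * j) * cr u w := by
      rw [← h]
      unfold cr
      simp only [Prod.fst_sub, Prod.snd_sub, Prod.fst_add, Prod.snd_add, Prod.smul_fst, Prod.smul_snd, smul_eq_mul]
      ring
    rw [h1, abs_mul] at hj
    have h2 : 1 ≤ |cr u w| := Int.one_le_abs hD'
    have h3 : j ≤ |T * j * j| := by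
      rw [abs_of_pos (by positivity)]
      nlinarith [mul_pos hj0 hj0]
    nlinarith [abs_nonneg (T * j * j)]
  have ev5 : ∀ᶠ j : ℤ in atTop, ∀ e ∈ E, cr (j • w - u) (e - (R + u)) ≠ 0 := by
    rw [eventually_all_finset]
    intro e he
    have := ev_ne (α := - cr u (e - (R + u))) (β := cr w (e - (R + u)))
      (fun h h' => sub_ne_zero.mpr (hP e he) (eq_zero_of_cr hD' (neg_eq_zero.mp h') h))
    filter_upwards [this] with j hj h
    apply hj
    rw [← h]
    unfold cr
    simp only [Prod.fst_sub, Prod.snd_sub, Prod.fst_add, Prod.snd_add, Prod.smul_fst, Prod.smul_snd, smul_eq_mul]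
    ring
  have ev6 : ∀ᶠ j : ℤ in atTop, ∀ e ∈ E, cr (j • w - u - g) (e - (R + u + g)) ≠ 0 := by
    rw [eventually_all_finset]
    intro e he
    have hDD : cr (u + g) w ≠ 0 := by
      have : cr (u + g) w = - ((1 - T) * cr u g) := by
        rw [hw]
        unfold cr
        simp only [Prod.fst_add, Prod.snd_add, Prod.smul_fst, Prod.smul_snd, smul_eq_mul]
        ring
      rw [this]
      exact neg_ne_zero.mpr (mul_ne_zero hT1 hD)
    have := ev_ne (α := - cr (u + g) (e - (R + u + g))) (β := cr w (e - (R + u + g)))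
      (fun h h' => sub_ne_zero.mpr (hQ e he) (eq_zero_of_cr hDD (neg_eq_zero.mp h') h))
    filter_upwards [this] with j hj h
    apply hj
    rw [← h]
    unfold cr
    simp only [Prod.fst_sub, Prod.snd_sub, Prod.fst_add, Prod.snd_add, Prod.smul_fst, Prod.smul_snd, smul_eq_mul]
    ring
  have ev7 : ∀ᶠ j : ℤ in atTop, ∀ e ∈ E, cr ((1 - T) • u + (T * j) • w) (e - R) ≠ 0 := by
    rw [eventually_all_finset]
    intro e he
    have := ev_ne (α := (1 - T) * cr u (e - R)) (β := T * cr w (e - R))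
      (fun h h' => sub_ne_zero.mpr (hR e he)
        (eq_zero_of_cr hD' ((mul_eq_zero.mp h').resolve_left hT1) ((mul_eq_zero.mp h).resolve_left hT0)))
    filter_upwards [this] with j hj h
    apply hj
    rw [← h]
    unfold cr
    simp only [Prod.fst_sub, Prod.snd_sub, Prod.fst_add, Prod.snd_add, Prod.smul_fst, Prod.smul_snd, smul_eq_mul]
    ring
  have ev8 : ∀ᶠ j : ℤ in atTop, ∀ e ∈ E, ∀ e' ∈ E, cr (e' - e) w ≠ 0 →
      |cr u w * cr (e' - e) (R + u - e)| < |cr (e' - e) (j • w - u)| := by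
    rw [eventually_all_finset]
    intro e he
    rw [eventually_all_finset]
    intro e' he'
    by_cases h : cr (e' - e) w = 0
    · exact Eventually.of_forall fun T h' => absurd h h'
    · filter_upwards [ev_large (α := - cr (e' - e) u) h (|cr u w * cr (e' - e) (R + u - e)|)] with j hj _
      have : cr (e' - e) (j • w - u) = - cr (e' - e) u + j * cr (e' - e) w := by
        unfold cr
        simp only [Prod.fst_sub, Prod.snd_sub, Prod.smul_fst, Prod.smul_snd, smul_eq_mul]
        ring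
      rw [this]
      exact hj
  obtain ⟨j, h1, h2, h3, h4, h5, h6, h7, h8⟩ :=
    (ev1.and (ev2.and (ev3.and (ev4.and (ev5.and (ev6.and (ev7.and ev8))))))).exists
  refine ⟨j, h1, h2, ?_, fun h => h4 _ h rfl, h5, h6, h7, ?_⟩
  · intro h
    apply h3
    convert h using 1
    rw [add_assoc, smul_smul, mul_comm j T]
  · intro e he e' he' h hκ z hz h'
    have hδ : cr (e' - e) (z - (R + u)) = - cr (e' - e) (R + u - e) := by
      have : cr (e' - e) (z - e) = cr (e' - e) (z - (R + u)) + cr (e' - e) (R + u - e) := by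
        unfold cr
        simp only [Prod.fst_sub, Prod.snd_sub, Prod.fst_add, Prod.snd_add]
        ring
      rw [h'] at this
      linarith
    have hb := hit_bound (w := j • w - u) hD' hκ hz hδ (s := -1) (t := j) (by rw [neg_one_smul]; abel) (Or.inr rfl)
    exact absurd hb (not_le.mpr (h8 e he e' he' h))

end Pool.Agent.H88.KA
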