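import Pool.Agent.H88.KA.CL5

/-!
KAC ADE numbers, classes: definitions.  `V : ℕ → ℚ` (only the values at `p < n` matter) is a vector on the standard graph
`TT n c` (chain `0, …, n - 2`, vertex `n - 1` attached to `c`).
-/

set_option autoImplicit false

namespace Pool.H88.Num

open scoped BigOperators
open Pool.Agent.H27.KAC (IsZ)
open Pool.H88.KA

/-- neighbour sum at `p`. -/
def NBq (n c : ℕ) (V : ℕ → ℚ) (p : ℕ) : ℚ :=
  if p + 1 = n then V c else
    (if 1 ≤ p then V (p - 1) else 0) + (if p + 3 ≤ n then V (p + 1) else 0) +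
      (if p = c then V (n - 1) else 0)

/-- `C V` is integral. -/
def WtN (n c : ℕ) (V : ℕ → ℚ) : Prop := ∀ p, p < n → IsZ (2 * V p - NBq n c V p)

open Classical in
/-- number of integral coordinates. -/
noncomputable def e0 (n : ℕ) (V : ℕ → ℚ) : ℕ := ((Finset.range n).filter (fun p => IsZ (V p))).card

/-- `r` is the order of `V` modulo `ℤ^n`. -/
def Ord (n : ℕ) (V : ℕ → ℚ) (r : ℕ) : Prop :=
  1 ≤ r ∧ ∀ k : ℕ, (∀ p, p < n → IsZ ((k : ℚ) * V p)) ↔ r ∣ k

end Pool.H88.Num
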