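import Pool.Agent.H88.KA.BD0

/-!
KAC ADE numbers, classes, type A.

* `ord_exists`: `r` = lcm of the denominators.
* `bd_A`: by induction `V p - (p + 1) V 0` is an integer for all `p < n` (rows `0, …, n - 3` and row `n - 2`: in `TT n (n - 2)` the
  vertex `n - 1` is the right neighbour of `n - 2`), and row `n - 1` gives `(n + 1) V 0 ∈ ℤ`.  So `r` is the denominator of
  `V 0`, `r ∣ n + 1`, and `V p` is integral iff `r ∣ p + 1`: there are `(n + 1) / r - 1` such `p < n`.
-/

set_option autoImplicit false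

namespace Pool.H88.Num

open scoped BigOperators
open Pool.Agent.H27.KAC (IsZ)
open Pool.H88.KA

theorem BDA_add {x y : ℚ} (hx : IsZ x) (hy : IsZ y) : IsZ (x + y) := by
  obtain ⟨a, rfl⟩ := hx
  obtain ⟨b, rfl⟩ := hy
  exact ⟨a + b, by push_cast; ring⟩

theorem BDA_nat_mul (k : ℕ) {x : ℚ} (hx : IsZ x) : IsZ ((k : ℚ) * x) := by
  obtain ⟨a, rfl⟩ := hx
  exact ⟨k * a, by push_cast; ring⟩

theorem BDA_neg {x : ℚ} (hx : IsZ x) : IsZ (-x) := by
  obtain ⟨a, rfl⟩ := hx
  exact ⟨-a, by push_cast; ring⟩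

theorem BDA_congr {x y : ℚ} (h : IsZ (x - y)) : IsZ x ↔ IsZ y := by
  constructor
  · intro hx
    have h1 := BDA_add hx (BDA_neg h)
    have h2 : x + -(x - y) = y := by ring
    rwa [h2] at h1
  · intro hy
    have h1 := BDA_add h hy
    have h2 : x - y + y = x := by ring
    rwa [h2] at h1

theorem BDA_den (k : ℕ) (x : ℚ) : IsZ ((k : ℚ) * x) ↔ x.den ∣ k := by
  constructor
  · rintro ⟨a, ha⟩
    have hd : (x.den : ℚ) ≠ 0 := by exact_mod_cast x.den_nz
    have h1 : x = x.num / x.den := (Rat.num_div_den x).symm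
    have h2 : (k : ℚ) * x.num = a * x.den := by
      rw [h1] at ha
      field_simp at ha
      linarith
    have h3 : (k : ℤ) * x.num = a * x.den := by exact_mod_cast h2
    have h4 : (x.den : ℤ) ∣ (k : ℤ) * x.num := ⟨a, by rw [h3]; ring⟩
    have h5 : x.den ∣ k * x.num.natAbs := by
      have := Int.natAbs_dvd_natAbs.mpr h4
      rwa [Int.natAbs_mul, Int.natAbs_natCast, Int.natAbs_natCast] at this
    exact (Nat.Coprime.dvd_of_dvd_mul_right x.reduced.symm h5)
  · rintro ⟨m, rfl⟩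
    refine ⟨m * x.num, ?_⟩
    have hd : (x.den : ℚ) * x = x.num := by
      rw [mul_comm]
      exact Rat.mul_den_eq_num x
    push_cast
    rw [← hd]
    ring

/-- the count in type A from the congruences. -/
theorem BDA_main (n : ℕ) (hn : 1 ≤ n) (V : ℕ → ℚ) (r : ℕ)
    (h : ∀ p, p < n → IsZ (V p - ((p + 1 : ℕ) : ℚ) * V 0)) (h2 : IsZ (((n + 1 : ℕ) : ℚ) * V 0))
    (hr : Ord n V r) : n + 1 = r * (e0 n V + 1) := by
  obtain ⟨hr1, hr2⟩ := hr
  have hk : ∀ k : ℕ, IsZ ((k : ℚ) * V 0) ↔ r ∣ k := by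
    intro k
    rw [← hr2 k]
    constructor
    · intro hz p hp
      have h3 := BDA_add (BDA_nat_mul k (h p hp)) (BDA_nat_mul (p + 1) hz)
      have h4 : (k : ℚ) * (V p - ((p + 1 : ℕ) : ℚ) * V 0) + ((p + 1 : ℕ) : ℚ) * ((k : ℚ) * V 0) =
          (k : ℚ) * V p := by ring
      rwa [h4] at h3
    · intro hz
      exact hz 0 (by omega)
  obtain ⟨s, hs⟩ := (hk (n + 1)).mp h2
  have hcard : e0 n V = n / r := by
    classical
    unfold e0
    rw [← Nat.card_multiples n r]
    apply congrArg Finset.card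
    ext p
    rw [Finset.mem_filter, Finset.mem_filter]
    refine and_congr_right fun hp => ?_
    rw [BDA_congr (h p (Finset.mem_range.mp hp))]
    exact hk (p + 1)
  rw [hcard]
  have hs0 : 0 < s := by
    rcases Nat.eq_zero_or_pos s with h0 | h0
    · subst h0
      omega
    · exact h0
  obtain ⟨t, rfl⟩ : ∃ t, s = t + 1 := ⟨s - 1, by omega⟩
  have hdiv : n / r = t := by
    apply Nat.div_eq_of_lt_le
    · nlinarith
    · nlinarith
  rw [hdiv, hs]

theorem ord_exists (n : ℕ) (V : ℕ → ℚ) : ∃ r, Ord n V r := by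
  refine ⟨(Finset.range n).lcm fun p => (V p).den, ?_, ?_⟩
  · apply Nat.one_le_iff_ne_zero.mpr
    rw [Ne, Finset.lcm_eq_zero_iff]
    rintro ⟨p, _, hp⟩
    exact (V p).den_nz hp
  · intro k
    rw [Finset.lcm_dvd_iff]
    constructor
    · intro h p hp
      exact (BDA_den k (V p)).mp (h p (Finset.mem_range.mp hp))
    · intro h p hp
      exact (BDA_den k (V p)).mpr (h p (Finset.mem_range.mpr hp))

theorem bd_A1 (V : ℕ → ℚ) (r : ℕ) (h : IsZ (2 * V 0)) (hr : Ord 1 V r) : 2 = r * (e0 1 V + 1) := by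
  refine BDA_main 1 le_rfl V r ?_ ?_ hr
  · intro p hp
    have : p = 0 := by omega
    subst this
    exact ⟨0, by push_cast; ring⟩
  · have h1 : ((1 + 1 : ℕ) : ℚ) * V 0 = 2 * V 0 := by
      push_cast
      ring
    rw [h1]
    exact h

theorem bd_A (n : ℕ) (hn : 2 ≤ n) (V : ℕ → ℚ) (r : ℕ) (h : WtN n (n - 2) V) (hr : Ord n V r) :
    n + 1 = r * (e0 n V + 1) := by
  have hstep : ∀ p, p + 1 < n → IsZ (2 * V p - (if 1 ≤ p then V (p - 1) else 0) - V (p + 1)) := by
    intro p hp
    have h1 := h p (by omega)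
    unfold NBq at h1
    rw [if_neg (by omega)] at h1
    by_cases h2 : p = n - 2
    · have h3 : ¬ (p + 3 ≤ n) := by omega
      rw [if_neg h3, if_pos h2] at h1
      have h4 : n - 1 = p + 1 := by omega
      rw [h4] at h1
      have h5 : 2 * V p - ((if 1 ≤ p then V (p - 1) else 0) + 0 + V (p + 1)) =
        2 * V p - (if 1 ≤ p then V (p - 1) else 0) - V (p + 1) := by ring
      rwa [h5] at h1
    · have h3 : p + 3 ≤ n := by omega
      rw [if_pos h3, if_neg h2] at h1
      have h5 : 2 * V p - ((if 1 ≤ p then V (p - 1) else 0) + V (p + 1) + 0) =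
        2 * V p - (if 1 ≤ p then V (p - 1) else 0) - V (p + 1) := by ring
      rwa [h5] at h1
  have hind : ∀ p, p < n → IsZ (V p - ((p + 1 : ℕ) : ℚ) * V 0) := by
    intro p
    induction p using Nat.strong_induction_on with
    | _ p ih =>
      intro hp
      rcases Nat.lt_or_ge p 1 with h0 | h0
      · have : p = 0 := by omega
        subst this
        exact ⟨0, by push_cast; ring⟩
      · obtain ⟨m, rfl⟩ : ∃ m, p = m + 1 := ⟨p - 1, by omega⟩
        have h1 := hstep m hp
        have h2 := ih m (by omega) (by omega)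
        rcases Nat.lt_or_ge m 1 with h3 | h3
        · have : m = 0 := by omega
          subst this
          rw [if_neg (by omega)] at h1
          have h4 := BDA_neg h1
          have h5 : -(2 * V 0 - 0 - V (0 + 1)) = V (0 + 1) - ((0 + 1 + 1 : ℕ) : ℚ) * V 0 := by
            push_cast
            ring
          rwa [h5] at h4
        · rw [if_pos h3] at h1
          have h6 := ih (m - 1) (by omega) (by omega)
          obtain ⟨l, rfl⟩ : ∃ l, m = l + 1 := ⟨m - 1, by omega⟩
          rw [show l + 1 - 1 = l by omega] at h1 h6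
          have h7 := BDA_add (BDA_add (BDA_neg h1) (BDA_nat_mul 2 h2)) (BDA_neg h6)
          have h8 : -(2 * V (l + 1) - V l - V (l + 1 + 1)) +
              ((2 : ℕ) : ℚ) * (V (l + 1) - ((l + 1 + 1 : ℕ) : ℚ) * V 0) +
              -(V l - ((l + 1 : ℕ) : ℚ) * V 0) =
              V (l + 1 + 1) - ((l + 1 + 1 + 1 : ℕ) : ℚ) * V 0 := by
            push_cast
            ring
          rwa [h8] at h7
  refine BDA_main n (by omega) V r hind ?_ hr
  have hlast := h (n - 1) (by omega)
  unfold NBq at hlast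
  rw [if_pos (by omega)] at hlast
  have h1 := hind (n - 1) (by omega)
  have h2 := hind (n - 2) (by omega)
  obtain ⟨m, rfl⟩ : ∃ m, n = m + 2 := ⟨n - 2, by omega⟩
  rw [show m + 2 - 1 = m + 1 by omega] at hlast h1
  rw [show m + 2 - 2 = m by omega] at hlast h2
  have h7 := BDA_add (BDA_add hlast (BDA_neg (BDA_nat_mul 2 h1))) h2
  have h8 : 2 * V (m + 1) - V m + -(((2 : ℕ) : ℚ) * (V (m + 1) - ((m + 1 + 1 : ℕ) : ℚ) * V 0)) +
      (V m - ((m + 1 : ℕ) : ℚ) * V 0) = ((m + 2 + 1 : ℕ) : ℚ) * V 0 := by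
    push_cast
    ring
  rwa [h8] at h7

end Pool.H88.Num
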