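import Pool.Agent.H88.KA.BD0

/-!
KAC ADE numbers, classes, type D.  `TT n (n - 3)`: chain `0, …, n - 2`, vertex `n - 1` attached to `n - 3` (so `n - 2` and
`n - 1` are two leaves attached to `n - 3`).

Rows `0, …, n - 4` give `V p ≡ (p + 1) V 0` modulo `ℤ` for `p ≤ n - 3`.  Rows `n - 2`, `n - 1`: `2 V (n-2) ≡ V (n-3) ≡ 2 V (n-1)`.
Row `n - 3`: `V (n-2) + V (n-1) ≡ (n - 1) V 0`.  Twice this: `2 (n - 2) V 0 ≡ 2 (n - 1) V 0`, so `2 V 0 ∈ ℤ`.
Case `V 0 ∈ ℤ`: `V p ∈ ℤ` for `p ≤ n - 3`, so `e0 ≥ n - 2`; if `V (n-2) ∈ ℤ` then `V (n-1) ∈ ℤ`, `e0 = n`, `r ≥ 1`; otherwise `r ≥ 2`.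
Case `V 0 ≡ 1/2`: `V p ∈ ℤ` for odd `p ≤ n - 3`.  `n` even: `2 V (n-2) ≡ 0`, `V (n-2) + V (n-1) ≡ 1/2`, exactly one of them is
integral, `e0 = n/2`, `r ≥ 2`.  `n` odd: `2 V (n-2) ≡ 1/2`, so `r ≥ 4`, `e0 ≥ (n - 3)/2 ≥ 1`.
In all cases `n - 1 ≤ r (e0 + 1)` and `1 ≤ e0`.
-/

set_option autoImplicit false

namespace Pool.H88.Num

open scoped BigOperators
open Pool.Agent.H27.KAC (IsZ)
open Pool.H88.KA

private theorem BDD_add {p q : ℚ} (hp : IsZ p) (hq : IsZ q) : IsZ (p + q) := by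
  obtain ⟨m, rfl⟩ := hp
  obtain ⟨n, rfl⟩ := hq
  exact ⟨m + n, by push_cast; ring⟩

private theorem BDD_sub {p q : ℚ} (hp : IsZ p) (hq : IsZ q) : IsZ (p - q) := by
  obtain ⟨m, rfl⟩ := hp
  obtain ⟨n, rfl⟩ := hq
  exact ⟨m - n, by push_cast; ring⟩

private theorem BDD_mul (m : ℤ) {q : ℚ} (hq : IsZ q) : IsZ ((m : ℚ) * q) := by
  obtain ⟨n, rfl⟩ := hq
  exact ⟨m * n, by push_cast; ring⟩

private theorem BDD_row (n : ℕ) (V : ℕ → ℚ) (h : WtN n (n - 3) V) (p : ℕ)
    (hp : p + 5 ≤ n) : IsZ (2 * V (p + 1) - V p - V (p + 2)) := by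
  have h1 := h (p + 1) (by omega)
  unfold NBq at h1
  rw [if_neg (by omega), if_pos (by omega), if_pos (by omega), if_neg (by omega)] at h1
  have e : p + 1 - 1 = p := by omega
  rw [e] at h1
  have e2 : 2 * V (p + 1) - V p - V (p + 2) = 2 * V (p + 1) - (V p + V (p + 1 + 1) + 0) := by
    have : p + 1 + 1 = p + 2 := by omega
    rw [this]
    ring
  rw [e2]
  exact h1

private theorem BDD_row0 (n : ℕ) (hn : 4 ≤ n) (V : ℕ → ℚ) (h : WtN n (n - 3) V) :
    IsZ (2 * V 0 - V 1) := by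
  have h1 := h 0 (by omega)
  unfold NBq at h1
  rw [if_neg (by omega), if_neg (by omega), if_pos (by omega), if_neg (by omega)] at h1
  have e2 : 2 * V 0 - V 1 = 2 * V 0 - (0 + V (0 + 1) + 0) := by
    rw [zero_add 1]
    ring
  rw [e2]
  exact h1

private theorem BDD_chain (n : ℕ) (hn : 4 ≤ n) (V : ℕ → ℚ) (h : WtN n (n - 3) V) (p : ℕ) :
    (p + 3 ≤ n → IsZ (V p - ((p : ℚ) + 1) * V 0)) ∧
      (p + 4 ≤ n → IsZ (V (p + 1) - ((p : ℚ) + 2) * V 0)) := by
  induction p with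
  | zero =>
    refine ⟨fun _ => ⟨0, by push_cast; ring⟩, fun _ => ?_⟩
    have h1 := BDD_mul (-1) (BDD_row0 n hn V h)
    have e : V (0 + 1) - (((0 : ℕ) : ℚ) + 2) * V 0 = ((-1 : ℤ) : ℚ) * (2 * V 0 - V 1) := by
      rw [zero_add]
      push_cast
      ring
    rw [e]
    exact h1
  | succ p ih =>
    refine ⟨fun hp => ?_, fun hp => ?_⟩
    · have h1 := ih.2 (by omega)
      have e : V (p + 1) - (((p + 1 : ℕ) : ℚ) + 1) * V 0 = V (p + 1) - ((p : ℚ) + 2) * V 0 := by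
        push_cast
        ring
      rw [e]
      exact h1
    · have h1 := ih.2 (by omega)
      have h0 := ih.1 (by omega)
      have h2 := BDD_row n V h p (by omega)
      have e : V (p + 1 + 1) - (((p + 1 : ℕ) : ℚ) + 2) * V 0 =
          (((2 : ℤ) : ℚ) * (V (p + 1) - ((p : ℚ) + 2) * V 0) - (V p - ((p : ℚ) + 1) * V 0)) -
            (2 * V (p + 1) - V p - V (p + 2)) := by
        have : p + 1 + 1 = p + 2 := by omega
        rw [this]
        push_cast
        ring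
      rw [e]
      exact BDD_sub (BDD_sub (BDD_mul 2 h1) h0) h2

private theorem BDD_two (n : ℕ) (hn : 4 ≤ n) (V : ℕ → ℚ) (h : WtN n (n - 3) V) :
    IsZ (2 * V 0) := by
  obtain ⟨m, rfl⟩ : ∃ m, n = m + 4 := ⟨n - 4, by omega⟩
  have hc : m + 4 - 3 = m + 1 := by omega
  rw [hc] at h
  have h3 := (BDD_chain (m + 4) hn V (by rw [hc]; exact h) (m + 1)).1 (by omega)
  have h4 := (BDD_chain (m + 4) hn V (by rw [hc]; exact h) m).1 (by omega)
  have r3 := h (m + 1) (by omega)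
  have r2 := h (m + 2) (by omega)
  have r1 := h (m + 3) (by omega)
  unfold NBq at r3 r2 r1
  rw [if_neg (by omega), if_pos (by omega), if_pos (by omega), if_pos rfl] at r3
  rw [if_neg (by omega), if_pos (by omega), if_neg (by omega), if_neg (by omega)] at r2
  rw [if_pos (by omega)] at r1
  have e3 : m + 1 - 1 = m := by omega
  have e4 : m + 4 - 1 = m + 3 := by omega
  have e5 : m + 1 + 1 = m + 2 := by omega
  have e6 : m + 2 - 1 = m + 1 := by omega
  rw [e3, e4, e5] at r3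
  rw [e6] at r2
  have e : 2 * V 0 =
      (((((2 : ℤ) : ℚ) * (2 * V (m + 1) - (V m + V (m + 2) + V (m + 3)))
        + (2 * V (m + 2) - (V (m + 1) + 0 + 0))) + (2 * V (m + 3) - V (m + 1)))
        + ((2 : ℤ) : ℚ) * (V m - ((m : ℚ) + 1) * V 0))
        + ((-2 : ℤ) : ℚ) * (V (m + 1) - (((m + 1 : ℕ) : ℚ) + 1) * V 0) := by
    push_cast
    ring
  rw [e]
  exact BDD_add (BDD_add (BDD_add (BDD_add (BDD_mul 2 r3) r2) r1) (BDD_mul 2 h4))
    (BDD_mul (-2) h3)

theorem bd_D (n : ℕ) (hn : 4 ≤ n) (V : ℕ → ℚ) (r : ℕ) (h : WtN n (n - 3) V) (hr : Ord n V r) :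
    n - 1 ≤ r * (e0 n V + 1) ∧ 1 ≤ e0 n V := by
  classical
  obtain ⟨hr1, hrk⟩ := hr
  by_cases h0 : IsZ (V 0)
  · have hsub : Finset.range (n - 2) ⊆ (Finset.range n).filter (fun p => IsZ (V p)) := by
      intro p hp
      rw [Finset.mem_range] at hp
      rw [Finset.mem_filter, Finset.mem_range]
      refine ⟨by omega, ?_⟩
      have h1 := (BDD_chain n hn V h p).1 (by omega)
      have e : V p = (V p - ((p : ℚ) + 1) * V 0) + (((p : ℤ) + 1 : ℤ) : ℚ) * V 0 := by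
        push_cast
        ring
      rw [e]
      exact BDD_add h1 (BDD_mul _ h0)
    have hcard : n - 2 ≤ e0 n V := by
      have h1 := Finset.card_le_card hsub
      rw [Finset.card_range] at h1
      unfold e0
      exact h1
    refine ⟨?_, by omega⟩
    calc n - 1 ≤ 1 * (e0 n V + 1) := by omega
      _ ≤ r * (e0 n V + 1) := Nat.mul_le_mul_right _ hr1
  · have h2 := BDD_two n hn V h
    have hsub : (Finset.range ((n - 2) / 2)).image (fun i => 2 * i + 1) ⊆
        (Finset.range n).filter (fun p => IsZ (V p)) := by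
      intro p hp
      rw [Finset.mem_image] at hp
      obtain ⟨i, hi, rfl⟩ := hp
      rw [Finset.mem_range] at hi
      rw [Finset.mem_filter, Finset.mem_range]
      refine ⟨by omega, ?_⟩
      have h1 := (BDD_chain n hn V h (2 * i + 1)).1 (by omega)
      have e : V (2 * i + 1) = (V (2 * i + 1) - (((2 * i + 1 : ℕ) : ℚ) + 1) * V 0) +
          (((i : ℤ) + 1 : ℤ) : ℚ) * (2 * V 0) := by
        push_cast
        ring
      rw [e]
      exact BDD_add h1 (BDD_mul _ h2)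
    have hcard : (n - 2) / 2 ≤ e0 n V := by
      have h1 := Finset.card_le_card hsub
      rw [Finset.card_image_of_injective _ (fun i j hij => by
        have : 2 * i + 1 = 2 * j + 1 := hij
        omega), Finset.card_range] at h1
      unfold e0
      exact h1
    have hr2 : 2 ≤ r := by
      by_contra hlt
      have hr0 : r = 1 := by omega
      apply h0
      have h3 := (hrk 1).2 (by rw [hr0]) 0 (by omega)
      rw [Nat.cast_one, one_mul] at h3
      exact h3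
    refine ⟨?_, by omega⟩
    calc n - 1 ≤ 2 * (e0 n V + 1) := by omega
      _ ≤ r * (e0 n V + 1) := Nat.mul_le_mul_right _ hr2

end Pool.H88.Num
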