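import Pool.Agent.H88.KA.BD0

/-!
KAC ADE numbers, classes, type E.  `TT n 2`: chain `0, …, n - 2`, vertex `n - 1` attached to `2`.  All congruences modulo `ℤ`.

`E_6` (n = 6): `V1 ≡ 2 V0`, `V2 ≡ 3 V0`, `V3 ≡ 2 V4`, `V2 ≡ 3 V4`, `2 V5 ≡ V2`, `2 V2 ≡ V1 + V3 + V5`; hence `V5 ≡ 4 V0 - 2 V4`,
`5 V0 ≡ 4 V4`, `V4 ≡ 2 V0`, `3 V0 ≡ 0`, `V2 ≡ 0`, `V5 ≡ 0`, `V1 ≡ 2 V0`, `V3 ≡ V0`.  If `V0 ∈ ℤ` everything is integral, `e0 = 6`; otherwise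
`3 ∣ r` and `e0 ≥ 2`.
`E_7` (n = 7): `V1 ≡ 2 V0`, `V2 ≡ 3 V0`, `V4 ≡ 2 V5`, `V3 ≡ 3 V5`, `V2 ≡ 4 V5`, `2 V6 ≡ V2`, `2 V2 ≡ V1 + V3 + V6`; hence `V0 ≡ 0`, `2 V5 ≡ 0`,
`V1 ≡ V2 ≡ V4 ≡ 0`, `V3 ≡ V5 ≡ V6`.  If not everything is integral, `r ≥ 2` and `e0 ≥ 4`.
`E_8` (n = 8): `V1 ≡ 2 V0`, `V2 ≡ 3 V0`, `V5 ≡ 2 V6`, `V4 ≡ 3 V6`, `V3 ≡ 4 V6`, `V2 ≡ 5 V6`, `2 V7 ≡ V2`, `2 V2 ≡ V1 + V3 + V7`; hence all `≡ 0`.
(Explicitly: the entries of the inverse Cartan matrix.)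
-/

set_option autoImplicit false

namespace Pool.H88.Num

open scoped BigOperators
open Pool.Agent.H27.KAC (IsZ)
open Pool.H88.KA

private theorem BDE_full (n : ℕ) (V : ℕ → ℚ) (h : ∀ p, p < n → IsZ (V p)) : e0 n V = n := by
  classical
  unfold e0
  rw [Finset.filter_true_of_mem]
  · exact Finset.card_range n
  · intro p hp
    exact h p (Finset.mem_range.1 hp)

private theorem BDE_sub (n : ℕ) (V : ℕ → ℚ) (s : Finset ℕ) (hs : ∀ p ∈ s, p < n ∧ IsZ (V p)) :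
    s.card ≤ e0 n V := by
  classical
  unfold e0
  refine Finset.card_le_card ?_
  intro p hp
  rw [Finset.mem_filter, Finset.mem_range]
  exact hs p hp

private theorem BDE_one (n : ℕ) (V : ℕ → ℚ) (h : Ord n V 1) : ∀ p, p < n → IsZ (V p) := by
  intro p hp
  have h1 := (h.2 1).2 (dvd_refl 1) p hp
  rwa [Nat.cast_one, one_mul] at h1

private theorem BDE_int6 (V : ℕ → ℚ) (h : WtN 6 2 V) :
    IsZ (V 2) ∧ IsZ (V 5) := by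
  have e0 : NBq 6 2 V 0 = V 1 := by
    simp [NBq]
  have e1 : NBq 6 2 V 1 = V 0 + V 2 := by
    simp [NBq]
  have e2 : NBq 6 2 V 2 = V 1 + V 3 + V 5 := by
    simp [NBq]
  have e3 : NBq 6 2 V 3 = V 2 + V 4 := by
    simp [NBq]
  have e4 : NBq 6 2 V 4 = V 3 := by
    simp [NBq]
  have e5 : NBq 6 2 V 5 = V 2 := by
    simp [NBq]
  obtain ⟨z0, h0⟩ := h 0 (by norm_num)
  rw [e0] at h0
  obtain ⟨z1, h1⟩ := h 1 (by norm_num)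
  rw [e1] at h1
  obtain ⟨z2, h2⟩ := h 2 (by norm_num)
  rw [e2] at h2
  obtain ⟨z3, h3⟩ := h 3 (by norm_num)
  rw [e3] at h3
  obtain ⟨z4, h4⟩ := h 4 (by norm_num)
  rw [e4] at h4
  obtain ⟨z5, h5⟩ := h 5 (by norm_num)
  rw [e5] at h5
  refine ⟨?_, ?_⟩
  · exact ⟨2 * z0 + 4 * z1 + 6 * z2 + 4 * z3 + 2 * z4 + 3 * z5, by push_cast; linarith⟩
  · exact ⟨1 * z0 + 2 * z1 + 3 * z2 + 2 * z3 + 1 * z4 + 2 * z5, by push_cast; linarith⟩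

private theorem BDE_int7 (V : ℕ → ℚ) (h : WtN 7 2 V) :
    IsZ (V 0) ∧ IsZ (V 1) ∧ IsZ (V 2) ∧ IsZ (V 4) := by
  have e0 : NBq 7 2 V 0 = V 1 := by
    simp [NBq]
  have e1 : NBq 7 2 V 1 = V 0 + V 2 := by
    simp [NBq]
  have e2 : NBq 7 2 V 2 = V 1 + V 3 + V 6 := by
    simp [NBq]
  have e3 : NBq 7 2 V 3 = V 2 + V 4 := by
    simp [NBq]
  have e4 : NBq 7 2 V 4 = V 3 + V 5 := by
    simp [NBq]
  have e5 : NBq 7 2 V 5 = V 4 := by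
    simp [NBq]
  have e6 : NBq 7 2 V 6 = V 2 := by
    simp [NBq]
  obtain ⟨z0, h0⟩ := h 0 (by norm_num)
  rw [e0] at h0
  obtain ⟨z1, h1⟩ := h 1 (by norm_num)
  rw [e1] at h1
  obtain ⟨z2, h2⟩ := h 2 (by norm_num)
  rw [e2] at h2
  obtain ⟨z3, h3⟩ := h 3 (by norm_num)
  rw [e3] at h3
  obtain ⟨z4, h4⟩ := h 4 (by norm_num)
  rw [e4] at h4
  obtain ⟨z5, h5⟩ := h 5 (by norm_num)
  rw [e5] at h5
  obtain ⟨z6, h6⟩ := h 6 (by norm_num)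
  rw [e6] at h6
  refine ⟨?_, ?_, ?_, ?_⟩
  · exact ⟨2 * z0 + 3 * z1 + 4 * z2 + 3 * z3 + 2 * z4 + 1 * z5 + 2 * z6, by push_cast; linarith⟩
  · exact ⟨3 * z0 + 6 * z1 + 8 * z2 + 6 * z3 + 4 * z4 + 2 * z5 + 4 * z6, by push_cast; linarith⟩
  · exact ⟨4 * z0 + 8 * z1 + 12 * z2 + 9 * z3 + 6 * z4 + 3 * z5 + 6 * z6, by push_cast; linarith⟩
  · exact ⟨2 * z0 + 4 * z1 + 6 * z2 + 5 * z3 + 4 * z4 + 2 * z5 + 3 * z6, by push_cast; linarith⟩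

private theorem BDE_int8 (V : ℕ → ℚ) (h : WtN 8 2 V) :
    IsZ (V 0) ∧ IsZ (V 1) ∧ IsZ (V 2) ∧ IsZ (V 3) ∧ IsZ (V 4) ∧ IsZ (V 5) ∧ IsZ (V 6) ∧ IsZ (V 7) := by
  have e0 : NBq 8 2 V 0 = V 1 := by
    simp [NBq]
  have e1 : NBq 8 2 V 1 = V 0 + V 2 := by
    simp [NBq]
  have e2 : NBq 8 2 V 2 = V 1 + V 3 + V 7 := by
    simp [NBq]
  have e3 : NBq 8 2 V 3 = V 2 + V 4 := by
    simp [NBq]
  have e4 : NBq 8 2 V 4 = V 3 + V 5 := by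
    simp [NBq]
  have e5 : NBq 8 2 V 5 = V 4 + V 6 := by
    simp [NBq]
  have e6 : NBq 8 2 V 6 = V 5 := by
    simp [NBq]
  have e7 : NBq 8 2 V 7 = V 2 := by
    simp [NBq]
  obtain ⟨z0, h0⟩ := h 0 (by norm_num)
  rw [e0] at h0
  obtain ⟨z1, h1⟩ := h 1 (by norm_num)
  rw [e1] at h1
  obtain ⟨z2, h2⟩ := h 2 (by norm_num)
  rw [e2] at h2
  obtain ⟨z3, h3⟩ := h 3 (by norm_num)
  rw [e3] at h3
  obtain ⟨z4, h4⟩ := h 4 (by norm_num)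
  rw [e4] at h4
  obtain ⟨z5, h5⟩ := h 5 (by norm_num)
  rw [e5] at h5
  obtain ⟨z6, h6⟩ := h 6 (by norm_num)
  rw [e6] at h6
  obtain ⟨z7, h7⟩ := h 7 (by norm_num)
  rw [e7] at h7
  refine ⟨?_, ?_, ?_, ?_, ?_, ?_, ?_, ?_⟩
  · exact ⟨4 * z0 + 7 * z1 + 10 * z2 + 8 * z3 + 6 * z4 + 4 * z5 + 2 * z6 + 5 * z7, by push_cast; linarith⟩
  · exact ⟨7 * z0 + 14 * z1 + 20 * z2 + 16 * z3 + 12 * z4 + 8 * z5 + 4 * z6 + 10 * z7, by push_cast; linarith⟩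
  · exact ⟨10 * z0 + 20 * z1 + 30 * z2 + 24 * z3 + 18 * z4 + 12 * z5 + 6 * z6 + 15 * z7, by push_cast; linarith⟩
  · exact ⟨8 * z0 + 16 * z1 + 24 * z2 + 20 * z3 + 15 * z4 + 10 * z5 + 5 * z6 + 12 * z7, by push_cast; linarith⟩
  · exact ⟨6 * z0 + 12 * z1 + 18 * z2 + 15 * z3 + 12 * z4 + 8 * z5 + 4 * z6 + 9 * z7, by push_cast; linarith⟩
  · exact ⟨4 * z0 + 8 * z1 + 12 * z2 + 10 * z3 + 8 * z4 + 6 * z5 + 3 * z6 + 6 * z7, by push_cast; linarith⟩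
  · exact ⟨2 * z0 + 4 * z1 + 6 * z2 + 5 * z3 + 4 * z4 + 3 * z5 + 2 * z6 + 3 * z7, by push_cast; linarith⟩
  · exact ⟨5 * z0 + 10 * z1 + 15 * z2 + 12 * z3 + 9 * z4 + 6 * z5 + 3 * z6 + 8 * z7, by push_cast; linarith⟩

theorem bd_E6 (V : ℕ → ℚ) (r : ℕ) (h : WtN 6 2 V) (hr : Ord 6 V r) :
    6 ≤ r * (e0 6 V + 1) ∧ 1 ≤ e0 6 V := by
  obtain ⟨h2, h5⟩ := BDE_int6 V h
  have hc : 2 ≤ e0 6 V := by
    have := BDE_sub 6 V {2, 5} (by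
      intro p hp
      simp only [Finset.mem_insert, Finset.mem_singleton] at hp
      rcases hp with rfl | rfl
      · exact ⟨by norm_num, h2⟩
      · exact ⟨by norm_num, h5⟩)
    simpa using this
  refine ⟨?_, by omega⟩
  have hr1 := hr.1
  rcases Nat.lt_or_ge 1 r with h1 | h1
  · calc 6 = 2 * 3 := by norm_num
      _ ≤ r * (e0 6 V + 1) := Nat.mul_le_mul h1 (by omega)
  · have hr' : r = 1 := by omega
    subst hr'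
    have := BDE_full 6 V (BDE_one 6 V hr)
    omega

theorem bd_E7 (V : ℕ → ℚ) (r : ℕ) (h : WtN 7 2 V) (hr : Ord 7 V r) :
    (∀ p, p < 7 → IsZ (V p)) ∨ (9 ≤ r * (e0 7 V + 1) ∧ 1 ≤ e0 7 V) := by
  obtain ⟨h0, h1, h2, h4⟩ := BDE_int7 V h
  have hc : 4 ≤ e0 7 V := by
    have := BDE_sub 7 V {0, 1, 2, 4} (by
      intro p hp
      simp only [Finset.mem_insert, Finset.mem_singleton] at hp
      rcases hp with rfl | rfl | rfl | rfl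
      · exact ⟨by norm_num, h0⟩
      · exact ⟨by norm_num, h1⟩
      · exact ⟨by norm_num, h2⟩
      · exact ⟨by norm_num, h4⟩)
    simpa using this
  have hr1 := hr.1
  rcases Nat.lt_or_ge 1 r with h3 | h3
  · right
    refine ⟨?_, by omega⟩
    calc 9 ≤ 2 * 5 := by norm_num
      _ ≤ r * (e0 7 V + 1) := Nat.mul_le_mul h3 (by omega)
  · left
    have hr' : r = 1 := by omega
    subst hr'
    exact BDE_one 7 V hr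

theorem bd_E8 (V : ℕ → ℚ) (h : WtN 8 2 V) : ∀ p, p < 8 → IsZ (V p) := by
  obtain ⟨h0, h1, h2, h3, h4, h5, h6, h7⟩ := BDE_int8 V h
  intro p hp
  interval_cases p
  · exact h0
  · exact h1
  · exact h2
  · exact h3
  · exact h4
  · exact h5
  · exact h6
  · exact h7

end Pool.H88.Num
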