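import Pool.Agent.H88.KA.KN4

/-!
KAC ADE, classification: tools (pull back of positive definiteness, test vectors, numeric adjacency).
-/

set_option autoImplicit false

namespace Pool.H88.KA

open scoped BigOperators

theorem PD.comap {N K : Type} [Fintype N] [Fintype K] {a : N → N → ℕ} (h : PD a) (ψ : K → N)
    (hψ : Function.Injective ψ) : PD (fun i j => a (ψ i) (ψ j)) := by
  classical
  intro w hw
  obtain ⟨v, hv⟩ : ∃ v : N → ℤ, v = Function.extend ψ w (fun _ => 0) := ⟨_, rfl⟩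
  have hv1 : ∀ i, v (ψ i) = w i := fun i => by rw [hv]; exact hψ.extend_apply w _ i
  have hv2 : ∀ z, z ∉ Set.range ψ → v z = 0 := by
    intro z hz
    rw [hv]
    exact Function.extend_apply' w _ z (fun hc => hz hc)
  have hne : v ≠ 0 := by
    intro hc
    apply hw
    funext i
    rw [← hv1 i, hc]
    rfl
  have h1 := h v hne
  have h2 : ∀ x, ∑ y, (a x y : ℤ) * v y = ∑ j, (a x (ψ j) : ℤ) * w j := by
    intro x
    symm
    apply Fintype.sum_of_injective ψ hψ
    · intro z hz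
      rw [hv2 z hz, mul_zero]
    · intro j
      rw [hv1 j]
  have h3 : ∑ x, v x * cZ a v x = ∑ i, w i * cZ (fun i j => a (ψ i) (ψ j)) w i := by
    symm
    apply Fintype.sum_of_injective ψ hψ
    · intro z hz
      rw [hv2 z hz, zero_mul]
    · intro i
      unfold cZ
      rw [hv1 i, h2]
  rw [← h3]
  exact h1

/-- a nonnegative vector with `C w ≤ 0` on its support contradicts positive definiteness. -/
theorem PD.test {K : Type} [Fintype K] {a : K → K → ℕ} (h : PD a) (w : K → ℕ)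
    (hne : ∃ i, w i ≠ 0) (hw : ∀ i, w i ≠ 0 → 2 * w i ≤ ∑ j, a i j * w j) : False := by
  have h1 := h (fun i => (w i : ℤ)) (fun hc => by
    obtain ⟨i, hi⟩ := hne
    have := congrFun hc i
    simp only [Pi.zero_apply, Nat.cast_eq_zero] at this
    exact hi this)
  have h2 : ∑ x, (w x : ℤ) * cZ a (fun i => (w i : ℤ)) x ≤ 0 := by
    apply Finset.sum_nonpos
    intro x _
    by_cases hx : w x = 0
    · rw [hx]
      simp
    · have h3 := hw x hx
      have h4 : (2 * (w x : ℤ)) ≤ ∑ y, (a x y : ℤ) * (w y : ℤ) := by exact_mod_cast h3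
      have h5 : cZ a (fun i => (w i : ℤ)) x ≤ 0 := by
        unfold cZ
        linarith
      have h6 : (0 : ℤ) ≤ w x := Int.natCast_nonneg _
      nlinarith
  linarith

/-- numeric version of `TT`. -/
def TTn (n c p q : ℕ) : ℕ :=
  if (p + 1 = q ∧ q + 2 ≤ n) ∨ (q + 1 = p ∧ p + 2 ≤ n) ∨
    (p = c ∧ q + 1 = n ∧ p ≠ q) ∨ (q = c ∧ p + 1 = n ∧ p ≠ q) then 1 else 0

theorem TT_eq (n c : ℕ) (i j : Fin n) : TT n c i j = TTn n c i.1 j.1 := rfl

/-- neighbour sum at `p`. -/
def NB (n c : ℕ) (W : ℕ → ℕ) (p : ℕ) : ℕ :=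
  if p + 1 = n then W c else
    (if 1 ≤ p then W (p - 1) else 0) + (if p + 3 ≤ n then W (p + 1) else 0) +
      (if p = c then W (n - 1) else 0)

theorem TT_sumN (n c : ℕ) (hc : c + 2 ≤ n) (W : ℕ → ℕ) (i : Fin n) :
    ∑ j : Fin n, TTn n c i.1 j.1 * W j.1 = NB n c W i.1 := by
  have h1 := TT_sum n c hc (fun p => (W p : ℤ)) i
  have h2 : ((∑ j : Fin n, TTn n c i.1 j.1 * W j.1 : ℕ) : ℤ) = (NB n c W i.1 : ℤ) := by
    push_cast
    unfold NB
    push_cast
    exact h1
  exact_mod_cast h2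

/-- adjacency after adding one vertex with index `n`, joined to `q` with `b q` edges. -/
def gb (n c : ℕ) (b : ℕ → ℕ) (p q : ℕ) : ℕ :=
  if p = n then (if q = n then 0 else b q) else if q = n then b p else TTn n c p q

theorem gb_sum (n c : ℕ) (hc : c + 2 ≤ n) (b W : ℕ → ℕ) (p : ℕ) (hp : p < n) :
    ∑ q : Fin (n + 1), gb n c b p q.1 * W q.1 = NB n c W p + b p * W n := by
  rw [Fin.sum_univ_castSucc]
  congr 1
  · rw [← TT_sumN n c hc W ⟨p, hp⟩]
    refine Finset.sum_congr rfl fun q _ => ?_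
    unfold gb
    have hq := q.2
    rw [if_neg (by omega), if_neg (by simp; omega)]
    rfl
  · unfold gb
    rw [if_neg (by omega), if_pos (by simp)]
    simp

theorem gb_sum_last (n c : ℕ) (b W : ℕ → ℕ) :
    ∑ q : Fin (n + 1), gb n c b n q.1 * W q.1 = ∑ q ∈ Finset.range n, b q * W q := by
  rw [Fin.sum_univ_castSucc, ← Fin.sum_univ_eq_sum_range (fun q => b q * W q) n]
  have h1 : gb n c b n (Fin.last n).1 = 0 := by
    unfold gb
    simp
  rw [h1, zero_mul, add_zero]
  refine Finset.sum_congr rfl fun q _ => ?_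
  unfold gb
  have hq := q.2
  rw [if_pos rfl, if_neg (by simp; omega)]
  rfl

/-- the test vector lemma in numeric form. -/
theorem gb_test (n c : ℕ) (hc : c + 2 ≤ n) (b : ℕ → ℕ)
    (hpd : PD (fun i j : Fin (n + 1) => gb n c b i.1 j.1)) (W : ℕ → ℕ)
    (hne : ∃ p, p ≤ n ∧ W p ≠ 0) (h1 : ∀ p, p < n → W p ≠ 0 → 2 * W p ≤ NB n c W p + b p * W n)
    (h2 : W n ≠ 0 → 2 * W n ≤ ∑ q ∈ Finset.range n, b q * W q) : False := by
  apply hpd.test (fun i => W i.1)
  · obtain ⟨p, hp, hp'⟩ := hne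
    exact ⟨⟨p, by omega⟩, hp'⟩
  · intro i hi
    have hi' := i.2
    rcases Nat.lt_or_ge i.1 n with h | h
    · rw [gb_sum n c hc b W i.1 h]
      exact h1 i.1 h hi
    · have h3 : i.1 = n := by omega
      simp only [h3] at hi ⊢
      rw [gb_sum_last n c b W]
      exact h2 hi

theorem le_sum_one (n : ℕ) (f : ℕ → ℕ) (y : ℕ) (hy : y < n) : f y ≤ ∑ q ∈ Finset.range n, f q :=
  Finset.single_le_sum (f := f) (fun _ _ => Nat.zero_le _) (Finset.mem_range.2 hy)

theorem le_sum_two (n : ℕ) (f : ℕ → ℕ) (y y' : ℕ) (hy : y < n) (hy' : y' < n) (hne : y ≠ y') :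
    f y + f y' ≤ ∑ q ∈ Finset.range n, f q := by
  rw [← Finset.sum_pair hne]
  apply Finset.sum_le_sum_of_subset
  intro z hz
  rw [Finset.mem_insert, Finset.mem_singleton] at hz
  rw [Finset.mem_range]
  rcases hz with h | h <;> omega

end Pool.H88.KA
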