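import Pool.Agent.H88.KA.CL1

/-!
KAC ADE, classification: adding one vertex to a standard graph.
-/

set_option autoImplicit false

namespace Pool.H88.KA

open scoped BigOperators

/-- the two kinds: a path, or a branched standard graph. -/
def OkT (n c : ℕ) : Prop := (2 ≤ n ∧ c + 2 = n) ∨ (1 ≤ c ∧ c + 3 ≤ n)

section step

variable (n c : ℕ) (b : ℕ → ℕ)

theorem step_le_one (hc : c + 2 ≤ n) (hpd : PD (fun i j : Fin (n + 1) => gb n c b i.1 j.1))
    (y : ℕ) (hy : y < n) : b y ≤ 1 := by
  by_contra hcon
  push Not at hcon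
  obtain ⟨W, hW⟩ : ∃ W : ℕ → ℕ, ∀ p, W p = if p = y ∨ p = n then 1 else 0 := ⟨_, fun _ => rfl⟩
  have hWn : W n = 1 := by rw [hW, if_pos (Or.inr rfl)]
  have hWy : W y = 1 := by rw [hW, if_pos (Or.inl rfl)]
  apply gb_test n c hc b hpd W
  · exact ⟨n, le_rfl, by omega⟩
  · intro p hp hp'
    have h1 : p = y := by
      by_contra h
      apply hp'
      rw [hW, if_neg]
      omega
    subst h1
    rw [hWn, hWy]
    omega
  · intro _
    rw [hWn]
    refine le_trans ?_ (le_sum_one n _ y hy)
    rw [hWy]
    omega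

theorem step_unique (hc : c + 2 ≤ n) (hpd : PD (fun i j : Fin (n + 1) => gb n c b i.1 j.1))
    (y y' : ℕ) (hyy : y < y') (hy' : y' < n) (h1 : b y ≠ 0) (h2 : b y' ≠ 0) : False := by
  rcases Nat.lt_or_ge (y' + 1) n with hlt | hge
  · obtain ⟨W, hW⟩ : ∃ W : ℕ → ℕ, ∀ p, W p = if (y ≤ p ∧ p ≤ y') ∨ p = n then 1 else 0 :=
      ⟨_, fun _ => rfl⟩
    have hWn : W n = 1 := by rw [hW, if_pos (Or.inr rfl)]
    apply gb_test n c hc b hpd W
    · exact ⟨n, le_rfl, by omega⟩
    · intro p hp hp'
      have h3 : y ≤ p ∧ p ≤ y' := by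
        by_contra h
        apply hp'
        rw [hW, if_neg]
        omega
      rw [hWn]
      unfold NB
      rw [hW p, hW c, hW (p - 1), hW (p + 1), hW (n - 1)]
      rcases Nat.lt_or_ge y p with hp1 | hp1
      · rcases Nat.lt_or_ge p y' with hp2 | hp2
        · split_ifs <;> omega
        · have h5 : p = y' := by omega
          subst h5
          split_ifs <;> omega
      · have h5 : p = y := by omega
        subst h5
        split_ifs <;> omega
    · intro _
      rw [hWn]
      refine le_trans ?_ (le_sum_two n _ y y' (by omega) hy' (by omega))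
      rw [hW, hW, if_pos (by omega), if_pos (by omega)]
      omega
  · have hyn : y' + 1 = n := by omega
    obtain ⟨lo, hlo⟩ : ∃ lo, lo = min y c := ⟨_, rfl⟩
    obtain ⟨hi, hhi⟩ : ∃ hi, hi = max y c := ⟨_, rfl⟩
    obtain ⟨W, hW⟩ : ∃ W : ℕ → ℕ, ∀ p, W p =
      if (lo ≤ p ∧ p ≤ hi) ∨ p = n ∨ p + 1 = n then 1 else 0 := ⟨_, fun _ => rfl⟩
    have hWn : W n = 1 := by rw [hW, if_pos (Or.inr (Or.inl rfl))]
    apply gb_test n c hc b hpd W
    · exact ⟨n, le_rfl, by omega⟩
    · intro p hp hp'
      have h3 : (lo ≤ p ∧ p ≤ hi) ∨ p + 1 = n := by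
        by_contra h
        apply hp'
        rw [hW, if_neg]
        omega
      rw [hWn]
      unfold NB
      rw [hW p, hW c, hW (p - 1), hW (p + 1), hW (n - 1)]
      by_cases h5 : p + 1 = n
      · have h6 : p = y' := by omega
        subst h6
        split_ifs <;> omega
      · by_cases h7 : p = y
        · subst h7
          split_ifs <;> omega
        · split_ifs <;> omega
    · intro _
      rw [hWn]
      refine le_trans ?_ (le_sum_two n _ y y' (by omega) hy' (by omega))
      rw [hW, hW, if_pos (by omega), if_pos (by omega)]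
      omega

/-- a chain vertex which is not an end is not allowed for branched graphs. -/
theorem step_inner (hc1 : 1 ≤ c) (hc : c + 3 ≤ n)
    (hpd : PD (fun i j : Fin (n + 1) => gb n c b i.1 j.1))
    (y : ℕ) (hy1 : 1 ≤ y) (hy : y + 3 ≤ n) (h1 : b y ≠ 0) : False := by
  obtain ⟨lo, hlo⟩ : ∃ lo, lo = min y c := ⟨_, rfl⟩
  obtain ⟨hi, hhi⟩ : ∃ hi, hi = max y c := ⟨_, rfl⟩
  obtain ⟨W, hW⟩ : ∃ W : ℕ → ℕ, ∀ p, W p = if lo ≤ p ∧ p ≤ hi then 2 else
    if p + 1 = lo ∨ p = hi + 1 ∨ p = n ∨ p + 1 = n then 1 else 0 := ⟨_, fun _ => rfl⟩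
  have hWn : W n = 1 := by rw [hW, if_neg (by omega), if_pos (by omega)]
  apply gb_test n c (by omega) b hpd W
  · exact ⟨n, le_rfl, by omega⟩
  · intro p hp hp'
    have h3 : (lo ≤ p ∧ p ≤ hi) ∨ p + 1 = lo ∨ p = hi + 1 ∨ p + 1 = n := by
      by_contra h
      apply hp'
      rw [hW, if_neg (by omega), if_neg (by omega)]
    rw [hWn]
    unfold NB
    have hWn1 : W (n - 1) = 1 := by rw [hW, if_neg (by omega), if_pos (by omega)]
    have hWc : W c = 2 := by rw [hW, if_pos (by omega)]
    have hWy : W y = 2 := by rw [hW, if_pos (by omega)]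
    by_cases h5 : p + 1 = n
    · have h6 : p = n - 1 := by omega
      rw [if_pos h5, hWc, h6, hWn1]
      omega
    · rw [if_neg h5, hWn1]
      rcases h3 with h3 | h3 | h3 | h3
      · -- inside
        have e0 : W p = 2 := by rw [hW, if_pos h3]
        have e1 : 1 ≤ W (p - 1) := by rw [hW]; split_ifs <;> omega
        have e2 : 1 ≤ W (p + 1) := by rw [hW]; split_ifs <;> omega
        rw [e0, if_pos (by omega), if_pos (by omega)]
        by_cases h6 : p = c
        · rw [if_pos h6]
          by_cases h7 : p = y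
          · subst h7
            omega
          · rcases Nat.lt_or_ge p y with h8 | h8
            · have e3 : W (p + 1) = 2 := by rw [hW, if_pos (by omega)]
              omega
            · have e3 : W (p - 1) = 2 := by rw [hW, if_pos (by omega)]
              omega
        · rw [if_neg h6]
          by_cases h7 : p = y
          · subst h7
            rcases Nat.lt_or_ge p c with h8 | h8
            · have e3 : W (p + 1) = 2 := by rw [hW, if_pos (by omega)]
              omega
            · have e3 : W (p - 1) = 2 := by rw [hW, if_pos (by omega)]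
              omega
          · have e3 : W (p + 1) = 2 := by rw [hW, if_pos (by omega)]
            have e4 : W (p - 1) = 2 := by rw [hW, if_pos (by omega)]
            omega
      · have e0 : W p = 1 := by rw [hW, if_neg (by omega), if_pos (by omega)]
        have e2 : W (p + 1) = 2 := by rw [hW, if_pos (by omega)]
        rw [e0, e2, if_pos (by omega : p + 3 ≤ n)]
        omega
      · have e0 : W p = 1 := by rw [hW, if_neg (by omega), if_pos (by omega)]
        have e2 : W (p - 1) = 2 := by rw [hW, if_pos (by omega)]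
        rw [e0, e2, if_pos (by omega : 1 ≤ p)]
        omega
      · exact absurd h3 h5
  · intro _
    rw [hWn]
    refine le_trans ?_ (le_sum_one n _ y (by omega))
    rw [hW, if_pos (by omega)]
    omega

/-- the extra arm cannot be extended in the middle. -/
theorem step_extra (hc1 : 2 ≤ c) (hc : c + 4 ≤ n)
    (hpd : PD (fun i j : Fin (n + 1) => gb n c b i.1 j.1)) (h1 : b (n - 1) ≠ 0) : False := by
  obtain ⟨W, hW⟩ : ∃ W : ℕ → ℕ, ∀ p, W p = if p = c then 3 else
    if p + 1 = c ∨ p = c + 1 ∨ p + 1 = n then 2 else if p + 2 = c ∨ p = c + 2 ∨ p = n then 1 else 0 :=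
    ⟨_, fun _ => rfl⟩
  have hWn : W n = 1 := by rw [hW, if_neg (by omega), if_neg (by omega), if_pos (by omega)]
  apply gb_test n c (by omega) b hpd W
  · exact ⟨n, le_rfl, by omega⟩
  · intro p hp hp'
    rw [hWn]
    rw [hW] at hp'
    unfold NB
    rw [hW p, hW c, hW (p - 1), hW (p + 1), hW (n - 1)]
    by_cases h5 : p + 1 = n
    · have h6 : p = n - 1 := by omega
      rw [← h6] at h1
      split_ifs <;> omega
    · rw [if_neg h5]
      split_ifs at hp' ⊢ <;> omega
  · intro _
    rw [hWn]
    refine le_trans ?_ (le_sum_one n _ (n - 1) (by omega))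
    rw [hW, if_neg (by omega), if_pos (by omega)]
    omega

end step

end Pool.H88.KA
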