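import Pool.Agent.H88.KA.CL2

/-!
KAC ADE, classification: relabelling after adding one vertex.
-/

set_option autoImplicit false

namespace Pool.H88.KA

open scoped BigOperators

/-- relabelling data. -/
def Relab (n c : ℕ) (b : ℕ → ℕ) (c' : ℕ) (s : ℕ → ℕ) : Prop :=
  OkT (n + 1) c' ∧ (∀ p, p ≤ n → s p ≤ n) ∧ (∀ p q, p ≤ n → q ≤ n → s p = s q → p = q) ∧
    ∀ p q, p ≤ n → q ≤ n → gb n c b (s p) (s q) = TTn (n + 1) c' p q

section

variable (n c : ℕ) (b : ℕ → ℕ) (y : ℕ)

/-- identity relabelling. -/
theorem relab_id (hb : ∀ q, q < n → b q = if q = y then 1 else 0) (c' : ℕ)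
    (hT : OkT (n + 1) c') (h : (c + 2 = n ∧ 1 ≤ y ∧ y + 2 ≤ n ∧ c' = y) ∨
      (c + 2 = n ∧ y + 1 = n ∧ c' + 1 = n)) :
    Relab n c b c' (fun p => p) := by
  refine ⟨hT, fun p hp => hp, fun p q _ _ hpq => hpq, ?_⟩
  intro p q hp hq
  show gb n c b p q = TTn (n + 1) c' p q
  unfold gb
  by_cases h1 : p = n
  · rw [if_pos h1]
    by_cases h2 : q = n
    · rw [if_pos h2]
      unfold TTn
      rw [if_neg]
      omega
    · rw [if_neg h2, hb q (by omega)]
      unfold TTn
      split_ifs <;> omega
  · rw [if_neg h1]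
    by_cases h2 : q = n
    · rw [if_pos h2, hb p (by omega)]
      unfold TTn
      split_ifs <;> omega
    · rw [if_neg h2]
      unfold TTn
      split_ifs <;> omega

/-- relabelling `0 ↦ n`, `i ↦ i - 1`. -/
theorem relab_shift (hb : ∀ q, q < n → b q = if q = y then 1 else 0) (c' : ℕ)
    (hT : OkT (n + 1) c') (hn : 2 ≤ n) (hc : c + 2 ≤ n) (h : y = 0 ∧ c' = c + 1) :
    Relab n c b c' (fun p => if p = 0 then n else p - 1) := by
  refine ⟨hT, fun p hp => ?_, fun p q hp hq hpq => ?_, ?_⟩
  · simp only
    split_ifs <;> omega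
  · simp only at hpq
    split_ifs at hpq <;> omega
  · intro p q hp hq
    show gb n c b (if p = 0 then n else p - 1) (if q = 0 then n else q - 1) = TTn (n + 1) c' p q
    unfold gb
    by_cases h1 : p = 0
    · rw [if_pos h1, if_pos rfl]
      by_cases h2 : q = 0
      · rw [if_pos h2, if_pos rfl]
        unfold TTn
        rw [if_neg]
        omega
      · rw [if_neg h2, if_neg (by omega), hb _ (by omega)]
        unfold TTn
        split_ifs <;> omega
    · rw [if_neg h1, if_neg (by omega)]
      by_cases h2 : q = 0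
      · rw [if_pos h2, if_pos rfl, hb _ (by omega)]
        unfold TTn
        split_ifs <;> omega
      · rw [if_neg h2, if_neg (by omega)]
        unfold TTn
        split_ifs <;> omega

/-- relabelling exchanging `n - 1` and `n`. -/
theorem relab_swap (hb : ∀ q, q < n → b q = if q = y then 1 else 0) (c' : ℕ)
    (hT : OkT (n + 1) c') (hc1 : 1 ≤ c) (hc : c + 3 ≤ n) (h : y + 2 = n ∧ c' = c) :
    Relab n c b c' (fun p => if p + 1 = n then n else if p = n then n - 1 else p) := by
  refine ⟨hT, fun p hp => ?_, fun p q hp hq hpq => ?_, ?_⟩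
  · simp only
    split_ifs <;> omega
  · simp only at hpq
    split_ifs at hpq <;> omega
  · intro p q hp hq
    obtain ⟨u, hu⟩ : ∃ u, u = (if p + 1 = n then n else if p = n then n - 1 else p) := ⟨_, rfl⟩
    obtain ⟨v, hv⟩ : ∃ v, v = (if q + 1 = n then n else if q = n then n - 1 else q) := ⟨_, rfl⟩
    show gb n c b (if p + 1 = n then n else if p = n then n - 1 else p)
      (if q + 1 = n then n else if q = n then n - 1 else q) = TTn (n + 1) c' p q
    rw [← hu, ← hv]
    have hu' : (p + 1 = n ∧ u = n) ∨ (p = n ∧ u + 1 = n) ∨ (p + 1 < n ∧ u = p) := by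
      rw [hu]
      split_ifs <;> omega
    have hv' : (q + 1 = n ∧ v = n) ∨ (q = n ∧ v + 1 = n) ∨ (q + 1 < n ∧ v = q) := by
      rw [hv]
      split_ifs <;> omega
    clear hu hv
    unfold gb
    by_cases h1 : u = n
    · rw [if_pos h1]
      by_cases h2 : v = n
      · rw [if_pos h2]
        unfold TTn
        rw [if_neg]
        omega
      · rw [if_neg h2, hb _ (by omega)]
        unfold TTn
        split_ifs <;> omega
    · rw [if_neg h1]
      by_cases h2 : v = n
      · rw [if_pos h2, hb _ (by omega)]
        unfold TTn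
        split_ifs <;> omega
      · rw [if_neg h2]
        unfold TTn
        split_ifs <;> omega

/-- the extra vertex is extended, `c = 1`. -/
theorem relab_ex1 (hb : ∀ q, q < n → b q = if q = y then 1 else 0)
    (hc1 : c = 1) (hc : 4 ≤ n) (h : y + 1 = n) :
    Relab n c b 2 (fun p => if p = 0 then n else if p = 1 then n - 1 else if p = n then 0 else p - 1) := by
  refine ⟨Or.inr (by omega), fun p hp => ?_, fun p q hp hq hpq => ?_, ?_⟩
  · simp only
    split_ifs <;> omega
  · simp only at hpq
    split_ifs at hpq <;> omega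
  · intro p q hp hq
    obtain ⟨u, hu⟩ : ∃ u, u =
      (if p = 0 then n else if p = 1 then n - 1 else if p = n then 0 else p - 1) := ⟨_, rfl⟩
    obtain ⟨v, hv⟩ : ∃ v, v =
      (if q = 0 then n else if q = 1 then n - 1 else if q = n then 0 else q - 1) := ⟨_, rfl⟩
    show gb n c b (if p = 0 then n else if p = 1 then n - 1 else if p = n then 0 else p - 1)
      (if q = 0 then n else if q = 1 then n - 1 else if q = n then 0 else q - 1) = TTn (n + 1) 2 p q
    rw [← hu, ← hv]
    have hu' : (p = 0 ∧ u = n) ∨ (p = 1 ∧ u + 1 = n) ∨ (p = n ∧ u = 0) ∨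
        (2 ≤ p ∧ p < n ∧ u + 1 = p) := by
      rw [hu]
      split_ifs <;> omega
    have hv' : (q = 0 ∧ v = n) ∨ (q = 1 ∧ v + 1 = n) ∨ (q = n ∧ v = 0) ∨
        (2 ≤ q ∧ q < n ∧ v + 1 = q) := by
      rw [hv]
      split_ifs <;> omega
    clear hu hv
    unfold gb
    by_cases h1 : u = n
    · rw [if_pos h1]
      by_cases h2 : v = n
      · rw [if_pos h2]
        unfold TTn
        rw [if_neg]
        omega
      · rw [if_neg h2, hb _ (by omega)]
        unfold TTn
        split_ifs <;> omega
    · rw [if_neg h1]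
      by_cases h2 : v = n
      · rw [if_pos h2, hb _ (by omega)]
        unfold TTn
        split_ifs <;> omega
      · rw [if_neg h2]
        unfold TTn
        split_ifs <;> omega

/-- the extra vertex is extended, `c = n - 3`. -/
theorem relab_ex2 (hb : ∀ q, q < n → b q = if q = y then 1 else 0)
    (hc1 : 1 ≤ c) (hc : c + 3 = n) (h : y + 1 = n) :
    Relab n c b c (fun p => if p + 2 = n then n - 1 else if p + 1 = n then n else
      if p = n then n - 2 else p) := by
  refine ⟨Or.inr (by omega), fun p hp => ?_, fun p q hp hq hpq => ?_, ?_⟩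
  · simp only
    split_ifs <;> omega
  · simp only at hpq
    split_ifs at hpq <;> omega
  · intro p q hp hq
    obtain ⟨u, hu⟩ : ∃ u, u =
      (if p + 2 = n then n - 1 else if p + 1 = n then n else if p = n then n - 2 else p) := ⟨_, rfl⟩
    obtain ⟨v, hv⟩ : ∃ v, v =
      (if q + 2 = n then n - 1 else if q + 1 = n then n else if q = n then n - 2 else q) := ⟨_, rfl⟩
    show gb n c b (if p + 2 = n then n - 1 else if p + 1 = n then n else if p = n then n - 2 else p)
      (if q + 2 = n then n - 1 else if q + 1 = n then n else if q = n then n - 2 else q) =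
        TTn (n + 1) c p q
    rw [← hu, ← hv]
    have hu' : (p + 2 = n ∧ u + 1 = n) ∨ (p + 1 = n ∧ u = n) ∨ (p = n ∧ u + 2 = n) ∨
        (p + 2 < n ∧ u = p) := by
      rw [hu]
      split_ifs <;> omega
    have hv' : (q + 2 = n ∧ v + 1 = n) ∨ (q + 1 = n ∧ v = n) ∨ (q = n ∧ v + 2 = n) ∨
        (q + 2 < n ∧ v = q) := by
      rw [hv]
      split_ifs <;> omega
    clear hu hv
    unfold gb
    by_cases h1 : u = n
    · rw [if_pos h1]
      by_cases h2 : v = n
      · rw [if_pos h2]
        unfold TTn
        rw [if_neg]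
        omega
      · rw [if_neg h2, hb _ (by omega)]
        unfold TTn
        split_ifs <;> omega
    · rw [if_neg h1]
      by_cases h2 : v = n
      · rw [if_pos h2, hb _ (by omega)]
        unfold TTn
        split_ifs <;> omega
      · rw [if_neg h2]
        unfold TTn
        split_ifs <;> omega

/-- every admissible extension of a standard graph is standard. -/
theorem step_exists (hT : OkT n c) (hpd : PD (fun i j : Fin (n + 1) => gb n c b i.1 j.1))
    (hex : ∃ y, y < n ∧ b y ≠ 0) : ∃ c' s, Relab n c b c' s := by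
  obtain ⟨y, hy, hby⟩ := hex
  have hc : c + 2 ≤ n := by
    rcases hT with h | h <;> omega
  have hb : ∀ q, q < n → b q = if q = y then 1 else 0 := by
    intro q hq
    have h1 := step_le_one n c b hc hpd q hq
    by_cases hqy : q = y
    · rw [if_pos hqy]
      subst hqy
      omega
    · rw [if_neg hqy]
      by_contra h2
      rcases Nat.lt_or_gt_of_ne hqy with h3 | h3
      · exact step_unique n c b hc hpd q y h3 hy h2 hby
      · exact step_unique n c b hc hpd y q h3 hq hby h2
  rcases hT with ⟨h1, h2⟩ | ⟨h1, h2⟩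
  · rcases Nat.lt_or_ge 0 y with h3 | h3
    · rcases Nat.lt_or_ge (y + 1) n with h4 | h4
      · exact ⟨y, _, relab_id n c b y hb y (Or.inr (by omega)) (Or.inl (by omega))⟩
      · exact ⟨n - 1, _, relab_id n c b y hb (n - 1) (Or.inl (by omega)) (Or.inr (by omega))⟩
    · exact ⟨c + 1, _, relab_shift n c b y hb (c + 1) (Or.inl (by omega)) h1 hc (by omega)⟩
  · rcases Nat.lt_or_ge 0 y with h3 | h3
    · rcases Nat.lt_or_ge (y + 2) n with h4 | h4
      · exact absurd hby (fun h => step_inner n c b h1 h2 hpd y h3 (by omega) h)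
      · rcases Nat.lt_or_ge (y + 1) n with h5 | h5
        · exact ⟨c, _, relab_swap n c b y hb c (Or.inr (by omega)) h1 h2 (by omega)⟩
        · by_cases h6 : c = 1
          · exact ⟨2, _, relab_ex1 n c b y hb h6 (by omega) (by omega)⟩
          · by_cases h7 : c + 3 = n
            · exact ⟨c, _, relab_ex2 n c b y hb h1 h7 (by omega)⟩
            · exfalso
              apply step_extra n c b (by omega) (by omega) hpd
              have h8 : n - 1 = y := by omega
              rw [h8]
              exact hby
    · exact ⟨c + 1, _, relab_shift n c b y hb (c + 1) (Or.inr (by omega)) (by omega) hc (by omega)⟩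

end

end Pool.H88.KA
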