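import Pool.Agent.H88.KA.CL3

/-!
KAC ADE, classification of the connected positive definite graphs.
-/

set_option autoImplicit false

namespace Pool.H88.KA

open scoped BigOperators

/-- the standard types: `A_1`, `A_n`, `D_n`, `E_6`, `E_7`, `E_8`. -/
def Std (n c : ℕ) : Prop :=
  (n = 1 ∧ c = 0) ∨ (2 ≤ n ∧ c + 2 = n) ∨ (4 ≤ n ∧ c + 3 = n) ∨ (c = 2 ∧ (n = 6 ∨ n = 7 ∨ n = 8))

/-- test vectors on a standard graph. -/
theorem TT_test (n c : ℕ) (hc : c + 2 ≤ n) (hpd : PD (TT n c)) (W : ℕ → ℕ)
    (hne : ∃ p, p < n ∧ W p ≠ 0) (h1 : ∀ p, p < n → W p ≠ 0 → 2 * W p ≤ NB n c W p) : False := by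
  apply hpd.test (fun i => W i.1)
  · obtain ⟨p, hp, hp'⟩ := hne
    exact ⟨⟨p, hp⟩, hp'⟩
  · intro i hi
    have h2 := TT_sumN n c hc W i
    have h3 : ∑ j : Fin n, TT n c i j * W j.1 = NB n c W i.1 := h2
    rw [h3]
    exact h1 i.1 i.2 hi

theorem no_E7t (n c : ℕ) (h1 : 3 ≤ c) (h2 : c + 5 ≤ n) (hpd : PD (TT n c)) : False := by
  obtain ⟨d, hd⟩ : ∃ d, c = d + 3 := ⟨c - 3, by omega⟩
  subst hd
  obtain ⟨W, hW⟩ : ∃ W : ℕ → ℕ, ∀ p, W p = if p < d then 0 else if p ≤ d + 3 then p + 1 - d else
    if p ≤ d + 6 then d + 7 - p else if p + 1 = n then 2 else 0 := ⟨_, fun _ => rfl⟩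
  have hWn : W (n - 1) = 2 := by
    rw [hW, if_neg (by omega), if_neg (by omega), if_neg (by omega), if_pos (by omega)]
  have hWc : W (d + 3) = 4 := by
    rw [hW, if_neg (by omega), if_pos (by omega)]
    omega
  apply TT_test n (d + 3) (by omega) hpd W
  · exact ⟨d + 3, by omega, by omega⟩
  · intro p hp hp'
    unfold NB
    rw [hWn, hWc]
    by_cases h5 : p + 1 = n
    · have h6 : p = n - 1 := by omega
      rw [if_pos h5, h6, hWn]
    · rw [if_neg h5]
      have h7 : d ≤ p ∧ p ≤ d + 6 := by
        by_contra h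
        apply hp'
        rcases Nat.lt_or_ge p d with h6 | h6
        · rw [hW, if_pos h6]
        · rw [hW, if_neg (by omega), if_neg (by omega), if_neg (by omega), if_neg h5]
      rcases Nat.lt_or_ge p (d + 3) with h8 | h8
      · have e1 : W p = p + 1 - d := by rw [hW, if_neg (by omega), if_pos (by omega)]
        have e2 : W (p + 1) = p + 2 - d := by rw [hW, if_neg (by omega), if_pos (by omega)]
        rcases Nat.lt_or_ge d p with h9 | h9
        · have e3 : W (p - 1) = p - d := by rw [hW, if_neg (by omega), if_pos (by omega)]; omega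
          rw [e1, e2, e3, if_pos (by omega : 1 ≤ p), if_pos (by omega : p + 3 ≤ n)]
          omega
        · rw [e1, e2, if_pos (by omega : p + 3 ≤ n)]
          omega
      · rcases Nat.lt_or_ge (d + 3) p with h10 | h10
        · have e1 : W p = d + 7 - p := by
            rw [hW, if_neg (by omega), if_neg (by omega), if_pos (by omega)]
          have e2 : W (p - 1) = d + 8 - p := by
            rcases Nat.lt_or_ge (d + 4) p with h11 | h11
            · rw [hW, if_neg (by omega), if_neg (by omega), if_pos (by omega)]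
              omega
            · rw [hW, if_neg (by omega), if_pos (by omega)]
              omega
          rcases Nat.lt_or_ge p (d + 6) with h9 | h9
          · have e3 : W (p + 1) = d + 6 - p := by
              rw [hW, if_neg (by omega), if_neg (by omega), if_pos (by omega)]
              omega
            rw [e1, e2, e3, if_pos (by omega : 1 ≤ p), if_pos (by omega : p + 3 ≤ n)]
            omega
          · rw [e1, e2, if_pos (by omega : 1 ≤ p)]
            omega
        · have h11 : p = d + 3 := by omega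
          subst h11
          have e2 : W (d + 3 - 1) = 3 := by rw [hW, if_neg (by omega), if_pos (by omega)]; omega
          have e3 : W (d + 3 + 1) = 3 := by
            rw [hW, if_neg (by omega), if_neg (by omega), if_pos (by omega)]
            omega
          rw [hWc, e2, e3, if_pos (by omega), if_pos (by omega), if_pos rfl]

theorem no_E8t (n c : ℕ) (h1 : c = 2) (h2 : 9 ≤ n) (hpd : PD (TT n c)) : False := by
  subst h1
  obtain ⟨W, hW⟩ : ∃ W : ℕ → ℕ, ∀ p, W p = if p ≤ 1 then 2 * p + 2 else if p ≤ 7 then 8 - p else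
    if p + 1 = n then 3 else 0 := ⟨_, fun _ => rfl⟩
  have hWn : W (n - 1) = 3 := by
    rw [hW, if_neg (by omega), if_neg (by omega), if_pos (by omega)]
  have hWc : W 2 = 6 := by rw [hW, if_neg (by omega), if_pos (by omega)]
  apply TT_test n 2 (by omega) hpd W
  · exact ⟨2, by omega, by omega⟩
  · intro p hp hp'
    unfold NB
    rw [hWn, hWc]
    by_cases h5 : p + 1 = n
    · have h6 : p = n - 1 := by omega
      rw [if_pos h5, h6, hWn]
    · rw [if_neg h5]
      have h7 : p ≤ 7 := by
        by_contra h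
        apply hp'
        rw [hW, if_neg (by omega), if_neg (by omega), if_neg (by omega)]
      have v0 : W 0 = 2 := by rw [hW, if_pos (by omega)]
      have v1 : W 1 = 4 := by rw [hW, if_pos (by omega)]
      have v3 : W 3 = 5 := by rw [hW, if_neg (by omega), if_pos (by omega)]
      have v4 : W 4 = 4 := by rw [hW, if_neg (by omega), if_pos (by omega)]
      have v5 : W 5 = 3 := by rw [hW, if_neg (by omega), if_pos (by omega)]
      have v6 : W 6 = 2 := by rw [hW, if_neg (by omega), if_pos (by omega)]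
      have v7 : W 7 = 1 := by rw [hW, if_neg (by omega), if_pos (by omega)]
      interval_cases p
      · rw [v0, v1, if_neg (by omega), if_pos (by omega), if_neg (by omega)]
      · show 2 * W 1 ≤ (if 1 ≤ 1 then W 0 else 0) + (if 1 + 3 ≤ n then W 2 else 0) +
          (if 1 = 2 then 3 else 0)
        rw [v0, v1, hWc, if_pos (by omega), if_pos (by omega), if_neg (by omega)]
      · show 2 * W 2 ≤ (if 1 ≤ 2 then W 1 else 0) + (if 2 + 3 ≤ n then W 3 else 0) +
          (if 2 = 2 then 3 else 0)
        rw [v1, v3, hWc, if_pos (by omega), if_pos (by omega), if_pos (by omega)]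
      · show 2 * W 3 ≤ (if 1 ≤ 3 then W 2 else 0) + (if 3 + 3 ≤ n then W 4 else 0) +
          (if 3 = 2 then 3 else 0)
        rw [v3, v4, hWc, if_pos (by omega), if_pos (by omega), if_neg (by omega)]
      · show 2 * W 4 ≤ (if 1 ≤ 4 then W 3 else 0) + (if 4 + 3 ≤ n then W 5 else 0) +
          (if 4 = 2 then 3 else 0)
        rw [v3, v4, v5, if_pos (by omega), if_pos (by omega), if_neg (by omega)]
      · show 2 * W 5 ≤ (if 1 ≤ 5 then W 4 else 0) + (if 5 + 3 ≤ n then W 6 else 0) +
          (if 5 = 2 then 3 else 0)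
        rw [v5, v4, v6, if_pos (by omega), if_pos (by omega), if_neg (by omega)]
      · show 2 * W 6 ≤ (if 1 ≤ 6 then W 5 else 0) + (if 6 + 3 ≤ n then W 7 else 0) +
          (if 6 = 2 then 3 else 0)
        rw [v5, v7, v6, if_pos (by omega), if_pos (by omega), if_neg (by omega)]
      · show 2 * W 7 ≤ (if 1 ≤ 7 then W 6 else 0) + (if 7 + 3 ≤ n then W 8 else 0) +
          (if 7 = 2 then 3 else 0)
        rw [v7, v6, if_pos (by omega), if_neg (by omega : ¬ 7 = 2)]
        omega

/-- reversal of the chain. -/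
def rv (n p : ℕ) : ℕ := if p + 1 = n then p else n - 2 - p

theorem rv_lt (n p : ℕ) (hp : p < n) : rv n p < n := by
  unfold rv
  split_ifs <;> omega

theorem TT_rv (n c : ℕ) (hc : c + 2 ≤ n) (i j : Fin n) :
    TT n c ⟨rv n i.1, rv_lt n i.1 i.2⟩ ⟨rv n j.1, rv_lt n j.1 j.2⟩ = TT n (n - 2 - c) i j := by
  have hi := i.2
  have hj := j.2
  rw [TT_eq, TT_eq]
  show TTn n c (rv n i.1) (rv n j.1) = _
  unfold rv
  by_cases h1 : i.1 + 1 = n
  · rw [if_pos h1]
    by_cases h2 : j.1 + 1 = n
    · rw [if_pos h2]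
      unfold TTn
      split_ifs <;> omega
    · rw [if_neg h2]
      unfold TTn
      split_ifs <;> omega
  · rw [if_neg h1]
    by_cases h2 : j.1 + 1 = n
    · rw [if_pos h2]
      unfold TTn
      split_ifs <;> omega
    · rw [if_neg h2]
      unfold TTn
      split_ifs <;> omega

theorem rv_inj (n p q : ℕ) (hp : p < n) (hq : q < n) (h : rv n p = rv n q) : p = q := by
  unfold rv at h
  split_ifs at h <;> omega

/-- normal form of the branched graphs. -/
theorem std_of_ok (n c : ℕ) (hT : OkT n c) (hpd : PD (TT n c)) :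
    Std n c ∨ Std n (n - 2 - c) := by
  rcases hT with ⟨h1, h2⟩ | ⟨h1, h2⟩
  · exact Or.inl (Or.inr (Or.inl ⟨h1, h2⟩))
  · have hpd' : PD (TT n (n - 2 - c)) := by
      have h3 := hpd.comap (fun i : Fin n => ⟨rv n i.1, rv_lt n i.1 i.2⟩) (fun i j hij => by
        have h4 : rv n i.1 = rv n j.1 := congrArg Fin.val hij
        exact Fin.ext (rv_inj n i.1 j.1 i.2 j.2 h4))
      have h5 : (fun i j : Fin n => TT n c ⟨rv n i.1, rv_lt n i.1 i.2⟩ ⟨rv n j.1, rv_lt n j.1 j.2⟩) =
          TT n (n - 2 - c) := by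
        funext i j
        exact TT_rv n c (by omega) i j
      rw [← h5]
      exact h3
    have g1 : ¬ (3 ≤ c ∧ c + 5 ≤ n) := fun h => no_E7t n c h.1 h.2 hpd
    have g2 : ¬ (c = 2 ∧ 9 ≤ n) := fun h => no_E8t n c h.1 h.2 hpd
    have g3 : ¬ (n - 2 - c = 2 ∧ 9 ≤ n) := fun h => no_E8t n (n - 2 - c) h.1 h.2 hpd'
    unfold Std
    omega

section

variable {N : Type} [Fintype N] [DecidableEq N]

/-- connectedness. -/
def CNN (a : N → N → ℕ) : Prop :=
  ∀ S : Finset N, S.Nonempty → S ≠ Finset.univ → ∃ i ∈ S, ∃ j, j ∉ S ∧ 0 < a i j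

theorem grow (a : N → N → ℕ) (hs : ∀ x y, a x y = a y x) (hd : ∀ x, a x x = 0) (hpd : PD a)
    (hc : CNN a) (n : ℕ) (hn : 2 ≤ n) (hcard : n ≤ Fintype.card N) :
    ∃ (c : ℕ) (φ : Fin n → N), Function.Injective φ ∧ OkT n c ∧
      ∀ i j, a (φ i) (φ j) = TT n c i j := by
  induction n, hn using Nat.le_induction with
  | base =>
    have h1 : 0 < Fintype.card N := by omega
    obtain ⟨x⟩ : Nonempty N := Fintype.card_pos_iff.1 h1
    obtain ⟨i, hi, y, hy, hxy⟩ := hc {x} ⟨x, Finset.mem_singleton_self x⟩ (fun h => by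
      have := congrArg Finset.card h
      rw [Finset.card_singleton, Finset.card_univ] at this
      omega)
    rw [Finset.mem_singleton] at hi hy
    subst hi
    have hinj : Function.Injective (![i, y] : Fin 2 → N) := by
      intro p q hpq
      fin_cases p <;> fin_cases q <;> simp_all
    have h2 : a i y = 1 := by
      by_contra h3
      apply (hpd.comap (![i, y] : Fin 2 → N) hinj).test (fun _ => 1)
      · exact ⟨0, one_ne_zero⟩
      · intro p _
        rw [Fin.sum_univ_two]
        have h4 := hs y i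
        fin_cases p
        · show 2 * 1 ≤ a i i * 1 + a i y * 1
          omega
        · show 2 * 1 ≤ a y i * 1 + a y y * 1
          omega
    refine ⟨0, ![i, y], hinj, Or.inl ⟨le_rfl, rfl⟩, ?_⟩
    intro p q
    have h4 := hs y i
    fin_cases p <;> fin_cases q
    · show a i i = TT 2 0 0 0
      rw [hd i]
      rfl
    · show a i y = TT 2 0 0 1
      rw [h2]
      rfl
    · show a y i = TT 2 0 1 0
      rw [h4, h2]
      rfl
    · show a y y = TT 2 0 1 1
      rw [hd y]
      rfl
  | succ n hn ih =>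
    obtain ⟨c, φ, hinj, hT, hφ⟩ := ih (by omega)
    obtain ⟨i, hi, x, hx, hix⟩ := hc (Finset.univ.image φ) ⟨φ ⟨0, by omega⟩,
      Finset.mem_image_of_mem _ (Finset.mem_univ _)⟩ (fun h => by
      have := congrArg Finset.card h
      rw [Finset.card_image_of_injective _ hinj, Finset.card_univ, Finset.card_univ,
        Fintype.card_fin] at this
      omega)
    obtain ⟨y, _, hy⟩ := Finset.mem_image.1 hi
    subst hy
    have hxφ : ∀ j, φ j ≠ x := fun j h => hx (h ▸ Finset.mem_image_of_mem _ (Finset.mem_univ j))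
    obtain ⟨b, hb⟩ : ∃ b : ℕ → ℕ, ∀ q, b q = if h : q < n then a x (φ ⟨q, h⟩) else 0 :=
      ⟨_, fun _ => rfl⟩
    obtain ⟨χ, hχ⟩ : ∃ χ : Fin (n + 1) → N, ∀ p, χ p = if h : p.1 < n then φ ⟨p.1, h⟩ else x :=
      ⟨_, fun _ => rfl⟩
    have hχinj : Function.Injective χ := by
      intro p q hpq
      have hp := p.2
      have hq := q.2
      rw [hχ, hχ] at hpq
      split_ifs at hpq with g1 g2 g3
      · have h3 : p.1 = q.1 := Fin.mk.inj (hinj hpq)
        exact Fin.ext h3
      · exact absurd hpq (hxφ _)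
      · exact absurd hpq.symm (hxφ _)
      · exact Fin.ext (by omega)
    have hgb : ∀ p q : Fin (n + 1), a (χ p) (χ q) = gb n c b p.1 q.1 := by
      intro p q
      have hp := p.2
      have hq := q.2
      unfold gb
      rw [hχ, hχ]
      by_cases g1 : p.1 = n
      · rw [dif_neg (by omega), if_pos g1]
        by_cases g2 : q.1 = n
        · rw [dif_neg (by omega), if_pos g2]
          exact hd x
        · rw [dif_pos (by omega), if_neg g2, hb, dif_pos (by omega)]
      · rw [dif_pos (by omega), if_neg g1]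
        by_cases g2 : q.1 = n
        · rw [dif_neg (by omega), if_pos g2, hb, dif_pos (by omega)]
          exact hs _ _
        · rw [dif_pos (by omega), if_neg g2, hφ, TT_eq]
    have hpd2 : PD (fun i j : Fin (n + 1) => gb n c b i.1 j.1) := by
      have h3 := hpd.comap χ hχinj
      have h4 : (fun i j => a (χ i) (χ j)) = (fun i j : Fin (n + 1) => gb n c b i.1 j.1) := by
        funext p q
        exact hgb p q
      rw [← h4]
      exact h3
    obtain ⟨c', s, hT', hs1, hs2, hs3⟩ := step_exists n c b hT hpd2 ⟨y.1, y.2, by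
      rw [hb, dif_pos y.2]
      have := hs (φ y) x
      show a x (φ y) ≠ 0
      omega⟩
    refine ⟨c', fun p => χ ⟨s p.1, by have := hs1 p.1 (by omega); omega⟩, ?_, hT', ?_⟩
    · intro p q hpq
      have h3 := congrArg Fin.val (hχinj hpq)
      exact Fin.ext (hs2 p.1 q.1 (by omega) (by omega) h3)
    · intro p q
      rw [hgb]
      show gb n c b (s p.1) (s q.1) = _
      rw [hs3 p.1 q.1 (by omega) (by omega), TT_eq]

/-- classification. -/
theorem classify (a : N → N → ℕ) (hs : ∀ x y, a x y = a y x) (hd : ∀ x, a x x = 0) (hpd : PD a)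
    (hc : CNN a) [hne : Nonempty N] :
    ∃ (n c : ℕ) (φ : Fin n → N), Function.Bijective φ ∧ Std n c ∧
      ∀ i j, a (φ i) (φ j) = TT n c i j := by
  have h0 : 0 < Fintype.card N := Fintype.card_pos_iff.2 hne
  rcases Nat.lt_or_ge 1 (Fintype.card N) with h1 | h1
  · obtain ⟨c, φ, hinj, hT, hφ⟩ := grow a hs hd hpd hc (Fintype.card N) h1 le_rfl
    have hbij : Function.Bijective φ :=
      (Fintype.bijective_iff_injective_and_card φ).2 ⟨hinj, Fintype.card_fin _⟩
    have hpd2 : PD (TT (Fintype.card N) c) := by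
      have h3 := hpd.comap φ hinj
      have h4 : (fun i j => a (φ i) (φ j)) = TT (Fintype.card N) c := by
        funext p q
        exact hφ p q
      rw [← h4]
      exact h3
    obtain ⟨n, hn⟩ : ∃ n, n = Fintype.card N := ⟨_, rfl⟩
    rcases std_of_ok _ c hT hpd2 with h3 | h3
    · exact ⟨_, c, φ, hbij, h3, hφ⟩
    · have hc2 : c + 2 ≤ Fintype.card N := by
        rcases hT with h | h <;> omega
      have hr : Function.Bijective (fun i : Fin (Fintype.card N) =>
          (⟨rv _ i.1, rv_lt _ i.1 i.2⟩ : Fin (Fintype.card N))) := by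
        apply (Finite.injective_iff_bijective).1
        intro i j hij
        have h4 : rv _ i.1 = rv _ j.1 := congrArg Fin.val hij
        exact Fin.ext (rv_inj _ i.1 j.1 i.2 j.2 h4)
      refine ⟨_, Fintype.card N - 2 - c, fun i => φ ⟨rv _ i.1, rv_lt _ i.1 i.2⟩, hbij.comp hr, h3, ?_⟩
      intro i j
      rw [hφ, TT_rv _ c hc2 i j]
  · have h2 : Fintype.card N = 1 := by omega
    obtain ⟨x, hx⟩ := Fintype.card_eq_one_iff.1 h2
    refine ⟨1, 0, fun _ => x, ⟨fun i j _ => Subsingleton.elim _ _, fun y => ⟨0, (hx y).symm⟩⟩,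
      Or.inl ⟨rfl, rfl⟩, ?_⟩
    intro i j
    have hi : i = 0 := Subsingleton.elim _ _
    have hj : j = 0 := Subsingleton.elim _ _
    subst hi
    subst hj
    rw [hd x]
    rfl

end

end Pool.H88.KA
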