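import Pool.Agent.H41.KA.AG12b

/-!
KAC ADE numbers: definitions.
-/

set_option autoImplicit false

namespace Pool.H88.Num

open scoped BigOperators
open Pool.Agent.H27.KAC

section

variable {I : Type} [Fintype I] [DecidableEq I]

open Classical in
/-- determinant of the Cartan matrix of `A`. -/
noncomputable def dt (a : I → I → ℕ) (A : Finset I) : ℚ :=
  (Matrix.of (fun (i j : {x // x ∈ A}) => (cart a i.1 j.1 : ℚ))).det

/-- normalised weight of a component. -/
noncomputable def wN (a : I → I → ℕ) (cd : CrossData a) (N : Finset I) (g : ℕ) : ℚ :=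
  (-1) ^ N.card * upw a cd N (fun _ => 0) g / dt a N

/-- the term of `M`. -/
noncomputable def tmN (a : I → I → ℕ) (cd : CrossData a) (A : Finset I) (g : ℕ) (M : Finset I) : ℚ :=
  (g : ℚ) ^ M.card * ∏ N ∈ comps a (A \ M), wN a cd N g

/-- normalised response number of class zero. -/
noncomputable def PhN (a : I → I → ℕ) (cd : CrossData a) (A : Finset I) (g : ℕ) : ℚ :=
  ∑ M ∈ A.powerset, tmN a cd A g M

end

end Pool.H88.Num
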