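import Pool.Agent.H88.KA.CN0

/-!
KAC ADE numbers, CN1: polynomial growth of the response numbers.

Strong induction on `A.card`, using `cn_rec`.  In the sum over `M` the term `M = ∅` is `± cn A q (g - mm A)` (or zero), since
`comps a A = {A}` (`comps_of_conn`) and `detEff a A ∅` is the determinant of an empty matrix.  All terms with `M ≠ ∅` are
bounded by a polynomial in `g` by induction (components of `A \ M` are connected and have smaller cardinality).
So `|c(g)| ≤ |c(g - m)| + K (g+1)^D`, `m ≥ 2`, hence `|c(g)| ≤ 1 + K (g+1)^(D+1)`.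
-/

set_option autoImplicit false

namespace Pool.H88.Num

open scoped BigOperators
open Pool.Agent.H27.KAC

section

variable {I : Type} [Fintype I] [DecidableEq I]

/-- polynomially bounded. -/
private def CN1_PB (f : ℕ → ℚ) : Prop := ∃ K D : ℕ, ∀ g : ℕ, |f g| ≤ K * ((g : ℚ) + 1) ^ D

private theorem CN1_const (c : ℚ) : CN1_PB (fun _ => c) := by
  obtain ⟨K, hK⟩ := exists_nat_ge |c|
  exact ⟨K, 0, fun g => by simpa using hK⟩

private theorem CN1_add {f h : ℕ → ℚ} (hf : CN1_PB f) (hh : CN1_PB h) :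
    CN1_PB (fun g => f g + h g) := by
  obtain ⟨K, D, h1⟩ := hf
  obtain ⟨K', D', h2⟩ := hh
  refine ⟨K + K', D + D', fun g => ?_⟩
  have hg : (1 : ℚ) ≤ (g : ℚ) + 1 := by
    have : (0 : ℚ) ≤ (g : ℚ) := Nat.cast_nonneg _
    linarith
  have e1 : ((g : ℚ) + 1) ^ D ≤ ((g : ℚ) + 1) ^ (D + D') :=
    pow_le_pow_right₀ hg (Nat.le_add_right _ _)
  have e2 : ((g : ℚ) + 1) ^ D' ≤ ((g : ℚ) + 1) ^ (D + D') :=
    pow_le_pow_right₀ hg (Nat.le_add_left _ _)
  have e3 : (K : ℚ) * ((g : ℚ) + 1) ^ D ≤ K * ((g : ℚ) + 1) ^ (D + D') :=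
    mul_le_mul_of_nonneg_left e1 (Nat.cast_nonneg _)
  have e4 : (K' : ℚ) * ((g : ℚ) + 1) ^ D' ≤ K' * ((g : ℚ) + 1) ^ (D + D') :=
    mul_le_mul_of_nonneg_left e2 (Nat.cast_nonneg _)
  push_cast
  calc |f g + h g| ≤ |f g| + |h g| := abs_add_le _ _
    _ ≤ K * ((g : ℚ) + 1) ^ D + K' * ((g : ℚ) + 1) ^ D' := add_le_add (h1 g) (h2 g)
    _ ≤ K * ((g : ℚ) + 1) ^ (D + D') + K' * ((g : ℚ) + 1) ^ (D + D') := add_le_add e3 e4
    _ = _ := by ring

private theorem CN1_mul {f h : ℕ → ℚ} (hf : CN1_PB f) (hh : CN1_PB h) :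
    CN1_PB (fun g => f g * h g) := by
  obtain ⟨K, D, h1⟩ := hf
  obtain ⟨K', D', h2⟩ := hh
  refine ⟨K * K', D + D', fun g => ?_⟩
  have hg : (0 : ℚ) ≤ (g : ℚ) + 1 := by positivity
  push_cast
  rw [abs_mul]
  calc |f g| * |h g| ≤ (K * ((g : ℚ) + 1) ^ D) * (K' * ((g : ℚ) + 1) ^ D') :=
        mul_le_mul (h1 g) (h2 g) (abs_nonneg _) (by positivity)
    _ = _ := by rw [pow_add]; ring

private theorem CN1_sum {ι : Type} (s : Finset ι) (F : ι → ℕ → ℚ)
    (h : ∀ i ∈ s, CN1_PB (F i)) : CN1_PB (fun g => ∑ i ∈ s, F i g) := by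
  classical
  induction s using Finset.induction_on with
  | empty => simpa using CN1_const 0
  | insert i s hi ih =>
    have := CN1_add (h i (Finset.mem_insert_self i s))
      (ih fun j hj => h j (Finset.mem_insert_of_mem hj))
    refine this.imp fun K hK => hK.imp fun D hD => fun g => ?_
    show |∑ i ∈ insert i s, F i g| ≤ _
    rw [Finset.sum_insert hi]
    exact hD g

private theorem CN1_prod {ι : Type} (s : Finset ι) (F : ι → ℕ → ℚ)
    (h : ∀ i ∈ s, CN1_PB (F i)) : CN1_PB (fun g => ∏ i ∈ s, F i g) := by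
  classical
  induction s using Finset.induction_on with
  | empty => simpa using CN1_const 1
  | insert i s hi ih =>
    have := CN1_mul (h i (Finset.mem_insert_self i s))
      (ih fun j hj => h j (Finset.mem_insert_of_mem hj))
    refine this.imp fun K hK => hK.imp fun D hD => fun g => ?_
    show |∏ i ∈ insert i s, F i g| ≤ _
    rw [Finset.prod_insert hi]
    exact hD g

private theorem CN1_pow (n : ℕ) : CN1_PB (fun g => (g : ℚ) ^ n) := by
  refine ⟨1, n, fun g => ?_⟩
  have hg : (0 : ℚ) ≤ (g : ℚ) := Nat.cast_nonneg _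
  rw [abs_of_nonneg (by positivity), Nat.cast_one, one_mul]
  exact pow_le_pow_left₀ hg (by linarith) n

private theorem CN1_epsabs (a : I → I → ℕ) (cd : CrossData a) (A : Finset I) (q : I → ℚ) :
    |cd.eps A q| = 1 := by
  rcases cd.eps_sq A q with h | h <;> rw [h] <;> simp

private theorem CN1_upw (a : I → I → ℕ) (cd : CrossData a) (A : Finset I) (q : I → ℚ)
    (h : CN1_PB (cn a cd A q)) : CN1_PB (upw a cd A q) := by
  obtain ⟨K, D, h1⟩ := h
  refine ⟨K, D, fun g => ?_⟩
  unfold upw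
  by_cases hm : cd.mm A ≤ g
  · rw [if_pos hm, abs_mul, CN1_epsabs, one_mul]
    refine (h1 _).trans ?_
    refine mul_le_mul_of_nonneg_left ?_ (Nat.cast_nonneg _)
    refine pow_le_pow_left₀ (by positivity) ?_ D
    have : ((g - cd.mm A : ℕ) : ℚ) ≤ (g : ℚ) := by exact_mod_cast Nat.sub_le _ _
    linarith
  · rw [if_neg hm, abs_zero]
    positivity

private theorem CN1_main (a : I → I → ℕ) (cd : CrossData a) (q : I → ℚ) (n : ℕ) :
    ∀ A : Finset I, A.card ≤ n → ConnS a A → CN1_PB (cn a cd A q) := by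
  classical
  induction n with
  | zero =>
    intro A hA hc
    obtain ⟨x, hx⟩ := hc.1
    have := Finset.card_pos.2 ⟨x, hx⟩
    omega
  | succ n ih =>
    intro A hA hc
    -- the rest of the sum
    have hrest : CN1_PB (fun g => ∑ M ∈ ((A.powerset.filter (fun M => ∀ x ∈ M, IsZ (q x))).erase ∅),
        (-1 : ℚ) ^ (A \ M).card * detEff a (A \ M) M * (g : ℚ) ^ M.card *
          ∏ N ∈ comps a (A \ M), upw a cd N q g) := by
      refine CN1_sum _ (fun M g => (-1 : ℚ) ^ (A \ M).card * detEff a (A \ M) M * (g : ℚ) ^ M.card *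
          ∏ N ∈ comps a (A \ M), upw a cd N q g) (fun M hM => ?_)
      rw [Finset.mem_erase, Finset.mem_filter, Finset.mem_powerset] at hM
      refine CN1_mul (f := fun g : ℕ => (-1 : ℚ) ^ (A \ M).card * detEff a (A \ M) M * (g : ℚ) ^ M.card)
        (h := fun g => ∏ N ∈ comps a (A \ M), upw a cd N q g)
        (CN1_mul (f := fun _ => (-1 : ℚ) ^ (A \ M).card * detEff a (A \ M) M)
          (h := fun g : ℕ => (g : ℚ) ^ M.card) (CN1_const _) (CN1_pow _)) ?_
      refine CN1_prod _ (fun N g => upw a cd N q g) (fun N hN => ?_)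
      refine CN1_upw a cd N q (ih N ?_ (comps_conn hN))
      have h1 : N ⊆ A \ M := comps_subset hN
      have h2 : (A \ M).card < A.card := by
        refine Finset.card_lt_card ⟨Finset.sdiff_subset, fun hs => ?_⟩
        obtain ⟨x, hx⟩ := Finset.nonempty_iff_ne_empty.2 hM.1
        exact (Finset.mem_sdiff.1 (hs (hM.2.1 hx))).2 hx
      have h3 := Finset.card_le_card h1
      omega
    obtain ⟨K, D, hK⟩ := hrest
    have hstep : ∀ g : ℕ, 1 ≤ g → |cn a cd A q g| ≤
        (if cd.mm A ≤ g then |cn a cd A q (g - cd.mm A)| else 0) + K * ((g : ℚ) + 1) ^ D := by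
      intro g hg
      have hmem : (∅ : Finset I) ∈ A.powerset.filter (fun M => ∀ x ∈ M, IsZ (q x)) := by
        rw [Finset.mem_filter, Finset.mem_powerset]
        exact ⟨Finset.empty_subset _, fun x hx => absurd hx (Finset.notMem_empty x)⟩
      rw [cn_rec a cd A q g hg, ← Finset.add_sum_erase _ _ hmem]
      refine (abs_add_le _ _).trans (add_le_add ?_ (hK g))
      have hdet : detEff a (A \ ∅) ∅ = 1 := by
        unfold detEff
        have : IsEmpty {x // x ∈ (∅ : Finset I)} := ⟨fun x => absurd x.2 (Finset.notMem_empty x.1)⟩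
        exact Matrix.det_isEmpty
      rw [hdet, Finset.sdiff_empty, comps_of_conn hc, Finset.prod_singleton, Finset.card_empty,
        pow_zero, mul_one, mul_one, abs_mul, abs_pow, abs_neg, abs_one, one_pow, one_mul]
      unfold upw
      by_cases hm : cd.mm A ≤ g
      · rw [if_pos hm, if_pos hm, abs_mul, CN1_epsabs, one_mul]
      · rw [if_neg hm, if_neg hm, abs_zero]
    refine ⟨K + 1, D + 1, fun g => ?_⟩
    induction g using Nat.strong_induction_on with
    | _ g ihg =>
      have hK0 : (0 : ℚ) ≤ (K : ℚ) := Nat.cast_nonneg _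
      have hg0 : (0 : ℚ) ≤ (g : ℚ) := Nat.cast_nonneg _
      push_cast
      rcases Nat.eq_zero_or_pos g with rfl | hg
      · rw [cn_zero]
        norm_num
      · have h1 := hstep g hg
        have hP : (0 : ℚ) ≤ ((g : ℚ) + 1) ^ D := by positivity
        by_cases hm : cd.mm A ≤ g
        · rw [if_pos hm] at h1
          have h2 := cd.two_le A
          have h3 := ihg (g - cd.mm A) (by omega)
          have h4 : ((g - cd.mm A : ℕ) : ℚ) + 1 ≤ (g : ℚ) := by
            have : g - cd.mm A + 1 ≤ g := by omega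
            exact_mod_cast this
          have h5 : (((g - cd.mm A : ℕ) : ℚ) + 1) ^ (D + 1) ≤ (g : ℚ) ^ (D + 1) :=
            pow_le_pow_left₀ (by positivity) h4 _
          have h6 : (g : ℚ) ^ (D + 1) ≤ ((g : ℚ) + 1) ^ D * g := by
            rw [pow_succ]
            exact mul_le_mul_of_nonneg_right (pow_le_pow_left₀ hg0 (by linarith) D) hg0
          push_cast at h3
          have h7 : ((K : ℚ) + 1) * (((g - cd.mm A : ℕ) : ℚ) + 1) ^ (D + 1)
              ≤ ((K : ℚ) + 1) * (((g : ℚ) + 1) ^ D * g) :=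
            mul_le_mul_of_nonneg_left (h5.trans h6) (by linarith)
          rw [pow_succ]
          nlinarith [h1, h3, h7, hP]
        · rw [if_neg hm, zero_add] at h1
          rw [pow_succ]
          have h8 : ((g : ℚ) + 1) ^ D ≤ ((g : ℚ) + 1) ^ D * ((g : ℚ) + 1) := by
            nlinarith [mul_nonneg hP hg0]
          have h9 : (K : ℚ) * ((g : ℚ) + 1) ^ D ≤ K * (((g : ℚ) + 1) ^ D * ((g : ℚ) + 1)) :=
            mul_le_mul_of_nonneg_left h8 hK0
          have h10 : (0 : ℚ) ≤ ((g : ℚ) + 1) ^ D * ((g : ℚ) + 1) := by positivity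
          linarith

theorem cn_growth (a : I → I → ℕ) (cd : CrossData a) (A : Finset I) (q : I → ℚ)
    (hc : ConnS a A) : ∃ K D : ℕ, ∀ g : ℕ, |cn a cd A q g| ≤ K * ((g : ℚ) + 1) ^ D :=
  CN1_main a cd q A.card A le_rfl hc

end

end Pool.H88.Num
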