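import Pool.Agent.H88.KA.CN0

/-!
KAC ADE numbers, CN2a: determinants of Cartan matrices.

* `dt_ne_zero`: a vector in the kernel contradicts `FinT.pos` (`Matrix.exists_mulVec_eq_zero_iff`).
* `dt_schur`: Schur complement (`Matrix.det_fromBlocks₁₁` or multiply by a unipotent matrix); the effective matrix is
  `C_MM - C_MN C_N^{-1} C_NM` (`solN a N b` solves `C_N v = b`, see `solN_spec`, `solN_out` in AE1; off diagonal entries of
  `cart` are `- a`).
* `dt_union`: block diagonal.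
-/

set_option autoImplicit false

namespace Pool.H88.Num

open scoped BigOperators
open Pool.Agent.H27.KAC

section

variable {I : Type} [Fintype I] [DecidableEq I]

omit [Fintype I] in
private theorem CN2a_cart_ne (a : I → I → ℕ) {x y : I} (h : x ≠ y) :
    (cart a x y : ℚ) = - (a x y : ℚ) := by
  unfold cart
  rw [if_neg h]
  push_cast
  ring

omit [Fintype I] in
/-- block decomposition. -/
private theorem CN2a_blocks (a : I → I → ℕ) {N M : Finset I} (hd : Disjoint N M) :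
    dt a (N ∪ M) = (Matrix.fromBlocks
      (Matrix.of (fun (i : {x // x ∈ N}) (j : {x // x ∈ N}) => (cart a i.1 j.1 : ℚ)))
      (Matrix.of (fun (i : {x // x ∈ N}) (j : {x // x ∈ M}) => (cart a i.1 j.1 : ℚ)))
      (Matrix.of (fun (i : {x // x ∈ M}) (j : {x // x ∈ N}) => (cart a i.1 j.1 : ℚ)))
      (Matrix.of (fun (i : {x // x ∈ M}) (j : {x // x ∈ M}) => (cart a i.1 j.1 : ℚ)))).det := by
  unfold dt
  rw [← Matrix.det_submatrix_equiv_self (Equiv.Finset.union N M hd)]
  congr 1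
  ext i j
  rcases i with i | i <;> rcases j with j | j <;> rfl

theorem dt_empty (a : I → I → ℕ) : dt a ∅ = 1 := by
  unfold dt
  have : IsEmpty {x // x ∈ (∅ : Finset I)} := ⟨fun x => absurd x.2 (Finset.notMem_empty _)⟩
  exact Matrix.det_isEmpty

theorem dt_ne_zero {a : I → I → ℕ} {A : Finset I} (hA : FinT a A) : dt a A ≠ 0 := by
  intro h0
  unfold dt at h0
  obtain ⟨v, hv, hv0⟩ := Matrix.exists_mulVec_eq_zero_iff.2 h0
  set w : I → ℚ := fun i => if h : i ∈ A then v ⟨i, h⟩ else 0 with hw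
  have hwA : ∀ i : {x // x ∈ A}, w i.1 = v i := by
    intro i
    simp [hw]
  have hne : ∃ i ∈ A, w i ≠ 0 := by
    by_contra hcon
    push Not at hcon
    apply hv
    funext i
    rw [← hwA i]
    exact hcon i.1 i.2
  have h1 := hA.pos w hne
  have h2 : ∀ i ∈ A, cqN a A w i = 0 := by
    intro i hi
    have h3 := congrFun hv0 ⟨i, hi⟩
    rw [Matrix.mulVec, dotProduct, Pi.zero_apply] at h3
    unfold cqN
    rw [← Finset.sum_coe_sort A, ← h3]
    apply Finset.sum_congr rfl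
    intro j _
    rw [hwA j]
    rfl
  rw [Finset.sum_congr rfl (fun i hi => by rw [h2 i hi, mul_zero]), Finset.sum_const_zero] at h1
  exact lt_irrefl _ h1

theorem dt_schur {a : I → I → ℕ} (hs : ∀ i j, a i j = a j i) {N M : Finset I} (hN : FinT a N)
    (hd : Disjoint N M) : dt a (N ∪ M) = dt a N * detEff a N M := by
  rw [CN2a_blocks a hd]
  set A : Matrix {x // x ∈ N} {x // x ∈ N} ℚ :=
    Matrix.of (fun (i : {x // x ∈ N}) (j : {x // x ∈ N}) => (cart a i.1 j.1 : ℚ)) with hA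
  set B : Matrix {x // x ∈ N} {x // x ∈ M} ℚ :=
    Matrix.of (fun (i : {x // x ∈ N}) (j : {x // x ∈ M}) => (cart a i.1 j.1 : ℚ)) with hB
  set C : Matrix {x // x ∈ M} {x // x ∈ N} ℚ :=
    Matrix.of (fun (i : {x // x ∈ M}) (j : {x // x ∈ N}) => (cart a i.1 j.1 : ℚ)) with hC
  set D : Matrix {x // x ∈ M} {x // x ∈ M} ℚ :=
    Matrix.of (fun (i : {x // x ∈ M}) (j : {x // x ∈ M}) => (cart a i.1 j.1 : ℚ)) with hD
  have hdet : A.det ≠ 0 := dt_ne_zero hN
  let _ : Invertible A := Matrix.invertibleOfIsUnitDet A (isUnit_iff_ne_zero.2 hdet)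
  rw [Matrix.det_fromBlocks₁₁]
  have hdt : dt a N = A.det := rfl
  rw [hdt]
  congr 1
  set S : Matrix {x // x ∈ N} {x // x ∈ M} ℚ :=
    Matrix.of (fun y j => - solN a N (fun l => (a l j.1 : ℚ)) y.1) with hS
  have hAS : A * S = B := by
    ext y j
    have h1 := solN_spec hs hN (fun l => (a l j.1 : ℚ)) y.1 y.2
    have hyj : y.1 ≠ j.1 := fun e => (Finset.disjoint_left.1 hd y.2) (e ▸ j.2)
    have h2 : B y j = - (a y.1 j.1 : ℚ) := CN2a_cart_ne a hyj
    rw [h2, Matrix.mul_apply]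
    unfold cqN at h1
    rw [← Finset.sum_coe_sort N] at h1
    rw [← h1, ← Finset.sum_neg_distrib]
    apply Finset.sum_congr rfl
    intro z _
    simp only [hA, hS, Matrix.of_apply]
    ring
  have hX : ⅟A * B = S := by
    rw [← hAS, ← Matrix.mul_assoc, invOf_mul_self, Matrix.one_mul]
  rw [Matrix.mul_assoc, hX]
  unfold detEff
  congr 1
  ext i j
  rw [Matrix.sub_apply, Matrix.mul_apply, Matrix.of_apply]
  have h3 : ∑ z : {x // x ∈ N}, C i z * S z j =
      ∑ y ∈ N, (a i.1 y : ℚ) * solN a N (fun l => (a l j.1 : ℚ)) y := by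
    rw [← Finset.sum_coe_sort N]
    apply Finset.sum_congr rfl
    intro z _
    have hiz : i.1 ≠ z.1 := fun e => (Finset.disjoint_left.1 hd z.2) (e ▸ i.2)
    have h4 : C i z = - (a i.1 z.1 : ℚ) := CN2a_cart_ne a hiz
    rw [h4]
    simp only [hS, Matrix.of_apply]
    ring
  rw [h3]
  rfl

theorem dt_union {a : I → I → ℕ} (hs : ∀ i j, a i j = a j i) {A B : Finset I} (hd : Disjoint A B)
    (hadj : ∀ x ∈ A, ∀ y ∈ B, a x y = 0) : dt a (A ∪ B) = dt a A * dt a B := by
  rw [CN2a_blocks a hd]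
  have hB : Matrix.of (fun (i : {x // x ∈ A}) (j : {x // x ∈ B}) => (cart a i.1 j.1 : ℚ)) = 0 := by
    ext i j
    have hij : i.1 ≠ j.1 := fun e => (Finset.disjoint_left.1 hd i.2) (e ▸ j.2)
    rw [Matrix.of_apply, CN2a_cart_ne a hij, hadj i.1 i.2 j.1 j.2]
    simp
  rw [hB, Matrix.det_fromBlocks_zero₁₂]
  rfl

end

end Pool.H88.Num
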