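import Pool.Agent.H88.KA.CN2a

/-!
KAC ADE numbers, CN2b: components of unions, determinants and components, `cn` of class zero.

* `comps_union_sep`: use `comps_subset, comps_conn, comps_sep` and the definition of `comps` (a connected subset of `A ∪ B`
  lies in `A` or in `B`).
* `dt_comps`: iterate `dt_union` (strong induction on the cardinality: take one component `B` of `A`; then
  `comps a A = insert B (comps a (A \ B))` by `comps_union_sep` and `comps_of_conn`).
* `cn_eq_PhN`: `cn_rec`; the filter is trivial because `0` is integral; `dt_schur` and `dt_comps` for `A \ M`.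
-/

set_option autoImplicit false

namespace Pool.H88.Num

open scoped BigOperators
open Pool.Agent.H27.KAC

section

variable {I : Type} [Fintype I] [DecidableEq I]

private theorem CN2b_mem (a : I → I → ℕ) (N S : Finset I) :
    S ∈ comps a N ↔ S ⊆ N ∧ ConnS a S ∧ ∀ i ∈ S, ∀ j ∈ N, j ∉ S → a i j = 0 := by
  classical
  unfold comps
  rw [Finset.mem_filter, Finset.mem_powerset]

/-- components of a non adjacent union. -/
theorem comps_union_sep {a : I → I → ℕ} (hs : ∀ i j, a i j = a j i) {A B : Finset I}
    (hd : Disjoint A B) (hadj : ∀ x ∈ A, ∀ y ∈ B, a x y = 0) :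
    comps a (A ∪ B) = comps a A ∪ comps a B ∧ Disjoint (comps a A) (comps a B) := by
  constructor
  · ext S
    rw [Finset.mem_union, CN2b_mem, CN2b_mem, CN2b_mem]
    constructor
    · rintro ⟨h1, h2, h3⟩
      by_cases hne : (S ∩ A).Nonempty
      · by_cases heq : S ∩ A = S
        · left
          refine ⟨Finset.inter_eq_left.1 heq, h2, fun i hi j hj hjS => ?_⟩
          exact h3 i hi j (Finset.mem_union_left _ hj) hjS
        · exfalso
          obtain ⟨i, hi, j, hj, hjn, hpos⟩ := h2.2 _ Finset.inter_subset_left hne heq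
          have hjA : j ∉ A := fun h => hjn (Finset.mem_inter.2 ⟨hj, h⟩)
          have hjB : j ∈ B := (Finset.mem_union.1 (h1 hj)).resolve_left hjA
          have h4 := hadj i (Finset.mem_inter.1 hi).2 j hjB
          omega
      · right
        rw [Finset.not_nonempty_iff_eq_empty] at hne
        have hSB : S ⊆ B := by
          intro x hx
          have hxA : x ∉ A := by
            intro h
            have h4 : x ∈ S ∩ A := Finset.mem_inter.2 ⟨hx, h⟩
            rw [hne] at h4
            exact absurd h4 (Finset.notMem_empty x)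
          exact (Finset.mem_union.1 (h1 hx)).resolve_left hxA
        exact ⟨hSB, h2, fun i hi j hj hjS => h3 i hi j (Finset.mem_union_right _ hj) hjS⟩
    · rintro (⟨h1, h2, h3⟩ | ⟨h1, h2, h3⟩)
      · refine ⟨h1.trans Finset.subset_union_left, h2, fun i hi j hj hjS => ?_⟩
        rcases Finset.mem_union.1 hj with hjA | hjB
        · exact h3 i hi j hjA hjS
        · exact hadj i (h1 hi) j hjB
      · refine ⟨h1.trans Finset.subset_union_right, h2, fun i hi j hj hjS => ?_⟩
        rcases Finset.mem_union.1 hj with hjA | hjB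
        · rw [hs]
          exact hadj j hjA i (h1 hi)
        · exact h3 i hi j hjB hjS
  · rw [Finset.disjoint_left]
    intro S h1 h2
    obtain ⟨x, hx⟩ := (comps_conn h1).1
    exact Finset.disjoint_left.1 hd (comps_subset h1 hx) (comps_subset h2 hx)

private theorem CN2b_empty (a : I → I → ℕ) : comps a (∅ : Finset I) = ∅ := by
  rw [Finset.eq_empty_iff_forall_notMem]
  intro S hS
  obtain ⟨x, hx⟩ := (comps_conn hS).1
  exact absurd (comps_subset hS hx) (Finset.notMem_empty x)

/-- splitting off one component. -/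
private theorem CN2b_split {a : I → I → ℕ} (hs : ∀ i j, a i j = a j i) {A B : Finset I}
    (hB : B ∈ comps a A) :
    Disjoint B (A \ B) ∧ (∀ x ∈ B, ∀ y ∈ A \ B, a x y = 0) ∧ B ∪ (A \ B) = A ∧
      comps a A = {B} ∪ comps a (A \ B) ∧ Disjoint {B} (comps a (A \ B)) ∧
      (A \ B).card < A.card := by
  have h1 : Disjoint B (A \ B) := Finset.disjoint_sdiff
  have h2 : ∀ x ∈ B, ∀ y ∈ A \ B, a x y = 0 := fun x hx y hy =>
    comps_sep hB x hx y (Finset.mem_sdiff.1 hy).1 (Finset.mem_sdiff.1 hy).2
  have h3 : B ∪ (A \ B) = A := Finset.union_sdiff_of_subset (comps_subset hB)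
  have h4 := comps_union_sep hs h1 h2
  rw [h3, comps_of_conn (comps_conn hB)] at h4
  refine ⟨h1, h2, h3, h4.1, h4.2, ?_⟩
  obtain ⟨x, hx⟩ := (comps_conn hB).1
  apply Finset.card_lt_card
  rw [Finset.ssubset_iff_of_subset Finset.sdiff_subset]
  exact ⟨x, comps_subset hB hx, fun h => (Finset.mem_sdiff.1 h).2 hx⟩

theorem dt_comps {a : I → I → ℕ} (hs : ∀ i j, a i j = a j i) (A : Finset I) :
    dt a A = ∏ N ∈ comps a A, dt a N := by
  induction h : A.card using Nat.strong_induction_on generalizing A with
  | _ n ih =>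
    rcases A.eq_empty_or_nonempty with rfl | ⟨x, hx⟩
    · rw [CN2b_empty, Finset.prod_empty, dt_empty]
    · obtain ⟨B, hB, -⟩ := comps_cover hs x hx
      obtain ⟨h1, h2, h3, h4, h5, h6⟩ := CN2b_split hs hB
      rw [h4, Finset.prod_union h5, Finset.prod_singleton, ← ih _ (h ▸ h6) (A \ B) rfl,
        ← dt_union hs h1 h2, h3]

private theorem CN2b_card {a : I → I → ℕ} (hs : ∀ i j, a i j = a j i) (A : Finset I) :
    ∑ N ∈ comps a A, N.card = A.card := by
  induction h : A.card using Nat.strong_induction_on generalizing A with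
  | _ n ih =>
    rcases A.eq_empty_or_nonempty with rfl | ⟨x, hx⟩
    · rw [CN2b_empty, Finset.sum_empty, ← h, Finset.card_empty]
    · obtain ⟨B, hB, -⟩ := comps_cover hs x hx
      obtain ⟨h1, h2, h3, h4, h5, h6⟩ := CN2b_split hs hB
      rw [h4, Finset.sum_union h5, Finset.sum_singleton, ih _ (h ▸ h6) (A \ B) rfl, ← h,
        ← Finset.card_union_of_disjoint h1, h3]

theorem cn_eq_PhN {a : I → I → ℕ} (hs : ∀ i j, a i j = a j i) (cd : CrossData a) {A : Finset I}
    (hA : FinT a A) (g : ℕ) (hg : 1 ≤ g) :
    cn a cd A (fun _ => 0) g = dt a A * PhN a cd A g := by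
  classical
  rw [cn_rec a cd A (fun _ => 0) g hg]
  have hf : A.powerset.filter (fun M => ∀ x ∈ M, IsZ ((fun _ => 0 : I → ℚ) x)) = A.powerset := by
    rw [Finset.filter_eq_self]
    intro M _ x _
    exact ⟨0, by simp⟩
  rw [hf]
  unfold PhN
  rw [Finset.mul_sum]
  apply Finset.sum_congr rfl
  intro M hM
  rw [Finset.mem_powerset] at hM
  have hN : FinT a (A \ M) := hA.mono Finset.sdiff_subset
  have h1 : dt a A = dt a (A \ M) * detEff a (A \ M) M := by
    rw [← dt_schur hs hN Finset.sdiff_disjoint, Finset.sdiff_union_of_subset hM]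
  have h2 : dt a (A \ M) ≠ 0 := dt_ne_zero hN
  have h3 : ∏ N ∈ comps a (A \ M), wN a cd N g =
      (-1) ^ (A \ M).card * (∏ N ∈ comps a (A \ M), upw a cd N (fun _ => 0) g) /
        dt a (A \ M) := by
    unfold wN
    rw [Finset.prod_div_distrib, Finset.prod_mul_distrib, Finset.prod_pow_eq_pow_sum,
      CN2b_card hs, ← dt_comps hs]
  unfold tmN
  rw [h3, h1]
  field_simp

end

end Pool.H88.Num
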