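import Pool.Agent.H88.KA.CN2b

/-!
KAC ADE numbers, CN2c: the normalised numbers are multiplicative; cutting at a vertex.

* `PhN_union`: the subsets of `A ∪ B` are the unions `M ∪ M'`, `M ⊆ A`, `M' ⊆ B`; `(A ∪ B) \ (M ∪ M')` is the non adjacent
  union of `A \ M` and `B \ M'`; `comps_union_sep`.
* `PhN_cut`: the sets `M` are `insert y M'` with `M' ⊆ A \ insert y K`, and `A \ M` is the non adjacent union of `K` and
  `(A \ insert y K) \ M'`; `comps_union_sep`, `comps_of_conn`.
-/

set_option autoImplicit false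

namespace Pool.H88.Num

open scoped BigOperators
open Pool.Agent.H27.KAC

section

variable {I : Type} [Fintype I] [DecidableEq I]

private theorem CN2c_sdiff {A B M : Finset I} :
    (A ∪ B) \ M = (A \ (M ∩ A)) ∪ (B \ (M ∩ B)) := by
  ext x
  simp only [Finset.mem_sdiff, Finset.mem_union, Finset.mem_inter]
  tauto

private theorem CN2c_tm {a : I → I → ℕ} (hs : ∀ i j, a i j = a j i) (cd : CrossData a)
    {A B : Finset I} (hd : Disjoint A B) (hadj : ∀ x ∈ A, ∀ y ∈ B, a x y = 0) (g : ℕ)
    {M : Finset I} (hM : M ⊆ A ∪ B) :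
    tmN a cd (A ∪ B) g M = tmN a cd A g (M ∩ A) * tmN a cd B g (M ∩ B) := by
  have h1 := comps_union_sep (a := a) hs (A := A \ (M ∩ A)) (B := B \ (M ∩ B))
    (Finset.disjoint_of_subset_left Finset.sdiff_subset
      (Finset.disjoint_of_subset_right Finset.sdiff_subset hd))
    (fun x hx y hy => hadj x (Finset.sdiff_subset hx) y (Finset.sdiff_subset hy))
  have hcard : M.card = (M ∩ A).card + (M ∩ B).card := by
    rw [← Finset.card_union_of_disjoint, ← Finset.inter_union_distrib_left,
      Finset.inter_eq_left.2 hM]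
    exact Finset.disjoint_of_subset_left Finset.inter_subset_right
      (Finset.disjoint_of_subset_right Finset.inter_subset_right hd)
  unfold tmN
  rw [CN2c_sdiff, h1.1, Finset.prod_union h1.2, hcard, pow_add]
  ring

theorem PhN_union {a : I → I → ℕ} (hs : ∀ i j, a i j = a j i) (cd : CrossData a) {A B : Finset I}
    (hd : Disjoint A B) (hadj : ∀ x ∈ A, ∀ y ∈ B, a x y = 0) (g : ℕ) :
    PhN a cd (A ∪ B) g = PhN a cd A g * PhN a cd B g := by
  unfold PhN
  rw [Finset.sum_mul_sum, ← Finset.sum_product']
  refine Finset.sum_bij' (fun M _ => (M ∩ A, M ∩ B)) (fun p _ => p.1 ∪ p.2) ?_ ?_ ?_ ?_ ?_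
  · intro M _
    rw [Finset.mem_product, Finset.mem_powerset, Finset.mem_powerset]
    exact ⟨Finset.inter_subset_right, Finset.inter_subset_right⟩
  · intro p hp
    rw [Finset.mem_product, Finset.mem_powerset, Finset.mem_powerset] at hp
    rw [Finset.mem_powerset]
    exact Finset.union_subset_union hp.1 hp.2
  · intro M hM
    rw [Finset.mem_powerset] at hM
    show (M ∩ A) ∪ (M ∩ B) = M
    rw [← Finset.inter_union_distrib_left, Finset.inter_eq_left.2 hM]
  · intro p hp
    rw [Finset.mem_product, Finset.mem_powerset, Finset.mem_powerset] at hp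
    have h1 : (p.1 ∪ p.2) ∩ A = p.1 := by
      ext x
      rw [Finset.mem_inter, Finset.mem_union]
      constructor
      · rintro ⟨h2 | h2, h3⟩
        · exact h2
        · exact absurd (hp.2 h2) (Finset.disjoint_left.1 hd h3)
      · intro h2
        exact ⟨Or.inl h2, hp.1 h2⟩
    have h2 : (p.1 ∪ p.2) ∩ B = p.2 := by
      ext x
      rw [Finset.mem_inter, Finset.mem_union]
      constructor
      · rintro ⟨h2 | h2, h3⟩
        · exact absurd h3 (Finset.disjoint_left.1 hd (hp.1 h2))
        · exact h2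
      · intro h2
        exact ⟨Or.inr h2, hp.2 h2⟩
    exact Prod.ext h1 h2
  · intro M hM
    rw [Finset.mem_powerset] at hM
    exact CN2c_tm hs cd hd hadj g hM

/-- the part of the sum with `y ∈ M` and `M` disjoint from `K`, where `y` separates `K` from the rest of `A`. -/
theorem PhN_cut {a : I → I → ℕ} (hs : ∀ i j, a i j = a j i) (cd : CrossData a) {A K : Finset I}
    (y : I) (hK : K ⊆ A) (hy : y ∈ A) (hyK : y ∉ K)
    (hadj : ∀ x ∈ K, ∀ z ∈ A, z ∉ K → z ≠ y → a x z = 0) (hKc : ConnS a K) (g : ℕ) :
    ∑ M ∈ A.powerset.filter (fun M => y ∈ M ∧ Disjoint K M), tmN a cd A g M =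
      (g : ℚ) * wN a cd K g * PhN a cd (A \ insert y K) g := by
  unfold PhN
  rw [Finset.mul_sum]
  refine Finset.sum_bij' (fun M _ => M.erase y) (fun M _ => insert y M) ?_ ?_ ?_ ?_ ?_
  · intro M hM
    rw [Finset.mem_filter, Finset.mem_powerset] at hM
    rw [Finset.mem_powerset]
    intro x hx
    rw [Finset.mem_erase] at hx
    rw [Finset.mem_sdiff, Finset.mem_insert]
    refine ⟨hM.1 hx.2, ?_⟩
    rintro (h | h)
    · exact hx.1 h
    · exact Finset.disjoint_left.1 hM.2.2 h hx.2
  · intro M hM
    rw [Finset.mem_powerset] at hM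
    rw [Finset.mem_filter, Finset.mem_powerset]
    refine ⟨Finset.insert_subset hy (hM.trans Finset.sdiff_subset),
      Finset.mem_insert_self _ _, ?_⟩
    rw [Finset.disjoint_left]
    intro x hx hxM
    rw [Finset.mem_insert] at hxM
    rcases hxM with h | h
    · exact hyK (h ▸ hx)
    · have h1 := hM h
      rw [Finset.mem_sdiff] at h1
      exact h1.2 (Finset.mem_insert_of_mem hx)
  · intro M hM
    rw [Finset.mem_filter] at hM
    exact Finset.insert_erase hM.2.1
  · intro M hM
    rw [Finset.mem_powerset] at hM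
    refine Finset.erase_insert fun h => ?_
    have h1 := hM h
    rw [Finset.mem_sdiff] at h1
    exact h1.2 (Finset.mem_insert_self _ _)
  · intro M hM
    rw [Finset.mem_filter, Finset.mem_powerset] at hM
    obtain ⟨hMA, hyM, hKM⟩ := hM
    have hset : A \ M = K ∪ ((A \ insert y K) \ M.erase y) := by
      ext x
      simp only [Finset.mem_sdiff, Finset.mem_union, Finset.mem_insert, Finset.mem_erase]
      constructor
      · rintro ⟨h1, h2⟩
        by_cases h3 : x ∈ K
        · exact Or.inl h3
        · refine Or.inr ⟨⟨h1, ?_⟩, fun h => h2 h.2⟩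
          rintro (h | h)
          · exact h2 (h ▸ hyM)
          · exact h3 h
      · rintro (h | ⟨⟨h1, h2⟩, h3⟩)
        · exact ⟨hK h, Finset.disjoint_left.1 hKM h⟩
        · exact ⟨h1, fun h => h3 ⟨fun h4 => h2 (Or.inl h4), h⟩⟩
    have h1 := comps_union_sep (a := a) hs (A := K) (B := (A \ insert y K) \ M.erase y)
      (by
        rw [Finset.disjoint_left]
        intro x hx hx2
        rw [Finset.mem_sdiff, Finset.mem_sdiff, Finset.mem_insert] at hx2
        exact hx2.1.2 (Or.inr hx))
      (by
        intro x hx z hz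
        rw [Finset.mem_sdiff, Finset.mem_sdiff, Finset.mem_insert] at hz
        exact hadj x hx z hz.1.1 (fun h => hz.1.2 (Or.inr h)) (fun h => hz.1.2 (Or.inl h)))
    have hcard : M.card = (M.erase y).card + 1 := (Finset.card_erase_add_one hyM).symm
    unfold tmN
    rw [hset, h1.1, Finset.prod_union h1.2, comps_of_conn hKc, Finset.prod_singleton, hcard,
      pow_succ]
    ring

/-- the case `K = ∅`. -/
theorem PhN_cut0 {a : I → I → ℕ} (cd : CrossData a) {A : Finset I}
    (y : I) (hy : y ∈ A) (g : ℕ) :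
    ∑ M ∈ A.powerset.filter (fun M => y ∈ M), tmN a cd A g M =
      (g : ℚ) * PhN a cd (A.erase y) g := by
  unfold PhN
  rw [Finset.mul_sum]
  refine Finset.sum_bij' (fun M _ => M.erase y) (fun M _ => insert y M) ?_ ?_ ?_ ?_ ?_
  · intro M hM
    rw [Finset.mem_filter, Finset.mem_powerset] at hM
    rw [Finset.mem_powerset]
    exact Finset.erase_subset_erase _ hM.1
  · intro M hM
    rw [Finset.mem_powerset] at hM
    rw [Finset.mem_filter, Finset.mem_powerset]
    exact ⟨Finset.insert_subset hy (hM.trans (Finset.erase_subset _ _)),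
      Finset.mem_insert_self _ _⟩
  · intro M hM
    rw [Finset.mem_filter] at hM
    exact Finset.insert_erase hM.2
  · intro M hM
    rw [Finset.mem_powerset] at hM
    refine Finset.erase_insert fun h => ?_
    exact (Finset.mem_erase.1 (hM h)).1 rfl
  · intro M hM
    rw [Finset.mem_filter, Finset.mem_powerset] at hM
    obtain ⟨hMA, hyM⟩ := hM
    have hset : A \ M = (A.erase y) \ M.erase y := by
      ext x
      simp only [Finset.mem_sdiff, Finset.mem_erase]
      constructor
      · rintro ⟨h1, h2⟩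
        exact ⟨⟨fun h => h2 (h ▸ hyM), h1⟩, fun h => h2 h.2⟩
      · rintro ⟨⟨h1, h2⟩, h3⟩
        exact ⟨h2, fun h => h3 ⟨h1, h⟩⟩
    have hcard : M.card = (M.erase y).card + 1 := (Finset.card_erase_add_one hyM).symm
    unfold tmN
    rw [hset, hcard, pow_succ]
    ring

end

end Pool.H88.Num
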