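import Pool.Agent.H40.NUM.N5

/-!
KAC ADE numbers, CN7: class zero of `E_7` and `E_8`.
-/

set_option autoImplicit false

namespace Pool.H88.Num

open scoped BigOperators
open Pool.Agent.H27.KAC
open Pool.H88.KA (Typ Std cox MMok mm_eq)

section

variable {I : Type} [Fintype I] [DecidableEq I]

theorem E78_nonneg {a : I → I → ℕ} (hs : ∀ i j, a i j = a j i) (cd : CrossData a)
    (hmm : MMok a cd) (hR : RTnum a cd)
    (heps : ∀ A q, (∀ x ∈ A, IsZ (q x)) → cd.eps A q = 1)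
    {A : Finset I} (hA : FinT a A) (_hc : ConnS a A) {n : ℕ} {φ : Fin n → I} (h : Typ a A n 2 φ)
    (hn : n = 7 ∨ n = 8) (g : ℕ) : 0 ≤ cn a cd A (fun _ => 0) g :=
  Pool.Agent.H40.NUM.E78_nonneg' hs cd hmm hR heps hA h hn g

end

end Pool.H88.Num
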