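import Mathlib

/-!
KAC ADE numbers, analysis 2: Fejer positivity.

Let `R` be a real polynomial, `R(0) = 1`, all complex roots on the unit circle.  Then the power series
`1 / ((1 - X)^(deg R) R)` has nonnegative coefficients.

Proof: strong induction on the degree.  If `R` is not constant take a monic irreducible (over `ℝ`) factor; its degree is
one or two (`Irreducible.degree_le_two`).  Normalise it to have constant coefficient one.
Degree one: the factor is `1 - X` or `1 + X`, and `1 / ((1 - X)(1 ± X))` has nonnegative coefficients (for `1 + X` it is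
`1 / (1 - X^2)`).
Degree two: the factor is `1 - u X + X^2` with `u = β + conj β`, `|u| ≤ 2`, `u < 2`.  Let `U_n` be the coefficients of
`1 / (1 - u X + X^2)`, `|U_n| ≤ n + 1` since `U_n = ∑_{j ≤ n} β^j (conj β)^(n - j)`.  As
`1 - u X + X^2 = (1 - X)^2 + (2 - u) X`, the coefficient `D_n` of `1 / ((1 - X)^2 (1 - u X + X^2))` satisfies
`(2 - u) D_n = (n + 2) - U_{n+1} ≥ 0`.
Products of power series with nonnegative coefficients have nonnegative coefficients.
-/

set_option autoImplicit false

namespace Pool.H88.KA

open Polynomial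

/-- `F` is a power series with nonnegative coefficients. -/
def PNN (F : PowerSeries ℝ) : Prop := ∀ n, 0 ≤ PowerSeries.coeff n F

theorem PNN.mul {F G : PowerSeries ℝ} (hF : PNN F) (hG : PNN G) : PNN (F * G) := by
  intro n
  rw [PowerSeries.coeff_mul]
  exact Finset.sum_nonneg fun p _ => mul_nonneg (hF _) (hG _)

theorem FJ2_inv_uniq {F G P : PowerSeries ℝ} (hF : F * P = 1) (hG : G * P = 1) : F = G := by
  calc F = F * (G * P) := by rw [hG, mul_one]
    _ = G * (F * P) := by ring
    _ = G := by rw [hF, mul_one]

/-- coefficients of a power series inverse to a quadratic polynomial -/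
theorem FJ2_rec {A : PowerSeries ℝ} {a b : ℝ}
    (hA : A * ((1 - PowerSeries.C a * PowerSeries.X + PowerSeries.C b * PowerSeries.X ^ 2)
      : PowerSeries ℝ) = 1) :
    PowerSeries.coeff 0 A = 1 ∧ PowerSeries.coeff 1 A = a * PowerSeries.coeff 0 A ∧
      ∀ n, PowerSeries.coeff (n + 2) A
        = a * PowerSeries.coeff (n + 1) A - b * PowerSeries.coeff n A := by
  have e : A * ((1 - PowerSeries.C a * PowerSeries.X + PowerSeries.C b * PowerSeries.X ^ 2)
      : PowerSeries ℝ) = A - PowerSeries.C a * (A * PowerSeries.X)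
        + PowerSeries.C b * (A * PowerSeries.X * PowerSeries.X) := by ring
  rw [e] at hA
  refine ⟨?_, ?_, ?_⟩
  · have h := congrArg (PowerSeries.coeff 0) hA
    simpa using h
  · have h := congrArg (PowerSeries.coeff 1) hA
    rw [map_add, map_sub, PowerSeries.coeff_C_mul, PowerSeries.coeff_C_mul] at h
    have h1 : PowerSeries.coeff 1 (A * PowerSeries.X) = PowerSeries.coeff 0 A :=
      PowerSeries.coeff_succ_mul_X 0 A
    have h2 : PowerSeries.coeff 1 (A * PowerSeries.X * PowerSeries.X) = 0 := by
      have h3 : PowerSeries.coeff 1 (A * PowerSeries.X * PowerSeries.X)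
          = PowerSeries.coeff 0 (A * PowerSeries.X) := PowerSeries.coeff_succ_mul_X 0 _
      rw [h3]
      simp
    have h4 : PowerSeries.coeff 1 (1 : PowerSeries ℝ) = 0 := by
      rw [PowerSeries.coeff_one]
      simp
    rw [h1, h2, h4] at h
    linarith
  · intro n
    have h := congrArg (PowerSeries.coeff (n + 2)) hA
    rw [map_add, map_sub, PowerSeries.coeff_C_mul, PowerSeries.coeff_C_mul] at h
    have h1 : PowerSeries.coeff (n + 2) (A * PowerSeries.X) = PowerSeries.coeff (n + 1) A :=
      PowerSeries.coeff_succ_mul_X (n + 1) A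
    have h2 : PowerSeries.coeff (n + 2) (A * PowerSeries.X * PowerSeries.X)
        = PowerSeries.coeff n A := by
      have h3 : PowerSeries.coeff (n + 2) (A * PowerSeries.X * PowerSeries.X)
          = PowerSeries.coeff (n + 1) (A * PowerSeries.X) := PowerSeries.coeff_succ_mul_X (n + 1) _
      rw [h3]
      exact PowerSeries.coeff_succ_mul_X n A
    have h4 : PowerSeries.coeff (n + 2) (1 : PowerSeries ℝ) = 0 := by
      rw [PowerSeries.coeff_one]
      simp
    rw [h1, h2, h4] at h
    linarith

theorem FJ2_geom : ∃ G : PowerSeries ℝ, PNN G ∧ G * (1 - PowerSeries.X) = 1 := by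
  refine ⟨PowerSeries.mk fun _ => 1, ?_, ?_⟩
  · intro n
    rw [PowerSeries.coeff_mk]
    exact zero_le_one
  · exact PowerSeries.mk_one_mul_one_sub_eq_one ℝ

theorem FJ2_inv_sq {B : PowerSeries ℝ} (hB : B * (1 - PowerSeries.X) ^ 2 = 1) (n : ℕ) :
    PowerSeries.coeff n B = (n : ℝ) + 1 := by
  have h : B * ((1 - PowerSeries.C 2 * PowerSeries.X + PowerSeries.C 1 * PowerSeries.X ^ 2)
      : PowerSeries ℝ) = 1 := by
    have : (PowerSeries.C 2 : PowerSeries ℝ) = 2 := map_ofNat _ 2
    rw [this, map_one]
    refine Eq.trans ?_ hB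
    ring
  obtain ⟨h0, h1, h2⟩ := FJ2_rec h
  have key : ∀ n : ℕ, PowerSeries.coeff n B = (n : ℝ) + 1 ∧
      PowerSeries.coeff (n + 1) B = (n : ℝ) + 2 := by
    intro n
    induction n with
    | zero =>
      refine ⟨?_, ?_⟩
      · rw [h0]; simp
      · rw [h1, h0]; simp
    | succ k ih =>
      obtain ⟨i1, i2⟩ := ih
      refine ⟨?_, ?_⟩
      · rw [i2]; push_cast; ring
      · rw [h2 k, i1, i2]; push_cast; ring
  exact (key n).1

/-- the coefficients of the inverse of `1 - u X + X^2` are at most `n + 1` -/
theorem FJ2_bound (u : ℝ) (β : ℂ) (hβ : ‖β‖ = 1) (hu : (u : ℂ) = β + (starRingEnd ℂ) β)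
    {A : PowerSeries ℝ}
    (hA : A * ((1 - PowerSeries.C u * PowerSeries.X + PowerSeries.C 1 * PowerSeries.X ^ 2)
      : PowerSeries ℝ) = 1) (n : ℕ) : |PowerSeries.coeff n A| ≤ (n : ℝ) + 1 := by
  obtain ⟨h0, h1, h2⟩ := FJ2_rec hA
  have hbb : β * (starRingEnd ℂ) β = 1 := by
    rw [Complex.mul_conj, Complex.normSq_eq_norm_sq, hβ]
    simp
  have key : ∀ n : ℕ, ((PowerSeries.coeff (n + 1) A : ℝ) : ℂ)
      = β * ((PowerSeries.coeff n A : ℝ) : ℂ) + (starRingEnd ℂ) β ^ (n + 1) := by
    intro n
    induction n with
    | zero =>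
      rw [show (0 + 1 : ℕ) = 1 from rfl, h1, h0]
      push_cast
      rw [hu]
      ring
    | succ k ih =>
      rw [show k + 1 + 1 = k + 2 from rfl, h2 k]
      push_cast
      rw [hu]
      have e1 : (β + (starRingEnd ℂ) β) * ((PowerSeries.coeff (k + 1) A : ℝ) : ℂ)
          - 1 * ((PowerSeries.coeff k A : ℝ) : ℂ)
          = β * ((PowerSeries.coeff (k + 1) A : ℝ) : ℂ)
            + (starRingEnd ℂ) β * ((PowerSeries.coeff (k + 1) A : ℝ) : ℂ)
            - ((PowerSeries.coeff k A : ℝ) : ℂ) := by ring
      have e2 : (starRingEnd ℂ) β * ((PowerSeries.coeff (k + 1) A : ℝ) : ℂ)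
          = ((PowerSeries.coeff k A : ℝ) : ℂ) + (starRingEnd ℂ) β ^ (k + 2) := by
        rw [ih]
        linear_combination (((PowerSeries.coeff k A : ℝ) : ℂ)) * hbb
      linear_combination e1 + e2
  induction n with
  | zero => rw [h0]; simp
  | succ k ih =>
    have hk := key k
    have h3 : ‖((PowerSeries.coeff (k + 1) A : ℝ) : ℂ)‖ ≤ |PowerSeries.coeff k A| + 1 := by
      rw [hk]
      refine (norm_add_le _ _).trans ?_
      rw [norm_mul, norm_pow, hβ, one_mul, RCLike.norm_conj, hβ, one_pow, Complex.norm_real,
        Real.norm_eq_abs]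
    rw [Complex.norm_real, Real.norm_eq_abs] at h3
    push_cast
    linarith

/-- degree two factors. -/
theorem fejer_two (u : ℝ) (β : ℂ) (hβ : ‖β‖ = 1) (hu : (u : ℂ) = β + (starRingEnd ℂ) β)
    (F : PowerSeries ℝ)
    (hF : F * (((1 - X) ^ 2 * (1 - C u * X + X ^ 2) : Polynomial ℝ) : PowerSeries ℝ) = 1) :
    PNN F := by
  have hcoe : (((1 - X) ^ 2 * (1 - C u * X + X ^ 2) : Polynomial ℝ) : PowerSeries ℝ)
      = (1 - PowerSeries.X) ^ 2
        * (1 - PowerSeries.C u * PowerSeries.X + PowerSeries.C 1 * PowerSeries.X ^ 2) := by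
    push_cast
    rw [map_one, one_mul]
  rw [hcoe] at hF
  set P : PowerSeries ℝ :=
    1 - PowerSeries.C u * PowerSeries.X + PowerSeries.C 1 * PowerSeries.X ^ 2 with hP
  have hule : u ≤ 2 := by
    have h1 : u = 2 * β.re := by
      have h2 := congrArg Complex.re hu
      simp only [Complex.ofReal_re, Complex.add_re, Complex.conj_re] at h2
      linarith
    have h3 : β.re ≤ 1 := by
      have := Complex.re_le_norm β
      rwa [hβ] at this
    linarith
  have hA : (F * (1 - PowerSeries.X) ^ 2) * P = 1 := by
    refine Eq.trans ?_ hF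
    ring
  have hB : (F * P) * (1 - PowerSeries.X) ^ 2 = 1 := by
    refine Eq.trans ?_ hF
    ring
  rcases lt_or_eq_of_le hule with hlt | heq
  · intro n
    have e : F * P - F * (1 - PowerSeries.X) ^ 2
        = PowerSeries.C (2 - u) * (F * PowerSeries.X) := by
      rw [hP, map_sub, map_one]
      have : (PowerSeries.C 2 : PowerSeries ℝ) = 2 := map_ofNat _ 2
      rw [this]
      ring
    have h1 := congrArg (PowerSeries.coeff (n + 1)) e
    rw [map_sub, PowerSeries.coeff_C_mul, PowerSeries.coeff_succ_mul_X, FJ2_inv_sq hB] at h1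
    have h2 := FJ2_bound u β hβ hu hA (n + 1)
    have h3 := (abs_le.mp h2).2
    have h4 : 0 ≤ (2 - u) * PowerSeries.coeff n F := by
      rw [← h1]
      linarith
    exact nonneg_of_mul_nonneg_right h4 (by linarith)
  · obtain ⟨G, hG, hG1⟩ := FJ2_geom
    have hP2 : P = (1 - PowerSeries.X) ^ 2 := by
      rw [hP, heq, map_one]
      have : (PowerSeries.C 2 : PowerSeries ℝ) = 2 := map_ofNat _ 2
      rw [this]
      ring
    have h5 : F = G * G * (G * G) := by
      refine FJ2_inv_uniq (P := (1 - PowerSeries.X) ^ 2 * (1 - PowerSeries.X) ^ 2) ?_ ?_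
      · refine Eq.trans ?_ hF
        rw [hP2]
      · calc G * G * (G * G) * ((1 - PowerSeries.X) ^ 2 * (1 - PowerSeries.X) ^ 2)
            = (G * (1 - PowerSeries.X)) ^ 4 := by ring
          _ = 1 := by rw [hG1, one_pow]
    rw [h5]
    exact (hG.mul hG).mul (hG.mul hG)

/-- degree one factors. -/
theorem FJ2_one (x : ℝ) (hx : x = 1 ∨ x = -1) (F : PowerSeries ℝ)
    (hF : F * (((1 - X) ^ 1 * (1 - C x * X) : Polynomial ℝ) : PowerSeries ℝ) = 1) : PNN F := by
  have hcoe : (((1 - X) ^ 1 * (1 - C x * X) : Polynomial ℝ) : PowerSeries ℝ)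
      = (1 - PowerSeries.X) * (1 - PowerSeries.C x * PowerSeries.X) := by
    push_cast
    rw [pow_one]
  rw [hcoe] at hF
  rcases hx with rfl | rfl
  · rw [map_one, one_mul] at hF
    have h1 : F * (1 - PowerSeries.X) ^ 2 = 1 := by
      refine Eq.trans ?_ hF
      ring
    intro n
    rw [FJ2_inv_sq h1]
    positivity
  · have h1 : F * ((1 - PowerSeries.C 0 * PowerSeries.X + PowerSeries.C (-1) * PowerSeries.X ^ 2)
        : PowerSeries ℝ) = 1 := by
      refine Eq.trans ?_ hF
      rw [map_zero, map_neg, map_one]
      ring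
    obtain ⟨h0, h2, h3⟩ := FJ2_rec h1
    have key : ∀ n : ℕ, 0 ≤ PowerSeries.coeff n F ∧ 0 ≤ PowerSeries.coeff (n + 1) F := by
      intro n
      induction n with
      | zero =>
        refine ⟨?_, ?_⟩
        · rw [h0]; exact zero_le_one
        · rw [h2]; simp
      | succ k ih =>
        refine ⟨ih.2, ?_⟩
        rw [h3 k]
        linarith [ih.1]
    exact fun n => (key n).1

/-- splitting off a factor -/
theorem FJ2_split {q S : Polynomial ℝ} (hq : q ≠ 0) (hS : S ≠ 0) (F : PowerSeries ℝ)
    (hF : F * (((1 - X) ^ (q * S).natDegree * (q * S) : Polynomial ℝ) : PowerSeries ℝ) = 1)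
    (h1 : ∀ G : PowerSeries ℝ,
      G * (((1 - X) ^ q.natDegree * q : Polynomial ℝ) : PowerSeries ℝ) = 1 → PNN G)
    (h2 : ∀ G : PowerSeries ℝ,
      G * (((1 - X) ^ S.natDegree * S : Polynomial ℝ) : PowerSeries ℝ) = 1 → PNN G) : PNN F := by
  rw [natDegree_mul hq hS] at hF
  have e : (((1 - X) ^ (q.natDegree + S.natDegree) * (q * S) : Polynomial ℝ) : PowerSeries ℝ)
      = (((1 - X) ^ q.natDegree * q : Polynomial ℝ) : PowerSeries ℝ)
        * (((1 - X) ^ S.natDegree * S : Polynomial ℝ) : PowerSeries ℝ) := by
    rw [← Polynomial.coe_mul]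
    congr 1
    ring
  rw [e] at hF
  set a : PowerSeries ℝ := (((1 - X) ^ q.natDegree * q : Polynomial ℝ) : PowerSeries ℝ)
  set b : PowerSeries ℝ := (((1 - X) ^ S.natDegree * S : Polynomial ℝ) : PowerSeries ℝ)
  have ha : (F * b) * a = 1 := by
    refine Eq.trans ?_ hF
    ring
  have hb : (F * a) * b = 1 := by
    refine Eq.trans ?_ hF
    ring
  have h3 : F = (F * b) * (F * a) := by
    calc F = F * 1 := (mul_one F).symm
      _ = F * (F * (a * b)) := by rw [hF]
      _ = (F * b) * (F * a) := by ring
  rw [h3]
  exact (h1 _ ha).mul (h2 _ hb)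

theorem fejer (R : Polynomial ℝ) (h0 : R.coeff 0 = 1)
    (hroot : ∀ z : ℂ, Polynomial.aeval z R = 0 → ‖z‖ = 1) (F : PowerSeries ℝ)
    (hF : F * (((1 - X) ^ R.natDegree * R : Polynomial ℝ) : PowerSeries ℝ) = 1) : PNN F := by
  have main : ∀ (N : ℕ) (R : Polynomial ℝ), R.natDegree = N → R.coeff 0 = 1 →
      (∀ z : ℂ, Polynomial.aeval z R = 0 → ‖z‖ = 1) → ∀ F : PowerSeries ℝ,
      F * (((1 - X) ^ R.natDegree * R : Polynomial ℝ) : PowerSeries ℝ) = 1 → PNN F := by
    intro N
    induction N using Nat.strong_induction_on with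
    | _ N IH =>
      intro R hN h0 hroot F hF
      have hR0 : R ≠ 0 := by
        rintro rfl
        simp at h0
      rcases Nat.eq_zero_or_pos N with hz | hpos
      · have hR : R = C 1 := by
          rw [eq_C_of_natDegree_eq_zero (hN.trans hz), h0]
        rw [hN, hz, pow_zero, one_mul, hR, map_one, Polynomial.coe_one, mul_one] at hF
        rw [hF]
        intro n
        rw [PowerSeries.coeff_one]
        split_ifs
        · exact zero_le_one
        · exact le_rfl
      · have hdeg : R.degree ≠ 0 := by
          intro h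
          have h4 : R.natDegree = 0 := natDegree_eq_of_degree_eq_some (n := 0) h
          omega
        obtain ⟨z, hz⟩ := IsAlgClosed.exists_aeval_eq_zero ℂ R hdeg
        have hz1 := hroot z hz
        -- the common end of the argument
        have fin : ∀ q S : Polynomial ℝ, R = q * S → q.coeff 0 = 1 → 1 ≤ q.natDegree →
            (∀ G : PowerSeries ℝ,
              G * (((1 - X) ^ q.natDegree * q : Polynomial ℝ) : PowerSeries ℝ) = 1 → PNN G) →
            PNN F := by
          intro q S hqS hq0 hq1 hq
          have hqne : q ≠ 0 := by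
            rintro rfl
            simp at hq0
          have hSne : S ≠ 0 := by
            rintro rfl
            rw [mul_zero] at hqS
            exact hR0 hqS
          have hS0 : S.coeff 0 = 1 := by
            have h5 := h0
            rw [hqS, mul_coeff_zero, hq0, one_mul] at h5
            exact h5
          have hdeg2 : N = q.natDegree + S.natDegree := by
            rw [← hN, hqS, natDegree_mul hqne hSne]
          refine FJ2_split hqne hSne F (by rw [← hqS]; exact hF) hq ?_
          refine IH S.natDegree (by omega) S rfl hS0 ?_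
          intro w hw
          apply hroot w
          rw [hqS, map_mul, hw, mul_zero]
        by_cases him : z.im = 0
        · have hzr : z = ((z.re : ℝ) : ℂ) := by
            apply Complex.ext
            · simp
            · simp [him]
          set x : ℝ := z.re with hx
          have hxroot : R.IsRoot x := by
            have h5 : ((R.eval x : ℝ) : ℂ) = 0 := by
              have h6 := hz
              rw [hzr] at h6
              have h7 : Polynomial.aeval ((x : ℝ) : ℂ) R = ((R.eval x : ℝ) : ℂ) :=
                Polynomial.aeval_ofReal R x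
              rw [← h7]
              exact h6
            exact_mod_cast h5
          have hx1 : x = 1 ∨ x = -1 := by
            have h8 : |x| = 1 := by
              rw [hzr, Complex.norm_real, Real.norm_eq_abs] at hz1
              exact hz1
            rcases eq_or_eq_neg_of_abs_eq h8 with h | h
            · exact Or.inl h
            · exact Or.inr h
          have hxx : x * x = 1 := by
            rcases hx1 with h | h
            · rw [h]; ring
            · rw [h]; ring
          obtain ⟨S, hS⟩ := Polynomial.dvd_iff_isRoot.mpr hxroot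
          have hCxx : (C x * C x : Polynomial ℝ) = 1 := by rw [← C_mul, hxx, map_one]
          have hRS : R = (1 - C x * X) * (C (-x) * S) := by
            rw [hS, C_neg]
            linear_combination (-(X * S)) * hCxx
          have hnd : (1 - C x * X : Polynomial ℝ).natDegree = 1 := by
            have hxne : x ≠ 0 := by
              rintro h
              rw [h] at hxx
              simp at hxx
            have h9 : (1 - C x * X : Polynomial ℝ) = C (-x) * X + C 1 := by
              rw [C_neg, map_one]
              ring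
            rw [h9]
            exact natDegree_linear (neg_ne_zero.mpr hxne)
          refine fin (1 - C x * X) (C (-x) * S) hRS (by simp) hnd.ge ?_
          intro G hG
          rw [hnd] at hG
          exact FJ2_one x hx1 G hG
        · obtain ⟨S, hS⟩ := Polynomial.quadratic_dvd_of_aeval_eq_zero_im_ne_zero R hz him
          have hqe : (X ^ 2 - C (2 * z.re) * X + C (‖z‖ ^ 2) : Polynomial ℝ)
              = 1 - C (2 * z.re) * X + X ^ 2 := by
            rw [hz1, one_pow, map_one]
            ring
          rw [hqe] at hS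
          have hnd : (1 - C (2 * z.re) * X + X ^ 2 : Polynomial ℝ).natDegree = 2 := by
            have h9 : (1 - C (2 * z.re) * X + X ^ 2 : Polynomial ℝ)
                = C 1 * X ^ 2 + C (-(2 * z.re)) * X + C 1 := by
              rw [C_neg, map_one]
              ring
            rw [h9]
            exact natDegree_quadratic one_ne_zero
          refine fin _ S hS (by simp) (by rw [hnd]; norm_num) ?_
          intro G hG
          rw [hnd] at hG
          refine fejer_two (2 * z.re) z hz1 ?_ G hG
          rw [Complex.add_conj]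
  exact main R.natDegree R rfl h0 hroot F hF

end Pool.H88.KA
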