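import Pool.Agent.H88.KA.FJ1
import Pool.Agent.H88.KA.FJ2

/-!
KAC ADE numbers: positivity of the reciprocal.
-/

set_option autoImplicit false

namespace Pool.H88.KA

open Polynomial

theorem FJ4_natDegree : (1 - X : Polynomial ℚ).natDegree = 1 := by
  have h : (1 - X : Polynomial ℚ) = -(X - C 1) := by
    rw [map_one]
    ring
  rw [h, natDegree_neg, natDegree_X_sub_C]

theorem PNN.pow {F : PowerSeries ℝ} (hF : PNN F) (n : ℕ) : PNN (F ^ n) := by
  induction n with
  | zero =>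
    intro m
    rw [pow_zero, PowerSeries.coeff_one]
    split_ifs <;> norm_num
  | succ n ih =>
    rw [pow_succ]
    exact ih.mul hF

theorem fejer_main (Q : Polynomial ℚ) (c : ℕ → ℚ) (e : ℕ)
    (h0 : Q.coeff 0 = 1) (hlead : Q.leadingCoeff = 1 ∨ Q.leadingCoeff = -1)
    (hmul : (Q : PowerSeries ℚ) * PowerSeries.mk c = 1)
    (hgrow : ∃ K D : ℕ, ∀ g, |c g| ≤ K * ((g : ℚ) + 1) ^ D)
    (hdiv : (1 - X) ^ e ∣ Q) (hdeg : Q.natDegree ≤ 2 * e) (g : ℕ) : 0 ≤ c g := by
  obtain ⟨R, hR⟩ := hdiv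
  obtain ⟨ι, hι⟩ : ∃ ι : ℚ →+* ℝ, ι = algebraMap ℚ ℝ := ⟨_, rfl⟩
  have hQ0 : Q ≠ 0 := by
    intro h
    rw [h] at h0
    simp at h0
  have hR0 : R ≠ 0 := by
    intro h
    rw [h, mul_zero] at hR
    exact hQ0 hR
  have h1X : ((1 - X : Polynomial ℚ) ^ e) ≠ 0 := by
    intro h
    rw [h, zero_mul] at hR
    exact hQ0 hR
  have hRc : R.coeff 0 = 1 := by
    rw [hR, mul_coeff_zero] at h0
    have h1 : ((1 - X : Polynomial ℚ) ^ e).coeff 0 = 1 := by
      rw [coeff_zero_eq_eval_zero, eval_pow]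
      simp
    rw [h1, one_mul] at h0
    exact h0
  have hRd : Q.natDegree = e + R.natDegree := by
    rw [hR, natDegree_mul h1X hR0, natDegree_pow, FJ4_natDegree, mul_one]
  obtain ⟨R', hR'⟩ : ∃ R' : Polynomial ℝ, R' = R.map ι := ⟨_, rfl⟩
  have hd' : R'.natDegree = R.natDegree := by
    rw [hR']
    exact natDegree_map_eq_of_injective ι.injective R
  have hroot : ∀ z : ℂ, Polynomial.aeval z R' = 0 → ‖z‖ = 1 := by
    intro z hz
    apply norm_root_eq Q c h0 hlead hmul hgrow z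
    rw [hR, map_mul]
    have h2 : aeval z R = 0 := by
      rw [hR', hι, aeval_map_algebraMap] at hz
      exact hz
    rw [h2, mul_zero]
  obtain ⟨Cr, hCr⟩ : ∃ Cr : PowerSeries ℝ, Cr = PowerSeries.map ι (PowerSeries.mk c) := ⟨_, rfl⟩
  have hmul' : (((1 - X) ^ e * R' : Polynomial ℝ) : PowerSeries ℝ) * Cr = 1 := by
    have h3 := congrArg (PowerSeries.map ι) hmul
    rw [map_mul, map_one, ← hCr] at h3
    have h4 : PowerSeries.map ι (Q : PowerSeries ℚ) =
        (((1 - X) ^ e * R' : Polynomial ℝ) : PowerSeries ℝ) := by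
      rw [← Polynomial.polynomial_map_coe, hR, Polynomial.map_mul, Polynomial.map_pow, hR']
      simp
    rw [h4] at h3
    exact h3
  obtain ⟨F, hF⟩ : ∃ F : PowerSeries ℝ, F = Cr * (1 - PowerSeries.X) ^ (e - R.natDegree) := ⟨_, rfl⟩
  have hF1 : F * (((1 - X) ^ R'.natDegree * R' : Polynomial ℝ) : PowerSeries ℝ) = 1 := by
    rw [hd', ← hmul', hF]
    have h5 : (((1 - X) ^ e * R' : Polynomial ℝ) : PowerSeries ℝ) =
        (1 - PowerSeries.X) ^ e * (R' : PowerSeries ℝ) := by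
      simp
    have h6 : (((1 - X) ^ R.natDegree * R' : Polynomial ℝ) : PowerSeries ℝ) =
        (1 - PowerSeries.X) ^ R.natDegree * (R' : PowerSeries ℝ) := by
      simp
    rw [h5, h6]
    have h7 : (1 - PowerSeries.X : PowerSeries ℝ) ^ e =
        (1 - PowerSeries.X) ^ (e - R.natDegree) * (1 - PowerSeries.X) ^ R.natDegree := by
      rw [← pow_add]
      congr 1
      omega
    rw [h7]
    ring
  have hRc' : R'.coeff 0 = 1 := by
    rw [hR', coeff_map, hRc, map_one]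
  have hPF := fejer R' hRc' hroot F hF1
  have hC : Cr = F * (PowerSeries.mk 1) ^ (e - R.natDegree) := by
    rw [hF, mul_assoc, ← mul_pow, mul_comm (1 - PowerSeries.X) (PowerSeries.mk 1),
      PowerSeries.mk_one_mul_one_sub_eq_one, one_pow, mul_one]
  have hone : PNN (PowerSeries.mk 1 : PowerSeries ℝ) := by
    intro n
    rw [PowerSeries.coeff_mk]
    exact zero_le_one
  have hPC : PNN Cr := by
    rw [hC]
    exact hPF.mul (hone.pow _)
  have h8 := hPC g
  rw [hCr, PowerSeries.coeff_map, PowerSeries.coeff_mk, hι] at h8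
  have h9 : (algebraMap ℚ ℝ) (c g) = ((c g : ℚ) : ℝ) := rfl
  rw [h9] at h8
  exact_mod_cast h8

end Pool.H88.KA
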