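import Pool.Agent.H88.KA.CN1
import Pool.Agent.H88.KA.CN3
import Pool.Agent.H88.KA.FJ3
import Pool.Agent.H88.KA.FJ4

/-!
KAC ADE numbers, CN8: positivity of the response numbers under the numerical bound `mm A ≤ 2 r (e + 1)`.
-/

set_option autoImplicit false

namespace Pool.H88.Num

open scoped BigOperators
open Pool.Agent.H27.KAC
open Polynomial

section

variable {I : Type} [Fintype I] [DecidableEq I]

/-- `r` is the order of `q` on `A`. -/
def OrdA (A : Finset I) (q : I → ℚ) (r : ℕ) : Prop :=
  1 ≤ r ∧ ∀ k : ℕ, (∀ x ∈ A, IsZ ((k : ℚ) * q x)) ↔ r ∣ k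

/-- sums over multiples. -/
theorem sum_mult (r : ℕ) (hr : 1 ≤ r) (k : ℕ) (f : ℕ → ℚ) (h : ∀ i, ¬ r ∣ i → f i = 0) :
    ∑ i ∈ Finset.range (r * k + 1), f i = ∑ j ∈ Finset.range (k + 1), f (r * j) := by
  have h1 : ∑ j ∈ Finset.range (k + 1), f (r * j) =
      ∑ i ∈ (Finset.range (k + 1)).image (fun j => r * j), f i := by
    rw [Finset.sum_image]
    intro x _ y _ hxy
    exact Nat.eq_of_mul_eq_mul_left hr hxy
  rw [h1]
  symm
  apply Finset.sum_subset
  · intro i hi
    rw [Finset.mem_image] at hi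
    obtain ⟨j, hj, rfl⟩ := hi
    rw [Finset.mem_range] at hj ⊢
    have : r * j ≤ r * k := Nat.mul_le_mul_left r (by omega)
    omega
  · intro i hi hi'
    apply h
    rintro ⟨j, rfl⟩
    apply hi'
    rw [Finset.mem_image]
    refine ⟨j, ?_, rfl⟩
    rw [Finset.mem_range] at hi ⊢
    by_contra hc
    have : r * (k + 1) ≤ r * j := Nat.mul_le_mul_left r (by omega)
    have h2 : r * (k + 1) = r * k + r := by ring
    omega

variable {a : I → I → ℕ} {cd : CrossData a}

open Classical in
theorem uniform_nonneg (hs : ∀ i j, a i j = a j i) {A : Finset I} {q : I → ℚ}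
    (hA : FinT a A) (hc : ConnS a A) (hq : WtL a A q) {P : Polynomial ℚ} (hP : PolyOf a cd A q P)
    {r : ℕ} (hr : OrdA A q r)
    (hprim : ∀ N ∈ comps a (A \ A.filter (fun x => IsZ (q x))), ∀ g : ℕ,
      cn a cd N q g = if (∀ x ∈ N, IsZ ((g : ℚ) * q x)) then 1 else 0)
    (hb : cd.mm A ≤ 2 * (r * ((A.filter (fun x => IsZ (q x))).card + 1))) (g : ℕ) :
    0 ≤ cn a cd A q g := by
  obtain ⟨J, hJ⟩ : ∃ J, J = A.filter (fun x => IsZ (q x)) := ⟨_, rfl⟩
  rw [← hJ] at hprim hb
  have hJA : J ⊆ A := by rw [hJ]; exact Finset.filter_subset _ _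
  rcases Finset.eq_empty_or_nonempty J with hJe | hJne
  · -- no integral coordinates
    rw [hJe, Finset.sdiff_empty, comps_of_conn hc] at hprim
    rw [hprim A (Finset.mem_singleton_self A) g]
    split_ifs <;> norm_num
  have hsupp : ∀ k, ¬ r ∣ k → cn a cd A q k = 0 := by
    intro k hk
    by_contra hne
    exact hk ((hr.2 k).1 (cn_wint a hs cd A hA hc q hq k hne))
  have hmul := hP.mul
  have hconv : ∀ n, ∑ i ∈ Finset.range (n + 1), P.coeff i * cn a cd A q (n - i) =
      if n = 0 then 1 else 0 := by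
    intro n
    have h1 := congrArg (PowerSeries.coeff n) hmul
    rw [PowerSeries.coeff_mul, Finset.Nat.sum_antidiagonal_eq_sum_range_succ
      (fun i j => PowerSeries.coeff i (P : PowerSeries ℚ) *
        PowerSeries.coeff j (PowerSeries.mk (cn a cd A q)))] at h1
    simp only [Polynomial.coeff_coe, PowerSeries.coeff_mk, PowerSeries.coeff_one] at h1
    exact h1
  have hPr : ∀ i, ¬ r ∣ i → P.coeff i = 0 := by
    intro i
    induction i using Nat.strong_induction_on with
    | _ i ih =>
      intro hi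
      have h0 : i ≠ 0 := by
        rintro rfl
        exact hi (dvd_zero r)
      have h1 := hconv i
      rw [if_neg h0, Finset.sum_range_succ, Nat.sub_self, cn_zero, mul_one] at h1
      have h2 : ∑ x ∈ Finset.range i, P.coeff x * cn a cd A q (i - x) = 0 := by
        apply Finset.sum_eq_zero
        intro j hj
        rw [Finset.mem_range] at hj
        by_cases hj1 : r ∣ j
        · rw [hsupp (i - j) (fun h => hi ?_), mul_zero]
          have := dvd_add h hj1
          rwa [Nat.sub_add_cancel hj.le] at this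
        · rw [ih j hj hj1, zero_mul]
      rw [h2, zero_add] at h1
      exact h1
  -- the degree
  have hrm : r ∣ cd.mm A := (hr.2 _).1 (fun x hx => cd.integral A q hA hc hq x hx)
  obtain ⟨d, hd⟩ := hrm
  obtain ⟨Q, hQ⟩ : ∃ Q : Polynomial ℚ, Q = ∑ k ∈ Finset.range (d + 1), C (P.coeff (r * k)) * X ^ k :=
    ⟨_, rfl⟩
  have hQc : ∀ k, Q.coeff k = P.coeff (r * k) := by
    intro k
    rw [hQ, Polynomial.finsetSum_coeff]
    simp only [Polynomial.coeff_C_mul_X_pow]
    rw [Finset.sum_ite_eq (Finset.range (d + 1)) k (fun k => P.coeff (r * k))]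
    split_ifs with hi
    · rfl
    · rw [Finset.mem_range] at hi
      symm
      apply Polynomial.coeff_eq_zero_of_natDegree_lt
      rw [hP.deg, hd]
      have h1 : r * (d + 1) ≤ r * k := Nat.mul_le_mul_left r (by omega)
      have h2 : r * (d + 1) = r * d + r := by ring
      have := hr.1
      omega
  have hlead : P.leadingCoeff = 1 ∨ P.leadingCoeff = -1 := by
    rw [hP.lead]
    rcases cd.eps_sq A q with h1 | h1 <;> rcases neg_one_pow_eq_or ℚ A.card with h2 | h2 <;>
      rw [h1, h2] <;> norm_num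
  have hQtop : Q.coeff d = P.leadingCoeff := by
    rw [hQc]
    unfold Polynomial.leadingCoeff
    rw [hP.deg, hd]
  have hQd : Q.natDegree = d := by
    apply Polynomial.natDegree_eq_of_le_of_coeff_ne_zero
    · rw [Polynomial.natDegree_le_iff_coeff_eq_zero]
      intro N hN
      rw [hQc]
      apply Polynomial.coeff_eq_zero_of_natDegree_lt
      rw [hP.deg, hd]
      exact Nat.mul_lt_mul_of_pos_left hN hr.1
    · rw [hQtop]
      rcases hlead with h | h <;> rw [h] <;> norm_num
  have hQl : Q.leadingCoeff = P.leadingCoeff := by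
    unfold Polynomial.leadingCoeff
    rw [hQd, hQtop]
    rfl
  have hQ0 : Q.coeff 0 = 1 := by
    rw [hQc, mul_zero, hP.c0]
  obtain ⟨c, hcdef⟩ : ∃ c : ℕ → ℚ, ∀ k, c k = cn a cd A q (r * k) := ⟨_, fun _ => rfl⟩
  have hQm : (Q : PowerSeries ℚ) * PowerSeries.mk c = 1 := by
    ext n
    rw [PowerSeries.coeff_mul, Finset.Nat.sum_antidiagonal_eq_sum_range_succ
      (fun i j => PowerSeries.coeff i (Q : PowerSeries ℚ) * PowerSeries.coeff j (PowerSeries.mk c))]
    simp only [Polynomial.coeff_coe, PowerSeries.coeff_mk, hQc, hcdef, PowerSeries.coeff_one]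
    have h1 := hconv (r * n)
    rw [sum_mult r hr.1 n (fun i => P.coeff i * cn a cd A q (r * n - i))
      (fun i hi => by rw [hPr i hi, zero_mul])] at h1
    have h2 : ∀ j ∈ Finset.range (n + 1), P.coeff (r * j) * cn a cd A q (r * n - r * j) =
        P.coeff (r * j) * cn a cd A q (r * (n - j)) := by
      intro j _
      rw [Nat.mul_sub]
    rw [Finset.sum_congr rfl h2] at h1
    rw [h1]
    have h3 : r * n = 0 ↔ n = 0 := by
      have := hr.1
      constructor
      · intro h
        rcases Nat.mul_eq_zero.1 h with h | h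
        · omega
        · exact h
      · intro h
        rw [h, mul_zero]
    simp only [h3]
  have hgrow : ∃ K D : ℕ, ∀ g, |c g| ≤ K * ((g : ℚ) + 1) ^ D := by
    obtain ⟨K, D, hK⟩ := cn_growth a cd A q hc
    refine ⟨K * r ^ D, D, fun g => ?_⟩
    rw [hcdef]
    refine (hK _).trans ?_
    push_cast
    rw [mul_assoc, ← mul_pow]
    apply mul_le_mul_of_nonneg_left _ (Nat.cast_nonneg K)
    apply pow_le_pow_left₀ (by positivity)
    have h1 : (1 : ℚ) ≤ r := by exact_mod_cast hr.1
    have h2 : (0 : ℚ) ≤ g := Nat.cast_nonneg g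
    nlinarith
  have hdiv : (1 - X) ^ (J.card + 1) ∣ Q := by
    apply Pool.H88.KA.pow_dvd_of_sums
    intro j hj
    rw [hQd]
    obtain ⟨T, hTJ, hTc⟩ := Finset.exists_subset_card_eq hj
    obtain ⟨L, hL⟩ : ∃ L, L = r * (cd.mm A + 1) := ⟨_, rfl⟩
    have hLm : cd.mm A + 1 ≤ L := by
      rw [hL]
      exact Nat.le_mul_of_pos_left _ hr.1
    have h1 := hP.ann J hJA hJne (fun x hx => by
      rw [hJ, Finset.mem_filter] at hx
      exact hx.2) (fun s => if s ∈ T then 0 else 1) (fun s => if s ∈ T then 1 else 0) (fun _ => L)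
      (fun N _ => by omega)
    have h2 : ∀ i ∈ Finset.range (cd.mm A + 1),
        P.coeff i * (∏ s ∈ J, ((if s ∈ T then (0 : ℚ) else 1) + (if s ∈ T then 1 else 0) * (i : ℚ))) *
          ∏ N ∈ comps a (A \ J), cnS a cd N q L i = P.coeff i * (i : ℚ) ^ j := by
      intro i hi
      rw [Finset.mem_range] at hi
      by_cases hri : r ∣ i
      · have h3 : ∏ s ∈ J, ((if s ∈ T then (0 : ℚ) else 1) + (if s ∈ T then 1 else 0) * (i : ℚ)) =
            (i : ℚ) ^ j := by
          have h4 : ∀ s ∈ J, ((if s ∈ T then (0 : ℚ) else 1) + (if s ∈ T then 1 else 0) * (i : ℚ)) =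
              if s ∈ T then (i : ℚ) else 1 := by
            intro s _
            split_ifs <;> ring
          rw [Finset.prod_congr rfl h4, Finset.prod_ite_mem, Finset.inter_eq_right.2 hTJ,
            Finset.prod_const, hTc]
        have h5 : ∏ N ∈ comps a (A \ J), cnS a cd N q L i = 1 := by
          apply Finset.prod_eq_one
          intro N hN
          unfold cnS
          rw [if_pos (by omega), hprim N hN, if_pos]
          intro x hx
          have hxA : x ∈ A := (Finset.mem_sdiff.1 (comps_subset hN hx)).1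
          have h6 : r ∣ L - i := Nat.dvd_sub (by rw [hL]; exact dvd_mul_right _ _) hri
          exact (hr.2 (L - i)).2 h6 x hxA
        rw [h3, h5, mul_one]
      · rw [hPr i hri]
        ring
    rw [Finset.sum_congr rfl h2, hd, sum_mult r hr.1 d (fun i => P.coeff i * (i : ℚ) ^ j)
      (fun i hi => by rw [hPr i hi, zero_mul])] at h1
    have h7 : ∑ k ∈ Finset.range (d + 1), P.coeff (r * k) * ((r * k : ℕ) : ℚ) ^ j =
        (r : ℚ) ^ j * ∑ k ∈ Finset.range (d + 1), Q.coeff k * (k : ℚ) ^ j := by
      rw [Finset.mul_sum]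
      refine Finset.sum_congr rfl fun k _ => ?_
      rw [hQc]
      push_cast
      rw [mul_pow]
      ring
    rw [h7] at h1
    rcases mul_eq_zero.1 h1 with h8 | h8
    · exfalso
      have : (r : ℚ) ≠ 0 := by
        have := hr.1
        positivity
      exact pow_ne_zero j this h8
    · exact h8
  have hfin := Pool.H88.KA.fejer_main Q c (J.card + 1) hQ0 (by rw [hQl]; exact hlead) hQm hgrow hdiv
    (by
      rw [hQd]
      rw [hd] at hb
      have h1 : r * d ≤ r * (2 * (J.card + 1)) := by
        have : r * (2 * (J.card + 1)) = 2 * (r * (J.card + 1)) := by ring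
        rw [this]
        exact hb
      exact Nat.le_of_mul_le_mul_left h1 hr.1)
  by_cases hrg : r ∣ g
  · obtain ⟨k, rfl⟩ := hrg
    rw [← hcdef]
    exact hfin k
  · rw [hsupp g hrg]

end

end Pool.H88.Num
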