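import Pool.Agent.H88.KA.CN8
import Pool.Agent.H88.KA.CN7
import Pool.Agent.H88.KA.BDA
import Pool.Agent.H88.KA.BDD
import Pool.Agent.H88.KA.BDE

/-!
KAC ADE numbers, CN9: the response numbers are nonnegative.
-/

set_option autoImplicit false

namespace Pool.H88.Num

open scoped BigOperators
open Pool.Agent.H27.KAC
open Pool.H88.KA (Typ Std cox MMok mm_eq TT TT_sum typ_exists cqN_eq)

/-- the vector on the standard graph. -/
noncomputable def VV {I : Type} (n : ℕ) (φ : Fin n → I) (q : I → ℚ) (p : ℕ) : ℚ :=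
  if h : p < n then q (φ ⟨p, h⟩) else 0

theorem isZ_neg {x : ℚ} (h : IsZ x) : IsZ (-x) := by
  obtain ⟨m, hm⟩ := h
  exact ⟨-m, by rw [hm]; push_cast; ring⟩

/-- neighbour sums over `ℚ`. -/
theorem TT_sumQ (n c : ℕ) (hc : c + 2 ≤ n) (V : ℕ → ℚ) (i : Fin n) :
    ∑ j : Fin n, (TT n c i j : ℚ) * V j.1 = NBq n c V i.1 := by
  have h1 : ∀ j : Fin n, (TT n c i j : ℚ) * V j.1 =
      (if i.1 + 1 = n then (if j.1 = c then V j.1 else 0) else 0) +
      (if i.1 + 1 = n then 0 else
        ((if j.1 = i.1 - 1 then (if 1 ≤ i.1 then V j.1 else 0) else 0) +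
        (if j.1 = i.1 + 1 then (if i.1 + 3 ≤ n then V j.1 else 0) else 0) +
        (if j.1 = n - 1 then (if i.1 = c then V j.1 else 0) else 0))) := by
    intro j
    have hi := i.2
    have hj := j.2
    have h2 := TT_sum n c hc (fun p => if p = j.1 then 1 else 0) i
    have h3 : ∑ x : Fin n, (TT n c i x : ℤ) * (fun p => if p = j.1 then (1 : ℤ) else 0) x.1 =
        (TT n c i j : ℤ) := by
      rw [Finset.sum_eq_single j]
      · simp
      · intro b _ hb
        have : b.1 ≠ j.1 := fun h => hb (Fin.ext h)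
        simp [this]
      · intro h
        exact absurd (Finset.mem_univ _) h
    rw [h3] at h2
    have h4 : (TT n c i j : ℚ) = ((TT n c i j : ℤ) : ℚ) := by push_cast; rfl
    rw [h4, h2]
    by_cases c1 : i.1 + 1 = n
    · simp only [if_pos c1]
      by_cases c2 : c = j.1
      · simp [c2]
      · have c3 : ¬ j.1 = c := fun h => c2 h.symm
        simp [c2, c3]
    · simp only [if_neg c1]
      by_cases d1 : j.1 = i.1 - 1
      · by_cases e1 : 1 ≤ i.1
        · have f1 : ¬ j.1 = i.1 + 1 := by omega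
          have f2 : ¬ i.1 + 1 = j.1 := by omega
          have f3 : ¬ j.1 = n - 1 := by omega
          have f4 : ¬ n - 1 = j.1 := by omega
          simp [f1, f2, f3, f4, e1, d1.symm]
        · have f0 : j.1 = i.1 := by omega
          have f1 : ¬ j.1 = i.1 + 1 := by omega
          have f2 : ¬ i.1 + 1 = j.1 := by omega
          have f3 : ¬ j.1 = n - 1 := by omega
          have f4 : ¬ n - 1 = j.1 := by omega
          simp [f1, f2, f3, f4, e1]
      · have f0 : ¬ i.1 - 1 = j.1 := fun h => d1 h.symm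
        by_cases d2 : j.1 = i.1 + 1
        · by_cases e1 : i.1 + 3 ≤ n
          · have f3 : ¬ j.1 = n - 1 := by omega
            have f4 : ¬ n - 1 = j.1 := by omega
            simp [d1, f0, f3, f4, e1, d2.symm]
          · have f3 : j.1 = n - 1 := by omega
            simp [d1, f0, e1, f3.symm]
        · have f2 : ¬ i.1 + 1 = j.1 := fun h => d2 h.symm
          by_cases d3 : j.1 = n - 1
          · simp [d1, f0, d2, f2, d3.symm]
          · have f3 : ¬ n - 1 = j.1 := fun h => d3 h.symm
            simp [d1, f0, d2, f2, d3, f3]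
  rw [Finset.sum_congr rfl fun j _ => h1 j, Finset.sum_add_distrib]
  have hi := i.2
  have hsingle : ∀ (t : ℕ) (F : ℕ → ℚ), t < n → (∑ j : Fin n, if j.1 = t then F j.1 else 0) = F t := by
    intro t F ht
    rw [Finset.sum_eq_single ⟨t, ht⟩]
    · simp
    · intro j _ hj
      rw [if_neg]
      intro h
      exact hj (Fin.ext h)
    · intro h
      exact absurd (Finset.mem_univ _) h
  unfold NBq
  by_cases h : i.1 + 1 = n
  · simp only [if_pos h, Finset.sum_const_zero, add_zero]
    exact hsingle c V (by omega)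
  · simp only [if_neg h, Finset.sum_const_zero, zero_add, Finset.sum_add_distrib]
    rw [hsingle (i.1 - 1) (fun t => if 1 ≤ i.1 then V t else 0) (by omega),
      hsingle (i.1 + 1) (fun t => if i.1 + 3 ≤ n then V t else 0) (by omega),
      hsingle (n - 1) (fun t => if i.1 = c then V t else 0) (by omega)]

section

variable {I : Type} [Fintype I] [DecidableEq I]

open Classical in
theorem e0_eq {a : I → I → ℕ} {A : Finset I} {n c : ℕ} {φ : Fin n → I} (h : Typ a A n c φ)
    (q : I → ℚ) : e0 n (VV n φ q) = (A.filter (fun x => IsZ (q x))).card := by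
  unfold e0
  apply Finset.card_bij (fun p hp => φ ⟨p, Finset.mem_range.1 (Finset.mem_filter.1 hp).1⟩)
  · intro p hp
    rw [Finset.mem_filter, Finset.mem_range] at hp
    rw [Finset.mem_filter]
    refine ⟨h.mem _, ?_⟩
    have h1 := hp.2
    unfold VV at h1
    rw [dif_pos hp.1] at h1
    exact h1
  · intro p hp p' hp' hpp
    exact congrArg Fin.val (h.inj hpp)
  · intro x hx
    rw [Finset.mem_filter] at hx
    obtain ⟨i, rfl⟩ := h.surj x hx.1
    refine ⟨i.1, ?_, rfl⟩
    rw [Finset.mem_filter, Finset.mem_range]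
    refine ⟨i.2, ?_⟩
    unfold VV
    rw [dif_pos i.2]
    exact hx.2

theorem ordA_of {a : I → I → ℕ} {A : Finset I} {n c : ℕ} {φ : Fin n → I} (h : Typ a A n c φ)
    (q : I → ℚ) (r : ℕ) (hr : Ord n (VV n φ q) r) : OrdA A q r := by
  refine ⟨hr.1, fun k => ?_⟩
  rw [← hr.2 k]
  constructor
  · intro hk p hp
    unfold VV
    rw [dif_pos hp]
    exact hk _ (h.mem _)
  · intro hk x hx
    obtain ⟨i, rfl⟩ := h.surj x hx
    have := hk i.1 i.2
    unfold VV at this
    rw [dif_pos i.2] at this
    exact this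

theorem wtN_of {a : I → I → ℕ} {A : Finset I} {n c : ℕ} {φ : Fin n → I} (h : Typ a A n c φ)
    (hc : c + 2 ≤ n) (q : I → ℚ) (hq : WtL a A q) : WtN n c (VV n φ q) := by
  intro p hp
  have h1 := hq (φ ⟨p, hp⟩) (h.mem _)
  rw [cqN_eq a A q _ (h.mem _)] at h1
  have h2 : ∑ y ∈ A, (a (φ ⟨p, hp⟩) y : ℚ) * q y =
      ∑ j : Fin n, (TT n c ⟨p, hp⟩ j : ℚ) * VV n φ q j.1 := by
    symm
    apply Finset.sum_bij (fun (j : Fin n) _ => φ j)
    · intro j _
      exact h.mem j
    · intro j _ j' _ hjj
      exact h.inj hjj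
    · intro y hy
      obtain ⟨i, hi⟩ := h.surj y hy
      exact ⟨i, Finset.mem_univ _, hi⟩
    · intro j _
      unfold VV
      rw [dif_pos j.2, ← h.adj]
  rw [h2, TT_sumQ n c hc] at h1
  have h3 : VV n φ q p = q (φ ⟨p, hp⟩) := by
    unfold VV
    rw [dif_pos hp]
  rw [h3]
  exact h1

open Classical in
/-- the numerical facts. -/
theorem order_bound {a : I → I → ℕ} {cd : CrossData a}
    (hmm : MMok a cd) {A : Finset I} (hA : FinT a A) (hc : ConnS a A) {n c : ℕ} {φ : Fin n → I}
    (h : Typ a A n c φ) (hS : Std n c) (q : I → ℚ) (hq : WtL a A q) :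
    ((∀ x ∈ A, IsZ (q x)) ∧ c = 2 ∧ (n = 7 ∨ n = 8)) ∨
      ∃ r, OrdA A q r ∧ cd.mm A ≤ 2 * (r * ((A.filter (fun x => IsZ (q x))).card + 1)) ∧
        ((A.filter (fun x => IsZ (q x))).card = 0 → cd.mm A = r) := by
  have hm := mm_eq hmm hA hc h hS
  obtain ⟨r, hr⟩ := ord_exists n (VV n φ q)
  have hr' := ordA_of h q r hr
  rw [← e0_eq h q, hm]
  rcases hS with ⟨h1, h2⟩ | ⟨h1, h2⟩ | ⟨h1, h2⟩ | ⟨h1, h2⟩
  · subst h1
    subst h2
    right
    refine ⟨r, hr', ?_⟩
    have h3 : IsZ (2 * VV 1 φ q 0) := by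
      have h4 := hq (φ 0) (h.mem _)
      rw [cqN_eq a A q _ (h.mem _)] at h4
      have h5 : ∑ y ∈ A, (a (φ 0) y : ℚ) * q y = 0 := by
        apply Finset.sum_eq_zero
        intro y hy
        obtain ⟨i, rfl⟩ := h.surj y hy
        have hi : i = 0 := Subsingleton.elim _ _
        subst hi
        rw [hA.loopfree _ (h.mem 0)]
        simp
      rw [h5, sub_zero] at h4
      unfold VV
      rw [dif_pos (by norm_num)]
      exact h4
    have h6 := bd_A1 (VV 1 φ q) r h3 hr
    have h7 : cox 1 0 = 2 := rfl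
    rw [h7]
    constructor
    · omega
    · intro h8
      rw [h8] at h6
      omega
  · right
    refine ⟨r, hr', ?_⟩
    have h3 := wtN_of h (by omega) q hq
    have h4 : c = n - 2 := by omega
    rw [h4] at h3
    have h5 := bd_A n h1 (VV n φ q) r h3 hr
    have h6 : cox n c = n + 1 := by
      unfold cox
      split_ifs <;> omega
    rw [h6, h5]
    constructor
    · omega
    · intro h8
      rw [h8]
      omega
  · right
    refine ⟨r, hr', ?_⟩
    have h3 := wtN_of h (by omega) q hq
    have h4 : c = n - 3 := by omega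
    rw [h4] at h3
    obtain ⟨h5, h5'⟩ := bd_D n h1 (VV n φ q) r h3 hr
    have h6 : cox n c = 2 * n - 2 := by
      unfold cox
      rw [if_pos ⟨h2, h1⟩]
    rw [h6]
    constructor
    · omega
    · intro h8
      omega
  · subst h1
    rcases h2 with h2 | h2 | h2
    · subst h2
      right
      refine ⟨r, hr', ?_⟩
      have h3 := wtN_of h (by omega) q hq
      obtain ⟨h5, h5'⟩ := bd_E6 (VV 6 φ q) r h3 hr
      have h6 : cox 6 2 = 12 := rfl
      rw [h6]
      constructor
      · omega
      · intro h8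
        omega
    · subst h2
      have h3 := wtN_of h (by omega) q hq
      rcases bd_E7 (VV 7 φ q) r h3 hr with h4 | ⟨h5, h5'⟩
      · left
        refine ⟨fun x hx => ?_, rfl, Or.inl rfl⟩
        obtain ⟨i, rfl⟩ := h.surj x hx
        have h5 := h4 i.1 i.2
        unfold VV at h5
        rw [dif_pos i.2] at h5
        exact h5
      · right
        refine ⟨r, hr', ?_⟩
        have h6 : cox 7 2 = 18 := rfl
        rw [h6]
        constructor
        · omega
        · intro h8
          omega
    · subst h2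
      left
      have h3 := wtN_of h (by omega) q hq
      have h4 := bd_E8 (VV 8 φ q) h3
      refine ⟨fun x hx => ?_, rfl, Or.inr rfl⟩
      obtain ⟨i, rfl⟩ := h.surj x hx
      have h5 := h4 i.1 i.2
      unfold VV at h5
      rw [dif_pos i.2] at h5
      exact h5

/-- no integral coordinates: `c(g) = 1` if `g q` is integral, otherwise zero. -/
theorem cn_prim {a : I → I → ℕ} (hs : ∀ i j, a i j = a j i) {cd : CrossData a}
    (hmm : MMok a cd)
    (E1 : ∀ A q, FinT a A → ConnS a A → WtL a A q → (∀ x ∈ A, ¬ IsZ (q x)) →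
      (-1) ^ A.card * cd.eps A q = 1)
    {N : Finset I} (hN : FinT a N) (hc : ConnS a N) {q : I → ℚ} (hq : WtL a N q)
    (hni : ∀ x ∈ N, ¬ IsZ (q x)) (g : ℕ) [Decidable (∀ x ∈ N, IsZ ((g : ℚ) * q x))] :
    cn a cd N q g = if (∀ x ∈ N, IsZ ((g : ℚ) * q x)) then 1 else 0 := by
  classical
  obtain ⟨n, c, φ, hT, hS⟩ := typ_exists hs hN hc
  have hfil : N.filter (fun x => IsZ (q x)) = ∅ := by
    apply Finset.filter_eq_empty_iff.2
    intro x hx
    exact hni x hx
  obtain ⟨r, hr, _, hmr⟩ : ∃ r, OrdA N q r ∧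
      cd.mm N ≤ 2 * (r * ((N.filter (fun x => IsZ (q x))).card + 1)) ∧
        ((N.filter (fun x => IsZ (q x))).card = 0 → cd.mm N = r) := by
    rcases order_bound hmm hN hc hT hS q hq with h | h
    · obtain ⟨x, hx⟩ := hc.1
      exact absurd (h.1 x hx) (hni x hx)
    · exact h
  have hm : cd.mm N = r := hmr (by rw [hfil]; rfl)
  have hsgn := E1 N q hN hc hq hni
  have hrec : ∀ g : ℕ, 1 ≤ g → cn a cd N q g = if r ≤ g then cn a cd N q (g - r) else 0 := by
    intro g hg
    rw [cn_rec a cd N q g hg]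
    have h1 : N.powerset.filter (fun M => ∀ x ∈ M, IsZ (q x)) = {∅} := by
      ext M
      rw [Finset.mem_filter, Finset.mem_powerset, Finset.mem_singleton]
      constructor
      · rintro ⟨hM, hM'⟩
        rw [Finset.eq_empty_iff_forall_notMem]
        intro x hx
        exact hni x (hM hx) (hM' x hx)
      · rintro rfl
        exact ⟨Finset.empty_subset _, fun x hx => absurd hx (Finset.notMem_empty x)⟩
    rw [h1, Finset.sum_singleton, Finset.sdiff_empty, comps_of_conn hc, Finset.prod_singleton,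
      Finset.card_empty, pow_zero, mul_one]
    have h2 : detEff a N ∅ = 1 := by
      unfold detEff
      exact Matrix.det_isEmpty
    rw [h2, mul_one]
    unfold upw
    rw [hm]
    by_cases h3 : r ≤ g
    · rw [if_pos h3, if_pos h3, ← mul_assoc, hsgn, one_mul]
    · rw [if_neg h3, if_neg h3, mul_zero]
  have hmain : ∀ g : ℕ, cn a cd N q g = if r ∣ g then 1 else 0 := by
    intro g
    induction g using Nat.strong_induction_on with
    | _ g ih =>
      rcases Nat.eq_zero_or_pos g with h0 | h0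
      · rw [h0, cn_zero, if_pos (dvd_zero r)]
      · rw [hrec g h0]
        by_cases h3 : r ≤ g
        · rw [if_pos h3, ih (g - r) (by have := hr.1; omega)]
          have h4 : r ∣ g - r ↔ r ∣ g := by
            constructor
            · intro h
              have := dvd_add h (dvd_refl r)
              rwa [Nat.sub_add_cancel h3] at this
            · intro h
              exact Nat.dvd_sub h (dvd_refl r)
          simp only [h4]
        · rw [if_neg h3, if_neg]
          intro h
          exact h3 (Nat.le_of_dvd h0 h)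
  rw [hmain g]
  have h5 := hr.2 g
  by_cases h6 : r ∣ g
  · rw [if_pos h6, if_pos (h5.2 h6)]
  · rw [if_neg h6, if_neg (fun h => h6 (h5.1 h))]

/-- the response numbers are nonnegative. -/
theorem cn_nonneg {a : I → I → ℕ} (hs : ∀ i j, a i j = a j i) (cd : CrossData a)
    (hmm : MMok a cd) (hR : RTnum a cd)
    (E0 : ∀ A q, (∀ x ∈ A, IsZ (q x)) → cd.eps A q = 1)
    (E1 : ∀ A q, FinT a A → ConnS a A → WtL a A q → (∀ x ∈ A, ¬ IsZ (q x)) →
      (-1) ^ A.card * cd.eps A q = 1)
    {A : Finset I} (hA : FinT a A) (hc : ConnS a A) {q : I → ℚ} (hq : WtL a A q) (g : ℕ) :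
    0 ≤ cn a cd A q g := by
  classical
  obtain ⟨n, c, φ, hT, hS⟩ := typ_exists hs hA hc
  rcases order_bound hmm hA hc hT hS q hq with ⟨h1, h2, h3⟩ | ⟨r, hr, hb, _⟩
  · subst h2
    rw [cn_congr a cd A q (fun _ => 0) (fun x hx => by simpa using h1 x hx) g]
    exact E78_nonneg hs cd hmm hR E0 hA hc hT h3 g
  · obtain ⟨P, hP⟩ := polyOf_exists hR hA hc hq
    refine uniform_nonneg hs hA hc hq hP hr ?_ hb g
    intro N hN g'
    have hqN : WtL a N q := AG12b_comp a (Finset.filter_subset _ _) (fun x hx =>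
      (Finset.mem_filter.1 hx).2) hN hq
    have hNs : N ⊆ A \ A.filter (fun x => IsZ (q x)) := comps_subset hN
    apply cn_prim hs hmm E1 (hA.mono (hNs.trans Finset.sdiff_subset)) (comps_conn hN) hqN
    intro x hx hx'
    have h5 := hNs hx
    rw [Finset.mem_sdiff, Finset.mem_filter] at h5
    exact h5.2 ⟨h5.1, hx'⟩

end

end Pool.H88.Num
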