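import Mathlib

/-!
KAC ADE numbers, analysis 1: the roots of `Q` are on the unit circle.

If `Q * C = 1` as power series over `ℚ`, `C = ∑ c_g t^g` with `|c_g| ≤ K (g+1)^D`, then for `|z| < 1` the series
`∑ c_g z^g` converges absolutely and `Q(z) * ∑ c_g z^g = 1` (Cauchy product), so `Q(z) ≠ 0`.  If moreover the leading
coefficient is `±1` and `Q(0) = 1`, the product of the moduli of the roots is one, so all roots have modulus one.
-/

set_option autoImplicit false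

namespace Pool.H88.KA

open Polynomial

private lemma FJ1_summable (c : ℕ → ℚ) (K D : ℕ) (hgrow : ∀ g, |c g| ≤ K * ((g : ℚ) + 1) ^ D)
    (z : ℂ) (hz : ‖z‖ < 1) : Summable fun g : ℕ => ‖((c g : ℚ) : ℂ) * z ^ g‖ := by
  set r : ℝ := (1 + ‖z‖) / 2 with hr
  have hz0 : 0 ≤ ‖z‖ := norm_nonneg z
  have hr0 : 0 < r := by rw [hr]; linarith
  have hr1 : r < 1 := by rw [hr]; linarith
  have hzr : ‖z‖ ≤ r := by rw [hr]; linarith
  have h1 : Summable fun n : ℕ => ((n : ℕ) : ℝ) ^ D * r ^ n :=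
    summable_pow_mul_geometric_of_norm_lt_one D (by rwa [Real.norm_of_nonneg hr0.le])
  have h2 : Summable fun n : ℕ => (((n + 1 : ℕ)) : ℝ) ^ D * r ^ (n + 1) :=
    (summable_nat_add_iff 1).mpr h1
  have h3 := h2.mul_left ((K : ℝ) * r⁻¹)
  refine Summable.of_nonneg_of_le (fun g => norm_nonneg _) ?_ h3
  intro g
  rw [norm_mul, norm_pow]
  have h4 : ‖((c g : ℚ) : ℂ)‖ ≤ (K : ℝ) * (((g + 1 : ℕ)) : ℝ) ^ D := by
    rw [← Complex.ofReal_ratCast, Complex.norm_real, Real.norm_eq_abs]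
    have h5 := hgrow g
    have h6 : (((|c g| : ℚ)) : ℝ) ≤ ((K * ((g : ℚ) + 1) ^ D : ℚ) : ℝ) := by exact_mod_cast h5
    push_cast at h6 ⊢
    exact h6
  have h5 : ‖z‖ ^ g ≤ r ^ g := pow_le_pow_left₀ hz0 hzr g
  calc ‖((c g : ℚ) : ℂ)‖ * ‖z‖ ^ g ≤ ((K : ℝ) * (((g + 1 : ℕ)) : ℝ) ^ D) * r ^ g :=
        mul_le_mul h4 h5 (by positivity) (by positivity)
    _ = (K : ℝ) * r⁻¹ * ((((g + 1 : ℕ)) : ℝ) ^ D * r ^ (g + 1)) := by
        rw [pow_succ]
        field_simp

theorem norm_root_ge (Q : Polynomial ℚ) (c : ℕ → ℚ)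
    (hmul : (Q : PowerSeries ℚ) * PowerSeries.mk c = 1)
    (hgrow : ∃ K D : ℕ, ∀ g, |c g| ≤ K * ((g : ℚ) + 1) ^ D)
    (z : ℂ) (hz : Polynomial.aeval z Q = 0) : 1 ≤ ‖z‖ := by
  by_contra hlt
  rw [not_le] at hlt
  obtain ⟨K, D, hg⟩ := hgrow
  have hs := FJ1_summable c K D hg z hlt
  have hq0 : ∀ i : ℕ, i ∉ Finset.range (Q.natDegree + 1) →
      ((Q.coeff i : ℚ) : ℂ) * z ^ i = 0 := by
    intro i hi
    rw [Finset.mem_range, not_lt] at hi
    rw [Polynomial.coeff_eq_zero_of_natDegree_lt (by omega)]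
    simp
  have hq : Summable fun i : ℕ => ‖((Q.coeff i : ℚ) : ℂ) * z ^ i‖ := by
    apply summable_of_ne_finset_zero (s := Finset.range (Q.natDegree + 1))
    intro i hi
    rw [hq0 i hi, norm_zero]
  have hqs : ∑' i : ℕ, ((Q.coeff i : ℚ) : ℂ) * z ^ i = 0 := by
    rw [tsum_eq_sum hq0, ← hz, Polynomial.aeval_eq_sum_range]
    refine Finset.sum_congr rfl fun i _ => ?_
    rw [Algebra.smul_def]
    rfl
  have hprod := tsum_mul_tsum_eq_tsum_sum_antidiagonal_of_summable_norm hq hs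
  rw [hqs, zero_mul] at hprod
  have hterm : ∀ n : ℕ, ∑ kl ∈ Finset.HasAntidiagonal.antidiagonal n,
      (((Q.coeff kl.1 : ℚ) : ℂ) * z ^ kl.1) * (((c kl.2 : ℚ) : ℂ) * z ^ kl.2) =
      if n = 0 then 1 else 0 := by
    intro n
    have h1 : ∑ kl ∈ Finset.HasAntidiagonal.antidiagonal n, Q.coeff kl.1 * c kl.2 = if n = 0 then 1 else 0 := by
      have h2 := congrArg (PowerSeries.coeff n) hmul
      rw [PowerSeries.coeff_mul, PowerSeries.coeff_one] at h2
      rw [← h2]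
      refine Finset.sum_congr rfl fun kl _ => ?_
      rw [Polynomial.coeff_coe, PowerSeries.coeff_mk]
    have h3 : ∑ kl ∈ Finset.HasAntidiagonal.antidiagonal n,
        (((Q.coeff kl.1 : ℚ) : ℂ) * z ^ kl.1) * (((c kl.2 : ℚ) : ℂ) * z ^ kl.2) =
        ((∑ kl ∈ Finset.HasAntidiagonal.antidiagonal n, Q.coeff kl.1 * c kl.2 : ℚ) : ℂ) * z ^ n := by
      push_cast
      rw [Finset.sum_mul]
      refine Finset.sum_congr rfl fun kl hkl => ?_
      rw [← Finset.HasAntidiagonal.mem_antidiagonal.mp hkl, pow_add]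
      ring
    rw [h3, h1]
    by_cases hn : n = 0
    · subst hn; simp
    · simp [hn]
  rw [tsum_congr hterm, tsum_ite_eq] at hprod
  exact zero_ne_one hprod

private lemma FJ1_prod_ge (s : Multiset ℂ) (h : ∀ w ∈ s, 1 ≤ ‖w‖) : 1 ≤ ‖s.prod‖ := by
  induction s using Multiset.induction_on with
  | empty => simp
  | cons a s ih =>
    rw [Multiset.prod_cons, norm_mul]
    have h1 := h a (Multiset.mem_cons_self a s)
    have h2 := ih (fun w hw => h w (Multiset.mem_cons_of_mem hw))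
    nlinarith

theorem norm_root_eq (Q : Polynomial ℚ) (c : ℕ → ℚ)
    (h0 : Q.coeff 0 = 1) (hlead : Q.leadingCoeff = 1 ∨ Q.leadingCoeff = -1)
    (hmul : (Q : PowerSeries ℚ) * PowerSeries.mk c = 1)
    (hgrow : ∃ K D : ℕ, ∀ g, |c g| ≤ K * ((g : ℚ) + 1) ^ D)
    (z : ℂ) (hz : Polynomial.aeval z Q = 0) : ‖z‖ = 1 := by
  have hge := norm_root_ge Q c hmul hgrow
  refine le_antisymm ?_ (hge z hz)
  set P : Polynomial ℂ := Q.map (algebraMap ℚ ℂ) with hP
  have hP0 : P ≠ 0 := by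
    intro h1
    have h2 : P.coeff 0 = 1 := by rw [hP, Polynomial.coeff_map, h0, map_one]
    rw [h1, Polynomial.coeff_zero] at h2
    exact zero_ne_one h2
  have hroot : ∀ w : ℂ, w ∈ P.roots ↔ Polynomial.aeval w Q = 0 := by
    intro w
    rw [Polynomial.mem_roots hP0, Polynomial.IsRoot.def, hP, Polynomial.eval_map_algebraMap]
  have hsp : P.Splits := IsAlgClosed.splits P
  have h1 := hsp.coeff_zero_eq_leadingCoeff_mul_prod_roots
  have h2 : P.coeff 0 = 1 := by rw [hP, Polynomial.coeff_map, h0, map_one]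
  have h3 : ‖P.leadingCoeff‖ = 1 := by
    rw [hP, Polynomial.leadingCoeff_map]
    rcases hlead with h4 | h4
    · rw [h4, map_one, norm_one]
    · rw [h4, map_neg, map_one, norm_neg, norm_one]
  have h4 : ‖P.roots.prod‖ = 1 := by
    have h5 := congrArg norm h1
    rw [h2, norm_mul, norm_mul, h3, norm_pow, norm_neg, norm_one, one_pow, one_mul, one_mul] at h5
    exact h5.symm
  obtain ⟨s, hs⟩ := Multiset.exists_cons_of_mem ((hroot z).mpr hz)
  rw [hs, Multiset.prod_cons, norm_mul] at h4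
  have h5 : 1 ≤ ‖s.prod‖ := by
    apply FJ1_prod_ge
    intro w hw
    apply hge w
    rw [← hroot w, hs]
    exact Multiset.mem_cons_of_mem hw
  have h6 := norm_nonneg z
  nlinarith

end Pool.H88.KA
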