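import Mathlib

/-!
# Kaplansky's game with two targets: positions, forced wins and strategies

`Got K r p n`: after the moves `p 0, ..., p n` the player `r` owns `K` points of a line without points of the opponent.
`Wins K L r`: the player `r` has a strategy which wins by his eighth move if he needs `K` points and the opponent needs `L`.
`Forces K L n F E`: a player who owns `F`, needs `K` and is to move, forces a win in `n` moves against an opponent who owns `E` and needs `L`.
-/

set_option autoImplicit false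

namespace Pool.Agent.H88.KA

/-- after move number `n` of the play `p` the player `r` owns `K` points of a line without points of the opponent -/
def Got (K r : ℕ) (p : ℕ → ℤ × ℤ) (n : ℕ) : Prop :=
  ∃ a b c : ℤ, (a ≠ 0 ∨ b ≠ 0) ∧
    K ≤ ((Finset.range (n + 1)).filter (fun i => i % 2 = r ∧ a * (p i).1 + b * (p i).2 = c)).card ∧
    ∀ i ∈ Finset.range (n + 1), i % 2 ≠ r → a * (p i).1 + b * (p i).2 ≠ c

/-- the player `r` has a winning strategy if he needs `K` points and his opponent needs `L` points, and he wins by his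
eighth move (the moves of the player `r` are those with the numbers `r, r + 2, ..., r + 14, ...`) -/
def Wins (K L r : ℕ) : Prop :=
  ∃ σ : List (ℤ × ℤ) → ℤ × ℤ, (∀ h : List (ℤ × ℤ), σ h ∉ h) ∧
    ∀ p : ℕ → ℤ × ℤ, Function.Injective p → (∀ n : ℕ, n % 2 = r → p n = σ ((List.range n).map p)) →
      ∃ n : ℕ, n ≤ 14 + r ∧ Got K r p n ∧ ∀ m : ℕ, m < n → ¬ Got L (1 - r) p m

/-- `K` points of `F` on a line without points of `E` -/
def WS (K : ℕ) (F E : Finset (ℤ × ℤ)) : Prop :=
  ∃ a b c : ℤ, (a ≠ 0 ∨ b ≠ 0) ∧ K ≤ (F.filter (fun x => a * x.1 + b * x.2 = c)).card ∧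
    ∀ x ∈ E, a * x.1 + b * x.2 ≠ c

/-- the player to move, who owns `F` and needs `K`, forces a win in `n` moves against `E`, who needs `L` -/
def Forces (K L : ℕ) : ℕ → Finset (ℤ × ℤ) → Finset (ℤ × ℤ) → Prop
  | 0, _, _ => False
  | n + 1, F, E => ∃ x, x ∉ F ∧ x ∉ E ∧ (WS K (insert x F) E ∨
      ∀ y, y ∉ insert x F → y ∉ E → ¬ WS L (insert y E) (insert x F) ∧ Forces K L n (insert x F) (insert y E))

theorem WS.mono {K : ℕ} {F F' E : Finset (ℤ × ℤ)} (h : WS K F E) (hF : F ⊆ F') : WS K F' E := by
  obtain ⟨a, b, c, h0, h1, h2⟩ := h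
  exact ⟨a, b, c, h0, h1.trans (Finset.card_le_card (Finset.filter_subset_filter _ hF)), h2⟩

theorem not_ws_of_card {K : ℕ} {F E : Finset (ℤ × ℤ)} (h : F.card < K) : ¬ WS K F E := by
  rintro ⟨a, b, c, -, h1, -⟩
  have := Finset.card_filter_le F (fun x : ℤ × ℤ => a * x.1 + b * x.2 = c)
  omega

/-- the points of the player `r` before the move number `n` -/
def own (r : ℕ) (p : ℕ → ℤ × ℤ) (n : ℕ) : Finset (ℤ × ℤ) := ((Finset.range n).filter (fun i => i % 2 = r)).image p

/-- the points of the opponent of the player `r` before the move number `n` -/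
def opp (r : ℕ) (p : ℕ → ℤ × ℤ) (n : ℕ) : Finset (ℤ × ℤ) := ((Finset.range n).filter (fun i => i % 2 ≠ r)).image p

theorem got_iff {p : ℕ → ℤ × ℤ} (hp : Function.Injective p) (K r n : ℕ) :
    Got K r p n ↔ WS K (own r p (n + 1)) (opp r p (n + 1)) := by
  unfold Got WS own opp
  refine exists_congr fun a => exists_congr fun b => exists_congr fun c => and_congr Iff.rfl (and_congr ?_ ?_)
  · rw [Finset.filter_image, Finset.card_image_of_injective _ hp, Finset.filter_filter]
  · simp only [Finset.mem_range, Finset.mem_image, Finset.mem_filter]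
    constructor
    · rintro h x ⟨i, ⟨hi, hr⟩, rfl⟩
      exact h i hi hr
    · intro h i hi hr
      exact h (p i) ⟨i, ⟨hi, hr⟩, rfl⟩

theorem own_congr {r n : ℕ} {p p' : ℕ → ℤ × ℤ} (h : ∀ i < n, p i = p' i) : own r p n = own r p' n := by
  unfold own
  apply Finset.image_congr
  intro i hi
  simp only [Finset.coe_filter, Finset.mem_range, Set.mem_ofPred_eq] at hi
  exact h i hi.1

theorem opp_congr {r n : ℕ} {p p' : ℕ → ℤ × ℤ} (h : ∀ i < n, p i = p' i) : opp r p n = opp r p' n := by
  unfold opp
  apply Finset.image_congr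
  intro i hi
  simp only [Finset.coe_filter, Finset.mem_range, Set.mem_ofPred_eq] at hi
  exact h i hi.1

theorem own_succ_self {r n : ℕ} (p : ℕ → ℤ × ℤ) (h : n % 2 = r) : own r p (n + 1) = insert (p n) (own r p n) := by
  unfold own
  rw [Finset.range_add_one, Finset.filter_insert, if_pos h, Finset.image_insert]

theorem own_succ_ne {r n : ℕ} (p : ℕ → ℤ × ℤ) (h : n % 2 ≠ r) : own r p (n + 1) = own r p n := by
  unfold own
  rw [Finset.range_add_one, Finset.filter_insert, if_neg h]

theorem opp_succ_self {r n : ℕ} (p : ℕ → ℤ × ℤ) (h : n % 2 = r) : opp r p (n + 1) = opp r p n := by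
  unfold opp
  rw [Finset.range_add_one, Finset.filter_insert, if_neg (by simpa using h)]

theorem opp_succ_ne {r n : ℕ} (p : ℕ → ℤ × ℤ) (h : n % 2 ≠ r) : opp r p (n + 1) = insert (p n) (opp r p n) := by
  unfold opp
  rw [Finset.range_add_one, Finset.filter_insert, if_pos h, Finset.image_insert]

theorem not_mem_own {r n : ℕ} {p : ℕ → ℤ × ℤ} (hp : Function.Injective p) {m : ℕ} (hm : n ≤ m) : p m ∉ own r p n := by
  unfold own
  simp only [Finset.mem_image, Finset.mem_filter, Finset.mem_range, not_exists, not_and]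
  rintro i ⟨hi, -⟩ h
  have := hp h
  omega

theorem not_mem_opp {r n : ℕ} {p : ℕ → ℤ × ℤ} (hp : Function.Injective p) {m : ℕ} (hm : n ≤ m) : p m ∉ opp r p n := by
  unfold opp
  simp only [Finset.mem_image, Finset.mem_filter, Finset.mem_range, not_exists, not_and]
  rintro i ⟨hi, -⟩ h
  have := hp h
  omega

theorem own_other {r : ℕ} (hr : r < 2) (p : ℕ → ℤ × ℤ) (n : ℕ) : own (1 - r) p n = opp r p n := by
  unfold own opp
  congr 1
  apply Finset.filter_congr
  intro i _
  omega

theorem opp_other {r : ℕ} (hr : r < 2) (p : ℕ → ℤ × ℤ) (n : ℕ) : opp (1 - r) p n = own r p n := by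
  unfold own opp
  congr 1
  apply Finset.filter_congr
  intro i _
  omega

/-- a point outside a given list -/
theorem exists_fresh (h : List (ℤ × ℤ)) : ∃ x, x ∉ h := by
  obtain ⟨x, hx⟩ := Infinite.exists_notMem_finset h.toFinset
  exact ⟨x, by simpa using hx⟩

open Classical in
/-- the first move of a shortest forced win -/
noncomputable def mv (K L : ℕ) (F E : Finset (ℤ × ℤ)) : ℤ × ℤ :=
  if H : ∃ m, ∃ x, x ∉ F ∧ x ∉ E ∧ (WS K (insert x F) E ∨
      ∀ y, y ∉ insert x F → y ∉ E → ¬ WS L (insert y E) (insert x F) ∧ Forces K L m (insert x F) (insert y E))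
  then Classical.choose (Nat.find_spec H) else 0

theorem mv_spec {K L m : ℕ} {F E : Finset (ℤ × ℤ)} (h : Forces K L (m + 1) F E) :
    ∃ m' ≤ m, mv K L F E ∉ F ∧ mv K L F E ∉ E ∧ (WS K (insert (mv K L F E) F) E ∨
      ∀ y, y ∉ insert (mv K L F E) F → y ∉ E → ¬ WS L (insert y E) (insert (mv K L F E) F) ∧
        Forces K L m' (insert (mv K L F E) F) (insert y E)) := by
  classical
  have H : ∃ m, ∃ x, x ∉ F ∧ x ∉ E ∧ (WS K (insert x F) E ∨
      ∀ y, y ∉ insert x F → y ∉ E → ¬ WS L (insert y E) (insert x F) ∧ Forces K L m (insert x F) (insert y E)) :=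
    ⟨m, h⟩
  refine ⟨Nat.find H, Nat.find_min' H h, ?_⟩
  have hs := Classical.choose_spec (Nat.find_spec H)
  have hm : mv K L F E = Classical.choose (Nat.find_spec H) := by
    unfold mv
    rw [dif_pos H]
  rw [hm]
  exact hs

open Classical in
/-- the strategy -/
noncomputable def strat (K L r : ℕ) (h : List (ℤ × ℤ)) : ℤ × ℤ :=
  if mv K L (own r (fun i => h.getD i 0) h.length) (opp r (fun i => h.getD i 0) h.length) ∉ h
  then mv K L (own r (fun i => h.getD i 0) h.length) (opp r (fun i => h.getD i 0) h.length)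
  else Classical.choose (exists_fresh h)

theorem strat_fresh (K L r : ℕ) (h : List (ℤ × ℤ)) : strat K L r h ∉ h := by
  unfold strat
  split_ifs with h1
  · exact Classical.choose_spec (exists_fresh h)
  · exact h1

theorem strat_eq {K L r n : ℕ} {p : ℕ → ℤ × ℤ}
    (h1 : mv K L (own r p n) (opp r p n) ∉ own r p n) (h2 : mv K L (own r p n) (opp r p n) ∉ opp r p n) :
    strat K L r ((List.range n).map p) = mv K L (own r p n) (opp r p n) := by
  have hc : ∀ i < n, (fun i => ((List.range n).map p).getD i 0) i = p i := by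
    intro i hi
    simp [hi]
  have hlen : ((List.range n).map p).length = n := by simp
  unfold strat
  rw [hlen, own_congr hc, opp_congr hc, if_pos]
  intro hmem
  rw [List.mem_map] at hmem
  obtain ⟨i, hi, he⟩ := hmem
  rw [List.mem_range] at hi
  by_cases hr : i % 2 = r
  · apply h1
    rw [← he]
    unfold own
    exact Finset.mem_image_of_mem p (by simp [hi, hr])
  · apply h2
    rw [← he]
    unfold opp
    exact Finset.mem_image_of_mem p (by simp [hi, hr])

/-- a forced win gives a winning continuation -/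
theorem play {K L r : ℕ} (hr : r < 2) {p : ℕ → ℤ × ℤ} (hp : Function.Injective p)
    (hs : ∀ n : ℕ, n % 2 = r → p n = strat K L r ((List.range n).map p)) :
    ∀ m n : ℕ, n % 2 = r → Forces K L m (own r p n) (opp r p n) → (∀ i < n, ¬ Got L (1 - r) p i) →
      ∃ N : ℕ, N + 2 ≤ n + 2 * m ∧ Got K r p N ∧ ∀ i < N, ¬ Got L (1 - r) p i := by
  intro m
  induction m using Nat.strong_induction_on with
  | _ m ih =>
    intro n hn hf hno
    cases m with
    | zero => exact hf.elim
    | succ m =>
      obtain ⟨m', hm', h1, h2, h3⟩ := mv_spec hf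
      have hpn : p n = mv K L (own r p n) (opp r p n) := by
        rw [hs n hn, strat_eq h1 h2]
      rw [← hpn] at h1 h2 h3
      rcases h3 with h3 | h3
      · refine ⟨n, by omega, ?_, hno⟩
        rw [got_iff hp, own_succ_self p hn, opp_succ_self p hn]
        exact h3
      · have hn1 : (n + 1) % 2 ≠ r := by omega
        have hfr1 : p (n + 1) ∉ insert (p n) (own r p n) := by
          rw [← own_succ_self p hn]
          exact not_mem_own hp le_rfl
        have hfr2 : p (n + 1) ∉ opp r p n := not_mem_opp hp (Nat.le_succ n)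
        obtain ⟨h4, h5⟩ := h3 _ hfr1 hfr2
        have e1 : own r p (n + 2) = insert (p n) (own r p n) := by
          rw [own_succ_ne p hn1, own_succ_self p hn]
        have e2 : opp r p (n + 2) = insert (p (n + 1)) (opp r p n) := by
          rw [opp_succ_ne p hn1, opp_succ_self p hn]
        have key : ∀ i < n + 2, ¬ Got L (1 - r) p i := ?_
        · obtain ⟨N, hN, hN1, hN2⟩ := ih m' (by omega) (n + 2) (by omega) (by rw [e1, e2]; exact h5) key
          exact ⟨N, by omega, hN1, hN2⟩
        intro i hi
        rcases Nat.lt_or_ge i n with hlt | hge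
        · exact hno i hlt
        · have hi2 : i = n ∨ i = n + 1 := by omega
          rcases hi2 with rfl | rfl
          · rw [got_iff hp, own_other hr, opp_other hr, own_succ_self p hn, opp_succ_self p hn]
            intro hw
            exact h4 (hw.mono (Finset.subset_insert _ _))
          · rw [got_iff hp, own_other hr, opp_other hr, e1, e2]
            exact h4

theorem wins_first {K L m : ℕ} (hm : m ≤ 8) (h : Forces K L m ∅ ∅) : Wins K L 0 := by
  refine ⟨strat K L 0, strat_fresh K L 0, fun p hp hs => ?_⟩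
  obtain ⟨N, hN, hN1, hN2⟩ := play (by norm_num) hp hs m 0 rfl (by simpa [own, opp] using h) (by intro i hi; omega)
  exact ⟨N, by omega, hN1, hN2⟩

theorem wins_second {K L m : ℕ} (hm : m ≤ 8) (h : ∀ x : ℤ × ℤ, ¬ WS L {x} ∅ ∧ Forces K L m ∅ {x}) : Wins K L 1 := by
  refine ⟨strat K L 1, strat_fresh K L 1, fun p hp hs => ?_⟩
  have e1 : own 1 p 1 = ∅ := by
    rw [own_succ_ne p (by norm_num)]
    rfl
  have e2 : opp 1 p 1 = {p 0} := by
    rw [opp_succ_ne p (by norm_num)]
    rfl
  have q1 : Forces K L m (own 1 p 1) (opp 1 p 1) := by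
    rw [e1, e2]
    exact (h (p 0)).2
  have q2 : ∀ i < 1, ¬ Got L (1 - 1) p i := by
    intro i hi
    have : i = 0 := by omega
    subst this
    rw [got_iff hp, own_other (by norm_num), opp_other (by norm_num), e1, e2]
    exact (h (p 0)).1
  obtain ⟨N, hN, hN1, hN2⟩ := play (by norm_num) hp hs m 1 rfl q1 q2
  exact ⟨N, by omega, hN1, hN2⟩

end Pool.Agent.H88.KA
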