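import Pool.Agent.H88.KA.Main

/-!
# Generic points
-/

set_option autoImplicit false

open Filter

namespace Pool.Agent.H88.KA

/-- a point of a parabola -/
def pt (s t : ℤ) : ℤ × ℤ := (t, t ^ 2 + s)

theorem pt_inj (s : ℤ) : Function.Injective (pt s) := fun _ _ h => congrArg Prod.fst h

theorem ev_big {d : ℤ × ℤ} (hd : d ≠ 0) (X : ℤ × ℤ) (s M : ℤ) : ∀ᶠ t : ℤ in atTop, M < |cr d (pt s t - X)| := by
  by_cases h : d.1 = 0
  · have h2 : d.2 ≠ 0 := fun h2 => hd (Prod.ext h h2)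
    filter_upwards [ev_large (α := d.2 * X.1) (β := -d.2) (neg_ne_zero.mpr h2) M] with t ht
    have : cr d (pt s t - X) = d.2 * X.1 + t * -d.2 := by
      unfold cr pt
      simp only [Prod.fst_sub, Prod.snd_sub]
      rw [h]
      ring
    rw [this]
    exact ht
  · filter_upwards [ev_large (α := -d.2) (β := d.1) h (|M| + |d.2 * X.1 + d.1 * (s - X.2)|), eventually_ge_atTop (1 : ℤ)] with t ht h1
    have e : cr d (pt s t - X) = t * (-d.2 + t * d.1) + (d.2 * X.1 + d.1 * (s - X.2)) := by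
      unfold cr pt
      simp only [Prod.fst_sub, Prod.snd_sub]
      ring
    have h3 : |t * (-d.2 + t * d.1)| ≤ |cr d (pt s t - X)| + |d.2 * X.1 + d.1 * (s - X.2)| := by
      have := abs_sub (cr d (pt s t - X)) (d.2 * X.1 + d.1 * (s - X.2))
      rw [e] at this ⊢
      simpa using this
    have h4 : |-d.2 + t * d.1| ≤ |t * (-d.2 + t * d.1)| := by
      rw [abs_mul, abs_of_pos (by linarith : 0 < t)]
      nlinarith [abs_nonneg (-d.2 + t * d.1)]
    have h5 := le_abs_self M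
    linarith

theorem ev_off {d : ℤ × ℤ} (hd : d ≠ 0) (X : ℤ × ℤ) (s : ℤ) : ∀ᶠ t : ℤ in atTop, cr d (pt s t - X) ≠ 0 := by
  filter_upwards [ev_big hd X s 0] with t ht
  exact abs_pos.mp ht

theorem ev_off' {a X : ℤ × ℤ} (h : X ≠ a) (s : ℤ) : ∀ᶠ t : ℤ in atTop, cr (pt s t - a) (X - a) ≠ 0 := by
  filter_upwards [ev_off (sub_ne_zero.mpr h) a s] with t ht h'
  apply ht
  unfold cr at *
  linarith

theorem ev_fresh (s : ℤ) (S : Finset (ℤ × ℤ)) : ∀ᶠ t : ℤ in atTop, pt s t ∉ S := ev_not_mem (pt_inj s) S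

/-- the line from `a` to a far point of the parabola meets the line `X C` in no lattice point -/
theorem ev_nohit {a C X : ℤ × ℤ} {s : ℤ} (hs : a.1 ^ 2 + s - a.2 ≠ 0) (hX : X ≠ C) (ha : cr (X - C) (a - C) ≠ 0) :
    ∀ᶠ t : ℤ in atTop, cr (pt s t - a) (X - C) ≠ 0 ∧ ∀ z, cr (pt s t - a) (z - a) = 0 → cr (X - C) (z - C) ≠ 0 := by
  filter_upwards [ev_big (sub_ne_zero.mpr hX) a s (|(a.1 ^ 2 + s - a.2) * cr (X - C) (a - C)|),
    eventually_gt_atTop a.1] with t ht ht1
  refine ⟨?_, ?_⟩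
  · intro h
    have h0 : cr (X - C) (pt s t - a) = 0 := by
      unfold cr at *
      linarith
    rw [h0, abs_zero] at ht
    exact absurd ht (not_lt.mpr (abs_nonneg _))
  · intro z hz hz'
    obtain ⟨n, hn⟩ : ∃ n, n = (z - a).2 - (t - a.1 + 2 * a.1) * (z - a).1 := ⟨_, rfl⟩
    have hz2 : (t - a.1) * (z - a).2 - (t ^ 2 + s - a.2) * (z - a).1 = 0 := by
      have := hz
      unfold cr pt at this
      simpa using this
    have e1 : (a.1 ^ 2 + s - a.2) * (z - a).1 = n * (t - a.1) := by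
      rw [hn]
      linear_combination (-1 : ℤ) * hz2
    have e2 : (a.1 ^ 2 + s - a.2) * (z - a).2 = n * (t ^ 2 + s - a.2) := by
      have hx : t - a.1 ≠ 0 := by linarith
      apply mul_left_cancel₀ hx
      linear_combination (a.1 ^ 2 + s - a.2) * hz2 + (t ^ 2 + s - a.2) * e1
    have e3 : (a.1 ^ 2 + s - a.2) * cr (X - C) (z - a) = n * cr (X - C) (pt s t - a) := by
      unfold cr pt
      simp only [Prod.fst_sub, Prod.snd_sub] at e1 e2 ⊢
      linear_combination (X.1 - C.1) * e2 - (X.2 - C.2) * e1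
    have e4 : cr (X - C) (z - a) = - cr (X - C) (a - C) := by
      have : cr (X - C) (z - C) = cr (X - C) (z - a) + cr (X - C) (a - C) := by
        unfold cr
        simp only [Prod.fst_sub, Prod.snd_sub]
        ring
      rw [hz'] at this
      linarith
    rw [e4] at e3
    have e5 : (a.1 ^ 2 + s - a.2) * cr (X - C) (a - C) = - n * cr (X - C) (pt s t - a) := by linarith
    have hn0 : - n ≠ 0 := by
      intro h
      rw [h, zero_mul] at e5
      exact mul_ne_zero hs ha e5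
    rw [e5, abs_mul] at ht
    have h1 : 1 ≤ |-n| := Int.one_le_abs hn0
    nlinarith [abs_nonneg (cr (X - C) (pt s t - a))]

theorem card_filter_empty (a b c : ℤ) : ((∅ : Finset (ℤ × ℤ)).filter (fun x : ℤ × ℤ => a * x.1 + b * x.2 = c)).card = 0 := by
  simp

/-- the third point of `First` in the game (4, 5) -/
theorem exC {A B a b : ℤ × ℤ} (hAB : cr (B - A) (a - A) ≠ 0) (hbA : b ≠ A) (hbB : b ≠ B) (hba : b ≠ a) :
    ∃ C : ℤ × ℤ, C ∉ ({A, B, a, b} : Finset (ℤ × ℤ)) ∧ cr (B - A) (C - A) ≠ 0 ∧ cr (C - A) (a - A) ≠ 0 ∧ cr (C - A) (b - A) ≠ 0 ∧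
      cr (C - B) (a - B) ≠ 0 ∧ cr (C - B) (b - B) ≠ 0 ∧ ∃ X, (X = A ∨ X = B ∨ X = C) ∧ cr (b - a) (X - a) = 0 := by
  have haA : a ≠ A := by
    rintro rfl
    exact hAB (by simp [cr])
  have haB : a ≠ B := by
    rintro rfl
    exact hAB (cr_self _)
  have hBA : B - A ≠ 0 := ne_zero_of_cr_left hAB
  by_cases h : cr (b - a) (A - a) = 0 ∨ cr (b - a) (B - a) = 0
  · obtain ⟨t, h1, h2, h3, h4, h5, h6⟩ := ((ev_fresh 0 {A, B, a, b}).and ((ev_off hBA A 0).and ((ev_off' haA 0).and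
      ((ev_off' hbA 0).and ((ev_off' haB 0).and (ev_off' hbB 0)))))).exists
    refine ⟨pt 0 t, h1, h2, h3, h4, h5, h6, ?_⟩
    rcases h with h | h
    · exact ⟨A, Or.inl rfl, h⟩
    · exact ⟨B, Or.inr (Or.inl rfl), h⟩
  · push Not at h
    obtain ⟨hA, hB⟩ := h
    have hba0 : b - a ≠ 0 := sub_ne_zero.mpr hba
    have ev : ∀ᶠ t : ℤ in atTop, cr (B - A) (a - A) + t * cr (B - A) (b - a) ≠ 0 := ev_ne fun _ => hAB
    obtain ⟨t, h1, h2, h3⟩ := ((ev_not_mem (inj_line hba0 a) {A, B, a, b}).and (ev.and (eventually_ge_atTop 2))).exists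
    have ht0 : t ≠ 0 := by linarith
    have ht1 : 1 - t ≠ 0 := by linarith
    refine ⟨a + t • (b - a), h1, ?_, ?_, ?_, ?_, ?_, a + t • (b - a), Or.inr (Or.inr rfl), ?_⟩
    · convert h2 using 1
      unfold cr
      simp only [Prod.fst_add, Prod.snd_add, Prod.fst_sub, Prod.snd_sub, Prod.smul_fst, Prod.smul_snd, smul_eq_mul]
      ring
    · have : cr (a + t • (b - a) - A) (a - A) = - t * cr (b - a) (A - a) := by
        unfold cr
        simp only [Prod.fst_add, Prod.snd_add, Prod.fst_sub, Prod.snd_sub, Prod.smul_fst, Prod.smul_snd, smul_eq_mul]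
        ring
      rw [this]
      exact mul_ne_zero (neg_ne_zero.mpr ht0) hA
    · have : cr (a + t • (b - a) - A) (b - A) = (1 - t) * cr (b - a) (A - a) := by
        unfold cr
        simp only [Prod.fst_add, Prod.snd_add, Prod.fst_sub, Prod.snd_sub, Prod.smul_fst, Prod.smul_snd, smul_eq_mul]
        ring
      rw [this]
      exact mul_ne_zero ht1 hA
    · have : cr (a + t • (b - a) - B) (a - B) = - t * cr (b - a) (B - a) := by
        unfold cr
        simp only [Prod.fst_add, Prod.snd_add, Prod.fst_sub, Prod.snd_sub, Prod.smul_fst, Prod.smul_snd, smul_eq_mul]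
        ring
      rw [this]
      exact mul_ne_zero (neg_ne_zero.mpr ht0) hB
    · have : cr (a + t • (b - a) - B) (b - B) = (1 - t) * cr (b - a) (B - a) := by
        unfold cr
        simp only [Prod.fst_add, Prod.snd_add, Prod.fst_sub, Prod.snd_sub, Prod.smul_fst, Prod.smul_snd, smul_eq_mul]
        ring
      rw [this]
      exact mul_ne_zero ht1 hB
    · unfold cr
      simp only [Prod.fst_add, Prod.snd_add, Prod.fst_sub, Prod.snd_sub, Prod.smul_fst, Prod.smul_snd, smul_eq_mul]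
      ring

end Pool.Agent.H88.KA
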