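import Pool.Agent.H88.KA.Game

/-!
# Cross products, lines and generic parameters
-/

set_option autoImplicit false

open Filter

namespace Pool.Agent.H88.KA

/-- the cross product of two vectors of the plane -/
def cr (u v : ℤ × ℤ) : ℤ := u.1 * v.2 - u.2 * v.1

theorem cr_self (u : ℤ × ℤ) : cr u u = 0 := by
  unfold cr; ring

/-- two vectors which are not parallel: only `0` is parallel to both -/
theorem eq_zero_of_cr {u g z : ℤ × ℤ} (h : cr u g ≠ 0) (h1 : cr u z = 0) (h2 : cr g z = 0) : z = 0 := by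
  unfold cr at *
  have e1 : (u.1 * g.2 - u.2 * g.1) * z.1 = 0 := by linear_combination g.1 * h1 - u.1 * h2
  have e2 : (u.1 * g.2 - u.2 * g.1) * z.2 = 0 := by linear_combination g.2 * h1 - u.2 * h2
  have f1 := (mul_eq_zero.mp e1).resolve_left h
  have f2 := (mul_eq_zero.mp e2).resolve_left h
  exact Prod.ext f1 f2

theorem ne_zero_of_cr_left {u g : ℤ × ℤ} (h : cr u g ≠ 0) : u ≠ 0 := by
  rintro rfl
  exact h (by simp [cr])

theorem ne_zero_of_cr_right {u g : ℤ × ℤ} (h : cr u g ≠ 0) : g ≠ 0 := by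
  rintro rfl
  exact h (by simp [cr])

/-- vectors orthogonal to (a, b) are parallel -/
theorem cr_of_orth {a b : ℤ} (h : a ≠ 0 ∨ b ≠ 0) {v w : ℤ × ℤ} (hv : a * v.1 + b * v.2 = 0) (hw : a * w.1 + b * w.2 = 0) :
    cr v w = 0 := by
  unfold cr
  have e1 : a * (v.1 * w.2 - v.2 * w.1) = 0 := by linear_combination w.2 * hv - v.2 * hw
  have e2 : b * (v.1 * w.2 - v.2 * w.1) = 0 := by linear_combination v.1 * hw - w.1 * hv
  rcases h with h | h
  · exact (mul_eq_zero.mp e1).resolve_left h
  · exact (mul_eq_zero.mp e2).resolve_left h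

/-- a vector parallel to a vector orthogonal to (a, b) is orthogonal to (a, b) -/
theorem orth_of_cr {a b : ℤ} {v w : ℤ × ℤ} (hv0 : v ≠ 0) (hv : a * v.1 + b * v.2 = 0) (h : cr v w = 0) :
    a * w.1 + b * w.2 = 0 := by
  unfold cr at h
  have e1 : v.1 * (a * w.1 + b * w.2) = 0 := by linear_combination w.1 * hv + b * h
  have e2 : v.2 * (a * w.1 + b * w.2) = 0 := by linear_combination w.2 * hv - a * h
  by_contra hne
  apply hv0
  exact Prod.ext ((mul_eq_zero.mp e1).resolve_right hne) ((mul_eq_zero.mp e2).resolve_right hne)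

theorem ev_large {α β : ℤ} (hβ : β ≠ 0) (M : ℤ) : ∀ᶠ j : ℤ in atTop, M < |α + j * β| := by
  filter_upwards [eventually_gt_atTop (|M| + |α|)] with j hj
  have h1 : 1 ≤ |β| := Int.one_le_abs hβ
  have h0 : 0 ≤ |M| + |α| := by positivity
  have h2 : |j * β| ≤ |α + j * β| + |α| := by
    have := abs_sub (α + j * β) α
    simpa using this
  have h3 : j ≤ |j * β| := by
    rw [abs_mul, abs_of_pos (by linarith : 0 < j)]
    nlinarith
  have h4 := le_abs_self M
  linarith

theorem ev_ne {α β : ℤ} (h : β = 0 → α ≠ 0) : ∀ᶠ j : ℤ in atTop, α + j * β ≠ 0 := by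
  by_cases hβ : β = 0
  · refine Eventually.of_forall fun j => ?_
    rw [hβ, mul_zero, add_zero]
    exact h hβ
  · filter_upwards [ev_large (α := α) hβ 0] with j hj
    exact abs_pos.mp hj

theorem ev_not_mem {f : ℤ → ℤ × ℤ} (hf : Function.Injective f) (S : Finset (ℤ × ℤ)) : ∀ᶠ j : ℤ in atTop, f j ∉ S := by
  have hfin : (f ⁻¹' (S : Set (ℤ × ℤ))).Finite := S.finite_toSet.preimage hf.injOn
  obtain ⟨B, hB⟩ := hfin.bddAbove
  filter_upwards [eventually_gt_atTop B] with j hj hmem
  have := hB (show j ∈ f ⁻¹' (S : Set (ℤ × ℤ)) from hmem)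
  linarith

theorem inj_line {d : ℤ × ℤ} (hd : d ≠ 0) (X : ℤ × ℤ) : Function.Injective fun t : ℤ => X + t • d := by
  intro s t h
  have h' : s • d = t • d := add_left_cancel h
  by_contra hne
  apply hd
  have h1 : (s - t) * d.1 = 0 := by
    have := congrArg Prod.fst h'
    simp only [Prod.smul_fst, smul_eq_mul] at this
    linarith
  have h2 : (s - t) * d.2 = 0 := by
    have := congrArg Prod.snd h'
    simp only [Prod.smul_snd, smul_eq_mul] at this
    linarith
  have hst : s - t ≠ 0 := sub_ne_zero.mpr hne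
  exact Prod.ext ((mul_eq_zero.mp h1).resolve_left hst) ((mul_eq_zero.mp h2).resolve_left hst)

theorem on_line (X d x : ℤ × ℤ) : -d.2 * x.1 + d.1 * x.2 = -d.2 * X.1 + d.1 * X.2 ↔ cr d (x - X) = 0 := by
  unfold cr
  simp only [Prod.fst_sub, Prod.snd_sub]
  constructor <;> intro h <;> linarith

/-- many points of `F` on a line without points of `E` -/
theorem ws_of_line {K : ℕ} {F E : Finset (ℤ × ℤ)} (X d : ℤ × ℤ) (hd : d ≠ 0) (T : Finset ℤ)
    (hT : ∀ t ∈ T, X + t • d ∈ F) (hK : K ≤ T.card) (hE : ∀ e ∈ E, cr d (e - X) ≠ 0) : WS K F E := by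
  refine ⟨-d.2, d.1, -d.2 * X.1 + d.1 * X.2, ?_, ?_, ?_⟩
  · by_contra hcon
    push Not at hcon
    apply hd
    exact Prod.ext hcon.2 (by simpa using hcon.1)
  · refine hK.trans ?_
    rw [← Finset.card_image_of_injective T (inj_line hd X)]
    apply Finset.card_le_card
    intro x hx
    rw [Finset.mem_image] at hx
    obtain ⟨t, ht, rfl⟩ := hx
    rw [Finset.mem_filter]
    refine ⟨hT t ht, ?_⟩
    rw [on_line]
    unfold cr
    simp
    ring
  · intro e he h
    rw [on_line] at h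
    exact hE e he h

/-- one more point on a line without points of the opponent wins -/
theorem finish {K L n : ℕ} {F E : Finset (ℤ × ℤ)} (X d : ℤ × ℤ) (hd : d ≠ 0) (T : Finset ℤ)
    (hT : ∀ t ∈ T, X + t • d ∈ F) (hK : K ≤ T.card + 1) (hE : ∀ e ∈ E, cr d (e - X) ≠ 0) : Forces K L (n + 1) F E := by
  obtain ⟨t, ht⟩ := (ev_not_mem (inj_line hd X) (F ∪ E)).exists
  simp only [Finset.mem_union, not_or] at ht
  refine ⟨X + t • d, ht.1, ht.2, Or.inl ?_⟩
  have htT : t ∉ T := fun h => ht.1 (hT t h)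
  refine ws_of_line X d hd (insert t T) ?_ ?_ hE
  · intro s hs
    rw [Finset.mem_insert] at hs
    rcases hs with rfl | hs
    · exact Finset.mem_insert_self _ _
    · exact Finset.mem_insert_of_mem (hT s hs)
  · rw [Finset.card_insert_of_notMem htT]
    exact hK

/-- two lines meet in one point -/
theorem eq_of_lines {d e x y : ℤ × ℤ} (h : cr d e ≠ 0) (h1 : cr d (x - y) = 0) (h2 : cr e (x - y) = 0) : x = y :=
  sub_eq_zero.mp (eq_zero_of_cr h h1 h2)

/-- the number of points on a line after one more point -/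
theorem card_insert_le (a b c : ℤ) (E : Finset (ℤ × ℤ)) (y : ℤ × ℤ) :
    ((insert y E).filter (fun x : ℤ × ℤ => a * x.1 + b * x.2 = c)).card ≤
      (E.filter (fun x : ℤ × ℤ => a * x.1 + b * x.2 = c)).card + (if a * y.1 + b * y.2 = c then 1 else 0) := by
  rw [Finset.filter_insert]
  split_ifs with h
  · exact Finset.card_insert_le _ _
  · simp

end Pool.Agent.H88.KA
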