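import Mathlib

/-!
KAC ADE, Knit numbers: the standard graphs and the numbers `e_k` (`e_0 = 0`, `e_1 = κ`, `e_{k+2} + e_k = A e_{k+1}`).
-/

set_option autoImplicit false

namespace Pool.H88.KA

open scoped BigOperators

/-- The standard graph: `0, …, n - 2` is a chain and `n - 1` is attached to `c`.
`A_n = TT n (n - 2)`, `D_n = TT n (n - 3)`, `E_n = TT n 2`. -/
def TT (n c : ℕ) (i j : Fin n) : ℕ :=
  if (i.1 + 1 = j.1 ∧ j.1 + 2 ≤ n) ∨ (j.1 + 1 = i.1 ∧ i.1 + 2 ≤ n) ∨
    (i.1 = c ∧ j.1 + 1 = n ∧ i.1 ≠ j.1) ∨ (j.1 = c ∧ i.1 + 1 = n ∧ i.1 ≠ j.1) then 1 else 0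

theorem TT_symm (n c : ℕ) (i j : Fin n) : TT n c i j = TT n c j i := by
  unfold TT
  have h : ((i.1 + 1 = j.1 ∧ j.1 + 2 ≤ n) ∨ (j.1 + 1 = i.1 ∧ i.1 + 2 ≤ n) ∨
    (i.1 = c ∧ j.1 + 1 = n ∧ i.1 ≠ j.1) ∨ (j.1 = c ∧ i.1 + 1 = n ∧ i.1 ≠ j.1)) ↔
    ((j.1 + 1 = i.1 ∧ i.1 + 2 ≤ n) ∨ (i.1 + 1 = j.1 ∧ j.1 + 2 ≤ n) ∨
    (j.1 = c ∧ i.1 + 1 = n ∧ j.1 ≠ i.1) ∨ (i.1 = c ∧ j.1 + 1 = n ∧ j.1 ≠ i.1)) := by
    rw [ne_comm (a := j.1) (b := i.1)]
    tauto
  simp only [h]

theorem TT_diag (n c : ℕ) (i : Fin n) : TT n c i i = 0 := by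
  unfold TT
  rw [if_neg]
  omega

theorem sum_single_fin (n t : ℕ) (F : ℕ → ℤ) :
    (∑ j : Fin n, if j.1 = t then F j.1 else 0) = if t < n then F t else 0 := by
  split_ifs with h
  · rw [Finset.sum_eq_single ⟨t, h⟩]
    · simp
    · intro j _ hj
      rw [if_neg]
      intro hc
      exact hj (Fin.ext hc)
    · intro hc
      exact absurd (Finset.mem_univ _) hc
  · apply Finset.sum_eq_zero
    intro j _
    rw [if_neg]
    have := j.2
    omega

/-- neighbour sums. -/
theorem TT_sum (n c : ℕ) (hc : c + 2 ≤ n) (F : ℕ → ℤ) (i : Fin n) :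
    ∑ j, (TT n c i j : ℤ) * F j.1 =
      if i.1 + 1 = n then F c else
        (if 1 ≤ i.1 then F (i.1 - 1) else 0) + (if i.1 + 3 ≤ n then F (i.1 + 1) else 0) +
          (if i.1 = c then F (n - 1) else 0) := by
  have h1 : ∀ j : Fin n, (TT n c i j : ℤ) * F j.1 =
      (if i.1 + 1 = n then (if j.1 = c then F j.1 else 0) else 0) +
      (if i.1 + 1 = n then 0 else
        ((if j.1 = i.1 - 1 then (if 1 ≤ i.1 then F j.1 else 0) else 0) +
        (if j.1 = i.1 + 1 then (if i.1 + 3 ≤ n then F j.1 else 0) else 0) +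
        (if j.1 = n - 1 then (if i.1 = c then F j.1 else 0) else 0))) := by
    intro j
    have hi := i.2
    have hj := j.2
    unfold TT
    split_ifs <;> omega
  rw [Finset.sum_congr rfl fun j _ => h1 j, Finset.sum_add_distrib]
  have hi := i.2
  by_cases h : i.1 + 1 = n
  · simp only [if_pos h, Finset.sum_const_zero, add_zero, sum_single_fin]
    rw [if_pos (by omega)]
  · simp only [if_neg h, Finset.sum_const_zero, zero_add, Finset.sum_add_distrib]
    rw [sum_single_fin n (i.1 - 1) (fun t => if 1 ≤ i.1 then F t else 0),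
      sum_single_fin n (i.1 + 1) (fun t => if i.1 + 3 ≤ n then F t else 0),
      sum_single_fin n (n - 1) (fun t => if i.1 = c then F t else 0)]
    have h2 : i.1 + 1 < n := by omega
    have h3 : i.1 - 1 < n := by omega
    have h4 : n - 1 < n := by omega
    simp only [if_pos h2, if_pos h3, if_pos h4]

/-- the numbers `e_k`. -/
structure KE {N : Type} [Fintype N] (a : N → N → ℕ) (h : ℕ) (κ : ℤ) (e : ℕ → N → ℤ) : Prop where
  two_le : 2 ≤ h
  kap : 0 < κ
  zero : ∀ x, e 0 x = 0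
  one : ∀ x, e 1 x = κ
  knit : ∀ k x, k + 2 ≤ h → e (k + 2) x + e k x = ∑ y, (a x y : ℤ) * e (k + 1) y
  pos : ∀ k x, 1 ≤ k → k < h → 0 < e k x
  last : ∀ x, e h x = 0

/-! ### type A -/

/-- `2 e_k` for `A_n`, `h = n + 1`. -/
def eA (n : ℤ) (k x : ℤ) : ℤ := n + 1 - |x - k| - |n + 1 - x - k|

theorem eA_wave (n k x : ℤ) : eA n (k + 2) x + eA n k x = eA n (k + 1) (x - 1) + eA n (k + 1) (x + 1) := by
  unfold eA
  have e1 : x - 1 - (k + 1) = x - (k + 2) := by ring
  have e2 : n + 1 - (x - 1) - (k + 1) = n + 1 - x - k := by ring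
  have e3 : x + 1 - (k + 1) = x - k := by ring
  have e4 : n + 1 - (x + 1) - (k + 1) = n + 1 - x - (k + 2) := by ring
  rw [e1, e2, e3, e4]
  ring

theorem eA_zero (n k : ℤ) (h0 : 0 ≤ k) (h1 : k ≤ n + 1) : eA n k 0 = 0 := by
  unfold eA
  rw [abs_of_nonpos (by linarith), abs_of_nonneg (by linarith)]
  ring

theorem eA_top (n k : ℤ) (h0 : 0 ≤ k) (h1 : k ≤ n + 1) : eA n k (n + 1) = 0 := by
  unfold eA
  rw [abs_of_nonneg (by linarith), abs_of_nonpos (by linarith)]
  ring

theorem KE_A (n : ℕ) (hn : 2 ≤ n) :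
    KE (TT n (n - 2)) (n + 1) 2 (fun k i => eA n k ((i.1 : ℤ) + 1)) := by
  refine ⟨by omega, by norm_num, ?_, ?_, ?_, ?_, ?_⟩
  · intro x
    have hx := x.2
    unfold eA
    push_cast
    rw [abs_of_nonneg (by omega), abs_of_nonneg (by omega)]
    ring
  · intro x
    have hx := x.2
    unfold eA
    push_cast
    rw [abs_of_nonneg (by omega), abs_of_nonneg (by omega)]
    ring
  · intro k x hk
    have hx := x.2
    have hw := eA_wave n k ((x.1 : ℤ) + 1)
    have h0 := eA_zero n ((k : ℤ) + 1) (by omega) (by omega)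
    have h1 := eA_top n ((k : ℤ) + 1) (by omega) (by omega)
    rw [TT_sum n (n - 2) (by omega) (fun j => eA n ((k + 1 : ℕ) : ℤ) ((j : ℤ) + 1)) x]
    push_cast
    rw [hw]
    have g1 : ((x.1 : ℤ) + 1 - 1) = x.1 := by ring
    rw [g1]
    by_cases c1 : x.1 + 1 = n
    · rw [if_pos c1]
      have g2 : ((x.1 : ℤ) + 1 + 1) = n + 1 := by omega
      have g3 : (((n - 2 : ℕ) : ℤ) + 1) = x.1 := by omega
      rw [g2, g3, h1, add_zero]
    · rw [if_neg c1]
      by_cases c2 : 1 ≤ x.1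
      · rw [if_pos c2]
        have g4 : (((x.1 - 1 : ℕ) : ℤ) + 1) = x.1 := by omega
        rw [g4]
        by_cases c3 : x.1 + 3 ≤ n
        · rw [if_pos c3, if_neg (by omega)]
          ring
        · rw [if_neg c3, if_pos (by omega)]
          have g5 : (((n - 1 : ℕ) : ℤ) + 1) = (x.1 : ℤ) + 1 + 1 := by omega
          rw [g5]
          ring
      · rw [if_neg c2]
        have g6 : (x.1 : ℤ) = 0 := by omega
        by_cases c3 : x.1 + 3 ≤ n
        · rw [if_pos c3, if_neg (by omega), g6, h0]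
          ring
        · rw [if_neg c3, if_pos (by omega)]
          have g5 : (((n - 1 : ℕ) : ℤ) + 1) = (x.1 : ℤ) + 1 + 1 := by omega
          rw [g5, g6, h0]
          ring
  · intro k x hk hk'
    have hx := x.2
    have hk1 : (1 : ℤ) ≤ k := by exact_mod_cast hk
    have hk2 : (k : ℤ) < n + 1 := by exact_mod_cast hk'
    have hx0 : (0 : ℤ) ≤ x.1 := by positivity
    have hx1 : (x.1 : ℤ) < n := by exact_mod_cast hx
    unfold eA
    rcases abs_cases ((x.1 : ℤ) + 1 - k) with ⟨h1, _⟩ | ⟨h1, _⟩ <;>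
      rcases abs_cases ((n : ℤ) + 1 - ((x.1 : ℤ) + 1) - k) with ⟨h2, _⟩ | ⟨h2, _⟩ <;>
      rw [h1, h2] <;> linarith
  · intro x
    have hx := x.2
    unfold eA
    push_cast
    rw [abs_of_nonpos (by omega), abs_of_nonpos (by omega)]
    ring

theorem KE_A1 : KE (TT 1 0) 2 1 (fun k _ => if k = 1 then 1 else 0) := by
  refine ⟨le_rfl, by norm_num, by simp, by simp, ?_, ?_, by simp⟩
  · intro k x hk
    have hk0 : k = 0 := by omega
    subst hk0
    have hx : x = 0 := Subsingleton.elim _ _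
    subst hx
    simp [TT]
  · intro k x hk hk'
    have : k = 1 := by omega
    subst this
    simp

/-! ### even Coxeter number: it is enough to know one half -/

/-- reflection of the index `k`. -/
theorem KE_half {N : Type} [Fintype N] (a : N → N → ℕ) (M : ℕ) (hM : 1 ≤ M) (κ : ℤ) (hκ : 0 < κ)
    (e : ℕ → N → ℤ) (h0 : ∀ x, e 0 x = 0) (h1 : ∀ x, e 1 x = κ)
    (hrec : ∀ k x, k + 2 ≤ M → e (k + 2) x + e k x = ∑ y, (a x y : ℤ) * e (k + 1) y)
    (hmid : ∀ k x, k + 1 = M → 2 * e k x = ∑ y, (a x y : ℤ) * e (k + 1) y)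
    (hpos : ∀ k x, 1 ≤ k → k ≤ M → 0 < e k x) :
    KE a (2 * M) κ (fun k => e (min k (2 * M - k))) := by
  refine ⟨by omega, hκ, ?_, ?_, ?_, ?_, ?_⟩
  · intro x
    simpa using h0 x
  · intro x
    show e (min 1 (2 * M - 1)) x = κ
    rw [Nat.min_eq_left (by omega)]
    exact h1 x
  · intro k x hk
    show e (min (k + 2) (2 * M - (k + 2))) x + e (min k (2 * M - k)) x =
      ∑ y, (a x y : ℤ) * e (min (k + 1) (2 * M - (k + 1))) y
    rcases lt_trichotomy (k + 1) M with h | h | h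
    · rw [Nat.min_eq_left (by omega), Nat.min_eq_left (by omega), Nat.min_eq_left (by omega)]
      exact hrec k x (by omega)
    · have e1 : min (k + 2) (2 * M - (k + 2)) = k := by omega
      have e2 : min k (2 * M - k) = k := by omega
      have e3 : min (k + 1) (2 * M - (k + 1)) = k + 1 := by omega
      rw [e1, e2, e3, ← hmid k x h]
      ring
    · obtain ⟨r, hr⟩ : ∃ r, r = 2 * M - (k + 2) := ⟨_, rfl⟩
      have e1 : min (k + 2) (2 * M - (k + 2)) = r := by omega
      have e2 : min k (2 * M - k) = r + 2 := by omega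
      have e3 : min (k + 1) (2 * M - (k + 1)) = r + 1 := by omega
      rw [e1, e2, e3, ← hrec r x (by omega)]
      ring
  · intro k x hk hk'
    exact hpos _ x (by omega) (by omega)
  · intro x
    show e (min (2 * M) (2 * M - 2 * M)) x = 0
    rw [Nat.sub_self, Nat.min_zero]
    exact h0 x

/-! ### type D -/

/-- value on the chain. -/
def eT (n k x : ℕ) : ℕ := min x k + (if n ≤ x + k ∧ (x + k - n) % 2 = 0 then 1 else 0)

theorem eT1 (n k x : ℕ) (hn : 4 ≤ n) (hk : k + 2 ≤ n - 1) (hx : x = 1) :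
    eT n (k + 2) x + eT n k x = eT n (k + 1) (x + 1) := by
  unfold eT
  split_ifs <;> omega

theorem eT2 (n k x : ℕ) (_hn : 4 ≤ n) (_hk : k + 2 ≤ n - 1) (hx : 2 ≤ x) (_hx2 : x + 3 ≤ n) :
    eT n (k + 2) x + eT n k x = eT n (k + 1) (x - 1) + eT n (k + 1) (x + 1) := by
  unfold eT
  split_ifs <;> omega

theorem eT3 (n k x : ℕ) (hn : 4 ≤ n) (hk : k + 2 ≤ n - 1) (hx : x + 2 = n) :
    eT n (k + 2) x + eT n k x = eT n (k + 1) (x - 1) + 2 * ((k + 2) / 2) := by
  unfold eT
  split_ifs <;> omega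

theorem eT4 (n k : ℕ) (hn : 4 ≤ n) (hk : k + 2 ≤ n - 1) :
    (k + 3) / 2 + (k + 1) / 2 = eT n (k + 1) (n - 2) := by
  unfold eT
  split_ifs <;> omega

theorem eT1' (n k x : ℕ) (hn : 4 ≤ n) (hk : k + 1 = n - 1) (hx : x = 1) :
    2 * eT n k x = eT n (k + 1) (x + 1) := by
  unfold eT
  split_ifs <;> omega

theorem eT2' (n k x : ℕ) (hn : 4 ≤ n) (hk : k + 1 = n - 1) (hx : 2 ≤ x) (hx2 : x + 3 ≤ n) :
    2 * eT n k x = eT n (k + 1) (x - 1) + eT n (k + 1) (x + 1) := by
  unfold eT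
  split_ifs <;> omega

theorem eT3' (n k x : ℕ) (hn : 4 ≤ n) (hk : k + 1 = n - 1) (hx : x + 2 = n) :
    2 * eT n k x = eT n (k + 1) (x - 1) + 2 * ((k + 2) / 2) := by
  unfold eT
  split_ifs <;> omega

theorem eT4' (n k : ℕ) (hn : 4 ≤ n) (hk : k + 1 = n - 1) :
    2 * ((k + 1) / 2) = eT n (k + 1) (n - 2) := by
  unfold eT
  split_ifs <;> omega

/-- `e_k` for `D_n`, `k ≤ n - 1`. -/
def eD (n k i : ℕ) : ℤ := if i + 3 ≤ n then (eT n k (i + 1) : ℤ) else (((k + 1) / 2 : ℕ) : ℤ)

theorem eD_nb (n k : ℕ) (hn : 4 ≤ n) (i : Fin n) :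
    ∑ j, (TT n (n - 3) i j : ℤ) * eD n (k + 1) j.1 =
      if n ≤ i.1 + 2 then (eT n (k + 1) (n - 2) : ℤ) else
      if i.1 + 3 = n then (eT n (k + 1) (i.1) : ℤ) + 2 * (((k + 2) / 2 : ℕ) : ℤ) else
      if i.1 = 0 then (eT n (k + 1) (i.1 + 2) : ℤ) else
        (eT n (k + 1) i.1 : ℤ) + (eT n (k + 1) (i.1 + 2) : ℤ) := by
  have hi := i.2
  have h0 : eT n (k + 1) 0 = if n ≤ 0 + (k + 1) ∧ (0 + (k + 1) - n) % 2 = 0 then 1 else 0 := by
    unfold eT
    rw [Nat.zero_min, zero_add]
  rw [TT_sum n (n - 3) (by omega) (eD n (k + 1)) i]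
  by_cases c1 : i.1 + 1 = n
  · rw [if_pos c1, if_pos (by omega)]
    unfold eD
    rw [if_pos (by omega)]
    congr 2
    omega
  · rw [if_neg c1]
    by_cases c2 : i.1 + 2 = n
    · rw [if_pos (by omega : n ≤ i.1 + 2), if_pos (by omega), if_neg (by omega),
        if_neg (by omega), add_zero, add_zero]
      unfold eD
      rw [if_pos (by omega)]
      congr 2
      omega
    · rw [if_neg (by omega : ¬ n ≤ i.1 + 2)]
      by_cases c3 : i.1 + 3 = n
      · rw [if_pos c3, if_pos (by omega), if_pos (by omega), if_pos (by omega)]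
        unfold eD
        rw [if_pos (by omega), if_neg (by omega), if_neg (by omega)]
        have g : i.1 - 1 + 1 = i.1 := by omega
        rw [g]
        ring
      · rw [if_neg c3, if_pos (by omega : i.1 + 3 ≤ n), if_neg (by omega : ¬ i.1 = n - 3), add_zero]
        by_cases c4 : i.1 = 0
        · rw [if_neg (by omega), if_pos c4, zero_add]
          unfold eD
          rw [if_pos (by omega)]
        · rw [if_pos (by omega), if_neg c4]
          unfold eD
          rw [if_pos (by omega), if_pos (by omega)]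
          have g : i.1 - 1 + 1 = i.1 := by omega
          rw [g]

theorem KE_D (n : ℕ) (hn : 4 ≤ n) :
    ∃ e, KE (TT n (n - 3)) (2 * n - 2) 1 e := by
  have h2 : 2 * n - 2 = 2 * (n - 1) := by omega
  rw [h2]
  refine ⟨_, KE_half (TT n (n - 3)) (n - 1) (by omega) 1 one_pos (fun k i => eD n k i.1)
    ?_ ?_ ?_ ?_ ?_⟩
  · intro x
    have hx := x.2
    show eD n 0 x.1 = 0
    unfold eD eT
    split_ifs <;> first | omega | rfl
  · intro x
    have hx := x.2
    show eD n 1 x.1 = 1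
    unfold eD eT
    split_ifs <;> first | omega | rfl
  · intro k x hk
    have hx := x.2
    rw [eD_nb n k hn x]
    show eD n (k + 2) x.1 + eD n k x.1 = _
    unfold eD
    by_cases c1 : n ≤ x.1 + 2
    · rw [if_neg (by omega), if_neg (by omega), if_pos c1]
      have := eT4 n k hn hk
      have g : k + 2 + 1 = k + 3 := by omega
      rw [g]
      exact_mod_cast this
    · rw [if_pos (by omega), if_pos (by omega), if_neg c1]
      by_cases c3 : x.1 + 3 = n
      · rw [if_pos c3]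
        have := eT3 n k (x.1 + 1) hn hk (by omega)
        rw [Nat.add_sub_cancel] at this
        exact_mod_cast this
      · rw [if_neg c3]
        by_cases c4 : x.1 = 0
        · rw [if_pos c4]
          have := eT1 n k (x.1 + 1) hn hk (by omega)
          exact_mod_cast this
        · rw [if_neg c4]
          have := eT2 n k (x.1 + 1) hn hk (by omega) (by omega)
          rw [Nat.add_sub_cancel] at this
          exact_mod_cast this
  · intro k x hk
    have hx := x.2
    rw [eD_nb n k hn x]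
    show 2 * eD n k x.1 = _
    unfold eD
    by_cases c1 : n ≤ x.1 + 2
    · rw [if_neg (by omega), if_pos c1]
      have := eT4' n k hn hk
      exact_mod_cast this
    · rw [if_pos (by omega), if_neg c1]
      by_cases c3 : x.1 + 3 = n
      · rw [if_pos c3]
        have := eT3' n k (x.1 + 1) hn hk (by omega)
        rw [Nat.add_sub_cancel] at this
        exact_mod_cast this
      · rw [if_neg c3]
        by_cases c4 : x.1 = 0
        · rw [if_pos c4]
          have := eT1' n k (x.1 + 1) hn hk (by omega)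
          exact_mod_cast this
        · rw [if_neg c4]
          have := eT2' n k (x.1 + 1) hn hk (by omega) (by omega)
          rw [Nat.add_sub_cancel] at this
          exact_mod_cast this
  · intro k x hk hk'
    have hx := x.2
    show 0 < eD n k x.1
    unfold eD eT
    split_ifs <;> omega

end Pool.H88.KA
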