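import Pool.Agent.H88.KA.KN1

/-!
KAC ADE, Knit numbers for `E_6, E_7, E_8`.
-/

set_option autoImplicit false

namespace Pool.H88.KA

open scoped BigOperators

/-- look up in a table. -/
def tab (L : List (List ℤ)) (k i : ℕ) : ℤ := (L.getD k []).getD i 0

theorem KE_tab (n M : ℕ) (L : List (List ℤ)) (hM : 1 ≤ M)
    (h0 : ∀ i : Fin n, tab L 0 i = 0) (h1 : ∀ i : Fin n, tab L 1 i = 1)
    (h2 : ∀ k : Fin (M - 1), ∀ i : Fin n, tab L (k.1 + 2) i + tab L k.1 i =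
      ∑ j : Fin n, (TT n 2 i j : ℤ) * tab L (k.1 + 1) j)
    (h3 : ∀ i : Fin n, 2 * tab L (M - 1) i = ∑ j : Fin n, (TT n 2 i j : ℤ) * tab L M j)
    (h4 : ∀ k : Fin M, ∀ i : Fin n, 0 < tab L (k.1 + 1) i) :
    ∃ e, KE (TT n 2) (2 * M) 1 e := by
  refine ⟨_, KE_half (TT n 2) M hM 1 one_pos (fun k i => tab L k i) h0 h1 ?_ ?_ ?_⟩
  · intro k x hk
    exact h2 ⟨k, by omega⟩ x
  · intro k x hk
    have h5 := h3 x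
    have h6 : M - 1 = k := by omega
    rw [h6] at h5
    subst hk
    exact h5
  · intro k x hk hk'
    have h5 := h4 ⟨k - 1, by omega⟩ x
    have h6 : k - 1 + 1 = k := by omega
    rw [h6] at h5
    exact h5

def tabE6 : List (List ℤ) :=
  [[0, 0, 0, 0, 0, 0],
   [1, 1, 1, 1, 1, 1],
   [1, 2, 3, 2, 1, 1],
   [1, 3, 4, 3, 1, 2],
   [2, 3, 5, 3, 2, 3],
   [2, 4, 5, 4, 2, 3],
   [2, 4, 6, 4, 2, 2]]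

theorem KE_E6 : ∃ e, KE (TT 6 2) 12 1 e := by
  refine KE_tab 6 6 tabE6 (by norm_num) ?_ ?_ ?_ ?_ ?_ <;> decide +kernel

def tabE7 : List (List ℤ) :=
  [[0, 0, 0, 0, 0, 0, 0],
   [1, 1, 1, 1, 1, 1, 1],
   [1, 2, 3, 2, 2, 1, 1],
   [1, 3, 4, 4, 2, 1, 2],
   [2, 3, 6, 4, 3, 1, 3],
   [2, 5, 6, 5, 3, 2, 4],
   [3, 5, 8, 5, 4, 2, 3],
   [3, 6, 7, 7, 4, 2, 4],
   [3, 5, 9, 6, 5, 2, 4],
   [2, 6, 8, 7, 4, 3, 5]]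

theorem KE_E7 : ∃ e, KE (TT 7 2) 18 1 e := by
  refine KE_tab 7 9 tabE7 (by norm_num) ?_ ?_ ?_ ?_ ?_ <;> decide +kernel

def tabE8 : List (List ℤ) :=
  [[0, 0, 0, 0, 0, 0, 0, 0],
   [1, 1, 1, 1, 1, 1, 1, 1],
   [1, 2, 3, 2, 2, 2, 1, 1],
   [1, 3, 4, 4, 3, 2, 1, 2],
   [2, 3, 6, 5, 4, 2, 1, 3],
   [2, 5, 7, 6, 4, 3, 1, 4],
   [3, 6, 9, 6, 5, 3, 2, 4],
   [4, 7, 9, 8, 5, 4, 2, 5],
   [4, 7, 11, 8, 7, 4, 2, 5],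
   [3, 8, 11, 10, 7, 5, 2, 6],
   [4, 7, 13, 10, 8, 5, 3, 6],
   [4, 9, 12, 11, 8, 6, 3, 7],
   [5, 9, 14, 10, 9, 6, 3, 6],
   [5, 10, 13, 12, 8, 6, 3, 7],
   [5, 9, 15, 11, 9, 5, 3, 7],
   [4, 10, 14, 12, 8, 6, 2, 8]]

theorem KE_E8 : ∃ e, KE (TT 8 2) 30 1 e := by
  refine KE_tab 8 15 tabE8 (by norm_num) ?_ ?_ ?_ ?_ ?_ <;> decide +kernel

end Pool.H88.KA
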