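import Pool.Agent.H10.KAC.Curve
import Pool.Agent.H88.KA.KN2

/-!
KAC ADE: from the numbers `e_k` to `Knit`.
-/

set_option autoImplicit false

namespace Pool.H88.KA

open scoped BigOperators
open Matrix

variable {N : Type} [Fintype N] [DecidableEq N]

/-- `(C v)_x`, `C = 2 - a`. -/
def cZ (a : N → N → ℕ) (v : N → ℤ) (x : N) : ℤ := 2 * v x - ∑ y, (a x y : ℤ) * v y

/-- positive definiteness of `C = 2 - a`. -/
def PD (a : N → N → ℕ) : Prop := ∀ v : N → ℤ, v ≠ 0 → 0 < ∑ x, v x * cZ a v x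

/-- minimum principle. -/
theorem PD.nonneg {a : N → N → ℕ} (h : PD a) (o : N → ℤ) (ho : ∀ x, 0 ≤ cZ a o x) (x : N) :
    0 ≤ o x := by
  by_contra hneg
  push Not at hneg
  obtain ⟨n, hn⟩ : ∃ n : N → ℤ, n = fun x => max (-o x) 0 := ⟨_, rfl⟩
  have hn0 : ∀ x, 0 ≤ n x := fun x => by rw [hn]; exact le_max_right _ _
  have hn1 : ∀ x, -o x ≤ n x := fun x => by rw [hn]; exact le_max_left _ _
  have hne : n ≠ 0 := by
    intro hc
    have h1 := congrFun hc x
    have h2 := hn1 x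
    rw [h1, Pi.zero_apply] at h2
    linarith
  have h1 := h n hne
  have h2 : ∀ x, n x * cZ a n x ≤ 0 := by
    intro x
    by_cases hx : n x = 0
    · rw [hx, zero_mul]
    · have h3 : n x = -o x := by
        have h4 : n x = max (-o x) 0 := by rw [hn]
        rcases max_choice (-o x) 0 with h5 | h5
        · rw [h4, h5]
        · exact absurd (h4.trans h5) hx
      have h4 : cZ a n x ≤ -cZ a o x := by
        unfold cZ
        have h5 : ∑ y, (a x y : ℤ) * -o y ≤ ∑ y, (a x y : ℤ) * n y :=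
          Finset.sum_le_sum fun y _ => mul_le_mul_of_nonneg_left (hn1 y) (Int.natCast_nonneg _)
        have h6 : ∑ y, (a x y : ℤ) * -o y = -∑ y, (a x y : ℤ) * o y := by
          rw [← Finset.sum_neg_distrib]
          exact Finset.sum_congr rfl fun y _ => by ring
        rw [h6] at h5
        rw [h3]
        linarith
      have h5 := ho x
      have h6 := hn0 x
      nlinarith
  have h3 : ∑ x, n x * cZ a n x ≤ 0 := Finset.sum_nonpos fun x _ => h2 x
  linarith

theorem PD.pos {a : N → N → ℕ} (h : PD a) (o : N → ℤ)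
    (ho : ∀ x, 0 < cZ a o x) (x : N) : 0 < o x := by
  have h1 := fun x => h.nonneg o (fun x => (ho x).le) x
  rcases (h1 x).lt_or_eq with h2 | h2
  · exact h2
  · exfalso
    have h3 := ho x
    unfold cZ at h3
    rw [← h2] at h3
    have h4 : 0 ≤ ∑ y, (a x y : ℤ) * o y :=
      Finset.sum_nonneg fun y _ => mul_nonneg (Int.natCast_nonneg _) (h1 y)
    linarith

/-- an integral vector with `C d = m`. -/
theorem PD.exists_d {a : N → N → ℕ} (h : PD a) :
    ∃ (d : N → ℤ) (m : ℤ), 0 < m ∧ ∀ x, cZ a d x = m := by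
  obtain ⟨C, hC⟩ : ∃ C : Matrix N N ℤ, C = Matrix.of fun x y =>
    (if x = y then 2 else 0) - (a x y : ℤ) := ⟨_, rfl⟩
  have hCv : ∀ v : N → ℤ, C *ᵥ v = cZ a v := by
    intro v
    funext x
    unfold cZ
    rw [hC]
    simp only [Matrix.mulVec, dotProduct, Matrix.of_apply, sub_mul, Finset.sum_sub_distrib,
      ite_mul, zero_mul, Finset.sum_ite_eq, Finset.mem_univ, if_true]
  have hdet : C.det ≠ 0 := by
    intro h0
    obtain ⟨v, hv, hv0⟩ := Matrix.exists_mulVec_eq_zero_iff.2 h0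
    have h1 := h v hv
    rw [← hCv v, hv0] at h1
    simp at h1
  refine ⟨C.det • (C.adjugate *ᵥ 1), C.det * C.det, mul_self_pos.2 hdet, fun x => ?_⟩
  rw [← hCv, Matrix.mulVec_smul, Matrix.mulVec_mulVec, Matrix.mul_adjugate]
  simp

/-- the sequence `o_k` over the integers. -/
def oZ (a : N → N → ℕ) (d : N → ℤ) : ℕ → N → ℤ
  | 0 => fun _ => 0
  | 1 => d
  | (k + 2) => fun x => ∑ y, (a x y : ℤ) * oZ a d (k + 1) y - oZ a d k x

theorem cZ_add (a : N → N → ℕ) (v w : N → ℤ) (x : N) :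
    cZ a (fun x => v x - w x) x = cZ a v x - cZ a w x := by
  unfold cZ
  have : ∑ y, (a x y : ℤ) * (v y - w y) = ∑ y, (a x y : ℤ) * v y - ∑ y, (a x y : ℤ) * w y := by
    rw [← Finset.sum_sub_distrib]
    exact Finset.sum_congr rfl fun y _ => by ring
  rw [this]
  ring

theorem cZ_comm (a : N → N → ℕ) (v : N → ℤ) (x : N) :
    cZ a (fun x => ∑ y, (a x y : ℤ) * v y) x = ∑ y, (a x y : ℤ) * cZ a v y := by
  unfold cZ
  rw [Finset.mul_sum]
  have : ∑ y, (a x y : ℤ) * (2 * v y - ∑ z, (a y z : ℤ) * v z) =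
      ∑ y, 2 * ((a x y : ℤ) * v y) - ∑ y, (a x y : ℤ) * ∑ z, (a y z : ℤ) * v z := by
    rw [← Finset.sum_sub_distrib]
    exact Finset.sum_congr rfl fun y _ => by ring
  rw [this]

theorem oZ_C {a : N → N → ℕ} {h : ℕ} {κ : ℤ} {e : ℕ → N → ℤ} (he : KE a h κ e) (d : N → ℤ)
    (m : ℤ) (hd : ∀ x, cZ a d x = m * κ) (k : ℕ) :
    (k ≤ h → ∀ x, cZ a (oZ a d k) x = m * e k x) ∧
      (k + 1 ≤ h → ∀ x, cZ a (oZ a d (k + 1)) x = m * e (k + 1) x) := by
  induction k with
  | zero =>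
    refine ⟨fun _ x => ?_, fun _ x => ?_⟩
    · rw [he.zero x]
      unfold oZ cZ
      simp
    · rw [he.one x]
      exact hd x
  | succ k ih =>
    refine ⟨ih.2, fun hk x => ?_⟩
    have h1 := ih.1 (by omega)
    have h2 := ih.2 (by omega)
    have h3 : oZ a d (k + 1 + 1) = fun x => (fun x => ∑ y, (a x y : ℤ) * oZ a d (k + 1) y) x -
        oZ a d k x := rfl
    rw [h3, cZ_add, cZ_comm, h1 x]
    have h4 := he.knit k x (by omega)
    have h5 : ∑ y, (a x y : ℤ) * cZ a (oZ a d (k + 1)) y =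
        m * ∑ y, (a x y : ℤ) * e (k + 1) y := by
      rw [Finset.mul_sum]
      exact Finset.sum_congr rfl fun y _ => by rw [h2 y]; ring
    rw [h5, ← h4]
    ring

theorem knit_of_KE {a : N → N → ℕ} (hpd : PD a) {h : ℕ} {κ : ℤ}
    {e : ℕ → N → ℤ} (he : KE a h κ e) : ∃ o, Pool.Agent.H10.KAC.Knit a h o := by
  obtain ⟨d, m, hm, hd⟩ := hpd.exists_d
  obtain ⟨d', hd'⟩ : ∃ d' : N → ℤ, d' = fun x => κ * d x := ⟨_, rfl⟩
  have hdm : ∀ x, cZ a d' x = m * κ := by
    intro x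
    have h1 := hd x
    unfold cZ at h1 ⊢
    rw [hd']
    have h2 : ∑ y, (a x y : ℤ) * (κ * d y) = κ * ∑ y, (a x y : ℤ) * d y := by
      rw [Finset.mul_sum]
      exact Finset.sum_congr rfl fun y _ => by ring
    simp only
    rw [h2, ← h1]
    ring
  have hC : ∀ k, k ≤ h → ∀ x, cZ a (oZ a d' k) x = m * e k x := fun k hk =>
    (oZ_C he d' m hdm k).1 hk
  have hpos : ∀ k, 1 ≤ k → k < h → ∀ x, 0 < oZ a d' k x := by
    intro k hk hk' x
    apply hpd.pos
    intro y
    rw [hC k hk'.le y]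
    exact mul_pos hm (he.pos k y hk hk')
  have hlast : ∀ x, oZ a d' h x = 0 := by
    intro x
    have h1 : ∀ x, cZ a (oZ a d' h) x = 0 := by
      intro x
      rw [hC h le_rfl x, he.last x, mul_zero]
    have h2 := hpd.nonneg (oZ a d' h) (fun y => (h1 y).ge) x
    have h3 := hpd.nonneg (fun y => -oZ a d' h y) (fun y => by
      have h4 := h1 y
      unfold cZ at h4 ⊢
      have h5 : ∑ z, (a y z : ℤ) * -oZ a d' h z = -∑ z, (a y z : ℤ) * oZ a d' h z := by
        rw [← Finset.sum_neg_distrib]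
        exact Finset.sum_congr rfl fun z _ => by ring
      rw [h5]
      linarith) x
    have h3' : 0 ≤ -oZ a d' h x := h3
    linarith
  have hnn : ∀ k, k ≤ h → ∀ x, 0 ≤ oZ a d' k x := by
    intro k hk x
    rcases Nat.eq_zero_or_pos k with h0 | h0
    · rw [h0]
      exact le_refl (0 : ℤ)
    · rcases hk.lt_or_eq with h1 | h1
      · exact (hpos k h0 h1 x).le
      · rw [h1, hlast x]
  refine ⟨fun k x => (oZ a d' k x).toNat, he.two_le, fun x => rfl, fun x => ?_, fun k x hk => ?_,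
    fun k x hk hk' => ?_, fun x => ?_⟩
  · have := hpos 1 le_rfl (by have := he.two_le; omega) x
    omega
  · have h1 : ((oZ a d' (k + 2) x).toNat : ℤ) = oZ a d' (k + 2) x :=
      Int.toNat_of_nonneg (hnn _ hk x)
    have h2 : ((oZ a d' k x).toNat : ℤ) = oZ a d' k x :=
      Int.toNat_of_nonneg (hnn _ (by omega) x)
    have h3 : ∑ y, (a x y : ℤ) * ((oZ a d' (k + 1) y).toNat : ℤ) =
        ∑ y, (a x y : ℤ) * oZ a d' (k + 1) y :=
      Finset.sum_congr rfl fun y _ => by rw [Int.toNat_of_nonneg (hnn _ (by omega) y)]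
    have h4 : oZ a d' (k + 2) x = ∑ y, (a x y : ℤ) * oZ a d' (k + 1) y - oZ a d' k x := rfl
    have h5 : (((oZ a d' (k + 2) x).toNat + (oZ a d' k x).toNat : ℕ) : ℤ) =
        ((∑ y, a x y * (oZ a d' (k + 1) y).toNat : ℕ) : ℤ) := by
      push_cast
      rw [h3, h1, h2, h4]
      ring
    exact_mod_cast h5
  · have h2 : ((oZ a d' k x).toNat : ℤ) = oZ a d' k x := Int.toNat_of_nonneg (hnn _ hk'.le x)
    have h3 : ∑ y, (a x y : ℤ) * ((oZ a d' k y).toNat : ℤ) =
        ∑ y, (a x y : ℤ) * oZ a d' k y :=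
      Finset.sum_congr rfl fun y _ => by rw [Int.toNat_of_nonneg (hnn _ hk'.le y)]
    have h4 := hC k hk'.le x
    have h5 := he.pos k x hk hk'
    unfold cZ at h4
    have h6 : 0 < m * e k x := mul_pos hm h5
    have h7 : ((∑ y, a x y * (oZ a d' k y).toNat : ℕ) : ℤ) <
        ((2 * (oZ a d' k x).toNat : ℕ) : ℤ) := by
      push_cast
      rw [h3, h2]
      linarith
    exact_mod_cast h7
  · show (oZ a d' h x).toNat = 0
    rw [hlast x]
    rfl

end Pool.H88.KA
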