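import Pool.Agent.H88.KA.KN3

/-!
KAC ADE: the numbers `e_k` exist for every connected positive definite graph (no classification).
-/

set_option autoImplicit false

namespace Pool.H88.KA

open scoped BigOperators
open Matrix

variable {N : Type} [Fintype N] [DecidableEq N]

/-- the conserved form on pairs. -/
def Phi (a : N → N → ℕ) (u w : N → ℤ) : ℤ :=
  ∑ x, u x * u x + ∑ x, w x * w x - ∑ x, ∑ y, (a x y : ℤ) * (u x * w y)

theorem Phi_step (a : N → N → ℕ) (hs : ∀ x y, a x y = a y x) (u w : N → ℤ) :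
    Phi a (fun x => ∑ y, (a x y : ℤ) * u y - w x) u = Phi a u w := by
  unfold Phi
  have h1 : ∑ x, ∑ y, (a x y : ℤ) * ((∑ y, (a x y : ℤ) * u y - w x) * u y) =
      ∑ x, (∑ y, (a x y : ℤ) * u y - w x) * ∑ y, (a x y : ℤ) * u y := by
    refine Finset.sum_congr rfl fun x _ => ?_
    rw [Finset.mul_sum]
    exact Finset.sum_congr rfl fun y _ => by ring
  have h2 : ∑ x, ∑ y, (a x y : ℤ) * (u x * w y) = ∑ x, w x * ∑ y, (a x y : ℤ) * u y := by
    rw [Finset.sum_comm]
    refine Finset.sum_congr rfl fun x _ => ?_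
    rw [Finset.mul_sum]
    exact Finset.sum_congr rfl fun y _ => by rw [hs y x]; ring
  rw [h1, h2]
  have h3 : ∑ x, (∑ y, (a x y : ℤ) * u y - w x) * (∑ y, (a x y : ℤ) * u y - w x) +
      ∑ x, u x * u x - ∑ x, (∑ y, (a x y : ℤ) * u y - w x) * ∑ y, (a x y : ℤ) * u y =
      ∑ x, u x * u x + ∑ x, w x * w x - ∑ x, w x * ∑ y, (a x y : ℤ) * u y := by
    have h4 : ∀ x, (∑ y, (a x y : ℤ) * u y - w x) * (∑ y, (a x y : ℤ) * u y - w x) -
        (∑ y, (a x y : ℤ) * u y - w x) * ∑ y, (a x y : ℤ) * u y =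
        w x * w x - w x * ∑ y, (a x y : ℤ) * u y := fun x => by ring
    have h5 := Finset.sum_congr (rfl : (Finset.univ : Finset N) = Finset.univ) fun x _ => h4 x
    rw [Finset.sum_sub_distrib, Finset.sum_sub_distrib] at h5
    linarith
  exact h3

/-- the quadratic form `v C v`. -/
def qf (a : N → N → ℕ) (v : N → ℤ) : ℤ := ∑ x, v x * cZ a v x

theorem qf_eq (a : N → N → ℕ) (v : N → ℤ) :
    qf a v = 2 * ∑ x, v x * v x - ∑ x, ∑ y, (a x y : ℤ) * (v x * v y) := by
  unfold qf cZ
  rw [Finset.mul_sum, ← Finset.sum_sub_distrib]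
  refine Finset.sum_congr rfl fun x _ => ?_
  rw [mul_sub, Finset.mul_sum]
  congr 1
  · ring
  · exact Finset.sum_congr rfl fun y _ => by ring

theorem maxmin (p q r s : ℤ) : p * s + r * q ≤
    max p r * max q s + min p r * min q s := by
  rcases le_total p r with h | h <;> rcases le_total q s with h' | h' <;>
    simp only [max_eq_left h, max_eq_right h, min_eq_left h, min_eq_right h, max_eq_left h',
      max_eq_right h', min_eq_left h', min_eq_right h'] <;> nlinarith

theorem Phi_ge (a : N → N → ℕ) (hs : ∀ x y, a x y = a y x) (u w : N → ℤ) :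
    qf a (fun x => max (u x) (w x)) + qf a (fun x => min (u x) (w x)) ≤ 2 * Phi a u w := by
  rw [qf_eq, qf_eq]
  unfold Phi
  have h1 : ∀ x, max (u x) (w x) * max (u x) (w x) + min (u x) (w x) * min (u x) (w x) =
      u x * u x + w x * w x := by
    intro x
    rcases le_total (u x) (w x) with h | h
    · rw [max_eq_right h, min_eq_left h]
      ring
    · rw [max_eq_left h, min_eq_right h]
  have h2 := Finset.sum_congr (rfl : (Finset.univ : Finset N) = Finset.univ) fun x _ => h1 x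
  rw [Finset.sum_add_distrib, Finset.sum_add_distrib] at h2
  have h3 : ∑ x, ∑ y, (a x y : ℤ) * (u x * w y) = ∑ x, ∑ y, (a x y : ℤ) * (w x * u y) := by
    rw [Finset.sum_comm]
    exact Finset.sum_congr rfl fun x _ => Finset.sum_congr rfl fun y _ => by
      rw [hs y x]
      ring
  have h4 : ∑ x, ∑ y, (a x y : ℤ) * (u x * w y) + ∑ x, ∑ y, (a x y : ℤ) * (w x * u y) ≤
      ∑ x, ∑ y, (a x y : ℤ) * (max (u x) (w x) * max (u y) (w y)) +
        ∑ x, ∑ y, (a x y : ℤ) * (min (u x) (w x) * min (u y) (w y)) := by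
    rw [← Finset.sum_add_distrib, ← Finset.sum_add_distrib]
    refine Finset.sum_le_sum fun x _ => ?_
    rw [← Finset.sum_add_distrib, ← Finset.sum_add_distrib]
    refine Finset.sum_le_sum fun y _ => ?_
    rw [← mul_add, ← mul_add]
    exact mul_le_mul_of_nonneg_left (maxmin (u x) (u y) (w x) (w y)) (Int.natCast_nonneg _)
  linarith

theorem PD.qf_nonneg {a : N → N → ℕ} (h : PD a) (v : N → ℤ) : 0 ≤ qf a v := by
  by_cases hv : v = 0
  · rw [hv]
    unfold qf
    simp
  · exact (h v hv).le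

theorem PD.Phi_pos {a : N → N → ℕ} (h : PD a) (hs : ∀ x y, a x y = a y x) (u w : N → ℤ)
    (hu : ∀ x, 0 ≤ u x) (hw : ∀ x, 0 ≤ w x) (hne : ∃ x, u x ≠ 0 ∨ w x ≠ 0) : 1 ≤ Phi a u w := by
  have h1 := Phi_ge a hs u w
  have h2 : 0 < qf a (fun x => max (u x) (w x)) := by
    apply h
    intro hc
    obtain ⟨x, hx⟩ := hne
    have h3 := congrFun hc x
    simp only [Pi.zero_apply] at h3
    have h4 := hu x
    have h5 := hw x
    have h6 := le_max_left (u x) (w x)
    have h7 := le_max_right (u x) (w x)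
    rcases hx with h8 | h8
    · exact h8 (by omega)
    · exact h8 (by omega)
  have h3 := h.qf_nonneg (fun x => min (u x) (w x))
  omega

theorem PD.Phi_nonneg {a : N → N → ℕ} (h : PD a) (hs : ∀ x y, a x y = a y x) (u w : N → ℤ)
    (hu : ∀ x, 0 ≤ u x) (hw : ∀ x, 0 ≤ w x) : 0 ≤ Phi a u w := by
  by_cases hne : ∃ x, u x ≠ 0 ∨ w x ≠ 0
  · have := h.Phi_pos hs u w hu hw hne
    omega
  · push Not at hne
    have h1 : u = 0 := funext fun x => (hne x).1
    have h2 : w = 0 := funext fun x => (hne x).2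
    rw [h1, h2]
    unfold Phi
    simp

theorem Phi_split (a : N → N → ℕ) (u w : N → ℤ) :
    Phi a (fun x => max (u x) 0) (fun x => max (w x) 0) +
      Phi a (fun x => max (-u x) 0) (fun x => max (-w x) 0) ≤ Phi a u w := by
  unfold Phi
  have h1 : ∀ z : ℤ, max z 0 * max z 0 + max (-z) 0 * max (-z) 0 = z * z := by
    intro z
    rcases le_total z 0 with h | h
    · rw [max_eq_right h, max_eq_left (by omega)]
      ring
    · rw [max_eq_left h, max_eq_right (by omega)]
      ring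
  have h2 : ∀ v : N → ℤ, ∑ x, max (v x) 0 * max (v x) 0 + ∑ x, max (-v x) 0 * max (-v x) 0 =
      ∑ x, v x * v x := by
    intro v
    rw [← Finset.sum_add_distrib]
    exact Finset.sum_congr rfl fun x _ => h1 (v x)
  have h3 : ∑ x, ∑ y, (a x y : ℤ) * (u x * w y) ≤
      ∑ x, ∑ y, (a x y : ℤ) * (max (u x) 0 * max (w y) 0) +
        ∑ x, ∑ y, (a x y : ℤ) * (max (-u x) 0 * max (-w y) 0) := by
    rw [← Finset.sum_add_distrib]
    refine Finset.sum_le_sum fun x _ => ?_
    rw [← Finset.sum_add_distrib]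
    refine Finset.sum_le_sum fun y _ => ?_
    rw [← mul_add]
    apply mul_le_mul_of_nonneg_left _ (Int.natCast_nonneg _)
    rcases le_total (u x) 0 with h | h <;> rcases le_total (w y) 0 with h' | h'
    · rw [max_eq_right h, max_eq_right h', max_eq_left (by omega : (0:ℤ) ≤ -u x),
        max_eq_left (by omega : (0:ℤ) ≤ -w y)]
      nlinarith
    · rw [max_eq_right h, max_eq_right (by omega : -w y ≤ (0:ℤ))]
      nlinarith
    · rw [max_eq_right h', max_eq_right (by omega : -u x ≤ (0:ℤ))]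
      nlinarith
    · rw [max_eq_left h, max_eq_left h', max_eq_right (by omega : -u x ≤ (0:ℤ))]
      nlinarith
  have h4 := h2 u
  have h5 := h2 w
  linarith

/-- sign coherence. -/
theorem PD.coherent {a : N → N → ℕ} (h : PD a) (hs : ∀ x y, a x y = a y x) (u w : N → ℤ)
    (h1 : Phi a u w = 1) : (∀ x, 0 ≤ u x ∧ 0 ≤ w x) ∨ (∀ x, u x ≤ 0 ∧ w x ≤ 0) := by
  by_contra hc
  push Not at hc
  obtain ⟨⟨x, hx⟩, ⟨y, hy⟩⟩ := hc
  have h2 := Phi_split a u w
  have h3 : 1 ≤ Phi a (fun x => max (-u x) 0) (fun x => max (-w x) 0) := by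
    apply h.Phi_pos hs _ _ (fun x => le_max_right _ _) (fun x => le_max_right _ _)
    refine ⟨x, ?_⟩
    by_cases hux : 0 ≤ u x
    · right
      have := hx hux
      have h4 := le_max_left (-w x) 0
      omega
    · left
      have h4 := le_max_left (-u x) 0
      omega
  have h4 : 1 ≤ Phi a (fun x => max (u x) 0) (fun x => max (w x) 0) := by
    apply h.Phi_pos hs _ _ (fun x => le_max_right _ _) (fun x => le_max_right _ _)
    refine ⟨y, ?_⟩
    by_cases huy : u y ≤ 0
    · right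
      have := hy huy
      have h4 := le_max_left (w y) 0
      omega
    · left
      have h4 := le_max_left (u y) 0
      omega
  omega

/-! ### the matrices `M_k = U_{k-1}(A)` -/

/-- the adjacency matrix. -/
def AM (a : N → N → ℕ) : Matrix N N ℤ := Matrix.of fun x y => (a x y : ℤ)

/-- `M_0 = 0`, `M_1 = 1`, `M_{k+2} = A M_{k+1} - M_k`. -/
def MM (a : N → N → ℕ) : ℕ → Matrix N N ℤ
  | 0 => 0
  | 1 => 1
  | (k + 2) => AM a * MM a (k + 1) - MM a k

theorem MM_comm (a : N → N → ℕ) (k : ℕ) :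
    AM a * MM a k = MM a k * AM a ∧ AM a * MM a (k + 1) = MM a (k + 1) * AM a := by
  induction k with
  | zero =>
    constructor
    · show AM a * 0 = 0 * AM a
      rw [Matrix.mul_zero, Matrix.zero_mul]
    · show AM a * 1 = 1 * AM a
      rw [Matrix.mul_one, Matrix.one_mul]
  | succ k ih =>
    refine ⟨ih.2, ?_⟩
    show AM a * (AM a * MM a (k + 1) - MM a k) = (AM a * MM a (k + 1) - MM a k) * AM a
    rw [Matrix.mul_sub, Matrix.sub_mul, ih.1, Matrix.mul_assoc, ← ih.2]

theorem MM_symm (a : N → N → ℕ) (hs : ∀ x y, a x y = a y x) (k : ℕ) :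
    (MM a k)ᵀ = MM a k ∧ (MM a (k + 1))ᵀ = MM a (k + 1) := by
  have hA : (AM a)ᵀ = AM a := by
    ext x y
    show (a y x : ℤ) = (a x y : ℤ)
    rw [hs]
  induction k with
  | zero =>
    constructor
    · show (0 : Matrix N N ℤ)ᵀ = 0
      exact Matrix.transpose_zero
    · show (1 : Matrix N N ℤ)ᵀ = 1
      exact Matrix.transpose_one
  | succ k ih =>
    refine ⟨ih.2, ?_⟩
    show (AM a * MM a (k + 1) - MM a k)ᵀ = AM a * MM a (k + 1) - MM a k
    rw [Matrix.transpose_sub, Matrix.transpose_mul, ih.2, ih.1, hA, (MM_comm a k).2]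

theorem MM_rec (a : N → N → ℕ) (k : ℕ) (z x : N) :
    MM a (k + 2) z x = ∑ y, (a z y : ℤ) * MM a (k + 1) y x - MM a k z x := rfl

theorem MM_Phi (a : N → N → ℕ) (hs : ∀ x y, a x y = a y x) (x : N) (k : ℕ) :
    Phi a (fun z => MM a (k + 1) z x) (fun z => MM a k z x) = 1 := by
  induction k with
  | zero =>
    show Phi a (fun z => (1 : Matrix N N ℤ) z x) (fun z => (0 : Matrix N N ℤ) z x) = 1
    unfold Phi
    simp [Matrix.one_apply]
  | succ k ih =>
    rw [← ih]
    exact Phi_step a hs (fun z => MM a (k + 1) z x) (fun z => MM a k z x)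

/-- `f_k ≥ 0` and `f_k ≠ 0`. -/
def Good (a : N → N → ℕ) (x : N) (k : ℕ) : Prop :=
  (∀ z, 0 ≤ MM a k z x) ∧ ∃ z, MM a k z x ≠ 0

theorem Good_one (a : N → N → ℕ) (x : N) : Good a x 1 := by
  constructor
  · intro z
    show 0 ≤ (1 : Matrix N N ℤ) z x
    rw [Matrix.one_apply]
    split_ifs <;> omega
  · refine ⟨x, ?_⟩
    show (1 : Matrix N N ℤ) x x ≠ 0
    rw [Matrix.one_apply_eq]
    exact one_ne_zero

theorem PD.exists_bad {a : N → N → ℕ} (h : PD a) (hs : ∀ x y, a x y = a y x) (x : N) :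
    ∃ k, 1 ≤ k ∧ ¬ Good a x k := by
  by_contra hc
  push Not at hc
  obtain ⟨d, m, hm, hd⟩ := h.exists_d
  have hd0 : ∀ z, 0 < d z := h.pos d (fun z => by rw [hd z]; exact hm)
  obtain ⟨π, hπ⟩ : ∃ π : ℕ → ℤ, π = fun k => ∑ z, d z * MM a k z x := ⟨_, rfl⟩
  have hstep : ∀ k, π (k + 2) + π k ≤ 2 * π (k + 1) - m := by
    intro k
    have h1 : π (k + 2) + π k = ∑ z, d z * ∑ y, (a z y : ℤ) * MM a (k + 1) y x := by
      rw [hπ]
      show ∑ z, d z * MM a (k + 2) z x + ∑ z, d z * MM a k z x = _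
      rw [← Finset.sum_add_distrib]
      refine Finset.sum_congr rfl fun z _ => ?_
      rw [MM_rec]
      ring
    have h2 : ∑ z, d z * ∑ y, (a z y : ℤ) * MM a (k + 1) y x =
        ∑ y, (∑ z, (a y z : ℤ) * d z) * MM a (k + 1) y x := by
      simp only [Finset.mul_sum, Finset.sum_mul]
      rw [Finset.sum_comm]
      refine Finset.sum_congr rfl fun y _ => Finset.sum_congr rfl fun z _ => ?_
      rw [hs z y]
      ring
    have h3 : ∀ y, ∑ z, (a y z : ℤ) * d z = 2 * d y - m := by
      intro y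
      have := hd y
      unfold cZ at this
      linarith
    have h4 : ∑ y, (∑ z, (a y z : ℤ) * d z) * MM a (k + 1) y x =
        2 * π (k + 1) - m * ∑ y, MM a (k + 1) y x := by
      rw [hπ]
      show _ = 2 * ∑ z, d z * MM a (k + 1) z x - m * ∑ y, MM a (k + 1) y x
      rw [Finset.mul_sum, Finset.mul_sum, ← Finset.sum_sub_distrib]
      refine Finset.sum_congr rfl fun y _ => ?_
      rw [h3]
      ring
    have h5 : 1 ≤ ∑ y, MM a (k + 1) y x := by
      obtain ⟨g1, z, g2⟩ := hc (k + 1) (by omega)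
      have g3 : MM a (k + 1) z x ≤ ∑ y, MM a (k + 1) y x :=
        Finset.single_le_sum (f := fun y => MM a (k + 1) y x) (fun y _ => g1 y)
          (Finset.mem_univ z)
      have g4 := g1 z
      omega
    rw [h1, h2, h4]
    nlinarith
  have hnn : ∀ k, 1 ≤ k → 0 ≤ π k := by
    intro k hk
    rw [hπ]
    exact Finset.sum_nonneg fun z _ => mul_nonneg (hd0 z).le ((hc k hk).1 z)
  have hdiff : ∀ k : ℕ, π (k + 2) - π (k + 1) ≤ π 2 - π 1 - k := by
    intro k
    induction k with
    | zero => simp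
    | succ k ih =>
      have h1 := hstep (k + 1)
      push_cast
      have e1 : k + 1 + 2 = k + 3 := rfl
      have e2 : k + 1 + 1 = k + 2 := rfl
      rw [e1, e2] at h1 ⊢
      linarith
  obtain ⟨K, hK⟩ : ∃ K : ℕ, π 2 - π 1 + 1 ≤ K := ⟨(π 2 - π 1 + 1).toNat, Int.self_le_toNat _⟩
  have hdec : ∀ j : ℕ, π (K + 1 + j) ≤ π (K + 1) - j := by
    intro j
    induction j with
    | zero => simp
    | succ j ih =>
      have h1 := hdiff (K + j)
      have e1 : K + j + 2 = K + 1 + (j + 1) := by ring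
      have e2 : K + j + 1 = K + 1 + j := by ring
      rw [e1, e2] at h1
      push_cast at h1 ⊢
      have hj : (0 : ℤ) ≤ j := Int.natCast_nonneg j
      linarith
  have h1 := hdec ((π (K + 1)).toNat + 1)
  have h2 := hnn (K + 1 + ((π (K + 1)).toNat + 1)) (by omega)
  have h3 : π (K + 1) ≤ ((π (K + 1)).toNat : ℤ) := Int.self_le_toNat _
  push_cast at h1
  linarith

/-- the first zero. -/
theorem PD.exists_h {a : N → N → ℕ} (h : PD a) (hs : ∀ x y, a x y = a y x) (x : N) :
    ∃ k, 2 ≤ k ∧ (∀ z, MM a k z x = 0) ∧ ∀ j, 1 ≤ j → j < k → Good a x j := by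
  classical
  have hex := h.exists_bad hs x
  obtain ⟨k, hk⟩ : ∃ k, k = Nat.find hex := ⟨_, rfl⟩
  have h1 : 1 ≤ k ∧ ¬ Good a x k := by rw [hk]; exact Nat.find_spec hex
  have h2 : ∀ j, 1 ≤ j → j < k → Good a x j := by
    intro j hj hjk
    by_contra hc
    rw [hk] at hjk
    exact Nat.find_min hex hjk ⟨hj, hc⟩
  have h3 : 2 ≤ k := by
    by_contra hc
    have h4 : k = 1 := by omega
    rw [h4] at h1
    exact h1.2 (Good_one a x)
  refine ⟨k, h3, ?_, h2⟩
  obtain ⟨r, hr⟩ : ∃ r, k = r + 1 := ⟨k - 1, by omega⟩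
  have h4 := h2 r (by omega) (by omega)
  have h5 := MM_Phi a hs x r
  have h6 := h.coherent hs _ _ h5
  have h7 : ∀ z, 0 ≤ MM a (r + 1) z x := by
    rcases h6 with h7 | h7
    · exact fun z => (h7 z).1
    · exfalso
      obtain ⟨g1, z, g2⟩ := h4
      have g3 := (h7 z).2
      have g4 := g1 z
      exact g2 (by omega)
  intro z
  by_contra hc
  rw [hr] at hc h1
  exact h1.2 ⟨h7, z, hc⟩

/-- The numbers `e_k` exist for every connected positive definite graph. -/
theorem KE_exists {a : N → N → ℕ} (h : PD a) (hs : ∀ x y, a x y = a y x) [Nonempty N]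
    (hc : ∀ S : Finset N, S.Nonempty → S ≠ Finset.univ → ∃ i ∈ S, ∃ j, j ∉ S ∧ 0 < a i j) :
    ∃ (m : ℕ) (e : ℕ → N → ℤ), KE a m 1 e := by
  classical
  choose hx h2 h0 hgood using fun x => h.exists_h hs x
  obtain ⟨x0, _, hmin⟩ := Finset.exists_min_image Finset.univ hx Finset.univ_nonempty
  obtain ⟨m, hm⟩ : ∃ m, m = hx x0 := ⟨_, rfl⟩
  have hle : ∀ x, m ≤ hx x := fun x => by rw [hm]; exact hmin x (Finset.mem_univ x)
  have hm2 : 2 ≤ m := by rw [hm]; exact h2 x0
  have hnn : ∀ x z, 0 ≤ MM a m z x := by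
    intro x z
    rcases (hle x).lt_or_eq with h1 | h1
    · exact (hgood x m (by omega) h1).1 z
    · rw [h1, h0 x z]
  have hz : ∀ x z, MM a m z x = 0 := by
    by_contra hcon
    have hS : Finset.univ.filter (fun x => ∀ z, MM a m z x = 0) ≠ Finset.univ := by
      intro hu
      apply hcon
      intro x
      have := Finset.mem_univ x
      rw [← hu, Finset.mem_filter] at this
      exact this.2
    obtain ⟨i, hi, j, hj, hij⟩ := hc (Finset.univ.filter (fun x => ∀ z, MM a m z x = 0))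
      ⟨x0, Finset.mem_filter.2 ⟨Finset.mem_univ _, fun z => by rw [hm]; exact h0 x0 z⟩⟩ hS
    rw [Finset.mem_filter] at hi
    apply hj
    rw [Finset.mem_filter]
    refine ⟨Finset.mem_univ _, fun z => ?_⟩
    have h1 := congrFun (congrFun (MM_comm a m).1 z) i
    rw [Matrix.mul_apply, Matrix.mul_apply] at h1
    have h3 : ∑ y, AM a z y * MM a m y i = 0 :=
      Finset.sum_eq_zero fun y _ => by rw [hi.2 y, mul_zero]
    rw [h3] at h1
    have h4 : ∀ y ∈ Finset.univ, 0 ≤ MM a m z y * AM a y i := fun y _ =>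
      mul_nonneg (hnn y z) (Int.natCast_nonneg _)
    have h5 := (Finset.sum_eq_zero_iff_of_nonneg h4).1 h1.symm j (Finset.mem_univ j)
    rcases mul_eq_zero.1 h5 with h6 | h6
    · exact h6
    · exfalso
      have h7 : (a j i : ℤ) = 0 := h6
      have h8 : a j i = 0 := by exact_mod_cast h7
      rw [hs j i] at h8
      omega
  refine ⟨m, fun k z => ∑ x, MM a k z x, hm2, one_pos, ?_, ?_, ?_, ?_, ?_⟩
  · intro z
    show ∑ x, (0 : Matrix N N ℤ) z x = 0
    simp
  · intro z
    show ∑ x, (1 : Matrix N N ℤ) z x = 1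
    simp [Matrix.one_apply]
  · intro k z _
    show ∑ x, MM a (k + 2) z x + ∑ x, MM a k z x = ∑ y, (a z y : ℤ) * ∑ x, MM a (k + 1) y x
    rw [← Finset.sum_add_distrib]
    simp only [Finset.mul_sum]
    rw [Finset.sum_comm (s := Finset.univ) (t := Finset.univ)]
    refine Finset.sum_congr rfl fun x _ => ?_
    rw [MM_rec]
    ring
  · intro k z hk hk'
    obtain ⟨g1, y, g2⟩ := hgood z k hk (lt_of_lt_of_le hk' (hle z))
    have hsym : ∀ y, MM a k z y = MM a k y z := fun y => congrFun (congrFun (MM_symm a hs k).1 y) z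
    show 0 < ∑ x, MM a k z x
    apply Finset.sum_pos'
    · intro x _
      rw [hsym x]
      exact g1 x
    · refine ⟨y, Finset.mem_univ y, ?_⟩
      rw [hsym y]
      exact lt_of_le_of_ne (g1 y) (Ne.symm g2)
  · intro z
    exact Finset.sum_eq_zero fun x _ => hz x z

/-- the index `h` is unique. -/
theorem KE_unique {a : N → N → ℕ} [Nonempty N] {h h' : ℕ} {κ κ' : ℤ} {e e' : ℕ → N → ℤ}
    (he : KE a h κ e) (he' : KE a h' κ' e') : h = h' := by
  have key : ∀ {h h' : ℕ} {κ κ' : ℤ} {e e' : ℕ → N → ℤ}, KE a h κ e → KE a h' κ' e' →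
      ¬ h < h' := by
    intro h h' κ κ' e e' he he' hlt
    have h1 : ∀ k, k ≤ h → (∀ x, κ' * e k x = κ * e' k x) ∧
        (k + 1 ≤ h → ∀ x, κ' * e (k + 1) x = κ * e' (k + 1) x) := by
      intro k
      induction k with
      | zero =>
        intro _
        refine ⟨fun x => by rw [he.zero, he'.zero]; ring, fun _ x => ?_⟩
        show κ' * e 1 x = κ * e' 1 x
        rw [he.one, he'.one]
        ring
      | succ k ih =>
        intro hk
        have ih1 := ih (by omega)
        refine ⟨ih1.2 hk, fun hk' x => ?_⟩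
        have g1 := he.knit k x hk'
        have g2 := he'.knit k x (by omega)
        have g3 : κ' * ∑ y, (a x y : ℤ) * e (k + 1) y = κ * ∑ y, (a x y : ℤ) * e' (k + 1) y := by
          rw [Finset.mul_sum, Finset.mul_sum]
          refine Finset.sum_congr rfl fun y _ => ?_
          have := ih1.2 hk y
          linear_combination (a x y : ℤ) * this
        rw [← g1, ← g2] at g3
        have g4 := ih1.1 x
        have e1 : k + 1 + 1 = k + 2 := rfl
        rw [e1]
        linarith
    obtain ⟨x⟩ := (inferInstance : Nonempty N)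
    have g1 := (h1 h le_rfl).1 x
    rw [he.last x, mul_zero] at g1
    have g2 := he'.pos h x (by have := he.two_le; omega) hlt
    have g3 := mul_pos he.kap g2
    omega
  have k1 := key he he'
  have k2 := key he' he
  omega

/-- `Knit` for every connected positive definite graph. -/
theorem knit_exists {a : N → N → ℕ} (h : PD a) (hs : ∀ x y, a x y = a y x) [Nonempty N]
    (hc : ∀ S : Finset N, S.Nonempty → S ≠ Finset.univ → ∃ i ∈ S, ∃ j, j ∉ S ∧ 0 < a i j) :
    ∃ (m : ℕ) (o : ℕ → N → ℕ), Pool.Agent.H10.KAC.Knit a m o := by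
  obtain ⟨m, e, he⟩ := KE_exists h hs hc
  obtain ⟨o, ho⟩ := knit_of_KE h he
  exact ⟨m, o, ho⟩

end Pool.H88.KA
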