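import Pool.Agent.H88.KA.Attack

/-!
# The attack, main lemma
-/

set_option autoImplicit false

open Filter

namespace Pool.Agent.H88.KA

private theorem cr_simp (u v : ℤ × ℤ) : cr u v = u.1 * v.2 - u.2 * v.1 := rfl

/-- the attack wins, if the opponent needs at least five points and his lines are not too good -/
theorem attack {L : ℕ} (hL : 5 ≤ L) {F E : Finset (ℤ × ℤ)} {R u g : ℤ × ℤ} (hR : R ∈ F) (hP : R + u ∈ F)
    (hQ : R + u + g ∈ F) (hD : cr u g ≠ 0) (hdis : ∀ x ∈ F, x ∉ E) (h1 : ∀ e ∈ E, cr g (e - (R + u)) ≠ 0)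
    (h2 : ∀ a b c : ℤ, (a ≠ 0 ∨ b ≠ 0) → (∀ x ∈ F, a * x.1 + b * x.2 ≠ c) →
      (E.filter (fun x : ℤ × ℤ => a * x.1 + b * x.2 = c)).card ≤ 3 ∧
      ((E.filter (fun x : ℤ × ℤ => a * x.1 + b * x.2 = c)).card = 3 → a * g.1 + b * g.2 ≠ 0 ∧
        ∀ z : ℤ × ℤ, cr g (z - (R + u)) = 0 → a * z.1 + b * z.2 ≠ c)) : Forces 4 L 5 F E := by
  have hg0 : g ≠ 0 := ne_zero_of_cr_right hD
  obtain ⟨T, hT2, hT3, hT4, hT5, hT6, hT7⟩ := exT (F := F) (E := E) (R := R) hD (by
    intro e he h
    subst h
    exact hdis _ hR he)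
  obtain ⟨w, hw⟩ : ∃ w, w = u + T • g := ⟨_, rfl⟩
  rw [← hw] at hT3 hT4 hT5 hT6 hT7
  have hT0 : T ≠ 0 := by linarith
  have hT1 : 1 - T ≠ 0 := by linarith
  have hgw : cr g w ≠ 0 := by
    have : cr g w = - cr u g := by
      rw [hw]
      simp only [cr_simp, Prod.fst_add, Prod.snd_add, Prod.smul_fst, Prod.smul_snd, smul_eq_mul]
      ring
    rw [this]
    exact neg_ne_zero.mpr hD
  have huw : cr u w ≠ 0 := by
    have : cr u w = T * cr u g := by
      rw [hw]
      simp only [cr_simp, Prod.fst_add, Prod.snd_add, Prod.smul_fst, Prod.smul_snd, smul_eq_mul]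
      ring
    rw [this]
    exact mul_ne_zero hT0 hD
  have hw0 : w ≠ 0 := ne_zero_of_cr_right huw
  -- the first forcing move
  refine ⟨R + w, hT3, hT4, Or.inr fun s4 hs4F hs4E => ⟨?_, ?_⟩⟩
  · rintro ⟨a, b, c, h0, hc, hno⟩
    have := (h2 a b c h0 (fun x hx => hno x (Finset.mem_insert_of_mem hx))).1
    have h3 := card_insert_le a b c E s4
    split_ifs at h3 <;> omega
  have hs4F' : s4 ∉ F := fun h => hs4F (Finset.mem_insert_of_mem h)
  have hs4w : s4 ≠ R + w := fun h => hs4F (h ▸ Finset.mem_insert_self _ _)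
  by_cases c4 : cr g (s4 - (R + u)) = 0
  swap
  · refine finish (R + u) g hg0 {0, 1, T} ?_ ?_ ?_
    · intro t ht
      simp only [Finset.mem_insert, Finset.mem_singleton] at ht
      rcases ht with rfl | rfl | rfl
      · rw [zero_smul, add_zero]
        exact Finset.mem_insert_of_mem hP
      · rw [one_smul]
        exact Finset.mem_insert_of_mem hQ
      · rw [add_assoc, ← hw]
        exact Finset.mem_insert_self _ _
    · rw [Finset.card_eq_three.mpr ⟨0, 1, T, by norm_num, by omega, by omega, rfl⟩]
    · intro e he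
      rw [Finset.mem_insert] at he
      rcases he with rfl | he
      · exact c4
      · exact h1 e he
  -- facts on the lines after the first reply
  have hE'R : ∀ e ∈ insert s4 E, e ≠ R := by
    intro e he h
    subst h
    rw [Finset.mem_insert] at he
    rcases he with rfl | he
    · exact hs4F' hR
    · exact hdis _ hR he
  have hE'P : ∀ e ∈ insert s4 E, e ≠ R + u := by
    intro e he h
    subst h
    rw [Finset.mem_insert] at he
    rcases he with h | he
    · exact hs4F' (h ▸ hP)
    · exact hdis _ hP he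
  have hE'Q : ∀ e ∈ insert s4 E, e ≠ R + u + g := by
    intro e he h
    subst h
    rw [Finset.mem_insert] at he
    rcases he with h | he
    · exact hs4F' (h ▸ hQ)
    · exact hdis _ hQ he
  have key3 : ∀ a b c : ℤ, (a ≠ 0 ∨ b ≠ 0) → (∀ x ∈ F, a * x.1 + b * x.2 ≠ c) →
      ((insert s4 E).filter (fun x : ℤ × ℤ => a * x.1 + b * x.2 = c)).card ≤ 3 ∧
      (((insert s4 E).filter (fun x : ℤ × ℤ => a * x.1 + b * x.2 = c)).card = 3 → a * w.1 + b * w.2 ≠ 0 ∧
        ∀ z : ℤ × ℤ, cr w (z - R) = 0 → a * z.1 + b * z.2 ≠ c) := by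
    intro a b c h0 hF
    obtain ⟨h3, h4⟩ := h2 a b c h0 hF
    have h5 := card_insert_le a b c E s4
    have hs4 : a * s4.1 + b * s4.2 = c → a * g.1 + b * g.2 ≠ 0 := by
      intro hs hg
      apply hF _ hP
      have h6 : a * (s4 - (R + u)).1 + b * (s4 - (R + u)).2 = 0 := orth_of_cr hg0 hg c4
      simp only [Prod.fst_sub, Prod.snd_sub] at h6
      linarith
    constructor
    · by_cases hs : a * s4.1 + b * s4.2 = c
      · rw [if_pos hs] at h5
        have : (E.filter (fun x : ℤ × ℤ => a * x.1 + b * x.2 = c)).card ≠ 3 := fun h => (h4 h).2 s4 c4 hs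
        omega
      · rw [if_neg hs] at h5
        omega
    · intro hN
      have hE2 : 2 ≤ (E.filter (fun x : ℤ × ℤ => a * x.1 + b * x.2 = c)).card := by
        split_ifs at h5 <;> omega
      have hgg : a * g.1 + b * g.2 ≠ 0 := by
        by_cases hs : a * s4.1 + b * s4.2 = c
        · exact hs4 hs
        · rw [if_neg hs] at h5
          exact (h4 (by omega)).1
      refine ⟨?_, hT7.line h0 (hF R hR) hgg hE2⟩
      obtain ⟨e, he, e', he', hne, h7, h8⟩ := pair_on_line hE2
      intro hww
      refine hT6 e he e' he' ?_ (cr_of_orth h0 h8 hww)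
      intro h
      exact hgg (orth_of_cr hne h8 h)
  have key1 : ∀ a b c : ℤ, (∀ x ∈ F, a * x.1 + b * x.2 ≠ c) → a * w.1 + b * w.2 = 0 →
      ∀ z : ℤ × ℤ, cr w (z - R) = 0 → a * z.1 + b * z.2 ≠ c := by
    intro a b c hF hww z hz hzc
    apply hF R hR
    have h6 : a * (z - R).1 + b * (z - R).2 = 0 := orth_of_cr hw0 hww hz
    simp only [Prod.fst_sub, Prod.snd_sub] at h6
    linarith
  -- the second forcing move
  obtain ⟨j, hj2, hj3, hj4, hj5, hj6, hj7, hj8, hj9⟩ :=
    exJ (F := insert (R + w) F) (E := insert s4 E) (R := R) hT2 hw hD hE'R hE'P hE'Q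
  obtain ⟨v, hv⟩ : ∃ v, v = (1 - T) • u + (T * j) • w := ⟨_, rfl⟩
  obtain ⟨q, hq⟩ : ∃ q, q = j • w - u := ⟨_, rfl⟩
  rw [← hv] at hj4 hj5 hj8
  rw [← hq] at hj6 hj7 hj9
  simp only [Finset.mem_union, not_or] at hj3 hj4 hj5
  have hj0 : j ≠ 0 := by linarith
  have hj1 : j - 1 ≠ 0 := by intro h; omega
  have hvw : cr v w ≠ 0 := by
    have : cr v w = (1 - T) * cr u w := by
      rw [hv]
      simp only [cr_simp, Prod.fst_add, Prod.snd_add, Prod.smul_fst, Prod.smul_snd, smul_eq_mul]
      ring
    rw [this]
    exact mul_ne_zero hT1 huw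
  have hv0 : v ≠ 0 := ne_zero_of_cr_left hvw
  have hqw : cr q w ≠ 0 := by
    have : cr q w = - cr u w := by
      rw [hq]
      simp only [cr_simp, Prod.fst_sub, Prod.snd_sub, Prod.smul_fst, Prod.smul_snd, smul_eq_mul]
      ring
    rw [this]
    exact neg_ne_zero.mpr huw
  have hq0 : q ≠ 0 := ne_zero_of_cr_left hqw
  have hvq : cr v q ≠ 0 := by
    have : cr v q = j * cr u w := by
      rw [hv, hq]
      simp only [cr_simp, Prod.fst_add, Prod.snd_add, Prod.fst_sub, Prod.snd_sub, Prod.smul_fst, Prod.smul_snd, smul_eq_mul]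
      ring
    rw [this]
    exact mul_ne_zero hj0 huw
  have hrw : cr (q - g) w ≠ 0 := by
    have : cr (q - g) w = (1 - T) * cr u g := by
      rw [hq, hw]
      simp only [cr_simp, Prod.fst_add, Prod.snd_add, Prod.fst_sub, Prod.snd_sub, Prod.smul_fst, Prod.smul_snd, smul_eq_mul]
      ring
    rw [this]
    exact mul_ne_zero hT1 hD
  have hr0 : q - g ≠ 0 := ne_zero_of_cr_left hrw
  have hrq : cr (q - g) q ≠ 0 := by
    have : cr (q - g) q = (j - 1) * cr u g := by
      rw [hq, hw]
      simp only [cr_simp, Prod.fst_add, Prod.snd_add, Prod.fst_sub, Prod.snd_sub, Prod.smul_fst, Prod.smul_snd, smul_eq_mul]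
      ring
    rw [this]
    exact mul_ne_zero hj1 hD
  have hrv : cr (q - g) v ≠ 0 := by
    have : cr (q - g) v = (1 - T) * cr u g := by
      rw [hq, hv, hw]
      simp only [cr_simp, Prod.fst_add, Prod.snd_add, Prod.fst_sub, Prod.snd_sub, Prod.smul_fst, Prod.smul_snd, smul_eq_mul]
      ring
    rw [this]
    exact mul_ne_zero hT1 hD
  refine ⟨R + j • w, hj3.1, hj3.2, Or.inr fun s5 hs5F hs5E => ⟨?_, ?_⟩⟩
  · rintro ⟨a, b, c, h0, hc, hno⟩
    have := (key3 a b c h0 (fun x hx => hno x (Finset.mem_insert_of_mem (Finset.mem_insert_of_mem hx)))).1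
    have h3 := card_insert_le a b c (insert s4 E) s5
    split_ifs at h3 <;> omega
  by_cases c5 : cr w (s5 - R) = 0
  swap
  · refine finish R w hw0 {0, 1, j} ?_ ?_ ?_
    · intro t ht
      simp only [Finset.mem_insert, Finset.mem_singleton] at ht
      rcases ht with rfl | rfl | rfl
      · rw [zero_smul, add_zero]
        exact Finset.mem_insert_of_mem (Finset.mem_insert_of_mem hR)
      · rw [one_smul]
        exact Finset.mem_insert_of_mem (Finset.mem_insert_self _ _)
      · exact Finset.mem_insert_self _ _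
    · rw [Finset.card_eq_three.mpr ⟨0, 1, j, by norm_num, by omega, by omega, rfl⟩]
    · intro e he
      rw [Finset.mem_insert, Finset.mem_insert] at he
      rcases he with rfl | rfl | he
      · exact c5
      · intro h
        apply hs4w
        refine eq_of_lines hgw ?_ ?_
        · rw [hw]
          have : cr g (e - (R + (u + T • g))) = cr g (e - (R + u)) := by
            simp only [cr_simp, Prod.fst_add, Prod.snd_add, Prod.fst_sub, Prod.snd_sub, Prod.smul_fst, Prod.smul_snd, smul_eq_mul]
            ring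
          rw [this]
          exact c4
        · have : cr w (e - (R + w)) = cr w (e - R) := by
            simp only [cr_simp, Prod.fst_add, Prod.snd_add, Prod.fst_sub, Prod.snd_sub]
            ring
          rw [this]
          exact h
      · exact hT5 e he
  have hs5R : s5 - R ≠ 0 := by
    rw [sub_ne_zero]
    rintro rfl
    exact hs5F (Finset.mem_insert_of_mem (Finset.mem_insert_of_mem hR))
  have hs5a : s5 ≠ R + j • w := fun h => hs5F (h ▸ Finset.mem_insert_self _ _)
  -- points on the line `R w` are not on the other lines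
  have hs5v : cr v (s5 - R) ≠ 0 := fun h => hs5R (eq_zero_of_cr hvw h c5)
  have hs5q : cr q (s5 - (R + u)) ≠ 0 := by
    intro h
    apply hs5a
    refine eq_of_lines hqw ?_ ?_
    · have : cr q (s5 - (R + j • w)) = cr q (s5 - (R + u)) := by
        rw [hq]
        simp only [cr_simp, Prod.fst_add, Prod.snd_add, Prod.fst_sub, Prod.snd_sub, Prod.smul_fst, Prod.smul_snd, smul_eq_mul]
        ring
      rw [this]
      exact h
    · have : cr w (s5 - (R + j • w)) = cr w (s5 - R) := by
        simp only [cr_simp, Prod.fst_add, Prod.snd_add, Prod.fst_sub, Prod.snd_sub, Prod.smul_fst, Prod.smul_snd, smul_eq_mul]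
        ring
      rw [this]
      exact c5
  have hs5r : cr (q - g) (s5 - (R + u + g)) ≠ 0 := by
    intro h
    apply hs5a
    refine eq_of_lines hrw ?_ ?_
    · have : cr (q - g) (s5 - (R + j • w)) = cr (q - g) (s5 - (R + u + g)) := by
        rw [hq]
        simp only [cr_simp, Prod.fst_add, Prod.snd_add, Prod.fst_sub, Prod.snd_sub, Prod.smul_fst, Prod.smul_snd, smul_eq_mul]
        ring
      rw [this]
      exact h
    · have : cr w (s5 - (R + j • w)) = cr w (s5 - R) := by
        simp only [cr_simp, Prod.fst_add, Prod.snd_add, Prod.fst_sub, Prod.snd_sub, Prod.smul_fst, Prod.smul_snd, smul_eq_mul]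
        ring
      rw [this]
      exact c5
  -- the third forcing move
  have hRvF : R + v ∉ insert (R + j • w) (insert (R + w) F) := by
    rw [Finset.mem_insert, not_or]
    refine ⟨?_, hj4.1⟩
    intro h
    have h' : v = j • w := add_left_cancel h
    apply hvw
    rw [h']
    simp only [cr_simp, Prod.smul_fst, Prod.smul_snd, smul_eq_mul]
    ring
  have hRvE : R + v ∉ insert s5 (insert s4 E) := by
    rw [Finset.mem_insert, not_or]
    refine ⟨?_, hj4.2⟩
    rintro rfl
    apply hvw
    have : cr w (R + v - R) = - cr v w := by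
      simp only [cr_simp, Prod.fst_add, Prod.snd_add, Prod.fst_sub, Prod.snd_sub]
      ring
    rw [this] at c5
    exact neg_eq_zero.mp c5
  have hPq : R + u + T • q = R + v := by
    rw [hq, hv, smul_sub, smul_smul, sub_smul, one_smul]
    abel
  refine ⟨R + v, hRvF, hRvE, Or.inr fun s6 hs6F hs6E => ⟨?_, ?_⟩⟩
  · rintro ⟨a, b, c, h0, hc, hno⟩
    obtain ⟨h4, h5⟩ := key3 a b c h0
      (fun x hx => hno x (Finset.mem_insert_of_mem (Finset.mem_insert_of_mem (Finset.mem_insert_of_mem hx))))
    have h3 := card_insert_le a b c (insert s4 E) s5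
    have h6 := card_insert_le a b c (insert s5 (insert s4 E)) s6
    by_cases hN : ((insert s4 E).filter (fun x : ℤ × ℤ => a * x.1 + b * x.2 = c)).card = 3
    · rw [if_neg ((h5 hN).2 s5 c5)] at h3
      split_ifs at h6 <;> omega
    · split_ifs at h3 h6 <;> omega
  by_cases c6 : cr q (s6 - (R + u)) = 0
  swap
  · refine finish (R + u) q hq0 {0, 1, T} ?_ ?_ ?_
    · intro t ht
      simp only [Finset.mem_insert, Finset.mem_singleton] at ht
      rcases ht with rfl | rfl | rfl
      · rw [zero_smul, add_zero]
        exact Finset.mem_insert_of_mem (Finset.mem_insert_of_mem (Finset.mem_insert_of_mem hP))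
      · have : R + u + (1 : ℤ) • q = R + j • w := by
          rw [one_smul, hq]
          abel
        rw [this]
        exact Finset.mem_insert_of_mem (Finset.mem_insert_self _ _)
      · rw [hPq]
        exact Finset.mem_insert_self _ _
    · rw [Finset.card_eq_three.mpr ⟨0, 1, T, by norm_num, by omega, by omega, rfl⟩]
    · intro e he
      rw [Finset.mem_insert, Finset.mem_insert] at he
      rcases he with rfl | rfl | he
      · exact c6
      · exact hs5q
      · exact hj6 e he
  have hs6v' : s6 ≠ R + v := fun h => hs6F (h ▸ Finset.mem_insert_self _ _)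
  have hs6w' : s6 ≠ R + j • w := fun h => hs6F (h ▸ Finset.mem_insert_of_mem (Finset.mem_insert_self _ _))
  have hs6v : cr v (s6 - R) ≠ 0 := by
    intro h
    apply hs6v'
    refine eq_of_lines hvq ?_ ?_
    · have : cr v (s6 - (R + v)) = cr v (s6 - R) := by
        simp only [cr_simp, Prod.fst_add, Prod.snd_add, Prod.fst_sub, Prod.snd_sub]
        ring
      rw [this]
      exact h
    · rw [← hPq]
      have : cr q (s6 - (R + u + T • q)) = cr q (s6 - (R + u)) := by
        simp only [cr_simp, Prod.fst_add, Prod.snd_add, Prod.fst_sub, Prod.snd_sub, Prod.smul_fst, Prod.smul_snd, smul_eq_mul]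
        ring
      rw [this]
      exact c6
  have hs6r : cr (q - g) (s6 - (R + u + g)) ≠ 0 := by
    intro h
    apply hs6w'
    refine eq_of_lines hrq ?_ ?_
    · have : cr (q - g) (s6 - (R + j • w)) = cr (q - g) (s6 - (R + u + g)) := by
        rw [hq]
        simp only [cr_simp, Prod.fst_add, Prod.snd_add, Prod.fst_sub, Prod.snd_sub, Prod.smul_fst, Prod.smul_snd, smul_eq_mul]
        ring
      rw [this]
      exact h
    · have : cr q (s6 - (R + j • w)) = cr q (s6 - (R + u)) := by
        rw [hq]
        simp only [cr_simp, Prod.fst_add, Prod.snd_add, Prod.fst_sub, Prod.snd_sub, Prod.smul_fst, Prod.smul_snd, smul_eq_mul]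
        ring
      rw [this]
      exact c6
  -- the double threat
  have hXF : R + j • v ∉ insert (R + v) (insert (R + j • w) (insert (R + w) F)) := by
    rw [Finset.mem_insert, Finset.mem_insert, not_or, not_or]
    refine ⟨?_, ?_, hj5.1⟩
    · intro h
      have h' : j • v = v := add_left_cancel h
      apply hv0
      have : (j - 1) • v = 0 := by rw [sub_smul, one_smul, h', sub_self]
      exact (smul_eq_zero.mp this).resolve_left hj1
    · intro h
      have h' : j • v = j • w := add_left_cancel h
      have : v = w := by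
        have : j • (v - w) = 0 := by rw [smul_sub, h', sub_self]
        exact sub_eq_zero.mp ((smul_eq_zero.mp this).resolve_left hj0)
      exact hvw (by rw [this]; exact cr_self w)
  have hXQ : R + u + g + (j * T + 1) • (q - g) = R + j • v := by
    rw [hq, hv, hw]
    refine Prod.ext ?_ ?_
    · simp only [Prod.fst_add, Prod.fst_sub, Prod.smul_fst, smul_eq_mul]
      ring
    · simp only [Prod.snd_add, Prod.snd_sub, Prod.smul_snd, smul_eq_mul]
      ring
  have hXE : R + j • v ∉ insert s6 (insert s5 (insert s4 E)) := by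
    rw [Finset.mem_insert, Finset.mem_insert, not_or, not_or]
    refine ⟨?_, ?_, hj5.2⟩
    · intro h
      apply hs6v
      rw [← h]
      simp only [cr_simp, Prod.fst_add, Prod.snd_add, Prod.fst_sub, Prod.snd_sub, Prod.smul_fst, Prod.smul_snd, smul_eq_mul]
      ring
    · intro h
      apply hs5v
      rw [← h]
      simp only [cr_simp, Prod.fst_add, Prod.snd_add, Prod.fst_sub, Prod.snd_sub, Prod.smul_fst, Prod.smul_snd, smul_eq_mul]
      ring
  refine ⟨R + j • v, hXF, hXE, Or.inr fun s7 hs7F hs7E => ⟨?_, ?_⟩⟩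
  · rintro ⟨a, b, c, h0, hc, hno⟩
    have hF : ∀ x ∈ F, a * x.1 + b * x.2 ≠ c := fun x hx => hno x
      (Finset.mem_insert_of_mem (Finset.mem_insert_of_mem (Finset.mem_insert_of_mem (Finset.mem_insert_of_mem hx))))
    obtain ⟨h4, h5⟩ := key3 a b c h0 hF
    have h3 := card_insert_le a b c (insert s4 E) s5
    have h6 := card_insert_le a b c (insert s5 (insert s4 E)) s6
    have h7 := card_insert_le a b c (insert s6 (insert s5 (insert s4 E))) s7
    have hs6 : 2 ≤ ((insert s4 E).filter (fun x : ℤ × ℤ => a * x.1 + b * x.2 = c)).card → a * w.1 + b * w.2 ≠ 0 →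
        ¬ (a * s6.1 + b * s6.2 = c) := fun hN hww => hj9.line h0 (hF _ hP) hww hN s6 c6
    have hs5 : a * w.1 + b * w.2 = 0 → ¬ (a * s5.1 + b * s5.2 = c) := fun hww => key1 a b c hF hww s5 c5
    by_cases hN3 : ((insert s4 E).filter (fun x : ℤ × ℤ => a * x.1 + b * x.2 = c)).card = 3
    · rw [if_neg ((h5 hN3).2 s5 c5)] at h3
      rw [if_neg (hs6 (by omega) (h5 hN3).1)] at h6
      split_ifs at h7 <;> omega
    · by_cases hN2 : ((insert s4 E).filter (fun x : ℤ × ℤ => a * x.1 + b * x.2 = c)).card = 2
      · by_cases hww : a * w.1 + b * w.2 = 0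
        · rw [if_neg (hs5 hww)] at h3
          split_ifs at h6 h7 <;> omega
        · rw [if_neg (hs6 (by omega) hww)] at h6
          split_ifs at h3 h7 <;> omega
      · split_ifs at h3 h6 h7 <;> omega
  have hs7X : s7 ≠ R + j • v := fun h => hs7F (h ▸ Finset.mem_insert_self _ _)
  by_cases c7 : cr v (s7 - R) = 0
  · -- the second line
    refine finish (R + u + g) (q - g) hr0 {0, 1, j * T + 1} ?_ ?_ ?_
    · intro t ht
      simp only [Finset.mem_insert, Finset.mem_singleton] at ht
      rcases ht with rfl | rfl | rfl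
      · rw [zero_smul, add_zero]
        exact Finset.mem_insert_of_mem (Finset.mem_insert_of_mem (Finset.mem_insert_of_mem (Finset.mem_insert_of_mem hQ)))
      · have : R + u + g + (1 : ℤ) • (q - g) = R + j • w := by
          rw [one_smul, hq]
          abel
        rw [this]
        exact Finset.mem_insert_of_mem (Finset.mem_insert_of_mem (Finset.mem_insert_self _ _))
      · rw [hXQ]
        exact Finset.mem_insert_self _ _
    · have hjT : 0 < j * T := by positivity
      rw [Finset.card_eq_three.mpr ⟨0, 1, j * T + 1, by norm_num, by omega, by omega, rfl⟩]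
    · intro e he
      rw [Finset.mem_insert, Finset.mem_insert, Finset.mem_insert] at he
      rcases he with rfl | rfl | rfl | he
      · intro h
        apply hs7X
        refine eq_of_lines hrv ?_ ?_
        · rw [← hXQ]
          have : cr (q - g) (e - (R + u + g + (j * T + 1) • (q - g))) = cr (q - g) (e - (R + u + g)) := by
            simp only [cr_simp, Prod.fst_add, Prod.snd_add, Prod.fst_sub, Prod.snd_sub, Prod.smul_fst, Prod.smul_snd, smul_eq_mul]
            ring
          rw [this]
          exact h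
        · have : cr v (e - (R + j • v)) = cr v (e - R) := by
            simp only [cr_simp, Prod.fst_add, Prod.snd_add, Prod.fst_sub, Prod.snd_sub, Prod.smul_fst, Prod.smul_snd, smul_eq_mul]
            ring
          rw [this]
          exact c7
      · exact hs6r
      · exact hs5r
      · exact hj7 e he
  · refine finish R v hv0 {0, 1, j} ?_ ?_ ?_
    · intro t ht
      simp only [Finset.mem_insert, Finset.mem_singleton] at ht
      rcases ht with rfl | rfl | rfl
      · rw [zero_smul, add_zero]
        exact Finset.mem_insert_of_mem (Finset.mem_insert_of_mem (Finset.mem_insert_of_mem (Finset.mem_insert_of_mem hR)))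
      · rw [one_smul]
        exact Finset.mem_insert_of_mem (Finset.mem_insert_self _ _)
      · exact Finset.mem_insert_self _ _
    · rw [Finset.card_eq_three.mpr ⟨0, 1, j, by norm_num, by omega, by omega, rfl⟩]
    · intro e he
      rw [Finset.mem_insert, Finset.mem_insert, Finset.mem_insert] at he
      rcases he with rfl | rfl | rfl | he
      · exact c7
      · exact hs6v
      · exact hs5v
      · exact hj8 e he

end Pool.Agent.H88.KA
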