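import Pool.Agent.H88.KA.Gen

/-!
# The openings
-/

set_option autoImplicit false

open Filter

namespace Pool.Agent.H88.KA

private theorem cr_simp (u v : ℤ × ℤ) : cr u v = u.1 * v.2 - u.2 * v.1 := rfl

/-- a point on a line given by an equation, from two points of this line -/
theorem on_of_cr {α β γ : ℤ} {X Y Z : ℤ × ℤ} (hne : Y ≠ X) (hX : α * X.1 + β * X.2 = γ) (hY : α * Y.1 + β * Y.2 = γ)
    (h : cr (Y - X) (Z - X) = 0) : α * Z.1 + β * Z.2 = γ := by
  have h1 : α * (Y - X).1 + β * (Y - X).2 = 0 := by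
    simp only [Prod.fst_sub, Prod.snd_sub]
    linarith
  have := orth_of_cr (sub_ne_zero.mpr hne) h1 h
  simp only [Prod.fst_sub, Prod.snd_sub] at this
  linarith

theorem cr_of_on {α β γ : ℤ} (h0 : α ≠ 0 ∨ β ≠ 0) {X Y Z : ℤ × ℤ} (hX : α * X.1 + β * X.2 = γ) (hY : α * Y.1 + β * Y.2 = γ)
    (hZ : α * Z.1 + β * Z.2 = γ) : cr (Y - X) (Z - X) = 0 := by
  refine cr_of_orth h0 ?_ ?_
  · simp only [Prod.fst_sub, Prod.snd_sub]
    linarith
  · simp only [Prod.fst_sub, Prod.snd_sub]
    linarith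

/-- the attack on the side `P Q` with third point `R` -/
theorem attack' {L : ℕ} (hL : 5 ≤ L) {F E : Finset (ℤ × ℤ)} {P Q R : ℤ × ℤ} (hR : R ∈ F) (hP : P ∈ F)
    (hQ : Q ∈ F) (hD : cr (P - R) (Q - P) ≠ 0) (hdis : ∀ x ∈ F, x ∉ E) (h1 : ∀ e ∈ E, cr (Q - P) (e - P) ≠ 0)
    (h2 : ∀ a b c : ℤ, (a ≠ 0 ∨ b ≠ 0) → (∀ x ∈ F, a * x.1 + b * x.2 ≠ c) →
      (E.filter (fun x : ℤ × ℤ => a * x.1 + b * x.2 = c)).card ≤ 3 ∧
      ((E.filter (fun x : ℤ × ℤ => a * x.1 + b * x.2 = c)).card = 3 → a * (Q - P).1 + b * (Q - P).2 ≠ 0 ∧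
        ∀ z : ℤ × ℤ, cr (Q - P) (z - P) = 0 → a * z.1 + b * z.2 ≠ c)) : Forces 4 L 5 F E := by
  have e1 : R + (P - R) = P := by abel
  have e2 : R + (P - R) + (Q - P) = Q := by abel
  refine attack hL (R := R) (u := P - R) (g := Q - P) hR ?_ ?_ hD hdis ?_ ?_
  · rw [e1]; exact hP
  · rw [e2]; exact hQ
  · rw [e1]; exact h1
  · rw [e1]; exact h2

/-- First wins (4, L), `L ≥ 5` -/
theorem first_four {L : ℕ} (hL : 5 ≤ L) : Forces 4 L 8 ∅ ∅ := by
  obtain ⟨A, hA⟩ : ∃ A : ℤ × ℤ, A = 0 := ⟨_, rfl⟩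
  refine ⟨A, Finset.notMem_empty _, Finset.notMem_empty _, Or.inr fun a ha _ => ⟨not_ws_of_card (by
    rw [Finset.card_insert_of_notMem (Finset.notMem_empty _)]; simp; omega), ?_⟩⟩
  have haA : a ≠ A := by simpa using ha
  obtain ⟨t, hB1, hB2⟩ := ((ev_fresh 0 {A, a}).and (ev_off (sub_ne_zero.mpr haA) A 0)).exists
  obtain ⟨B, hB⟩ : ∃ B, B = pt 0 t := ⟨_, rfl⟩
  rw [← hB] at hB1 hB2
  simp only [Finset.mem_insert, Finset.mem_singleton, not_or] at hB1
  have hAB : cr (B - A) (a - A) ≠ 0 := by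
    intro h
    apply hB2
    unfold cr at *
    linarith
  refine ⟨B, by simpa using hB1.1, by simpa using hB1.2, Or.inr fun b hb hb' => ⟨not_ws_of_card ?_, ?_⟩⟩
  · have := Finset.card_insert_le b (insert a (∅ : Finset (ℤ × ℤ)))
    have := Finset.card_insert_le a (∅ : Finset (ℤ × ℤ))
    simp at *
    omega
  simp only [Finset.mem_insert, Finset.notMem_empty, or_false, not_or] at hb hb'
  obtain ⟨C, hC, h1, h2, h3, h4, h5, X, hX, hXl⟩ := exC hAB hb.2 hb.1 hb'
  simp only [Finset.mem_insert, Finset.mem_singleton, not_or] at hC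
  refine ⟨C, by simp only [Finset.mem_insert, Finset.notMem_empty, or_false, not_or]; exact ⟨hC.2.1, hC.1⟩,
    by simp only [Finset.mem_insert, Finset.notMem_empty, or_false, not_or]; exact ⟨hC.2.2.2, hC.2.2.1⟩,
    Or.inr fun c hc hc' => ⟨not_ws_of_card ?_, ?_⟩⟩
  · have := Finset.card_insert_le c (insert b (insert a (∅ : Finset (ℤ × ℤ))))
    have := Finset.card_insert_le b (insert a (∅ : Finset (ℤ × ℤ)))
    have := Finset.card_insert_le a (∅ : Finset (ℤ × ℤ))
    simp at *
    omega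
  simp only [Finset.mem_insert, Finset.notMem_empty, or_false, not_or] at hc hc'
  have hdis : ∀ x ∈ (insert C (insert B (insert A (∅ : Finset (ℤ × ℤ))))), x ∉ insert c (insert b (insert a (∅ : Finset (ℤ × ℤ)))) := by
    intro x hx hx'
    simp only [Finset.mem_insert, Finset.notMem_empty, or_false] at hx hx'
    rcases hx with rfl | rfl | rfl
    · rcases hx' with h | h | h
      · exact hc.1 h.symm
      · exact hC.2.2.2 h
      · exact hC.2.2.1 h
    · rcases hx' with h | h | h
      · exact hc.2.1 h.symm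
      · exact hb.1 h.symm
      · exact hB1.2 h
    · rcases hx' with h | h | h
      · exact hc.2.2 h.symm
      · exact hb.2 h.symm
      · exact haA h.symm
  have hline : ∀ α β γ : ℤ, (α ≠ 0 ∨ β ≠ 0) → (∀ x ∈ insert C (insert B (insert A (∅ : Finset (ℤ × ℤ)))), α * x.1 + β * x.2 ≠ γ) →
      ((insert c (insert b (insert a (∅ : Finset (ℤ × ℤ))))).filter (fun x : ℤ × ℤ => α * x.1 + β * x.2 = γ)).card ≤ 2 := by
    intro α β γ h0 hF
    have k1 := card_insert_le α β γ (insert b (insert a (∅ : Finset (ℤ × ℤ)))) c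
    have k2 := card_insert_le α β γ (insert a (∅ : Finset (ℤ × ℤ))) b
    have k3 := card_insert_le α β γ (∅ : Finset (ℤ × ℤ)) a
    have k4 := card_filter_empty α β γ
    by_cases ha' : α * a.1 + β * a.2 = γ
    · have hb'' : ¬ (α * b.1 + β * b.2 = γ) := by
        intro hb2
        have := on_of_cr hb' ha' hb2 hXl
        refine hF X ?_ this
        rcases hX with rfl | rfl | rfl <;> simp
      rw [if_neg hb''] at k2
      split_ifs at k1 k3 <;> omega
    · rw [if_neg ha'] at k3
      split_ifs at k1 k2 <;> omega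
  have hCA : C - A ≠ 0 := sub_ne_zero.mpr hC.1
  have hCB : C - B ≠ 0 := sub_ne_zero.mpr hC.2.1
  by_cases hcA : cr (A - C) (c - C) = 0
  · have hcB : cr (B - C) (c - C) ≠ 0 := by
      intro h
      have hd : cr (A - C) (B - C) ≠ 0 := by
        intro h'
        apply h1
        simp only [cr_simp, Prod.fst_sub, Prod.snd_sub] at *
        linarith
      exact hc.1 (sub_eq_zero.mp (eq_zero_of_cr hd hcA h))
    refine attack' hL (P := C) (Q := B) (R := A) (by simp) (by simp) (by simp) ?_ hdis ?_ ?_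
    · intro h'
      apply h1
      simp only [cr_simp, Prod.fst_sub, Prod.snd_sub] at *
      linarith
    · intro e he
      simp only [Finset.mem_insert, Finset.notMem_empty, or_false] at he
      rcases he with rfl | rfl | rfl
      · exact hcB
      · intro h
        apply h5
        simp only [cr_simp, Prod.fst_sub, Prod.snd_sub] at *
        linarith
      · intro h
        apply h4
        simp only [cr_simp, Prod.fst_sub, Prod.snd_sub] at *
        linarith
    · intro α β γ h0 hF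
      have := hline α β γ h0 hF
      exact ⟨by omega, fun h => by omega⟩
  · refine attack' hL (P := C) (Q := A) (R := B) (by simp) (by simp) (by simp) ?_ hdis ?_ ?_
    · intro h'
      apply h1
      simp only [cr_simp, Prod.fst_sub, Prod.snd_sub] at *
      linarith
    · intro e he
      simp only [Finset.mem_insert, Finset.notMem_empty, or_false] at he
      rcases he with rfl | rfl | rfl
      · exact hcA
      · intro h
        apply h3
        simp only [cr_simp, Prod.fst_sub, Prod.snd_sub] at *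
        linarith
      · intro h
        apply h2
        simp only [cr_simp, Prod.fst_sub, Prod.snd_sub] at *
        linarith
    · intro α β γ h0 hF
      have := hline α β γ h0 hF
      exact ⟨by omega, fun h => by omega⟩

/-- Second wins (K, 4), `K ≥ 5` -/
theorem second_four {K : ℕ} (hK : 5 ≤ K) (A : ℤ × ℤ) : Forces 4 K 8 ∅ {A} := by
  obtain ⟨a, ha⟩ : ∃ a : ℤ × ℤ, a = A + (1, 0) := ⟨_, rfl⟩
  have haA : a ≠ A := by
    rw [ha]
    intro h
    have := congrArg Prod.fst h
    simp at this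
  refine ⟨a, Finset.notMem_empty _, by simpa using haA, Or.inr fun B hB hB' => ⟨not_ws_of_card ?_, ?_⟩⟩
  · have := Finset.card_insert_le B ({A} : Finset (ℤ × ℤ))
    rw [Finset.card_singleton] at this
    omega
  simp only [Finset.mem_insert, Finset.notMem_empty, or_false, Finset.mem_singleton] at hB hB'
  have hBA : B - A ≠ 0 := sub_ne_zero.mpr hB'
  obtain ⟨t0, hb0⟩ := (ev_not_mem (inj_line hBA A) {A, B, a}).exists
  obtain ⟨b, hb⟩ : ∃ b, b = A + t0 • (B - A) := ⟨_, rfl⟩
  have hbl : cr (B - A) (b - A) = 0 := by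
    rw [hb]
    simp only [cr_simp, Prod.fst_add, Prod.snd_add, Prod.fst_sub, Prod.snd_sub, Prod.smul_fst, Prod.smul_snd, smul_eq_mul]
    ring
  rw [← hb] at hb0
  simp only [Finset.mem_insert, Finset.mem_singleton, not_or] at hb0
  refine ⟨b, by simpa using hb0.2.2, by simp only [Finset.mem_insert, Finset.mem_singleton, not_or]; exact ⟨hb0.2.1, hb0.1⟩,
    Or.inr fun C hC hC' => ⟨not_ws_of_card ?_, ?_⟩⟩
  · have := Finset.card_insert_le C (insert B ({A} : Finset (ℤ × ℤ)))
    have := Finset.card_insert_le B ({A} : Finset (ℤ × ℤ))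
    rw [Finset.card_singleton] at this
    omega
  simp only [Finset.mem_insert, Finset.notMem_empty, or_false, Finset.mem_singleton, not_or] at hC hC'
  obtain ⟨s, hs⟩ : ∃ s : ℤ, s = |a.2 - a.1 ^ 2| + |b.2 - b.1 ^ 2| + 1 := ⟨_, rfl⟩
  have hsa : a.1 ^ 2 + s - a.2 ≠ 0 := by
    have := le_abs_self (a.2 - a.1 ^ 2)
    have := abs_nonneg (b.2 - b.1 ^ 2)
    intro h
    linarith
  have hsb : b.1 ^ 2 + s - b.2 ≠ 0 := by
    have := le_abs_self (b.2 - b.1 ^ 2)
    have := abs_nonneg (a.2 - a.1 ^ 2)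
    intro h
    linarith
  have hhit : ∀ x X : ℤ × ℤ, x.1 ^ 2 + s - x.2 ≠ 0 → X ≠ C → ∀ᶠ t : ℤ in atTop, cr (X - C) (x - C) ≠ 0 →
      cr (pt s t - x) (X - C) ≠ 0 ∧ ∀ z, cr (pt s t - x) (z - x) = 0 → cr (X - C) (z - C) ≠ 0 := by
    intro x X hx hX
    by_cases h : cr (X - C) (x - C) = 0
    · exact Eventually.of_forall fun t h' => absurd h h'
    · filter_upwards [ev_nohit hx hX h] with t ht _
      exact ht
  obtain ⟨t, k1, k2, k3, k4, k5, k6, k7, k8, k9, k10, k11, k12⟩ :=
    ((ev_fresh s {A, B, C, a, b}).and ((ev_off (sub_ne_zero.mpr hb0.2.2) a s).and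
      ((ev_off' (Ne.symm haA) s).and ((ev_off' hB s).and ((ev_off' hC.2 s).and
      ((ev_off' (Ne.symm hb0.1) s).and ((ev_off' (Ne.symm hb0.2.1) s).and ((ev_off' hC.1 s).and
      ((hhit a A hsa (Ne.symm hC'.2)).and ((hhit a B hsa (Ne.symm hC'.1)).and
      ((hhit b A hsb (Ne.symm hC'.2)).and (hhit b B hsb (Ne.symm hC'.1))))))))))))).exists
  obtain ⟨c, hc⟩ : ∃ c, c = pt s t := ⟨_, rfl⟩
  rw [← hc] at k1 k2 k3 k4 k5 k6 k7 k8 k9 k10 k11 k12
  simp only [Finset.mem_insert, Finset.mem_singleton, not_or] at k1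
  refine ⟨c, by simp only [Finset.mem_insert, Finset.notMem_empty, or_false, not_or]; exact ⟨k1.2.2.2.2, k1.2.2.2.1⟩,
    by simp only [Finset.mem_insert, Finset.mem_singleton, not_or]; exact ⟨k1.2.2.1, k1.2.1, k1.1⟩,
    Or.inr fun D hD hD' => ⟨not_ws_of_card ?_, ?_⟩⟩
  · have := Finset.card_insert_le D (insert C (insert B ({A} : Finset (ℤ × ℤ))))
    have := Finset.card_insert_le C (insert B ({A} : Finset (ℤ × ℤ)))
    have := Finset.card_insert_le B ({A} : Finset (ℤ × ℤ))
    rw [Finset.card_singleton] at this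
    omega
  simp only [Finset.mem_insert, Finset.notMem_empty, or_false, Finset.mem_singleton, not_or] at hD hD'
  have hdis : ∀ x ∈ insert c (insert b (insert a (∅ : Finset (ℤ × ℤ)))), x ∉ insert D (insert C (insert B ({A} : Finset (ℤ × ℤ)))) := by
    intro x hx hx'
    simp only [Finset.mem_insert, Finset.notMem_empty, or_false, Finset.mem_singleton] at hx hx'
    rcases hx with rfl | rfl | rfl
    · rcases hx' with h | h | h | h
      · exact hD.1 h.symm
      · exact k1.2.2.1 h
      · exact k1.2.1 h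
      · exact k1.1 h
    · rcases hx' with h | h | h | h
      · exact hD.2.1 h.symm
      · exact hC.1 h.symm
      · exact hb0.2.1 h
      · exact hb0.1 h
    · rcases hx' with h | h | h | h
      · exact hD.2.2 h.symm
      · exact hC.2 h.symm
      · exact hB h.symm
      · exact haA h
  -- the lines with three points of First
  have hline : ∀ α β γ : ℤ, (α ≠ 0 ∨ β ≠ 0) → (∀ x ∈ insert c (insert b (insert a (∅ : Finset (ℤ × ℤ)))), α * x.1 + β * x.2 ≠ γ) →
      ((insert D (insert C (insert B ({A} : Finset (ℤ × ℤ))))).filter (fun x : ℤ × ℤ => α * x.1 + β * x.2 = γ)).card ≤ 3 ∧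
      (((insert D (insert C (insert B ({A} : Finset (ℤ × ℤ))))).filter (fun x : ℤ × ℤ => α * x.1 + β * x.2 = γ)).card = 3 →
        α * C.1 + β * C.2 = γ ∧ (α * A.1 + β * A.2 = γ ∨ α * B.1 + β * B.2 = γ)) := by
    intro α β γ h0 hF
    have q1 := card_insert_le α β γ (insert C (insert B ({A} : Finset (ℤ × ℤ)))) D
    have q2 := card_insert_le α β γ (insert B ({A} : Finset (ℤ × ℤ))) C
    have q3 := card_insert_le α β γ ({A} : Finset (ℤ × ℤ)) B
    have q4 := card_insert_le α β γ (∅ : Finset (ℤ × ℤ)) A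
    have q5 := card_filter_empty α β γ
    rw [show insert A (∅ : Finset (ℤ × ℤ)) = {A} from rfl] at q4
    have hb' : ¬ (α * b.1 + β * b.2 = γ) := hF b (by simp)
    by_cases hA' : α * A.1 + β * A.2 = γ
    · have hB'' : ¬ (α * B.1 + β * B.2 = γ) := fun hB2 => hb' (on_of_cr hB' hA' hB2 hbl)
      rw [if_neg hB''] at q3
      rw [if_pos hA'] at q4
      by_cases hC2 : α * C.1 + β * C.2 = γ
      · rw [if_pos hC2] at q2
        refine ⟨?_, fun _ => ⟨hC2, Or.inl hA'⟩⟩
        split_ifs at q1 <;> omega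
      · rw [if_neg hC2] at q2
        refine ⟨?_, fun h => ?_⟩
        · split_ifs at q1 <;> omega
        · exfalso
          split_ifs at q1 <;> omega
    · rw [if_neg hA'] at q4
      by_cases hC2 : α * C.1 + β * C.2 = γ
      · rw [if_pos hC2] at q2
        by_cases hB2 : α * B.1 + β * B.2 = γ
        · refine ⟨?_, fun _ => ⟨hC2, Or.inr hB2⟩⟩
          split_ifs at q1 q3 <;> omega
        · rw [if_neg hB2] at q3
          refine ⟨?_, fun h => ?_⟩
          · split_ifs at q1 <;> omega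
          · exfalso
            split_ifs at q1 <;> omega
      · rw [if_neg hC2] at q2
        refine ⟨?_, fun h => ?_⟩
        · split_ifs at q1 q3 <;> omega
        · exfalso
          split_ifs at q1 q3 <;> omega
  have hgen : ∀ x : ℤ × ℤ, (x = a ∨ x = b) →
      (∀ X : ℤ × ℤ, (X = A ∨ X = B) → cr (X - C) (x - C) ≠ 0 → cr (c - x) (X - C) ≠ 0 ∧ ∀ z, cr (c - x) (z - x) = 0 → cr (X - C) (z - C) ≠ 0) := by
    rintro x (rfl | rfl) X (rfl | rfl)
    · exact k9
    · exact k10
    · exact k11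
    · exact k12
  have hH2 : ∀ x : ℤ × ℤ, (x = a ∨ x = b) → ∀ α β γ : ℤ, (α ≠ 0 ∨ β ≠ 0) →
      (∀ x ∈ insert c (insert b (insert a (∅ : Finset (ℤ × ℤ)))), α * x.1 + β * x.2 ≠ γ) →
      ((insert D (insert C (insert B ({A} : Finset (ℤ × ℤ))))).filter (fun x : ℤ × ℤ => α * x.1 + β * x.2 = γ)).card ≤ 3 ∧
      (((insert D (insert C (insert B ({A} : Finset (ℤ × ℤ))))).filter (fun x : ℤ × ℤ => α * x.1 + β * x.2 = γ)).card = 3 →
        α * (x - c).1 + β * (x - c).2 ≠ 0 ∧ ∀ z : ℤ × ℤ, cr (x - c) (z - c) = 0 → α * z.1 + β * z.2 ≠ γ) := by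
    intro x hx α β γ h0 hF
    obtain ⟨h3, h4⟩ := hline α β γ h0 hF
    refine ⟨h3, fun h => ?_⟩
    obtain ⟨hCl, hXl⟩ := h4 h
    obtain ⟨X, hX, hXl, hXC⟩ : ∃ X, (X = A ∨ X = B) ∧ α * X.1 + β * X.2 = γ ∧ X ≠ C := by
      rcases hXl with hXl | hXl
      · exact ⟨A, Or.inl rfl, hXl, Ne.symm hC'.2⟩
      · exact ⟨B, Or.inr rfl, hXl, Ne.symm hC'.1⟩
    have hxl : ¬ (α * x.1 + β * x.2 = γ) := hF x (by rcases hx with rfl | rfl <;> simp)
    have hκ : cr (X - C) (x - C) ≠ 0 := fun h' => hxl (on_of_cr hXC hCl hXl h')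
    obtain ⟨h5, h6⟩ := hgen x hx X hX hκ
    have hδ : α * (X - C).1 + β * (X - C).2 = 0 := by
      simp only [Prod.fst_sub, Prod.snd_sub]
      linarith
    refine ⟨?_, ?_⟩
    · intro h'
      apply h5
      have := cr_of_orth h0 h' hδ
      simp only [cr_simp, Prod.fst_sub, Prod.snd_sub] at *
      linarith
    · intro z hz hzl
      refine h6 z ?_ (cr_of_on h0 hCl hXl hzl)
      simp only [cr_simp, Prod.fst_sub, Prod.snd_sub] at *
      linarith
  have hL : 5 ≤ K := hK
  by_cases hDa : cr (a - c) (D - c) = 0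
  · have hDb : cr (b - c) (D - c) ≠ 0 := by
      intro h
      have hd : cr (a - c) (b - c) ≠ 0 := by
        intro h'
        apply k2
        simp only [cr_simp, Prod.fst_sub, Prod.snd_sub] at *
        linarith
      exact hD.1 (sub_eq_zero.mp (eq_zero_of_cr hd hDa h))
    refine attack' hL (P := c) (Q := b) (R := a) (by simp) (by simp) (by simp) ?_ hdis ?_ (hH2 b (Or.inr rfl))
    · intro h'
      apply k2
      simp only [cr_simp, Prod.fst_sub, Prod.snd_sub] at *
      linarith
    · intro e he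
      simp only [Finset.mem_insert, Finset.mem_singleton] at he
      rcases he with rfl | rfl | rfl | rfl
      · exact hDb
      · intro h
        apply k8
        simp only [cr_simp, Prod.fst_sub, Prod.snd_sub] at *
        linarith
      · intro h
        apply k7
        simp only [cr_simp, Prod.fst_sub, Prod.snd_sub] at *
        linarith
      · intro h
        apply k6
        simp only [cr_simp, Prod.fst_sub, Prod.snd_sub] at *
        linarith
  · refine attack' hL (P := c) (Q := a) (R := b) (by simp) (by simp) (by simp) ?_ hdis ?_ (hH2 a (Or.inl rfl))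
    · intro h'
      apply k2
      simp only [cr_simp, Prod.fst_sub, Prod.snd_sub] at *
      linarith
    · intro e he
      simp only [Finset.mem_insert, Finset.mem_singleton] at he
      rcases he with rfl | rfl | rfl | rfl
      · exact hDa
      · intro h
        apply k5
        simp only [cr_simp, Prod.fst_sub, Prod.snd_sub] at *
        linarith
      · intro h
        apply k4
        simp only [cr_simp, Prod.fst_sub, Prod.snd_sub] at *
        linarith
      · intro h
        apply k3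
        simp only [cr_simp, Prod.fst_sub, Prod.snd_sub] at *
        linarith

end Pool.Agent.H88.KA
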