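import Pool.Agent.H88.KA.CN9

/-!
KAC ADE numbers: the sign of the classes without integral coordinates.
-/

set_option autoImplicit false

namespace Pool.H88.Num

open scoped BigOperators
open Pool.Agent.H27.KAC
open Pool.H88.KA (Typ Std cox MMok mm_eq TT TT_sum typ_exists cqN_eq)

theorem par_rel (n : ℕ) (hn : 2 ≤ n) (V : ℕ → ℚ) (h : WtN n (n - 2) V) (p : ℕ) :
    (p < n → ∃ z : ℤ, V p = (p + 1) * V 0 + z) ∧
      (p + 1 < n → ∃ z : ℤ, V (p + 1) = (p + 2) * V 0 + z) := by
  induction p with
  | zero =>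
    refine ⟨fun _ => ⟨0, by push_cast; ring⟩, fun h1 => ?_⟩
    obtain ⟨z, hz⟩ := h 0 (by omega)
    unfold NBq at hz
    rw [if_neg (by omega), if_neg (by omega)] at hz
    by_cases h2 : 0 + 3 ≤ n
    · rw [if_pos h2, if_neg (by omega)] at hz
      refine ⟨-z, ?_⟩
      push_cast
      linarith
    · rw [if_neg h2, if_pos (by omega)] at hz
      have h3 : n - 1 = 0 + 1 := by omega
      rw [h3] at hz
      refine ⟨-z, ?_⟩
      push_cast
      linarith
  | succ p ih =>
    refine ⟨fun h1 => ?_, fun h1 => ?_⟩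
    · obtain ⟨z, hz⟩ := ih.2 h1
      refine ⟨z, ?_⟩
      rw [hz]
      push_cast
      ring
    · obtain ⟨z1, hz1⟩ := ih.1 (by omega)
      obtain ⟨z2, hz2⟩ := ih.2 (by omega)
      obtain ⟨z, hz⟩ := h (p + 1) (by omega)
      unfold NBq at hz
      rw [if_neg (by omega), if_pos (by omega), Nat.add_sub_cancel] at hz
      by_cases h2 : p + 1 + 3 ≤ n
      · rw [if_pos h2, if_neg (by omega)] at hz
        refine ⟨2 * z2 - z1 - z, ?_⟩
        push_cast
        linarith
      · rw [if_neg h2, if_pos (by omega)] at hz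
        have h3 : n - 1 = p + 1 + 1 := by omega
        rw [h3] at hz
        refine ⟨2 * z2 - z1 - z, ?_⟩
        push_cast
        linarith

theorem par_last (n : ℕ) (hn : 2 ≤ n) (V : ℕ → ℚ) (h : WtN n (n - 2) V) :
    ∃ m : ℤ, ((n : ℚ) + 1) * V 0 = m := by
  obtain ⟨z1, hz1⟩ := (par_rel n hn V h (n - 1)).1 (by omega)
  obtain ⟨z2, hz2⟩ := (par_rel n hn V h (n - 2)).1 (by omega)
  obtain ⟨z, hz⟩ := h (n - 1) (by omega)
  unfold NBq at hz
  rw [if_pos (by omega)] at hz
  have e1 : ((n - 1 : ℕ) : ℚ) = n - 1 := by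
    rw [Nat.cast_sub (by omega)]
    simp
  have e2 : ((n - 2 : ℕ) : ℚ) = n - 2 := by
    rw [Nat.cast_sub (by omega)]
    simp
  rw [e1] at hz1
  rw [e2] at hz2
  refine ⟨z - 2 * z1 + z2, ?_⟩
  push_cast
  rw [hz1, hz2] at hz
  linarith

/-- parity, standard graph `A_n`. -/
theorem par_A (n : ℕ) (hn : 2 ≤ n) (V : ℕ → ℚ) (h : WtN n (n - 2) V) (hr : Ord n V (n + 1))
    (T : ℤ) (hT : 2 * ∑ p ∈ Finset.range n, V p = T) : Even ((n : ℤ) + T) := by
  obtain ⟨m, hm⟩ := par_last n hn V h
  have h1 : ∀ p, ∃ z : ℤ, p < n → V p = (p + 1) * V 0 + z := by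
    intro p
    by_cases hp : p < n
    · obtain ⟨z, hz⟩ := (par_rel n hn V h p).1 hp
      exact ⟨z, fun _ => hz⟩
    · exact ⟨0, fun h => absurd h hp⟩
  choose z hz using h1
  have h2 : ∑ p ∈ Finset.range n, V p =
      (∑ p ∈ Finset.range n, ((p : ℚ) + 1)) * V 0 + ((∑ p ∈ Finset.range n, z p : ℤ) : ℚ) := by
    rw [Finset.sum_mul]
    push_cast
    rw [← Finset.sum_add_distrib]
    exact Finset.sum_congr rfl fun p hp => hz p (Finset.mem_range.1 hp)
  have h3 : ∀ k : ℕ, 2 * ∑ p ∈ Finset.range k, ((p : ℚ) + 1) = k * (k + 1) := by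
    intro k
    induction k with
    | zero => simp
    | succ k ih =>
      rw [Finset.sum_range_succ, mul_add, ih]
      push_cast
      ring
  have h4 : (T : ℚ) = ((m * n + 2 * ∑ p ∈ Finset.range n, z p : ℤ) : ℚ) := by
    rw [← hT, h2, mul_add, ← mul_assoc, h3 n]
    push_cast
    rw [← hm]
    ring
  have h5 : T = m * n + 2 * ∑ p ∈ Finset.range n, z p := by exact_mod_cast h4
  rw [h5]
  rcases Nat.even_or_odd n with hne | hno
  · obtain ⟨k, hk⟩ := hne
    refine ⟨k + m * k + ∑ p ∈ Finset.range n, z p, ?_⟩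
    rw [hk]
    push_cast
    ring
  · rcases Int.even_or_odd m with hme | hmo
    · exfalso
      obtain ⟨k, hk⟩ := hno
      obtain ⟨m', hm'⟩ := hme
      have h6 : ((k + 1 : ℕ) : ℚ) * V 0 = m' := by
        have h7 : ((n : ℚ) + 1) = 2 * ((k + 1 : ℕ) : ℚ) := by
          rw [hk]
          push_cast
          ring
        rw [h7, hm'] at hm
        push_cast at hm ⊢
        linarith
      have h8 : n + 1 ∣ k + 1 := by
        apply (hr.2 (k + 1)).1
        intro p hp
        refine ⟨(p + 1) * m' + (k + 1) * z p, ?_⟩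
        rw [hz p hp, mul_add]
        push_cast at h6 ⊢
        rw [← h6]
        ring
      have h9 := Nat.le_of_dvd (by omega) h8
      omega
    · obtain ⟨m', hm'⟩ := hmo
      obtain ⟨k, hk⟩ := hno
      refine ⟨2 * k + 1 + 2 * k * m' + m' + ∑ p ∈ Finset.range n, z p, ?_⟩
      rw [hm', hk]
      push_cast
      ring

section

variable {I : Type} [Fintype I] [DecidableEq I]

/-- (E1). -/
theorem E1_of {a : I → I → ℕ} (hs : ∀ i j, a i j = a j i) {cd : CrossData a} (hmm : MMok a cd)
    (heps : ∀ A, FinT a A → ConnS a A → ∀ q, (∀ x ∈ A, IsZ (cqN a A q x)) →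
      ∃ n : ℤ, 2 * ∑ x ∈ A, q x = n ∧ cd.eps A q = (-1) ^ n) :
    ∀ A q, FinT a A → ConnS a A → WtL a A q → (∀ x ∈ A, ¬ IsZ (q x)) →
      (-1) ^ A.card * cd.eps A q = 1 := by
  classical
  intro A q hA hc hq hni
  obtain ⟨T, hT, hT'⟩ := heps A hA hc q hq
  obtain ⟨n, c, φ, hty, hS⟩ := typ_exists hs hA hc
  have hcard := hty.card
  have hfil : A.filter (fun x => IsZ (q x)) = ∅ :=
    Finset.filter_eq_empty_iff.2 (fun x hx => hni x hx)
  have he0 := e0_eq hty q
  rw [hfil, Finset.card_empty] at he0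
  have hev : Even ((n : ℤ) + T) := by
    have hsum : ∑ x ∈ A, q x = ∑ p ∈ Finset.range n, VV n φ q p := by
      rw [← Fin.sum_univ_eq_sum_range]
      symm
      apply Finset.sum_bij (fun (j : Fin n) _ => φ j)
      · intro j _
        exact hty.mem j
      · intro j _ j' _ hjj
        exact hty.inj hjj
      · intro y hy
        obtain ⟨i, hi⟩ := hty.surj y hy
        exact ⟨i, Finset.mem_univ _, hi⟩
      · intro j _
        unfold VV
        rw [dif_pos j.2]
    rw [hsum] at hT
    obtain ⟨r, hr⟩ := ord_exists n (VV n φ q)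
    rcases hS with ⟨h1, h2⟩ | ⟨h1, h2⟩ | ⟨h1, h2⟩ | ⟨h1, h2⟩
    · subst h1
      subst h2
      rw [Finset.sum_range_one] at hT
      rw [Int.even_add]
      constructor
      · intro h
        exact absurd h (by decide)
      · intro h
        exfalso
        obtain ⟨k, hk⟩ := h
        have h3 : VV 1 φ q 0 = k := by
          rw [hk] at hT
          push_cast at hT
          linarith
        have h4 : VV 1 φ q 0 = q (φ 0) := by
          unfold VV
          rw [dif_pos (by norm_num)]
          rfl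
        apply hni (φ 0) (hty.mem 0)
        exact ⟨k, by rw [← h4, h3]⟩
    · have h3 := wtN_of hty (by omega) q hq
      have h4 : c = n - 2 := by omega
      rw [h4] at h3
      have h5 := bd_A n h1 (VV n φ q) r h3 hr
      rw [he0, zero_add, mul_one] at h5
      rw [← h5] at hr
      exact par_A n h1 (VV n φ q) h3 hr T hT
    · exfalso
      have h3 := wtN_of hty (by omega) q hq
      have h4 : c = n - 3 := by omega
      rw [h4] at h3
      have h5 := (bd_D n h1 (VV n φ q) r h3 hr).2
      omega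
    · exfalso
      subst h1
      rcases h2 with h2 | h2 | h2
      · subst h2
        have h3 := wtN_of hty (by omega) q hq
        have h5 := (bd_E6 (VV 6 φ q) r h3 hr).2
        omega
      · subst h2
        have h3 := wtN_of hty (by omega) q hq
        rcases bd_E7 (VV 7 φ q) r h3 hr with h4 | h4
        · have h5 := h4 0 (by norm_num)
          unfold VV at h5
          rw [dif_pos (by norm_num)] at h5
          exact hni _ (hty.mem _) h5
        · omega
      · subst h2
        have h3 := wtN_of hty (by omega) q hq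
        have h5 := bd_E8 (VV 8 φ q) h3 0 (by norm_num)
        unfold VV at h5
        rw [dif_pos (by norm_num)] at h5
        exact hni _ (hty.mem _) h5
  rw [hT', hcard]
  have h6 : ((-1 : ℚ) ^ n) = (-1) ^ (n : ℤ) := (zpow_natCast _ _).symm
  rw [h6, ← zpow_add₀ (by norm_num)]
  exact hev.neg_one_zpow

end

end Pool.H88.Num
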