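import Pool.Agent.H88.KA.Open

/-!
# The games with a target of at most three points
-/

set_option autoImplicit false

open Filter

namespace Pool.Agent.H88.KA

private theorem cr_simp (u v : ℤ × ℤ) : cr u v = u.1 * v.2 - u.2 * v.1 := rfl

theorem first_one {L : ℕ} : Forces 1 L 1 ∅ ∅ := by
  refine finish (0 : ℤ × ℤ) (1, 0) (by simp) ∅ ?_ ?_ ?_
  · intro t ht
    exact absurd ht (Finset.notMem_empty _)
  · simp
  · intro e he
    exact absurd he (Finset.notMem_empty _)

/-- two points on a line free of the opponent -/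
theorem finish_two {K L n : ℕ} (hK : K ≤ 3) {F E : Finset (ℤ × ℤ)} {X Y : ℤ × ℤ} (hX : X ∈ F) (hY : Y ∈ F) (hne : Y ≠ X)
    (hE : ∀ e ∈ E, cr (Y - X) (e - X) ≠ 0) : Forces K L (n + 1) F E := by
  refine finish X (Y - X) (sub_ne_zero.mpr hne) {0, 1} ?_ ?_ hE
  · intro t ht
    simp only [Finset.mem_insert, Finset.mem_singleton] at ht
    rcases ht with rfl | rfl
    · rw [zero_smul, add_zero]
      exact hX
    · rw [one_smul, add_sub_cancel]
      exact hY
  · rw [Finset.card_pair (by norm_num)]
    omega

theorem card_one_le (a : ℤ × ℤ) : (insert a (∅ : Finset (ℤ × ℤ))).card ≤ 1 := by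
  simp

theorem card_two_le (a b : ℤ × ℤ) : (insert b (insert a (∅ : Finset (ℤ × ℤ)))).card ≤ 2 := by
  have := Finset.card_insert_le b (insert a (∅ : Finset (ℤ × ℤ)))
  have := card_one_le a
  omega

theorem card_three_le (a b c : ℤ × ℤ) : (insert c (insert b (insert a (∅ : Finset (ℤ × ℤ))))).card ≤ 3 := by
  have := Finset.card_insert_le c (insert b (insert a (∅ : Finset (ℤ × ℤ))))
  have := card_two_le a b
  omega

theorem card_four_le (a b c d : ℤ × ℤ) : (insert d (insert c (insert b (insert a (∅ : Finset (ℤ × ℤ)))))).card ≤ 4 := by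
  have := Finset.card_insert_le d (insert c (insert b (insert a (∅ : Finset (ℤ × ℤ)))))
  have := card_three_le a b c
  omega

theorem first_two {L : ℕ} (hL : 2 ≤ L) : Forces 2 L 2 ∅ ∅ := by
  obtain ⟨A, hA⟩ : ∃ A : ℤ × ℤ, A = 0 := ⟨_, rfl⟩
  refine ⟨A, Finset.notMem_empty _, Finset.notMem_empty _, Or.inr fun a ha _ =>
    ⟨not_ws_of_card (lt_of_le_of_lt (card_one_le a) (by omega)), ?_⟩⟩
  have haA : a ≠ A := by simpa using ha
  obtain ⟨t, hB1, hB2⟩ := ((ev_fresh 0 {A, a}).and (ev_off (sub_ne_zero.mpr haA) A 0)).exists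
  simp only [Finset.mem_insert, Finset.mem_singleton, not_or] at hB1
  refine finish A (pt 0 t - A) (sub_ne_zero.mpr hB1.1) {0} ?_ ?_ ?_
  · intro t ht
    rw [Finset.mem_singleton] at ht
    subst ht
    rw [zero_smul, add_zero]
    exact Finset.mem_insert_self _ _
  · rw [Finset.card_singleton]
  · intro e he h
    simp only [Finset.mem_insert, Finset.notMem_empty, or_false] at he
    subst he
    apply hB2
    simp only [cr_simp] at *
    linarith

theorem first_three {L : ℕ} (hL : 3 ≤ L) : Forces 3 L 4 ∅ ∅ := by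
  obtain ⟨A, hA⟩ : ∃ A : ℤ × ℤ, A = 0 := ⟨_, rfl⟩
  refine ⟨A, Finset.notMem_empty _, Finset.notMem_empty _, Or.inr fun a ha _ =>
    ⟨not_ws_of_card (lt_of_le_of_lt (card_one_le a) (by omega)), ?_⟩⟩
  have haA : a ≠ A := by simpa using ha
  obtain ⟨t, hB1, hB2⟩ := ((ev_fresh 0 {A, a}).and (ev_off (sub_ne_zero.mpr haA) A 0)).exists
  obtain ⟨B, hB⟩ : ∃ B, B = pt 0 t := ⟨_, rfl⟩
  rw [← hB] at hB1 hB2
  simp only [Finset.mem_insert, Finset.mem_singleton, not_or] at hB1
  have hAB : cr (B - A) (a - A) ≠ 0 := by
    intro h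
    apply hB2
    unfold cr at *
    linarith
  refine ⟨B, by simpa using hB1.1, by simpa using hB1.2, Or.inr fun b hb hb' =>
    ⟨not_ws_of_card (lt_of_le_of_lt (card_two_le a b) (by omega)), ?_⟩⟩
  simp only [Finset.mem_insert, Finset.notMem_empty, or_false, not_or] at hb hb'
  by_cases hbl : cr (B - A) (b - A) = 0
  swap
  · refine finish_two le_rfl (X := A) (Y := B) (by simp) (by simp) hB1.1 ?_
    intro e he
    simp only [Finset.mem_insert, Finset.notMem_empty, or_false] at he
    rcases he with rfl | rfl
    · exact hbl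
    · exact hAB
  obtain ⟨C, hC, h1, h2, h3, h4, h5, X, hX, hXl⟩ := exC hAB hb.2 hb.1 hb'
  simp only [Finset.mem_insert, Finset.mem_singleton, not_or] at hC
  refine ⟨C, by simp only [Finset.mem_insert, Finset.notMem_empty, or_false, not_or]; exact ⟨hC.2.1, hC.1⟩,
    by simp only [Finset.mem_insert, Finset.notMem_empty, or_false, not_or]; exact ⟨hC.2.2.2, hC.2.2.1⟩,
    Or.inr fun c hc hc' => ⟨?_, ?_⟩⟩
  · rintro ⟨α, β, γ, h0, hcard, hno⟩
    have k1 := card_insert_le α β γ (insert b (insert a (∅ : Finset (ℤ × ℤ)))) c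
    have k2 := card_insert_le α β γ (insert a (∅ : Finset (ℤ × ℤ))) b
    have k3 := card_insert_le α β γ (∅ : Finset (ℤ × ℤ)) a
    have k4 := card_filter_empty α β γ
    by_cases ha' : α * a.1 + β * a.2 = γ
    · have hb'' : ¬ (α * b.1 + β * b.2 = γ) := by
        intro hb2
        have := on_of_cr hb' ha' hb2 hXl
        refine hno X ?_ this
        rcases hX with rfl | rfl | rfl <;> simp
      rw [if_neg hb''] at k2
      split_ifs at k1 k3 <;> omega
    · rw [if_neg ha'] at k3
      split_ifs at k1 k2 <;> omega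
  simp only [Finset.mem_insert, Finset.notMem_empty, or_false, not_or] at hc hc'
  by_cases hcA : cr (C - A) (c - A) = 0
  · refine finish_two le_rfl (X := B) (Y := C) (by simp) (by simp) hC.2.1 ?_
    intro e he
    simp only [Finset.mem_insert, Finset.notMem_empty, or_false] at he
    rcases he with rfl | rfl | rfl
    · intro h
      have hd : cr (C - A) (C - B) ≠ 0 := by
        intro h'
        apply h1
        simp only [cr_simp, Prod.fst_sub, Prod.snd_sub] at *
        linarith
      apply hc.1
      refine eq_of_lines hd ?_ ?_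
      · simp only [cr_simp, Prod.fst_sub, Prod.snd_sub] at *
        linarith
      · simp only [cr_simp, Prod.fst_sub, Prod.snd_sub] at *
        linarith
    · exact h5
    · exact h4
  · refine finish_two le_rfl (X := A) (Y := C) (by simp) (by simp) hC.1 ?_
    intro e he
    simp only [Finset.mem_insert, Finset.notMem_empty, or_false] at he
    rcases he with rfl | rfl | rfl
    · exact hcA
    · exact h3
    · exact h2

theorem second_one {K : ℕ} (A : ℤ × ℤ) : Forces 1 K 1 ∅ {A} := by
  refine finish (A + (0, 1)) (1, 0) (by simp) ∅ ?_ ?_ ?_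
  · intro t ht
    exact absurd ht (Finset.notMem_empty _)
  · simp
  · intro e he
    rw [Finset.mem_singleton] at he
    subst he
    simp [cr]

/-- the second point of Second -/
theorem exb {A a B : ℤ × ℤ} (haA : a ≠ A) (hBa : B ≠ a) :
    ∃ b : ℤ × ℤ, b ∉ ({A, B, a} : Finset (ℤ × ℤ)) ∧ cr (b - a) (A - a) ≠ 0 ∧ cr (b - a) (B - a) ≠ 0 := by
  obtain ⟨t, h1, h2, h3⟩ := ((ev_fresh 0 {A, B, a}).and ((ev_off' (Ne.symm haA) 0).and (ev_off' hBa 0))).exists
  exact ⟨pt 0 t, h1, h2, h3⟩

theorem second_two {K : ℕ} (hK : 3 ≤ K) (A : ℤ × ℤ) : Forces 2 K 2 ∅ {A} := by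
  obtain ⟨a, ha⟩ : ∃ a : ℤ × ℤ, a = A + (1, 0) := ⟨_, rfl⟩
  have haA : a ≠ A := by
    rw [ha]
    intro h
    have := congrArg Prod.fst h
    simp at this
  refine ⟨a, Finset.notMem_empty _, by simpa using haA, Or.inr fun B hB hB' =>
    ⟨not_ws_of_card (lt_of_le_of_lt (card_two_le A B) (by omega)), ?_⟩⟩
  simp only [Finset.mem_insert, Finset.notMem_empty, or_false, Finset.mem_singleton] at hB hB'
  obtain ⟨b, hb, h1, h2⟩ := exb haA hB
  simp only [Finset.mem_insert, Finset.mem_singleton, not_or] at hb
  refine finish a (b - a) (sub_ne_zero.mpr hb.2.2) {0} ?_ ?_ ?_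
  · intro t ht
    rw [Finset.mem_singleton] at ht
    subst ht
    rw [zero_smul, add_zero]
    exact Finset.mem_insert_self _ _
  · rw [Finset.card_singleton]
  · intro e he
    simp only [Finset.mem_insert, Finset.mem_singleton] at he
    rcases he with rfl | rfl
    · exact h2
    · exact h1

theorem second_three {K : ℕ} (hK : 4 ≤ K) (A : ℤ × ℤ) : Forces 3 K 4 ∅ {A} := by
  obtain ⟨a, ha⟩ : ∃ a : ℤ × ℤ, a = A + (1, 0) := ⟨_, rfl⟩
  have haA : a ≠ A := by
    rw [ha]
    intro h
    have := congrArg Prod.fst h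
    simp at this
  refine ⟨a, Finset.notMem_empty _, by simpa using haA, Or.inr fun B hB hB' =>
    ⟨not_ws_of_card (lt_of_le_of_lt (card_two_le A B) (by omega)), ?_⟩⟩
  simp only [Finset.mem_insert, Finset.notMem_empty, or_false, Finset.mem_singleton] at hB hB'
  obtain ⟨b, hb, h1, h2⟩ := exb haA hB
  simp only [Finset.mem_insert, Finset.mem_singleton, not_or] at hb
  have hba0 : b - a ≠ 0 := sub_ne_zero.mpr hb.2.2
  refine ⟨b, by simpa using hb.2.2, by simp only [Finset.mem_insert, Finset.mem_singleton, not_or]; exact ⟨hb.2.1, hb.1⟩,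
    Or.inr fun C hC hC' => ⟨not_ws_of_card (lt_of_le_of_lt (card_three_le A B C) (by omega)), ?_⟩⟩
  simp only [Finset.mem_insert, Finset.notMem_empty, or_false, Finset.mem_singleton, not_or] at hC hC'
  by_cases hCl : cr (b - a) (C - a) = 0
  swap
  · refine finish_two le_rfl (X := a) (Y := b) (by simp) (by simp) hb.2.2 ?_
    intro e he
    simp only [Finset.mem_insert, Finset.mem_singleton] at he
    rcases he with rfl | rfl | rfl
    · exact hCl
    · exact h2
    · exact h1
  -- the third point
  obtain ⟨c, hc, hcl, hcX, hcoll⟩ : ∃ c : ℤ × ℤ, c ∉ ({A, B, C, a, b} : Finset (ℤ × ℤ)) ∧ cr (b - a) (c - a) ≠ 0 ∧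
      (∀ X ∈ ({A, B, C} : Finset (ℤ × ℤ)), cr (c - a) (X - a) ≠ 0 ∧ cr (c - b) (X - b) ≠ 0) ∧
      (cr (B - A) (C - A) = 0 → cr (B - A) (c - A) = 0) := by
    by_cases hABC : cr (B - A) (C - A) = 0
    · have hBA : B - A ≠ 0 := sub_ne_zero.mpr hB'
      have hCA : C - A ≠ 0 := sub_ne_zero.mpr hC'.2
      -- `a`, `b` are not on the line `A B`
      have hd : cr (b - a) (B - A) ≠ 0 := by
        intro h
        apply h1
        have h3 : cr (b - a) (C - A) = 0 := by
          by_contra h3
          -- `C - A` is parallel to `B - A`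
          have e1 : cr (b - a) (C - A) * (B - A).1 = 0 := by
            simp only [cr_simp, Prod.fst_sub, Prod.snd_sub] at *
            linear_combination (b.1 - a.1) * hABC + (C.1 - A.1) * h
          have e2 : cr (b - a) (C - A) * (B - A).2 = 0 := by
            simp only [cr_simp, Prod.fst_sub, Prod.snd_sub] at *
            linear_combination (b.2 - a.2) * hABC + (C.2 - A.2) * h
          exact hBA (Prod.ext ((mul_eq_zero.mp e1).resolve_left h3) ((mul_eq_zero.mp e2).resolve_left h3))
        simp only [cr_simp, Prod.fst_sub, Prod.snd_sub] at *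
        linarith
      have ev : ∀ᶠ t : ℤ in atTop, cr (b - a) (A - a) + t * cr (b - a) (B - A) ≠ 0 := ev_ne fun h => absurd h hd
      obtain ⟨t, h3, h4⟩ := ((ev_not_mem (inj_line hBA A) {A, B, C, a, b}).and ev).exists
      obtain ⟨c, hc⟩ : ∃ c, c = A + t • (B - A) := ⟨_, rfl⟩
      have hcAB : cr (B - A) (c - A) = 0 := by
        rw [hc]
        simp only [cr_simp, Prod.fst_add, Prod.snd_add, Prod.fst_sub, Prod.snd_sub, Prod.smul_fst, Prod.smul_snd, smul_eq_mul]
        ring
      have hcc : cr (b - a) (c - a) ≠ 0 := by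
        convert h4 using 1
        rw [hc]
        simp only [cr_simp, Prod.fst_add, Prod.snd_add, Prod.fst_sub, Prod.snd_sub, Prod.smul_fst, Prod.smul_snd, smul_eq_mul]
        ring
      rw [← hc] at h3
      simp only [Finset.mem_insert, Finset.mem_singleton, not_or] at h3
      refine ⟨c, by simp only [Finset.mem_insert, Finset.mem_singleton, not_or]; exact h3, hcc, ?_, fun _ => hcAB⟩
      -- a line through `c` and a point `x` off the line `A B`
      have off : ∀ x : ℤ × ℤ, cr (B - A) (x - A) ≠ 0 → ∀ X ∈ ({A, B, C} : Finset (ℤ × ℤ)), cr (c - x) (X - x) ≠ 0 := by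
        intro x hx X hX h
        have hXl : cr (B - A) (X - A) = 0 := by
          simp only [Finset.mem_insert, Finset.mem_singleton] at hX
          rcases hX with rfl | rfl | rfl
          · simp [cr]
          · exact cr_self _
          · exact hABC
        have hXc : X ≠ c := by
          simp only [Finset.mem_insert, Finset.mem_singleton] at hX
          rcases hX with rfl | rfl | rfl
          · exact Ne.symm h3.1
          · exact Ne.symm h3.2.1
          · exact Ne.symm h3.2.2.1
        have hd' : cr (B - A) (c - x) ≠ 0 := by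
          intro h'
          apply hx
          simp only [cr_simp, Prod.fst_sub, Prod.snd_sub] at *
          linarith
        apply hXc
        refine eq_of_lines hd' ?_ ?_
        · simp only [cr_simp, Prod.fst_sub, Prod.snd_sub] at *
          linarith
        · simp only [cr_simp, Prod.fst_sub, Prod.snd_sub] at *
          linarith
      have ha' : cr (B - A) (a - A) ≠ 0 := by
        intro h
        -- then `a` is the common point `C` of the lines `a b` and `A B`
        apply hC.2
        refine eq_of_lines hd ?_ ?_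
        · exact hCl
        · simp only [cr_simp, Prod.fst_sub, Prod.snd_sub] at *
          linarith
      have hb' : cr (B - A) (b - A) ≠ 0 := by
        intro h
        apply hC.1
        refine eq_of_lines hd ?_ ?_
        · simp only [cr_simp, Prod.fst_sub, Prod.snd_sub] at *
          linarith
        · simp only [cr_simp, Prod.fst_sub, Prod.snd_sub] at *
          linarith
      exact fun X hX => ⟨off a ha' X hX, off b hb' X hX⟩
    · obtain ⟨t, k1, k2, k3, k4, k5, k6, k7, k8⟩ :=
        ((ev_fresh 0 {A, B, C, a, b}).and ((ev_off hba0 a 0).and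
          ((ev_off' (Ne.symm haA) 0).and ((ev_off' hB 0).and ((ev_off' hC.2 0).and
          ((ev_off' (Ne.symm hb.1) 0).and ((ev_off' (Ne.symm hb.2.1) 0).and (ev_off' hC.1 0)))))))).exists
      refine ⟨pt 0 t, k1, k2, ?_, fun h => absurd h hABC⟩
      intro X hX
      simp only [Finset.mem_insert, Finset.mem_singleton] at hX
      rcases hX with rfl | rfl | rfl
      · exact ⟨k3, k6⟩
      · exact ⟨k4, k7⟩
      · exact ⟨k5, k8⟩
  simp only [Finset.mem_insert, Finset.mem_singleton, not_or] at hc
  refine ⟨c, by simp only [Finset.mem_insert, Finset.notMem_empty, or_false, not_or]; exact ⟨hc.2.2.2.2, hc.2.2.2.1⟩,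
    by simp only [Finset.mem_insert, Finset.mem_singleton, not_or]; exact ⟨hc.2.2.1, hc.2.1, hc.1⟩,
    Or.inr fun D hD hD' => ⟨?_, ?_⟩⟩
  · rintro ⟨α, β, γ, h0, hcard, hno⟩
    have q1 := card_insert_le α β γ (insert C (insert B ({A} : Finset (ℤ × ℤ)))) D
    have q2 := card_insert_le α β γ (insert B ({A} : Finset (ℤ × ℤ))) C
    have q3 := card_insert_le α β γ ({A} : Finset (ℤ × ℤ)) B
    have q4 := card_insert_le α β γ (∅ : Finset (ℤ × ℤ)) A
    have q5 := card_filter_empty α β γ
    rw [show insert A (∅ : Finset (ℤ × ℤ)) = {A} from rfl] at q4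
    by_cases hA2 : α * A.1 + β * A.2 = γ
    · by_cases hB2 : α * B.1 + β * B.2 = γ
      · by_cases hC2 : α * C.1 + β * C.2 = γ
        · have h3 : cr (B - A) (c - A) = 0 := hcoll (cr_of_on h0 hA2 hB2 hC2)
          exact hno c (by simp) (on_of_cr hB' hA2 hB2 h3)
        · rw [if_neg hC2] at q2
          split_ifs at q1 q3 q4 <;> omega
      · rw [if_neg hB2] at q3
        split_ifs at q1 q2 q4 <;> omega
    · rw [if_neg hA2] at q4
      split_ifs at q1 q2 q3 <;> omega
  simp only [Finset.mem_insert, Finset.notMem_empty, or_false, Finset.mem_singleton, not_or] at hD hD'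
  by_cases hDa : cr (c - a) (D - a) = 0
  · refine finish_two le_rfl (X := b) (Y := c) (by simp) (by simp) hc.2.2.2.2 ?_
    intro e he
    simp only [Finset.mem_insert, Finset.mem_singleton] at he
    rcases he with rfl | rfl | rfl | rfl
    · intro h
      have hd : cr (c - a) (c - b) ≠ 0 := by
        intro h'
        apply hcl
        simp only [cr_simp, Prod.fst_sub, Prod.snd_sub] at *
        linarith
      apply hD.1
      refine eq_of_lines hd ?_ ?_
      · simp only [cr_simp, Prod.fst_sub, Prod.snd_sub] at *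
        linarith
      · simp only [cr_simp, Prod.fst_sub, Prod.snd_sub] at *
        linarith
    · exact (hcX _ (by simp)).2
    · exact (hcX _ (by simp)).2
    · exact (hcX _ (by simp)).2
  · refine finish_two le_rfl (X := a) (Y := c) (by simp) (by simp) hc.2.2.2.1 ?_
    intro e he
    simp only [Finset.mem_insert, Finset.mem_singleton] at he
    rcases he with rfl | rfl | rfl | rfl
    · exact hDa
    · exact (hcX _ (by simp)).1
    · exact (hcX _ (by simp)).1
    · exact (hcX _ (by simp)).1

/-- all games with a target of at most four points, except (4, 4) -/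
theorem all_games (k l : ℕ) (hk : 1 ≤ k) (hl : 1 ≤ l) (hkl : min k l ≤ 4) (h44 : ¬ (k = 4 ∧ l = 4)) :
    (k ≤ l → Wins k l 0) ∧ (l < k → Wins l k 1) := by
  constructor
  · intro h
    have h4 : k ≤ 4 := by
      rw [min_eq_left h] at hkl
      exact hkl
    interval_cases k
    · exact wins_first (by norm_num) first_one
    · exact wins_first (by norm_num) (first_two h)
    · exact wins_first (by norm_num) (first_three h)
    · exact wins_first le_rfl (first_four (by omega))
  · intro h
    have h4 : l ≤ 4 := by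
      rw [min_eq_right h.le] at hkl
      exact hkl
    refine wins_second (m := if l = 1 then 1 else if l = 2 then 2 else if l = 3 then 4 else 8) (by split_ifs <;> norm_num)
      fun A => ⟨not_ws_of_card ?_, ?_⟩
    · rw [Finset.card_singleton]
      omega
    interval_cases l
    · exact second_one A
    · exact second_two (by omega) A
    · exact second_three (by omega) A
    · exact second_four (by omega) A

end Pool.Agent.H88.KA
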